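import Pool.Agent.Lib.MP_b07157_agL3.Defs
import Pool.Agent.Lib.MP_b07157_ag.NewtRootLoc
import Pool.Agent.Lib.MP_b07157_agQ.QHom

/-!
# Restriction to `x_0 = 1`
-/

noncomputable section

namespace MPb07157.TL

open MvPolynomial

namespace DH

theorem resP_X0 : resP 0 0 (X 0) = 1 := by
  unfold resP
  rw [aeval_X]
  have h1 : rv 0 0 0 = 1 := by
    show (1 + C (0 : ℂ) * X 0 + C (0 : ℂ) * X 1 : MvPolynomial (Fin 2) ℂ) = 1
    rw [C_0, zero_mul, zero_mul, add_zero, add_zero]
  rw [h1]
  exact map_one _

theorem resP_X1 : resP 0 0 (X 1) = X 0 := by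
  unfold resP
  rw [aeval_X]
  exact map_X _ _

theorem resP_X2 : resP 0 0 (X 2) = X 1 := by
  unfold resP
  rw [aeval_X]
  exact map_X _ _

theorem resP_C (a : Polynomial ℂ) : resP 0 0 (C a) = C a := by
  unfold resP
  exact aeval_C _ _

theorem resP_liftS (lam mu : ℂ) (q : MvPolynomial (Fin 3) ℂ) :
    resP lam mu (liftS q) = liftS (res lam mu q) := by
  unfold resP res liftS
  rw [aeval_def, aeval_def, eval₂_map, ← coe_eval₂Hom, ← coe_eval₂Hom, ← RingHom.comp_apply]
  congr 1
  apply MvPolynomial.ringHom_ext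
  · intro a
    simp [algebraMap_eq]
  · intro i
    simp

theorem liftS_pd {n : ℕ} (f : MvPolynomial (Fin n) ℂ) (i : Fin n) :
    liftS (pderiv i f) = pderiv i (liftS f) := (pderiv_map).symm

/-- Restriction and the derivatives `∂_1`, `∂_2`. -/
theorem resP_pderiv (q : MvPolynomial (Fin 3) (Polynomial ℂ)) :
    resP 0 0 (pderiv 1 q) = pderiv 0 (resP 0 0 q) ∧
      resP 0 0 (pderiv 2 q) = pderiv 1 (resP 0 0 q) := by
  induction q using MvPolynomial.induction_on with
  | C a =>
    rw [pderiv_C, pderiv_C, resP_C, pderiv_C, pderiv_C, map_zero]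
    exact ⟨rfl, rfl⟩
  | add p q hp hq =>
    constructor
    · rw [map_add, map_add, hp.1, hq.1, map_add, map_add]
    · rw [map_add, map_add, hp.2, hq.2, map_add, map_add]
  | mul_X p i hp =>
    fin_cases i
    · constructor
      · show resP 0 0 (pderiv 1 (p * X 0)) = pderiv 0 (resP 0 0 (p * X 0))
        rw [pderiv_mul, pderiv_X_of_ne (by decide), mul_zero, add_zero, map_mul (resP 0 0),
          map_mul (resP 0 0), resP_X0, mul_one, mul_one, hp.1]
      · show resP 0 0 (pderiv 2 (p * X 0)) = pderiv 1 (resP 0 0 (p * X 0))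
        rw [pderiv_mul, pderiv_X_of_ne (by decide), mul_zero, add_zero, map_mul (resP 0 0),
          map_mul (resP 0 0), resP_X0, mul_one, mul_one, hp.2]
    · constructor
      · show resP 0 0 (pderiv 1 (p * X 1)) = pderiv 0 (resP 0 0 (p * X 1))
        rw [pderiv_mul, pderiv_X_self, mul_one, map_add, map_mul (resP 0 0),
          map_mul (resP 0 0), resP_X1, pderiv_mul, pderiv_X_self, mul_one, hp.1]
      · show resP 0 0 (pderiv 2 (p * X 1)) = pderiv 1 (resP 0 0 (p * X 1))
        rw [pderiv_mul, pderiv_X_of_ne (by decide), mul_zero, add_zero, map_mul (resP 0 0),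
          map_mul (resP 0 0), resP_X1, pderiv_mul, pderiv_X_of_ne (by decide), mul_zero, add_zero,
          hp.2]
    · constructor
      · show resP 0 0 (pderiv 1 (p * X 2)) = pderiv 0 (resP 0 0 (p * X 2))
        rw [pderiv_mul, pderiv_X_of_ne (by decide), mul_zero, add_zero, map_mul (resP 0 0),
          map_mul (resP 0 0), resP_X2, pderiv_mul, pderiv_X_of_ne (by decide), mul_zero, add_zero,
          hp.1]
      · show resP 0 0 (pderiv 2 (p * X 2)) = pderiv 1 (resP 0 0 (p * X 2))
        rw [pderiv_mul, pderiv_X_self, mul_one, map_add, map_mul (resP 0 0),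
          map_mul (resP 0 0), resP_X2, pderiv_mul, pderiv_X_self, mul_one, hp.2]

/-- Euler's formula on `x_0 = 1`. -/
theorem resP_euler {q : MvPolynomial (Fin 3) (Polynomial ℂ)} {l : ℕ} (hq : q.IsHomogeneous l) :
    resP 0 0 (pderiv 0 q) = C (l : Polynomial ℂ) * resP 0 0 q - X 0 * pderiv 0 (resP 0 0 q) -
      X 1 * pderiv 1 (resP 0 0 q) := by
  have h1 := congrArg (resP 0 0) hq.sum_X_mul_pderiv
  rw [Fin.sum_univ_three, map_add, map_add, map_mul, map_mul, map_mul, resP_X0, resP_X1, resP_X2,
    (resP_pderiv q).1, (resP_pderiv q).2, map_nsmul, nsmul_eq_mul] at h1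
  rw [map_natCast]
  linear_combination h1

/-- One derivative. -/
theorem step {f : MvPolynomial (Fin 3) ℂ} {d : ℕ} (hf : f.IsHomogeneous d) {k : ℕ}
    {q : MvPolynomial (Fin 3) (Polynomial ℂ)} {l : ℕ} (hq : q.IsHomogeneous l)
    (h : InDn (res 0 0 f) k (resP 0 0 q)) (i : Fin 3) :
    InDn (res 0 0 f) (k + 1) (resP 0 0 (liftS f * pderiv i q +
      C (Polynomial.X + 1 - (k : Polynomial ℂ)) * liftS (pderiv i f) * q)) := by
  have hL := liftS_isHomogeneous hf
  have e0 := h.deriv 0
  have e1 := h.deriv 1
  have e2 := h.raise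
  rw [liftS_pd, ← resP_liftS] at e0 e1
  rw [← resP_liftS] at e2
  rw [map_add, map_mul, map_mul, map_mul, resP_C, liftS_pd]
  fin_cases i
  · have h1 := (e2.mul (C ((l : Polynomial ℂ) + (Polynomial.X + 1 - (k : Polynomial ℂ)) *
      (d : Polynomial ℂ)))).add ((e0.mul (-X 0)).add (e1.mul (-X 1)))
    have h2 : C ((l : Polynomial ℂ) + (Polynomial.X + 1 - (k : Polynomial ℂ)) *
        (d : Polynomial ℂ)) * (resP 0 0 (liftS f) * resP 0 0 q) +
        (-X 0 * (resP 0 0 (liftS f) * pderiv 0 (resP 0 0 q) +
          C (Polynomial.X + 1 - (k : Polynomial ℂ)) * pderiv 0 (resP 0 0 (liftS f)) *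
            resP 0 0 q) +
        -X 1 * (resP 0 0 (liftS f) * pderiv 1 (resP 0 0 q) +
          C (Polynomial.X + 1 - (k : Polynomial ℂ)) * pderiv 1 (resP 0 0 (liftS f)) *
            resP 0 0 q)) =
        resP 0 0 (liftS f) * resP 0 0 (pderiv 0 q) +
          C (Polynomial.X + 1 - (k : Polynomial ℂ)) * resP 0 0 (pderiv 0 (liftS f)) *
            resP 0 0 q := by
      rw [resP_euler hq, resP_euler hL]
      simp only [C_add, C_mul]
      ring
    rw [h2] at h1
    exact h1
  · show InDn (res 0 0 f) (k + 1) (resP 0 0 (liftS f) * resP 0 0 (pderiv 1 q) +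
      C (Polynomial.X + 1 - (k : Polynomial ℂ)) * resP 0 0 (pderiv 1 (liftS f)) * resP 0 0 q)
    rw [(resP_pderiv q).1, (resP_pderiv (liftS f)).1]
    exact e0
  · show InDn (res 0 0 f) (k + 1) (resP 0 0 (liftS f) * resP 0 0 (pderiv 2 q) +
      C (Polynomial.X + 1 - (k : Polynomial ℂ)) * resP 0 0 (pderiv 2 (liftS f)) * resP 0 0 q)
    rw [(resP_pderiv q).2, (resP_pderiv (liftS f)).2]
    exact e1

end DH

open DH in
/-- Restriction of the homogeneous components of the elements of `D[s] f^(s+1)`, `f` homogeneous,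
to `x_0 = 1`. -/
theorem dehomog {f : MvPolynomial (Fin 3) ℂ} {d : ℕ} (hf : f.IsHomogeneous d) {k : ℕ}
    {g : MvPolynomial (Fin 3) (Polynomial ℂ)} (h : InDn f k g) (δ : ℕ) :
    InDn (res 0 0 f) k (resP 0 0 (homogeneousComponent δ g)) := by
  classical
  induction h generalizing δ with
  | base =>
    rw [homogeneousComponent_of_mem (isHomogeneous_one (Fin 3) (Polynomial ℂ))]
    split_ifs
    · rw [map_one]
      exact InDn.base
    · rw [map_zero]
      exact InDn.exists_zero _ 0
  | add _ _ ih1 ih2 =>
    rw [map_add, map_add]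
    exact (ih1 δ).add (ih2 δ)
  | @mul k g c _ ih =>
    have e1 : homogeneousComponent δ (c * g) = ∑ i ∈ Finset.range (c.totalDegree + 1),
        homogeneousComponent δ (homogeneousComponent i c * g) := by
      conv_lhs => rw [← sum_homogeneousComponent c, Finset.sum_mul, map_sum]
    rw [e1, map_sum]
    refine InDn.sum _ fun i _ => ?_
    have hc := homogeneousComponent_isHomogeneous i c
    rcases lt_or_ge δ i with h1 | h1
    · rw [homogeneousComponent_mul_left_lt hc h1, map_zero]
      exact InDn.exists_zero _ k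
    · obtain ⟨l, rfl⟩ := Nat.exists_eq_add_of_le h1
      rw [homogeneousComponent_mul_left hc, map_mul]
      exact (ih l).mul _
  | @deriv k g i _ ih =>
    have hL := liftS_isHomogeneous hf
    have hL' : (liftS (pderiv i f)).IsHomogeneous (d - 1) := liftS_isHomogeneous hf.pderiv
    have hC : (MvPolynomial.C (Polynomial.X + 1 - (k : Polynomial ℂ)) *
        liftS (pderiv i f)).IsHomogeneous (d - 1) := by
      have := (isHomogeneous_C (Fin 3) (Polynomial.X + 1 - (k : Polynomial ℂ))).mul hL'
      rwa [zero_add] at this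
    have key : ∀ l, InDn (res 0 0 f) (k + 1) (resP 0 0 (liftS f *
        pderiv i (homogeneousComponent l g) +
        C (Polynomial.X + 1 - (k : Polynomial ℂ)) * liftS (pderiv i f) *
          homogeneousComponent l g)) :=
      fun l => step hf (homogeneousComponent_isHomogeneous l g) (ih l) i
    rw [map_add (homogeneousComponent δ)]
    rcases Nat.eq_zero_or_pos d with hd | hd
    · subst hd
      have h1 : pderiv i f = 0 := by
        rw [← totalDegree_zero_iff_isHomogeneous, totalDegree_eq_zero_iff_eq_C] at hf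
        rw [hf, pderiv_C]
      have h2 := key (δ + 1)
      rw [h1] at h2 ⊢
      have h3 : liftS (0 : MvPolynomial (Fin 3) ℂ) = 0 := map_zero _
      rw [h3, mul_zero, zero_mul, add_zero] at h2
      rw [h3, mul_zero, zero_mul, map_zero, add_zero, ← Nat.zero_add δ,
        homogeneousComponent_mul_left hL, homogeneousComponent_pderiv]
      exact h2
    · rcases lt_or_ge δ (d - 1) with h1 | h1
      · rw [homogeneousComponent_mul_left_lt hL (by omega),
          homogeneousComponent_mul_left_lt hC h1, add_zero, map_zero]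
        exact InDn.exists_zero _ _
      · obtain ⟨l, rfl⟩ := Nat.exists_eq_add_of_le h1
        rw [homogeneousComponent_mul_left hC]
        have h2 := key l
        have h3 : MvPolynomial.homogeneousComponent (d - 1 + l) (liftS f * pderiv i g) =
            liftS f * pderiv i (MvPolynomial.homogeneousComponent l g) := by
          rcases Nat.eq_zero_or_pos l with h4 | h4
          · subst h4
            rw [homogeneousComponent_mul_left_lt hL (by omega)]
            have h5 := homogeneousComponent_isHomogeneous 0 g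
            rw [← totalDegree_zero_iff_isHomogeneous, totalDegree_eq_zero_iff_eq_C] at h5
            rw [h5, pderiv_C, mul_zero]
          · obtain ⟨l', rfl⟩ := Nat.exists_eq_add_of_lt h4
            have h5 : d - 1 + (0 + l' + 1) = d + l' := by omega
            rw [h5, homogeneousComponent_mul_left hL, homogeneousComponent_pderiv, Nat.zero_add]
        rw [h3]
        exact h2
  | @raise k g _ ih =>
    have hL := liftS_isHomogeneous hf
    rcases lt_or_ge δ d with h1 | h1
    · rw [homogeneousComponent_mul_left_lt hL h1, map_zero]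
      exact InDn.exists_zero _ _
    · obtain ⟨l, rfl⟩ := Nat.exists_eq_add_of_le h1
      rw [homogeneousComponent_mul_left hL, map_mul, resP_liftS]
      exact (ih l).raise
  | @lower k g _ ih =>
    apply InDn.lower
    rw [← resP_liftS, ← map_mul, ← homogeneousComponent_mul_left (liftS_isHomogeneous hf)]
    exact ih _

end MPb07157.TL
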