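import Pool.Agent.Lib.MP_b07157_agL3.F1
import Pool.Agent.Lib.MP_b07157_agL3.F2
import Pool.Agent.Lib.MP_b07157_agS.SE

/-!
# The identity on `P^2`
-/

noncomputable section

namespace MPb07157.TL

open MvPolynomial

namespace F3aux

/-! ### The automorphism `x_0 ↦ x_0 + lam x_1 + mu x_2` -/

/-- The substitution `x_0 ↦ x_0 + a x_1 + c x_2`. -/
def shv (a c : ℂ) : Fin 3 → MvPolynomial (Fin 3) ℂ :=
  ![X 0 + C a * X 1 + C c * X 2, X 1, X 2]

theorem shv_comp (a c : ℂ) :
    (aeval (shv a c)).comp (aeval (shv (-a) (-c))) = AlgHom.id ℂ (MvPolynomial (Fin 3) ℂ) := by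
  apply MvPolynomial.algHom_ext
  intro i
  rw [AlgHom.comp_apply, aeval_X, AlgHom.id_apply]
  fin_cases i
  · simp only [shv, Fin.zero_eta, Matrix.cons_val_zero, map_add, map_mul, aeval_X, aeval_C,
      Matrix.cons_val_one, Matrix.cons_val_two, Matrix.tail_cons, Matrix.head_cons, map_neg,
      algebraMap_eq, Fin.isValue]
    ring
  · simp [shv]
  · simp [shv]

/-- The automorphism `x_0 ↦ x_0 + a x_1 + c x_2`. -/
def sh (a c : ℂ) : MvPolynomial (Fin 3) ℂ ≃ₐ[ℂ] MvPolynomial (Fin 3) ℂ :=
  AlgEquiv.ofAlgHom (aeval (shv a c)) (aeval (shv (-a) (-c))) (shv_comp a c) (by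
    have h := shv_comp (-a) (-c)
    rwa [neg_neg, neg_neg] at h)

theorem sh_apply (a c : ℂ) (g : MvPolynomial (Fin 3) ℂ) : sh a c g = aeval (shv a c) g := rfl

theorem shv_hom (a c : ℂ) (i : Fin 3) : (shv a c i).IsHomogeneous 1 := by
  fin_cases i
  · have h1 : (C a * X 1 : MvPolynomial (Fin 3) ℂ).IsHomogeneous 1 := by
      have := (isHomogeneous_C (Fin 3) a).mul (isHomogeneous_X ℂ (1 : Fin 3))
      rwa [zero_add] at this
    have h2 : (C c * X 2 : MvPolynomial (Fin 3) ℂ).IsHomogeneous 1 := by
      have := (isHomogeneous_C (Fin 3) c).mul (isHomogeneous_X ℂ (2 : Fin 3))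
      rwa [zero_add] at this
    exact ((isHomogeneous_X ℂ (0 : Fin 3)).add h1).add h2
  · exact isHomogeneous_X ℂ (1 : Fin 3)
  · exact isHomogeneous_X ℂ (2 : Fin 3)

theorem sh_hom {f : MvPolynomial (Fin 3) ℂ} {d : ℕ} (hf : f.IsHomogeneous d) (a c : ℂ) :
    (sh a c f).IsHomogeneous d := by
  rw [sh_apply]
  have := hf.aeval (shv a c) (shv_hom a c)
  rwa [one_mul] at this

theorem res_sh (a c : ℂ) (g : MvPolynomial (Fin 3) ℂ) : res 0 0 (sh a c g) = res a c g := by
  have h : (res 0 0).comp (sh a c : MvPolynomial (Fin 3) ℂ →ₐ[ℂ] MvPolynomial (Fin 3) ℂ) =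
      res a c := by
    apply MvPolynomial.algHom_ext
    intro i
    rw [AlgHom.comp_apply]
    have h0 : (sh a c : MvPolynomial (Fin 3) ℂ →ₐ[ℂ] MvPolynomial (Fin 3) ℂ) (X i) =
        shv a c i := by
      change sh a c (X i) = _
      rw [sh_apply, aeval_X]
    rw [h0]
    unfold res
    rw [aeval_X]
    fin_cases i
    · simp [shv, rv]
    · simp [shv, rv]
    · simp [shv, rv]
  exact congrArg (fun φ : MvPolynomial (Fin 3) ℂ →ₐ[ℂ] MvPolynomial (Fin 2) ℂ => φ g) h

theorem resP_lift (a c : ℂ) (g : MvPolynomial (Fin 3) ℂ) :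
    resP a c (liftS g) = liftS (res a c g) := by
  induction g using MvPolynomial.induction_on with
  | C r =>
    have h : res a c (C r) = C r := by
      unfold res
      rw [aeval_C]
      rfl
    rw [h]
    unfold liftS resP
    rw [map_C, map_C, aeval_C]
    rfl
  | add p q hp hq =>
    have h1 : liftS (p + q) = liftS p + liftS q := by
      unfold liftS
      rw [map_add]
    rw [h1, map_add, hp, hq, map_add]
    unfold liftS
    rw [map_add]
  | mul_X p i hp =>
    have h1 : liftS (p * X i) = liftS p * X i := by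
      unfold liftS
      rw [map_mul, map_X]
    rw [h1, map_mul, hp, map_mul]
    have h2 : resP a c (X i) = liftS (res a c (X i)) := by
      unfold resP res
      rw [aeval_X, aeval_X]
    rw [h2]
    unfold liftS
    rw [map_mul]

theorem resP_extS (a c : ℂ) (g : MvPolynomial (Fin 3) (Polynomial ℂ)) :
    resP 0 0 (extS (sh a c) g) = resP a c g := by
  have h : (resP 0 0).comp (extS (sh a c)) = resP a c := by
    apply MvPolynomial.algHom_ext
    intro i
    rw [AlgHom.comp_apply]
    have h0 : extS (sh a c) (X i : MvPolynomial (Fin 3) (Polynomial ℂ)) =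
        liftS (sh a c (X i)) := by
      unfold extS
      rw [aeval_X]
    rw [h0, resP_lift, res_sh, ← resP_lift]
    congr 1
    unfold liftS
    rw [map_X]
  exact congrArg (fun φ : MvPolynomial (Fin 3) (Polynomial ℂ) →ₐ[Polynomial ℂ]
    MvPolynomial (Fin 2) (Polynomial ℂ) => φ g) h

/-- A substitution by homogeneous polynomials of degree one commutes with the homogeneous
components. -/
theorem homogeneousComponent_extS (a c : ℂ) (δ : ℕ) (g : MvPolynomial (Fin 3) (Polynomial ℂ)) :
    homogeneousComponent δ (extS (sh a c) g) = extS (sh a c) (homogeneousComponent δ g) := by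
  have hh : ∀ (k : ℕ) (x : MvPolynomial (Fin 3) (Polynomial ℂ)), x.IsHomogeneous k →
      (extS (sh a c) x).IsHomogeneous k := by
    intro k x hx
    unfold extS
    have h1 : ∀ i, (liftS (sh a c (X i))).IsHomogeneous 1 := fun i =>
      liftS_isHomogeneous (sh_hom (isHomogeneous_X ℂ i) a c)
    have := hx.aeval (fun i => liftS (sh a c (X i))) h1
    rwa [one_mul] at this
  conv_lhs => rw [← sum_homogeneousComponent g, map_sum, map_sum]
  have h1 : ∀ i ∈ Finset.range (g.totalDegree + 1),
      homogeneousComponent δ (extS (sh a c) (homogeneousComponent i g)) =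
        if i = δ then extS (sh a c) (homogeneousComponent δ g) else 0 := by
    intro i _
    rw [homogeneousComponent_of_mem (hh i _ (homogeneousComponent_isHomogeneous i g))]
    by_cases h : i = δ
    · subst h
      simp
    · rw [if_neg (fun h' => h h'.symm), if_neg h]
  rw [Finset.sum_congr rfl h1, Finset.sum_ite_eq' (Finset.range (g.totalDegree + 1)) δ]
  split_ifs with h
  · rfl
  · rw [homogeneousComponent_eq_zero _ _ (by
      rw [Finset.mem_range] at h
      omega), map_zero]

/-- The chart property. -/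
theorem chart {f : MvPolynomial (Fin 3) ℂ} {d : ℕ} (hf : f.IsHomogeneous d) {K : ℕ}
    {u : Fin 3 → MvPolynomial (Fin 3) (Polynomial ℂ)} (hu : ∀ i, InDn f (1 + K) (u i))
    (δ : ℕ) (lam mu : ℂ) : ∃ (j : ℕ) (p : MvPolynomial (Fin 2) (Polynomial ℂ))
    (v : Fin 2 → MvPolynomial (Fin 2) (Polynomial ℂ)),
    resP lam mu (homogeneousComponent δ (u 0) -
          C (Polynomial.C lam) * homogeneousComponent δ (u 1) -
          C (Polynomial.C mu) * homogeneousComponent δ (u 2)) *
        liftS (res lam mu f) ^ (j + 1) =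
      p * liftS (res lam mu f) ^ (K + j + 2) + ∑ i, (liftS (res lam mu f) * pderiv i (v i) +
        C (Polynomial.X - ((K + j : ℕ) : Polynomial ℂ)) * liftS (pderiv i (res lam mu f)) *
          v i) := by
  have hG : InDn f (1 + K) (u 0 + C (-Polynomial.C lam) * u 1 + C (-Polynomial.C mu) * u 2) :=
    ((hu 0).add ((hu 1).mul _)).add ((hu 2).mul _)
  have h1 := dehomog (sh_hom hf lam mu) (InDn.equiv (sh lam mu) hG) δ
  rw [res_sh, homogeneousComponent_extS, resP_extS] at h1
  obtain ⟨j, p, v, -, h2⟩ := div_form h1 1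
  refine ⟨j, p, v, ?_⟩
  have e1 : homogeneousComponent δ
      (u 0 + C (-Polynomial.C lam) * u 1 + C (-Polynomial.C mu) * u 2) =
      homogeneousComponent δ (u 0) -
          C (Polynomial.C lam) * homogeneousComponent δ (u 1) -
          C (Polynomial.C mu) * homogeneousComponent δ (u 2) := by
    rw [map_add, map_add, homogeneousComponent_C_mul, homogeneousComponent_C_mul, map_neg, map_neg]
    ring
  rw [e1, one_mul] at h2
  rw [h2]
  have e2 : (Polynomial.X + 1 - ((1 + K + j : ℕ) : Polynomial ℂ)) =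
      Polynomial.X - ((K + j : ℕ) : Polynomial ℂ) := by
    push_cast
    ring
  rw [e2, show 1 + K + j + 1 = K + j + 2 by ring]

end F3aux

open F3aux in
/-- The identity on `P^2` given by an element of the Bernstein–Sato ideal. -/
theorem exists_thet {f : MvPolynomial (Fin 3) ℂ} {d : ℕ} (hf : f.IsHomogeneous d)
    {b : Polynomial ℂ} (hb : IsBernsteinSato f b) : ∃ K θ, Thet f d b K θ := by
  rcases Nat.eq_zero_or_pos d with hd | hd
  · subst hd
    have hfc : ∃ a : ℂ, f = C a := by
      have h := hf
      rw [← totalDegree_zero_iff_isHomogeneous, totalDegree_eq_zero_iff_eq_C] at h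
      exact ⟨_, h⟩
    obtain ⟨a, rfl⟩ := hfc
    have hl : ∀ (n : ℕ) (x : ℂ), liftS (C x : MvPolynomial (Fin n) ℂ) = C (Polynomial.C x) := by
      intro n x
      unfold liftS
      rw [map_C]
    have hr : ∀ lam mu : ℂ, res lam mu (C a) = C a := by
      intro lam mu
      unfold res
      rw [aeval_C]
      rfl
    by_cases ha : a = 0
    · subst ha
      refine ⟨0, fun _ => 0, fun i => isHomogeneous_zero _ _ _, ?_, ?_⟩
      · simp [liftS]
      · intro lam mu
        refine ⟨0, 0, fun _ => 0, ?_⟩
        simp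
    · refine ⟨0, ![C b * X 0, 0, 0], ?_, ?_, ?_⟩
      · intro i
        rw [Nat.zero_mul, Nat.zero_add]
        fin_cases i
        · have := (isHomogeneous_C (Fin 3) b).mul (isHomogeneous_X (Polynomial ℂ) (0 : Fin 3))
          rwa [zero_add] at this
        · exact isHomogeneous_zero _ _ _
        · exact isHomogeneous_zero _ _ _
      · rw [Fin.sum_univ_three, hl]
        simp only [Matrix.cons_val_zero, Matrix.cons_val_one, Matrix.cons_val, Fin.isValue,
          pderiv_C, map_zero, mul_zero, add_zero, zero_add, pow_one]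
        have h0 : liftS (0 : MvPolynomial (Fin 3) ℂ) = 0 := map_zero _
        rw [h0, pderiv_C_mul, pderiv_X_self]
        simp only [mul_zero, zero_mul, add_zero]
        rw [mul_comm, mul_one]
      · intro lam mu
        refine ⟨0, resP lam mu (C b * X 0) * C (Polynomial.C a⁻¹), fun _ => 0, ?_⟩
        rw [hr, hl]
        simp only [Matrix.cons_val_zero, Matrix.cons_val_one, Matrix.cons_val, Fin.isValue,
          mul_zero, map_zero, sub_zero, add_zero, Finset.sum_const_zero]
        have e : (C (Polynomial.C a⁻¹) * C (Polynomial.C a) :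
            MvPolynomial (Fin 2) (Polynomial ℂ)) = 1 := by
          rw [← C_mul, ← Polynomial.C_mul, inv_mul_cancel₀ ha, Polynomial.C_1, C_1]
        calc resP lam mu (C b * X 0) * C (Polynomial.C a) ^ (0 + 1)
            = resP lam mu (C b * X 0) * 1 * C (Polynomial.C a) := by ring
          _ = resP lam mu (C b * X 0) * (C (Polynomial.C a⁻¹) * C (Polynomial.C a)) *
              C (Polynomial.C a) := by rw [e]
          _ = _ := by ring
  · obtain ⟨K, p, u, hu, h⟩ := div_form hb 1
    refine ⟨K, fun i => homogeneousComponent (d * K + 1) (u i), fun i =>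
      homogeneousComponent_isHomogeneous _ _, ?_, fun lam mu => chart hf hu _ lam mu⟩
    have hF : (liftS f).IsHomogeneous d := liftS_isHomogeneous hf
    have h1 := congrArg (homogeneousComponent (d * (K + 1))) h
    have e1 : (1 * C b * liftS f ^ (K + 1)).IsHomogeneous (d * (K + 1)) := by
      have := (isHomogeneous_C (Fin 3) b).mul (hF.pow (K + 1))
      rwa [zero_add, ← one_mul (C b)] at this
    rw [homogeneousComponent_of_mem e1, if_pos rfl, map_add, map_sum, mul_comm p,
      homogeneousComponent_mul_left_lt (hF.pow (1 + K + 1)) (by nlinarith), zero_add,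
      one_mul] at h1
    rw [h1]
    refine Finset.sum_congr rfl fun i _ => ?_
    have e2 : (Polynomial.X + 1 - ((1 + K : ℕ) : Polynomial ℂ)) =
        Polynomial.X - (K : Polynomial ℂ) := by
      push_cast
      ring
    have e3 : (C (Polynomial.X - (K : Polynomial ℂ)) *
        liftS (pderiv i f)).IsHomogeneous (d - 1) := by
      have := (isHomogeneous_C (Fin 3) (Polynomial.X - (K : Polynomial ℂ))).mul
        (liftS_isHomogeneous hf.pderiv : (liftS (pderiv i f)).IsHomogeneous (d - 1))
      rwa [zero_add] at this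
    rw [e2, map_add]
    congr 1
    · rw [show d * (K + 1) = d + d * K by ring, homogeneousComponent_mul_left hF,
        homogeneousComponent_pderiv]
    · rw [show d * (K + 1) = (d - 1) + (d * K + 1) by
        obtain ⟨e, rfl⟩ := Nat.exists_eq_add_of_lt hd
        simp only [zero_add, Nat.add_sub_cancel]
        ring, homogeneousComponent_mul_left e3]

/-- Exchange of `x_1` and `x_2`. -/
def sw {R : Type} [CommSemiring R] : MvPolynomial (Fin 3) R →ₐ[R] MvPolynomial (Fin 3) R :=
  rename (Equiv.swap 1 2)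

namespace F3aux

theorem liftS_rename {m n : ℕ} (σ : Fin m → Fin n) (g : MvPolynomial (Fin m) ℂ) :
    liftS (rename σ g) = rename σ (liftS g) := by
  unfold liftS
  rw [map_rename]

theorem res_sw (lam mu : ℂ) (g : MvPolynomial (Fin 3) ℂ) :
    res lam mu (sw g) = rename (Equiv.swap 0 1) (res mu lam g) := by
  have h : (res lam mu).comp sw = (rename (Equiv.swap 0 1)).comp (res mu lam) := by
    apply MvPolynomial.algHom_ext
    intro i
    rw [AlgHom.comp_apply, AlgHom.comp_apply]
    unfold sw res
    rw [rename_X, aeval_X, aeval_X]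
    fin_cases i
    · have h1 : (Equiv.swap (1 : Fin 3) 2) ((fun i => i) ⟨0, by decide⟩) = 0 := by decide
      rw [h1]
      simp only [rv, Matrix.cons_val_zero, Fin.isValue, map_add, map_mul, map_one, rename_C,
        rename_X, Equiv.swap_apply_left, Equiv.swap_apply_right, Fin.zero_eta]
      ring
    · have h1 : (Equiv.swap (1 : Fin 3) 2) ((fun i => i) ⟨1, by decide⟩) = 2 := by decide
      rw [h1]
      simp [rv]
    · have h1 : (Equiv.swap (1 : Fin 3) 2) ((fun i => i) ⟨2, by decide⟩) = 1 := by decide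
      rw [h1]
      simp [rv]
  exact congrArg (fun φ : MvPolynomial (Fin 3) ℂ →ₐ[ℂ] MvPolynomial (Fin 2) ℂ => φ g) h

theorem resP_sw (lam mu : ℂ) (g : MvPolynomial (Fin 3) (Polynomial ℂ)) :
    resP lam mu (sw g) = rename (Equiv.swap 0 1) (resP mu lam g) := by
  have h : (resP lam mu).comp sw = (rename (Equiv.swap 0 1)).comp (resP mu lam) := by
    apply MvPolynomial.algHom_ext
    intro i
    rw [AlgHom.comp_apply, AlgHom.comp_apply]
    have h1 : (X i : MvPolynomial (Fin 3) (Polynomial ℂ)) = liftS (X i) := by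
      unfold liftS
      rw [map_X]
    have h2 : sw (X i : MvPolynomial (Fin 3) (Polynomial ℂ)) =
        liftS (sw (X i : MvPolynomial (Fin 3) ℂ)) := by
      unfold sw
      rw [rename_X, rename_X]
      unfold liftS
      rw [map_X]
    rw [h2, resP_lift, res_sw, liftS_rename, ← resP_lift, ← h1]
  exact congrArg (fun φ : MvPolynomial (Fin 3) (Polynomial ℂ) →ₐ[Polynomial ℂ]
    MvPolynomial (Fin 2) (Polynomial ℂ) => φ g) h

/-- Transport of a divergence by a permutation of the variables. -/
theorem sum_swap {n : ℕ} (σ : Equiv.Perm (Fin n)) (hσ : ∀ i, σ (σ i) = i)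
    (f : MvPolynomial (Fin n) ℂ) (c : Polynomial ℂ)
    (u : Fin n → MvPolynomial (Fin n) (Polynomial ℂ)) :
    rename σ (∑ i, (liftS f * pderiv i (u i) + C c * liftS (pderiv i f) * u i)) =
      ∑ i, (liftS (rename σ f) * pderiv i (rename σ (u (σ i))) +
        C c * liftS (pderiv i (rename σ f)) * rename σ (u (σ i))) := by
  rw [map_sum, ← Equiv.sum_comp σ]
  refine Finset.sum_congr rfl fun i _ => ?_
  have h1 : ∀ (R : Type) [CommSemiring R] (g : MvPolynomial (Fin n) R),
      pderiv i (rename σ g) = rename σ (pderiv (σ i) g) := by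
    intro R _ g
    have := pderiv_rename σ.injective (σ i) g
    rw [hσ i] at this
    exact this
  rw [map_add, map_mul, map_mul, map_mul, rename_C, h1, h1, liftS_rename, liftS_rename]

end F3aux

open F3aux in
theorem Thet.swap {f : MvPolynomial (Fin 3) ℂ} {d : ℕ} {b : Polynomial ℂ} {K : ℕ}
    {θ : Fin 3 → MvPolynomial (Fin 3) (Polynomial ℂ)} (h : Thet f d b K θ) :
    Thet (sw f) d b K (fun i => sw (θ (Equiv.swap 1 2 i))) := by
  refine ⟨fun i => (h.hom _).rename_isHomogeneous, ?_, ?_⟩
  · have h1 := congrArg (rename (Equiv.swap (1 : Fin 3) 2)) h.eqn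
    rw [sum_swap (Equiv.swap (1 : Fin 3) 2) (by decide), map_mul, map_pow,
      rename_C, ← liftS_rename] at h1
    exact h1
  · intro lam mu
    obtain ⟨j, p, u, h1⟩ := h.chart mu lam
    refine ⟨j, rename (Equiv.swap 0 1) p, fun i => rename (Equiv.swap 0 1) (u (Equiv.swap 0 1 i)),
      ?_⟩
    have h2 := congrArg (rename (Equiv.swap (0 : Fin 2) 1)) h1
    rw [map_add, sum_swap (Equiv.swap (0 : Fin 2) 1) (by decide), map_mul,
      map_mul, map_pow, map_pow, ← liftS_rename, ← resP_sw, ← res_sw] at h2
    have h3 : (sw (θ (Equiv.swap 1 2 0)) - C (Polynomial.C lam) * sw (θ (Equiv.swap 1 2 1)) -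
        C (Polynomial.C mu) * sw (θ (Equiv.swap 1 2 2))) =
        sw (θ 0 - C (Polynomial.C mu) * θ 1 - C (Polynomial.C lam) * θ 2) := by
      have e0 : (Equiv.swap (1 : Fin 3) 2) 0 = 0 := by decide
      have e1 : (Equiv.swap (1 : Fin 3) 2) 1 = 2 := by decide
      have e2 : (Equiv.swap (1 : Fin 3) 2) 2 = 1 := by decide
      rw [e0, e1, e2]
      unfold sw
      rw [map_sub, map_sub, map_mul, map_mul, rename_C, rename_C]
      ring
    rw [h3]
    exact h2

end MPb07157.TL
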