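import Pool.Agent.Lib.MP_b07157_agL3.LT
import Pool.Agent.Lib.MP_b07157_agL3.F3

/-!
# The vector field at the infinite places
-/

noncomputable section

namespace MPb07157.TL

open MvPolynomial

namespace InfAux

theorem hom_eval₂ {R S : Type} [CommSemiring R] [CommSemiring S] (φ : R →+* S) {n d : ℕ}
    {f : MvPolynomial (Fin n) R} (hf : f.IsHomogeneous d) (r : S) (y : Fin n → S) :
    eval₂ φ (fun i => r * y i) f = r ^ d * eval₂ φ y f := by
  rw [eval₂_eq', eval₂_eq', Finset.mul_sum]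
  refine Finset.sum_congr rfl fun v hv => ?_
  have h1 : ∑ i, v i = d := by
    have := hf (mem_support_iff.1 hv)
    rwa [Finsupp.weight_apply, Finsupp.sum_fintype _ _ (fun _ => by simp),
      show (∑ i, v i • (1 : Fin n → ℕ) i) = ∑ i, v i from
        Finset.sum_congr rfl fun i _ => by simp] at this
  rw [← h1, ← Finset.prod_pow_eq_pow_sum]
  simp only [mul_pow, Finset.prod_mul_distrib]
  ring

theorem swap_eq {S : Type} (a b c : S) :
    (fun i => (![a, b, c] : Fin 3 → S) (Equiv.swap 1 2 i)) = ![a, c, b] := by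
  funext i
  fin_cases i <;> rfl

theorem tau_ne : (tau : L0) ≠ 0 := by
  intro h
  have := HahnSeries.single_ne_zero (a := (1 : ℚ)) (r := (1 : ℂ)) one_ne_zero
  exact this h

theorem C_zero_add : (HahnSeries.C 0 + tau : L0) = tau := by
  rw [map_zero, zero_add]

section

variable {L : Type} [Field L] [Algebra ℂ L]

theorem PL_sw {f : MvPolynomial (Fin 3) ℂ} {d : ℕ} (hf : f.IsHomogeneous d) {t : L}
    (ht : t ≠ 0) : PL (sw f) t = Polynomial.C (t ^ d) *
      (PL f t⁻¹).comp (Polynomial.C t⁻¹ * Polynomial.X) := by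
  unfold PL sw
  rw [aeval_rename]
  have h1 : ((![Polynomial.X, 1, Polynomial.C t] : Fin 3 → Polynomial L) ∘ (Equiv.swap 1 2)) =
      fun i => Polynomial.C t * (![Polynomial.C t⁻¹ * Polynomial.X, 1, Polynomial.C t⁻¹] :
        Fin 3 → Polynomial L) i := by
    have h2 := swap_eq (Polynomial.X : Polynomial L) 1 (Polynomial.C t)
    have h3 : ((![Polynomial.X, 1, Polynomial.C t] : Fin 3 → Polynomial L) ∘ (Equiv.swap 1 2)) =
      ![Polynomial.X, Polynomial.C t, 1] := h2
    rw [h3]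
    have hc : Polynomial.C t * Polynomial.C t⁻¹ = 1 := by
      rw [← Polynomial.C_mul, mul_inv_cancel₀ ht, Polynomial.C_1]
    funext i
    fin_cases i
    · simp only [Fin.zero_eta, Matrix.cons_val_zero, ← mul_assoc, hc, one_mul]
    · simp
    · simp only [Fin.reduceFinMk, Matrix.cons_val]
      exact hc.symm
  rw [h1, aeval_def, hom_eval₂ _ hf, ← Polynomial.C_pow]
  congr 1
  have h4 : (aeval ![Polynomial.X, 1, Polynomial.C t⁻¹] f : Polynomial L).comp
      (Polynomial.C t⁻¹ * Polynomial.X) =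
      (Polynomial.aeval (Polynomial.C t⁻¹ * Polynomial.X : Polynomial L)
        (aeval ![Polynomial.X, 1, Polynomial.C t⁻¹] f : Polynomial L)) := rfl
  rw [h4, ← aeval_def]
  have h5 := MvPolynomial.comp_aeval (R := ℂ)
    (f := (![Polynomial.X, 1, Polynomial.C t⁻¹] : Fin 3 → Polynomial L))
    ((Polynomial.aeval (Polynomial.C t⁻¹ * Polynomial.X : Polynomial L)).restrictScalars ℂ)
  have h6 := DFunLike.congr_fun h5 f
  simp only [AlgHom.comp_apply] at h6
  refine Eq.trans ?_ h6.symm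
  congr 2
  funext i
  fin_cases i <;> simp

end

section

variable {F : Type} [Field F] [Algebra L0 F] [Algebra ℂ F] [IsScalarTower ℂ L0 F]
  {ι : Type} [Fintype ι]

theorem T_ne : algebraMap L0 F tau ≠ 0 := by
  rw [Ne, map_eq_zero]
  exact tau_ne

theorem sub_inv (w x : F) : (algebraMap L0 F tau * w - algebraMap L0 F tau * x)⁻¹ =
    algebraMap L0 F tau⁻¹ * (w - x)⁻¹ := by
  rw [← mul_sub, mul_inv, map_inv₀]

theorem lg_scale (W : WF L0 F) (ht : (tau : L0) ≠ 0) (c a : ι → L0) :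
    lg (W.scale tau ht) (fun i => tau * c i) a = algebraMap L0 F tau⁻¹ * lg W c a := by
  unfold lg
  rw [Finset.mul_sum]
  refine Finset.sum_congr rfl fun i _ => ?_
  change algebraMap L0 F (a i) * (algebraMap L0 F tau * W.w - algebraMap L0 F (tau * c i))⁻¹ = _
  rw [map_mul, sub_inv]
  ring

theorem SS_scale (W : WF L0 F) (ht : (tau : L0) ≠ 0) (c : ι → L0) :
    SS W c ≤ SS (W.scale tau ht) (fun i => tau * c i) := by
  unfold SS
  rw [Algebra.adjoin_le_iff]
  rintro x (rfl | ⟨i, rfl⟩)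
  · have h1 : (W.scale tau ht).w ∈ Algebra.adjoin L0 (insert (W.scale tau ht).w (Set.range
        fun i => ((W.scale tau ht).w - algebraMap L0 F (tau * c i))⁻¹)) :=
      Algebra.subset_adjoin (Set.mem_insert _ _)
    have h2 := Subalgebra.smul_mem _ h1 tau⁻¹
    have h3 : (tau⁻¹ : L0) • (W.scale tau ht).w = W.w := by
      change (tau⁻¹ : L0) • (algebraMap L0 F tau * W.w) = W.w
      rw [Algebra.smul_def, ← mul_assoc, ← map_mul, inv_mul_cancel₀ ht, map_one, one_mul]
    rw [h3] at h2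
    exact h2
  · have h1 : ((W.scale tau ht).w - algebraMap L0 F (tau * c i))⁻¹ ∈ Algebra.adjoin L0
        (insert (W.scale tau ht).w (Set.range
        fun i => ((W.scale tau ht).w - algebraMap L0 F (tau * c i))⁻¹)) :=
      Algebra.subset_adjoin (Set.mem_insert_of_mem _ ⟨i, rfl⟩)
    have h2 := Subalgebra.smul_mem _ h1 tau
    have h3 : (tau : L0) • ((W.scale tau ht).w - algebraMap L0 F (tau * c i))⁻¹ =
        (W.w - algebraMap L0 F (c i))⁻¹ := by
      change (tau : L0) • (algebraMap L0 F tau * W.w - algebraMap L0 F (tau * c i))⁻¹ = _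
      rw [map_mul, sub_inv, Algebra.smul_def, ← mul_assoc, ← map_mul, mul_inv_cancel₀ ht, map_one,
        one_mul]
    rw [h3] at h2
    exact h2

theorem pt_swap (w T : F) (hT : T ≠ 0) :
    (pt (T * w) T : Fin 3 → F) ∘ (Equiv.swap 1 2) = fun i => T * pt w T⁻¹ i := by
  have h2 : (pt (T * w) T : Fin 3 → F) ∘ (Equiv.swap 1 2) = ![T * w, T, 1] :=
    swap_eq (T * w) 1 T
  rw [h2]
  funext i
  fin_cases i
  · rfl
  · simp [pt]
  · simp [pt, mul_inv_cancel₀ hT]

theorem aeval_sw {f : MvPolynomial (Fin 3) ℂ} {d : ℕ} (hf : f.IsHomogeneous d) (w T : F)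
    (hT : T ≠ 0) : aeval (pt (T * w) T) (sw f) = T ^ d * aeval (pt w T⁻¹) f := by
  unfold sw
  rw [aeval_rename, pt_swap w T hT, aeval_def, hom_eval₂ _ hf, ← aeval_def]

theorem EV_sw {p : MvPolynomial (Fin 3) (Polynomial ℂ)} {d : ℕ} (hp : p.IsHomogeneous d) (w T : F)
    (hT : T ≠ 0) : EV (pt (T * w) T) (sw p) = Polynomial.C T ^ d * EV (pt w T⁻¹) p := by
  unfold sw EV
  rw [coe_eval₂Hom, coe_eval₂Hom, eval₂_rename]
  have h1 : (fun i => Polynomial.C (pt (T * w) T i)) ∘ (Equiv.swap (1 : Fin 3) 2) =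
      fun i => Polynomial.C T * Polynomial.C (pt w T⁻¹ i) := by
    funext i
    have := congrFun (pt_swap w T hT) i
    simp only [Function.comp_apply] at this ⊢
    rw [this, Polynomial.C_mul]
  rw [h1, hom_eval₂ _ hp]

theorem B1_sw {f : MvPolynomial (Fin 3) ℂ} {d : ℕ} (hf : f.IsHomogeneous d) {K : ℕ}
    {θ : Fin 3 → MvPolynomial (Fin 3) (Polynomial ℂ)}
    (hθ : ∀ i, (θ i).IsHomogeneous (d * K + 1)) (w T : F) (hT : T ≠ 0) :
    B1 (sw f) K (fun i => sw (θ (Equiv.swap 1 2 i))) (T * w) T =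
      Polynomial.C (-T ^ 2) * B1 f K θ w T⁻¹ := by
  unfold B1
  have h1 : (Equiv.swap (1 : Fin 3) 2) 2 = 1 := by decide
  have h2 : (Equiv.swap (1 : Fin 3) 2) 1 = 2 := by decide
  simp only [h1, h2]
  rw [aeval_sw hf w T hT, EV_sw (hθ 1) w T hT, EV_sw (hθ 2) w T hT]
  set g := aeval (pt w T⁻¹) f
  set E1 := EV (pt w T⁻¹) (θ 1)
  set E2 := EV (pt w T⁻¹) (θ 2)
  have h3 : ((T ^ d * g)⁻¹ ^ K : F) = T⁻¹ ^ (d * K) * g⁻¹ ^ K := by
    rw [mul_inv, mul_pow, ← inv_pow, ← pow_mul]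
  have h4 : (Polynomial.C T⁻¹ : Polynomial F) ^ (d * K) * Polynomial.C T ^ (d * K) = 1 := by
    rw [← mul_pow, ← Polynomial.C_mul, inv_mul_cancel₀ hT, Polynomial.C_1, one_pow]
  have h5 : (Polynomial.C T : Polynomial F) * Polynomial.C T⁻¹ = 1 := by
    rw [← Polynomial.C_mul, mul_inv_cancel₀ hT, Polynomial.C_1]
  have h6 : (Polynomial.C (T⁻¹ ^ (d * K) * g⁻¹ ^ K) : Polynomial F) =
      Polynomial.C T⁻¹ ^ (d * K) * Polynomial.C (g⁻¹ ^ K) := by
    rw [Polynomial.C_mul, Polynomial.C_pow]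
  have h7 : (Polynomial.C (-T ^ 2) : Polynomial F) = -(Polynomial.C T) ^ 2 := by
    rw [Polynomial.C_neg, Polynomial.C_pow]
  rw [h3, h6, h7]
  generalize (Polynomial.C (g⁻¹ ^ K) : Polynomial F) = G
  generalize (Polynomial.C T : Polynomial F) = u at h4 h5 ⊢
  generalize (Polynomial.C T⁻¹ : Polynomial F) = v at h4 h5 ⊢
  rw [pow_succ u]
  linear_combination (G * (u * E1 - u ^ 2 * E2)) * h4 - u * G * E1 * h5

end

end InfAux

open InfAux

variable {F : Type} [Field F] [Algebra L0 F] [Algebra ℂ F] [IsScalarTower ℂ L0 F]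
  {ι : Type} [Fintype ι] [DecidableEq ι]
  {f : MvPolynomial (Fin 3) ℂ} {d : ℕ} {b : Polynomial ℂ} {K : ℕ}
  {θ : Fin 3 → MvPolynomial (Fin 3) (Polynomial ℂ)}
  {c : ι → L0} {m : ι → ℕ} {A0 : L0} {α : ι → L0}

/-- The factorization after the exchange of `x_1` and `x_2`. -/
theorem Fac.swap (hf : f.IsHomogeneous d) (hF : Fac f tau⁻¹ c m A0) :
    ∃ A0' : L0, Fac (sw f) (HahnSeries.C 0 + tau) (fun i => tau * c i) m A0' := by
  refine ⟨tau ^ d * (A0 * ∏ i, tau⁻¹ ^ m i), ?_⟩
  rw [C_zero_add]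
  refine ⟨?_, hF.pos, ?_, ?_⟩
  · intro i j hij
    exact hF.inj (mul_left_cancel₀ tau_ne hij)
  · refine mul_ne_zero (pow_ne_zero _ tau_ne) (mul_ne_zero hF.ne ?_)
    exact Finset.prod_ne_zero_iff.2 fun i _ => pow_ne_zero _ (inv_ne_zero tau_ne)
  · rw [PL_sw hf tau_ne, hF.eq, Polynomial.mul_comp, Polynomial.C_comp, Polynomial.prod_comp,
      Polynomial.C_mul, Polynomial.C_mul, mul_assoc, mul_assoc]
    congr 2
    rw [map_prod, ← Finset.prod_mul_distrib]
    refine Finset.prod_congr rfl fun i _ => ?_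
    rw [Polynomial.pow_comp, Polynomial.sub_comp, Polynomial.X_comp, Polynomial.C_comp,
      Polynomial.C_pow, ← mul_pow]
    congr 1
    rw [mul_sub, ← Polynomial.C_mul, ← mul_assoc, inv_mul_cancel₀ tau_ne, one_mul]

/-- The class after the exchange of `x_1` and `x_2`. -/
theorem Cl.swap (hf : f.IsHomogeneous d) (h : Thet f d b K θ) (W : WF L0 F)
    (hα : Cl f d K θ W tau⁻¹ c m α) (ht : (tau : L0) ≠ 0) :
    Cl (sw f) d K (fun i => sw (θ (Equiv.swap 1 2 i))) (W.scale tau ht) (HahnSeries.C 0 + tau)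
      (fun i => tau * c i) m (fun i => -(tau ^ 3 * α i)) := by
  obtain ⟨r, hr, hr2⟩ := hα
  have hT := T_ne (F := F)
  refine ⟨algebraMap L0 F (-tau ^ 3) * r, ?_, ?_⟩
  · exact Subalgebra.mul_mem _ (Subalgebra.algebraMap_mem _ _) (SS_scale W ht c hr)
  · rw [C_zero_add]
    change (B1 (sw f) K (fun i => sw (θ (Equiv.swap 1 2 i))) (algebraMap L0 F tau * W.w)
      (algebraMap L0 F tau)).eval _ = _
    rw [map_inv₀] at hr2
    rw [B1_sw hf h.hom _ _ hT, Polynomial.eval_mul, Polynomial.eval_C, hr2, lg_scale, lg_scale]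
    have e1 : lg W c (fun i => s0m d m i * -(tau ^ 3 * α i)) =
        -(algebraMap L0 F tau ^ 3 * lg W c (fun i => s0m d m i * α i)) := by
      unfold lg
      rw [Finset.mul_sum, ← Finset.sum_neg_distrib]
      refine Finset.sum_congr rfl fun i _ => ?_
      simp only [map_mul, map_neg, map_pow]
      ring
    have e2 : (W.scale tau ht).dw (algebraMap L0 F (-tau ^ 3) * r) =
        algebraMap L0 F tau⁻¹ * (algebraMap L0 F (-tau ^ 3) * W.dw r) := by
      change (algebraMap L0 F tau⁻¹ • W.dw) (algebraMap L0 F (-tau ^ 3) * r) = _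
      rw [Derivation.smul_apply, smul_eq_mul, ← Algebra.smul_def (-tau ^ 3 : L0) r,
        Derivation.map_smul, Algebra.smul_def]
    unfold nb
    rw [e1, e2]
    have e3 : algebraMap L0 F tau⁻¹ * algebraMap L0 F tau = 1 := by
      rw [← map_mul, inv_mul_cancel₀ ht, map_one]
    simp only [map_neg, map_pow]
    set T := algebraMap L0 F tau
    set V := algebraMap L0 F tau⁻¹
    set A := lg W c (fun i => s0m d m i * α i)
    set B := lg W c (s0m d m)
    linear_combination (T ^ 2 * (A + W.dw r + B * r)) * e3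

/-- The vector field at infinity. -/
theorem regular_inf (hf : f.IsHomogeneous d) (h : Thet f d b K θ) (W : WF L0 F)
    (hF : Fac f tau⁻¹ c m A0) (hd : ∑ i, m i < d) (h1 : 3 * ∑ i, m i ≠ d)
    (h2 : 3 * ∑ i, m i ≠ 2 * d) (hα : Cl f d K θ W tau⁻¹ c m α) (hs : Spec f 0 1) {i j : ι}
    (hij : i ≠ j) : ((-1 : ℚ) : WithTop ℚ) ≤ (xi c α i j).orderTop := by
  obtain ⟨A0', hF'⟩ := Fac.swap hf hF
  have hf' : (sw f).IsHomogeneous d := hf.rename_isHomogeneous
  have hα' := Cl.swap hf h W hα tau_ne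
  have hS : Spec (sw f) 1 0 := by
    intro z
    have e : ∀ z : ℂ, eval ![z, 1, 0] (sw f) = eval ![z, 0, 1] f := by
      intro z
      unfold sw
      rw [eval_rename]
      congr 2
      exact swap_eq z 1 0
    rw [e, e]
    exact hs z
  have h3 := (regular hf' h.swap (W.scale tau tau_ne) hF' hd h1 h2 hα' hij).2 hS
  have h4 : xi c α i j = HahnSeries.single (-2 : ℚ) (-1 : ℂ) *
      xi (fun i => tau * c i) (fun i => -(tau ^ 3 * α i)) i j := by
    have h5 : (HahnSeries.single (-2 : ℚ) (-1 : ℂ) : L0) * tau ^ 2 = -1 := by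
      have h6 : (tau : L0) ^ 2 = HahnSeries.single (2 : ℚ) (1 : ℂ) := by
        unfold tau
        rw [HahnSeries.single_pow]
        norm_num
      rw [h6, HahnSeries.single_mul_single]
      norm_num
    have h7 : c i - c j ≠ 0 := sub_ne_zero.2 fun h => hij (hF.inj h)
    have h8 : (tau : L0) ≠ 0 := tau_ne
    unfold xi
    have h9 : (-(tau ^ 3 * α i) - -(tau ^ 3 * α j)) / (tau * c i - tau * c j) =
        -(tau ^ 2 * ((α i - α j) / (c i - c j))) := by
      rw [← mul_sub, div_eq_iff (mul_ne_zero h8 h7)]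
      have : (α i - α j) / (c i - c j) * (c i - c j) = α i - α j := div_mul_cancel₀ _ h7
      linear_combination (tau ^ 3) * this
    rw [h9]
    linear_combination ((α i - α j) / (c i - c j)) * h5
  rw [h4]
  refine le_trans ?_ HahnSeries.orderTop_add_le_mul
  rw [HahnSeries.orderTop_single (by norm_num : (-1 : ℂ) ≠ 0)]
  have h10 : ((-1 : ℚ) : WithTop ℚ) = ((-2 : ℚ) : WithTop ℚ) + ((1 : ℚ) : WithTop ℚ) := by
    rw [← WithTop.coe_add]
    norm_num
  rw [h10]
  exact add_le_add le_rfl h3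

end MPb07157.TL
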