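import Pool.Agent.Lib.MP_b07157_agL3.LTB
import Pool.Agent.Lib.MP_b07157_agL3.Inf

/-!
# The vector field at the infinite places, second part
-/

noncomputable section

namespace MPb07157.TL

open MvPolynomial

variable {F : Type} [Field F] [Algebra L0 F] [Algebra ℂ F] [IsScalarTower ℂ L0 F]
  {ι : Type} [Fintype ι] [DecidableEq ι]
  {f : MvPolynomial (Fin 3) ℂ} {d : ℕ} {b : Polynomial ℂ} {K : ℕ}
  {θ : Fin 3 → MvPolynomial (Fin 3) (Polynomial ℂ)}
  {c : ι → L0} {m : ι → ℕ} {A0 : L0} {α : ι → L0}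

namespace InfBaux

open InfAux

omit [Fintype ι] [DecidableEq ι] in
/-- The difference quotients before and after the exchange of `x_1` and `x_2`. -/
theorem xi_swap (hc : Function.Injective c) {i j : ι} (hij : i ≠ j) :
    xi c α i j = HahnSeries.single (-2 : ℚ) (-1 : ℂ) *
      xi (fun i => tau * c i) (fun i => -(tau ^ 3 * α i)) i j := by
  have h5 : (HahnSeries.single (-2 : ℚ) (-1 : ℂ) : L0) * tau ^ 2 = -1 := by
    have h6 : (tau : L0) ^ 2 = HahnSeries.single (2 : ℚ) (1 : ℂ) := by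
      unfold tau
      rw [HahnSeries.single_pow]
      norm_num
    rw [h6, HahnSeries.single_mul_single]
    norm_num
  have h7 : c i - c j ≠ 0 := sub_ne_zero.2 fun h => hij (hc h)
  have h8 : (tau : L0) ≠ 0 := tau_ne
  unfold xi
  have h9 : (-(tau ^ 3 * α i) - -(tau ^ 3 * α j)) / (tau * c i - tau * c j) =
      -(tau ^ 2 * ((α i - α j) / (c i - c j))) := by
    rw [← mul_sub, div_eq_iff (mul_ne_zero h8 h7)]
    have : (α i - α j) / (c i - c j) * (c i - c j) = α i - α j := div_mul_cancel₀ _ h7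
    linear_combination (tau ^ 3) * this
  rw [h9]
  linear_combination ((α i - α j) / (c i - c j)) * h5

omit [Fintype ι] [DecidableEq ι] in
theorem order_swap (hc : Function.Injective c) {i j : ι} (hij : i ≠ j) {a : ℚ}
    (h : ((a : ℚ) : WithTop ℚ) ≤
      (xi (fun i => tau * c i) (fun i => -(tau ^ 3 * α i)) i j).orderTop) :
    ((a - 2 : ℚ) : WithTop ℚ) ≤ (xi c α i j).orderTop := by
  rw [xi_swap hc hij]
  refine le_trans ?_ HahnSeries.orderTop_add_le_mul
  rw [HahnSeries.orderTop_single (by norm_num : (-1 : ℂ) ≠ 0)]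
  have h10 : ((a - 2 : ℚ) : WithTop ℚ) = ((-2 : ℚ) : WithTop ℚ) + ((a : ℚ) : WithTop ℚ) := by
    rw [← WithTop.coe_add]
    congr 1
    ring
  rw [h10]
  exact add_le_add le_rfl h

theorem Uf_sw (f : MvPolynomial (Fin 3) ℂ) : Uf (sw f) 1 0 = Uf f 0 1 := by
  unfold Uf sw
  rw [aeval_rename]
  congr 2
  exact swap_eq Polynomial.X (Polynomial.C 1) (Polynomial.C 0)

end InfBaux

open InfBaux

/-- The vector field at infinity. -/
theorem regular_inf0 (hf : f.IsHomogeneous d) (h : Thet f d b K θ) (W : WF L0 F)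
    (hF : Fac f tau⁻¹ c m A0) (hd : ∑ i, m i < d) (h1 : 3 * ∑ i, m i ≠ d)
    (h2 : 3 * ∑ i, m i ≠ 2 * d) (hα : Cl f d K θ W tau⁻¹ c m α) {i j : ι}
    (hij : i ≠ j) : ((-2 : ℚ) : WithTop ℚ) ≤ (xi c α i j).orderTop := by
  obtain ⟨A0', hF'⟩ := Fac.swap hf hF
  have hf' : (sw f).IsHomogeneous d := hf.rename_isHomogeneous
  have hα' := Cl.swap hf h W hα InfAux.tau_ne
  have h3 := (regular hf' h.swap (W.scale tau InfAux.tau_ne) hF' hd h1 h2 hα' hij).1
  have h4 := order_swap (a := 0) hF.inj hij h3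
  rwa [zero_sub] at h4

/-- The vector field at infinity, if the line at infinity is not tangent at `p` and meets the
curve outside `p` in one point. -/
theorem regular_infB (hf : f.IsHomogeneous d) (h : Thet f d b K θ) (hC : Ch (sw f) K (sw (θ 2)))
    (W : WF L0 F) (hF : Fac f tau⁻¹ c m A0) (hd : ∑ i, m i < d) (h1 : 3 * ∑ i, m i ≠ d)
    (h2 : 3 * ∑ i, m i ≠ 2 * d) (hα : Cl f d K θ W tau⁻¹ c m α) (hm : 0 < ∑ i, m i)
    (hU : (Uf f 0 1).natDegree = ∑ i, m i) (hr : (Uf f 0 1).roots.toFinset.card = 1) {i j : ι}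
    (hij : i ≠ j) : ((-1 : ℚ) : WithTop ℚ) ≤ (xi c α i j).orderTop := by
  obtain ⟨A0', hF'⟩ := Fac.swap hf hF
  have hf' : (sw f).IsHomogeneous d := hf.rename_isHomogeneous
  have hα' := Cl.swap hf h W hα InfAux.tau_ne
  have hC' : Ch (sw f) K ((fun i => sw (θ (Equiv.swap 1 2 i))) 1) := by
    have e : (Equiv.swap (1 : Fin 3) 2) 1 = 2 := by decide
    simp only [e]
    exact hC
  have h3 := regularB hf' h.swap hC' (W.scale tau InfAux.tau_ne) hF' hd h1 h2 hα' hm
    (by rw [Uf_sw]; exact hU) (by rw [Uf_sw]; exact hr) hij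
  have h4 := order_swap (a := 1) hF.inj hij h3
  have e : (1 - 2 : ℚ) = -1 := by norm_num
  rwa [e] at h4

end MPb07157.TL
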