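import Pool.Agent.Lib.MP_b07157_agL3.Z

/-!
# Tangent lines
-/

noncomputable section

namespace MPb07157.TL

open MvPolynomial

namespace Z2aux

open Zb

/-- Reduction of polynomials. -/
def RdP (P : Polynomial L0) (p : Polynomial ℂ) : Prop := ∀ n, Rd (P.coeff n) (p.coeff n)

theorem rd_zero : Rd 0 0 := by
  have h1 := rd_C 0
  rwa [map_zero] at h1

theorem rd_one : Rd 1 1 := by
  have h1 := rd_C 1
  rwa [map_one] at h1

theorem RdP.mul {P Q : Polynomial L0} {p q : Polynomial ℂ} (h : RdP P p) (h' : RdP Q q) :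
    RdP (P * Q) (p * q) := by
  intro n
  rw [Polynomial.coeff_mul, Polynomial.coeff_mul]
  exact rd_sum _ fun k _ => (h k.1).mul (h' k.2)

theorem RdP.one : RdP 1 1 := by
  intro n
  rw [Polynomial.coeff_one, Polynomial.coeff_one]
  split_ifs
  · exact rd_one
  · exact rd_zero

theorem RdP.sub {P Q : Polynomial L0} {p q : Polynomial ℂ} (h : RdP P p) (h' : RdP Q q) :
    RdP (P - Q) (p - q) := by
  intro n
  rw [Polynomial.coeff_sub, Polynomial.coeff_sub]
  exact (h n).sub (h' n)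

theorem RdP.X : RdP Polynomial.X Polynomial.X := by
  intro n
  rw [Polynomial.coeff_X, Polynomial.coeff_X]
  split_ifs
  · exact rd_one
  · exact rd_zero

theorem RdP.C {x : L0} {z : ℂ} (h : Rd x z) : RdP (Polynomial.C x) (Polynomial.C z) := by
  intro n
  rw [Polynomial.coeff_C, Polynomial.coeff_C]
  split_ifs
  · exact h
  · exact rd_zero

theorem RdP.pow {P : Polynomial L0} {p : Polynomial ℂ} (h : RdP P p) (n : ℕ) :
    RdP (P ^ n) (p ^ n) := by
  induction n with
  | zero =>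
    rw [pow_zero, pow_zero]
    exact RdP.one
  | succ n ih =>
    rw [pow_succ, pow_succ]
    exact ih.mul h

theorem RdP.prod {κ : Type} (s : Finset κ) {P : κ → Polynomial L0} {p : κ → Polynomial ℂ}
    (h : ∀ i ∈ s, RdP (P i) (p i)) : RdP (∏ i ∈ s, P i) (∏ i ∈ s, p i) := by
  classical
  induction s using Finset.induction_on with
  | empty =>
    rw [Finset.prod_empty, Finset.prod_empty]
    exact RdP.one
  | insert a s ha ih =>
    rw [Finset.prod_insert ha, Finset.prod_insert ha]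
    exact (h a (Finset.mem_insert_self a s)).mul
      (ih fun i hi => h i (Finset.mem_insert_of_mem hi))

theorem decomp {K ι : Type} [Field K] [Fintype ι] [DecidableEq ι] (c : ι → K) (m : ι → ℕ)
    (I : Finset ι) (hne : ∀ i ∈ Iᶜ, c i ≠ 0) (A0 : K) :
    Polynomial.C A0 * ∏ i, (Polynomial.X - Polynomial.C (c i)) ^ m i =
      Polynomial.C (A0 * ∏ i ∈ Iᶜ, (-c i) ^ m i) *
        ((∏ i ∈ Iᶜ, (1 - Polynomial.C ((c i)⁻¹) * Polynomial.X) ^ m i) *
          ∏ i ∈ I, (Polynomial.X - Polynomial.C (c i)) ^ m i) := by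
  have h1 : ∏ i ∈ Iᶜ, (Polynomial.X - Polynomial.C (c i)) ^ m i =
      Polynomial.C (∏ i ∈ Iᶜ, (-c i) ^ m i) *
        ∏ i ∈ Iᶜ, (1 - Polynomial.C ((c i)⁻¹) * Polynomial.X) ^ m i := by
    rw [map_prod, ← Finset.prod_mul_distrib]
    refine Finset.prod_congr rfl fun i hi => ?_
    have e : Polynomial.X - Polynomial.C (c i) =
        Polynomial.C (-c i) * (1 - Polynomial.C ((c i)⁻¹) * Polynomial.X) := by
      rw [mul_sub, mul_one, ← mul_assoc, ← map_mul, neg_mul, mul_inv_cancel₀ (hne i hi), map_neg,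
        map_neg, map_one]
      ring
    rw [e, map_pow, mul_pow]
  rw [← Finset.prod_mul_prod_compl I, h1, map_mul]
  ring

theorem order_prod' {κ : Type} (s : Finset κ) {x : κ → L0} (hx : ∀ i ∈ s, x i ≠ 0)
    (m : κ → ℕ) : (∏ i ∈ s, (-x i) ^ m i).order = ∑ i ∈ s, (m i : ℚ) * (x i).order := by
  classical
  induction s using Finset.induction_on with
  | empty => rw [Finset.prod_empty, Finset.sum_empty, HahnSeries.order_one]
  | insert i s hi ih =>
    have h1 : -x i ≠ 0 := neg_ne_zero.2 (hx i (Finset.mem_insert_self i s))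
    rw [Finset.prod_insert hi, Finset.sum_insert hi,
      HahnSeries.order_mul (pow_ne_zero _ h1)
        (Finset.prod_ne_zero_iff.2 fun j hj => pow_ne_zero _
          (neg_ne_zero.2 (hx j (Finset.mem_insert_of_mem hj)))),
      ih fun j hj => hx j (Finset.mem_insert_of_mem hj), Zaaux.order_pow' h1,
      HahnSeries.order_neg]

end Z2aux

open Zb Z2aux

variable {ι : Type} [Fintype ι] [DecidableEq ι]
variable {f : MvPolynomial (Fin 3) ℂ} {t0 : ℂ} {c : ι → L0} {m : ι → ℕ} {A0 : L0}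

/-- The number of the points of a line outside `p`, with multiplicities, and the order of the
leading coefficient. -/
theorem tangent (h : Fac f (HahnSeries.C t0 + tau) c m A0) (hU : Uf f 1 t0 ≠ 0)
    (I : Finset ι) (hI : ∀ i, i ∈ I ↔ 0 ≤ (c i).orderTop) :
    (Uf f 1 t0).natDegree = ∑ i ∈ I, m i ∧
      A0.order + ∑ i ∈ Iᶜ, (m i : ℚ) * (c i).order = 0 := by
  have hneg : ∀ i ∈ Iᶜ, (c i).orderTop < 0 := by
    intro i hi
    rw [Finset.mem_compl, hI] at hi
    exact not_le.1 hi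
  have hne : ∀ i ∈ Iᶜ, c i ≠ 0 := by
    intro i hi h1
    have h2 := hneg i hi
    rw [h1, HahnSeries.orderTop_zero] at h2
    exact absurd h2 (not_lt.2 zero_lt_top'.le)
  have hinv : ∀ i ∈ Iᶜ, Rd ((c i)⁻¹) 0 := by
    intro i hi
    rw [rd_zero_iff]
    by_contra h1
    have h2 : (c i * (c i)⁻¹).orderTop = 0 := by
      rw [mul_inv_cancel₀ (hne i hi), HahnSeries.orderTop_one]
    rw [HahnSeries.orderTop_mul] at h2
    have h3 : (c i).orderTop + ((c i)⁻¹).orderTop ≤ (c i).orderTop + 0 :=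
      add_le_add le_rfl (not_lt.1 h1)
    rw [h2, add_zero] at h3
    exact absurd (hneg i hi) (not_lt.2 h3)
  set κ : L0 := A0 * ∏ i ∈ Iᶜ, (-c i) ^ m i with hκ
  set G1 : Polynomial L0 := ∏ i ∈ Iᶜ, (1 - Polynomial.C ((c i)⁻¹) * Polynomial.X) ^ m i with hG1
  set G2 : Polynomial L0 := ∏ i ∈ I, (Polynomial.X - Polynomial.C (c i)) ^ m i with hG2
  set g : Polynomial ℂ := ∏ i ∈ I, (Polynomial.X - Polynomial.C ((c i).coeff 0)) ^ m i with hg
  have hP : PL f (HahnSeries.C t0 + tau) = Polynomial.C κ * (G1 * G2) := by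
    rw [h.eq]
    exact decomp c m I hne A0
  have hG : RdP (G1 * G2) g := by
    have h1 : RdP G1 1 := by
      have h2 : RdP G1 (∏ i ∈ Iᶜ, (1 - Polynomial.C 0 * Polynomial.X) ^ m i) :=
        RdP.prod _ fun i hi => (RdP.one.sub ((RdP.C (hinv i hi)).mul RdP.X)).pow _
      simpa using h2
    have h2 : RdP G2 g := RdP.prod _ fun i hi =>
      (RdP.X.sub (RdP.C (rd_coeff ((hI i).1 hi)))).pow _
    have h3 := h1.mul h2
    rwa [one_mul] at h3
  have hgm : g.Monic := Polynomial.monic_prod_of_monic _ _ fun i _ =>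
    (Polynomial.monic_X_sub_C _).pow (m i)
  have hgd : g.natDegree = ∑ i ∈ I, m i := by
    rw [hg, Polynomial.natDegree_prod_of_monic _ _ fun i _ =>
      (Polynomial.monic_X_sub_C _).pow (m i)]
    refine Finset.sum_congr rfl fun i _ => ?_
    rw [(Polynomial.monic_X_sub_C _).natDegree_pow, Polynomial.natDegree_X_sub_C, mul_one]
  -- the constant
  have hN : Rd ((G1 * G2).coeff g.natDegree) 1 := by
    have h1 := hG g.natDegree
    rwa [hgm.coeff_natDegree] at h1
  have hN0 := hN.orderTop_eq one_ne_zero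
  have hκ0 : 0 ≤ κ.orderTop := by
    have h1 := (rd_PL f t0 g.natDegree).nonneg
    rw [hP, Polynomial.coeff_C_mul, HahnSeries.orderTop_mul, hN0, add_zero] at h1
    exact h1
  have hκr := rd_coeff hκ0
  have hUg : Uf f 1 t0 = Polynomial.C (κ.coeff 0) * g := by
    ext n
    have h1 := rd_PL f t0 n
    have h2 := (RdP.C hκr).mul hG n
    rw [hP] at h1
    exact h1.uniq h2
  have hκ1 : κ.coeff 0 ≠ 0 := by
    intro h1
    rw [h1, map_zero, zero_mul] at hUg
    exact hU hUg
  refine ⟨by rw [hUg, Polynomial.natDegree_C_mul hκ1, hgd], ?_⟩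
  have h1 : κ.order = 0 := order_eq_zero (hκr.orderTop_eq hκ1)
  have h2 : κ.order = A0.order + ∑ i ∈ Iᶜ, (m i : ℚ) * (c i).order := by
    have h3 : (∏ i ∈ Iᶜ, (-c i) ^ m i) ≠ 0 :=
      Finset.prod_ne_zero_iff.2 fun i hi => pow_ne_zero _ (neg_ne_zero.2 (hne i hi))
    rw [hκ, HahnSeries.order_mul h.ne h3]
    congr 1
    refine order_prod' _ (fun i hi => hne i hi) m
  rw [← h2, h1]

/-- A tangent line which meets the curve outside `p`, such that all differences have the same
order. -/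
theorem tangent_one (h : Fac f (HahnSeries.C t0 + tau) c m A0)
    (h1 : (Uf f 1 t0).natDegree ≠ 0) {r : ℚ}
    (hlt : (Uf f 1 t0).natDegree ≠ ∑ i, m i)
    (hr : ∀ i j, i ≠ j → (c i - c j).order = r) :
    r ≠ 0 ∧ A0.order = -(r * (((∑ i, m i : ℕ) : ℚ) - ((Uf f 1 t0).natDegree : ℚ))) ∧
      ∃ i, (Uf f 1 t0).natDegree = m i := by
  classical
  have hU : Uf f 1 t0 ≠ 0 := by
    intro h2
    rw [h2] at h1
    exact h1 Polynomial.natDegree_zero
  set I : Finset ι := Finset.univ.filter (fun i => 0 ≤ (c i).orderTop) with hIdef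
  have hI : ∀ i, i ∈ I ↔ 0 ≤ (c i).orderTop := by
    intro i
    rw [hIdef, Finset.mem_filter]
    exact ⟨fun h => h.2, fun h => ⟨Finset.mem_univ i, h⟩⟩
  obtain ⟨hd, hA⟩ := tangent h hU I hI
  have hsum : ∑ i, m i = ∑ i ∈ I, m i + ∑ i ∈ Iᶜ, m i := (Finset.sum_add_sum_compl I m).symm
  -- a finite root
  obtain ⟨i, hi⟩ : I.Nonempty := by
    rw [Finset.nonempty_iff_ne_empty]
    intro h2
    rw [h2, Finset.sum_empty] at hd
    exact h1 hd
  obtain ⟨j, hj⟩ : Iᶜ.Nonempty := by
    rw [Finset.nonempty_iff_ne_empty]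
    intro h2
    rw [h2, Finset.sum_empty, add_zero] at hsum
    exact hlt (hd.trans hsum.symm)
  have hord : ∀ k ∈ Iᶜ, (c k).order = r ∧ (c k).order < 0 := by
    intro k hk
    have h3 := hk
    rw [Finset.mem_compl, hI] at h3
    have h4 : (c k).orderTop < 0 := not_le.1 h3
    have hik : i ≠ k := by
      rintro rfl
      exact absurd hi (Finset.mem_compl.1 hk)
    have h5 : (c k).orderTop < (c i).orderTop := lt_of_lt_of_le h4 ((hI i).1 hi)
    have h6 : (c i - c k).orderTop = (c k).orderTop := by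
      rw [← HahnSeries.orderTop_neg, neg_sub]
      exact HahnSeries.orderTop_sub h5
    have h7 : c k ≠ 0 := by
      intro h8
      rw [h8, HahnSeries.orderTop_zero] at h4
      exact absurd h4 (not_lt.2 zero_lt_top'.le)
    have h8 := HahnSeries.order_eq_orderTop_of_ne_zero h7
    have h9 := HahnSeries.order_eq_orderTop_of_ne_zero (sub_ne_zero.2 fun h10 =>
      hik (h.inj h10))
    rw [h6, ← h8] at h9
    have h10 : (c i - c k).order = (c k).order := WithTop.coe_eq_coe.1 h9
    refine ⟨by rw [← h10]; exact hr i k hik, ?_⟩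
    rw [← h8] at h4
    exact_mod_cast h4
  have hr0 : r < 0 := by
    have h2 := hord j hj
    rw [h2.1] at h2
    exact h2.2
  refine ⟨hr0.ne, ?_, i, ?_⟩
  · have h2 : ∑ i ∈ Iᶜ, (m i : ℚ) * (c i).order = r * ((∑ i ∈ Iᶜ, m i : ℕ) : ℚ) := by
      rw [Nat.cast_sum, Finset.mul_sum]
      refine Finset.sum_congr rfl fun k hk => ?_
      rw [(hord k hk).1, mul_comm]
    rw [h2] at hA
    rw [hd, hsum]
    push_cast at hA ⊢
    linarith
  · rw [hd]
    refine Finset.sum_eq_single_of_mem i hi fun k hk hki => ?_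
    exfalso
    have h2 := hr k i hki
    have h3 : 0 ≤ (c k - c i).orderTop :=
      le_trans (le_min ((hI k).1 hk) ((hI i).1 hi)) HahnSeries.min_orderTop_le_orderTop_sub
    have h4 := HahnSeries.order_eq_orderTop_of_ne_zero (sub_ne_zero.2 fun h10 =>
      hki (h.inj h10))
    rw [← h4, h2] at h3
    have h5 : (0 : ℚ) ≤ r := by exact_mod_cast h3
    linarith

end MPb07157.TL
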