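import Pool.Agent.Lib.MP_b07157_agL3.Glob
import Pool.Agent.Lib.MP_b07157_agL3.InfB
import Pool.Agent.Lib.MP_b07157_agL3.Z2

/-!
# The root `-3/d` and special lines
-/

noncomputable section

namespace MPb07157.TL

open MvPolynomial

variable {f : MvPolynomial (Fin 3) ℂ} {d : ℕ}

/-- The line through `p = (1, 0, 0)` and `(0, a, b)` is special: it is contained in the curve
`f = 0`, or it meets it only in `p`, or it is not tangent to the curve at `p` and meets it in one
further point. -/
def SpecL (f : MvPolynomial (Fin 3) ℂ) (a b : ℂ) : Prop :=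
  Spec f a b ∨
    ((Uf f a b).natDegree = f.degreeOf 0 ∧ (Uf f a b).roots.toFinset.card = 1)

theorem exists_glob2 (hf : f.IsHomogeneous d) (h0 : f ≠ 0) (hd : f.degreeOf 0 < d)
    (h1 : 3 * f.degreeOf 0 ≠ d) (h2 : 3 * f.degreeOf 0 ≠ 2 * d) {B : Polynomial ℂ}
    (hB : IsBernsteinSato f B) :
    ∃ (K : ℕ) (θ : Fin 3 → MvPolynomial (Fin 3) (Polynomial ℂ)) (n : ℕ) (c : Fin n → KK f)
      (m : Fin n → ℕ) (A0 : KK f) (α : Fin n → KK f) (W : WF (KK f) (RatFunc (KK f))),
      Glob f d B K θ c m A0 α W ∧ Ch f K (θ 1) ∧ Ch (sw f) K (sw (θ 2)) := by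
  obtain ⟨K, θ, h, hC1, hC2⟩ := exists_thet2 hf hB
  obtain ⟨n, c, m, A0, hF, hm⟩ := exists_fac hf h0
  obtain ⟨W⟩ := exists_WF (KK f)
  obtain ⟨α, hα⟩ := exists_cl (K := K) (θ := θ) W hF (by rw [hm]; exact hd)
    (by rw [hm]; exact h1) (by rw [hm]; exact h2)
  exact ⟨K, θ, n, c, m, A0, α, W, ⟨hf, h, hF, hm, by rw [hm]; exact hd, by rw [hm]; exact h1,
    by rw [hm]; exact h2, hα⟩, hC1, hC2⟩

section

variable {b : Polynomial ℂ} {K : ℕ} {θ : Fin 3 → MvPolynomial (Fin 3) (Polynomial ℂ)} {n : ℕ}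
  {c : Fin n → KK f} {m : Fin n → ℕ} {A0 : KK f} {α : Fin n → KK f}
  {W : WF (KK f) (RatFunc (KK f))}

/-- The expansions at the special lines. -/
theorem Glob.regularL (G : Glob f d b K θ c m A0 α W) (hC : Ch f K (θ 1))
    (he : 0 < f.degreeOf 0) {t0 : ℂ} {φ : KK f →+* L0} (hφ : IsPl t0 φ) (hs : SpecL f 1 t0)
    {i j : Fin n} (hij : i ≠ j) :
    ((1 : ℚ) : WithTop ℚ) ≤ (φ ((α i - α j) / (c i - c j))).orderTop := by
  rcases hs with hs | ⟨hs, hs'⟩
  · exact (G.regular hφ hij).2 hs
  · obtain ⟨W0⟩ := exists_WF0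
    have h1 := regularB G.hf G.h hC W0 (G.fac hφ) G.hd G.h1 G.h2 (G.cl' hφ W0)
      (by rw [G.sum]; exact he) (by rw [hs, G.sum]) hs' hij
    unfold xi at h1
    rwa [← map_sub, ← map_sub, ← map_div₀] at h1

/-- The expansions at infinity, if the line at infinity is special. -/
theorem Glob.regular_infL (G : Glob f d b K θ c m A0 α W) (hC : Ch (sw f) K (sw (θ 2)))
    (he : 0 < f.degreeOf 0) {φ : KK f →+* L0} (hφ : IsPlInf φ) (hs : SpecL f 0 1)
    {i j : Fin n} (hij : i ≠ j) :
    ((-1 : ℚ) : WithTop ℚ) ≤ (φ ((α i - α j) / (c i - c j))).orderTop := by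
  rcases hs with hs | ⟨hs, hs'⟩
  · exact G.regular_inf hφ hs hij
  · obtain ⟨W0⟩ := exists_WF0
    have h1 := G.hF.map φ hφ.alg
    have h2 := G.cl.map W0 φ hφ.alg
    unfold tK at h1 h2
    rw [hφ.2] at h1 h2
    have h3 := regular_infB G.hf G.h hC W0 h1 G.hd G.h1 G.h2 h2
      (by rw [G.sum]; exact he) (by rw [hs, G.sum]) hs' hij
    unfold xi at h3
    rwa [← map_sub, ← map_sub, ← map_div₀] at h3

/-- Two special lines: the difference quotients are `x_ij t` with constants `x_ij`. -/
theorem Glob.constL (G : Glob f d b K θ c m A0 α W) (hC1 : Ch f K (θ 1))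
    (hC2 : Ch (sw f) K (sw (θ 2))) (he : 0 < f.degreeOf 0) (hs1 : SpecL f 0 1)
    (hs2 : SpecL f 1 0) {i j : Fin n} (hij : i ≠ j) :
    ∃ z : ℂ, α i - α j = algebraMap ℂ (KK f) z * tK f * (c i - c j) := by
  have hc : c i - c j ≠ 0 := sub_ne_zero.2 fun h => hij (G.hF.inj h)
  obtain ⟨z, hz⟩ := const_of_regular ((α i - α j) / (c i - c j) * (tK f)⁻¹) (by
    intro t0 φ hφ
    have h1 := G.regular hφ hij
    rw [map_mul, map_inv₀]
    have h2 : φ (tK f) = HahnSeries.C t0 + tau := hφ.2
    rw [h2]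
    exact mul_inv_orderTop h1.1 (fun h => by
      subst h
      exact G.regularL hC1 he hφ hs2 hij)) (by
    intro φ hφ
    have h1 := G.regular_infL hC2 he hφ hs1 hij
    rw [map_mul, map_inv₀]
    have h2 : φ (tK f) = tau⁻¹ := hφ.2
    rw [h2, inv_inv, HahnSeries.orderTop_mul, orderTop_tau]
    refine le_trans ?_ (add_le_add_left h1 _)
    rw [← WithTop.coe_add]
    norm_num) (exists_pl f) (exists_plInf G.hf)
  refine ⟨z, ?_⟩
  rw [algC, ← hz]
  have := tK_ne (f := f)
  field_simp

/-- The third line. -/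
theorem Glob.thirdL (G : Glob f d b K θ c m A0 α W) (hC1 : Ch f K (θ 1))
    (hC2 : Ch (sw f) K (sw (θ 2))) (he : 0 < f.degreeOf 0)
    (hs1 : SpecL f 0 1) (hs2 : SpecL f 1 0) {t3 : ℂ} (ht3 : t3 ≠ 0) (hn : 1 < n)
    (hlt : (Uf f 1 t3).roots.toFinset.card < n)
    (h3 : (Uf f 1 t3).roots.toFinset.card = 1 → 3 * (Uf f 1 t3).natDegree ≠ d) :
    b.eval (s0 d) = 0 := by
  have hm : 0 < ∑ i, m i := by rw [G.sum]; exact he
  obtain ⟨φ, hφ⟩ := exists_pl f t3
  have hF := G.fac hφ
  obtain ⟨κ, hκ⟩ := G.eq0 hφ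
  choose! x hx using fun (i j : Fin n) (hij : i ≠ j) => G.constL hC1 hC2 he hs1 hs2 hij
  have hx' : ∀ i j, i ≠ j → φ (α i) - φ (α j) =
      HahnSeries.C (x i j) * (HahnSeries.C t3 + tau) * (φ (c i) - φ (c j)) := by
    intro i j hij
    rw [← map_sub, hx i j hij, map_mul, map_mul, map_sub, hφ.alg, algebraMap_L0]
    have h4 : φ (tK f) = HahnSeries.C t3 + tau := hφ.2
    rw [h4]
  by_contra hb
  have hNR := nonRes_s0 (L := L0) G.hF.pos G.hd G.h1 G.h2
  obtain ⟨B, hB0, hBx, -, hord⟩ := fin hF.inj hF.ne ht3 (by rw [Fintype.card_fin]; exact hn) hx'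
    hκ (div_ne_zero hb hNR.2.2)
  have hs0 : s0 d ≠ 0 := by
    intro h4
    have h5 := hNR.2.1 ⟨0, by omega⟩
    unfold s0m at h5
    rw [h4, zero_mul, map_zero] at h5
    exact h5 rfl
  have hfin : (φ A0).order = 0 → False := by
    intro h4
    have h5 : ∀ i j, i ≠ j → (φ (c i) - φ (c j)).order = 0 := by
      intro i j hij
      have h6 := hord i j hij
      rw [h4, Rat.cast_zero, mul_zero, add_zero] at h6
      have h7 := (mul_eq_zero.1 h6).resolve_left hNR.2.2
      exact_mod_cast h7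
    have h6 := le_card_roots hF h4 h5
    rw [Fintype.card_fin] at h6
    omega
  have h01 : (⟨0, by omega⟩ : Fin n) ≠ ⟨1, hn⟩ := by
    intro h6
    have := congrArg Fin.val h6
    simp at this
  rcases Nat.eq_zero_or_pos (Uf f 1 t3).natDegree with h4 | h4
  · have h6 := (G.regular hφ h01).2 (spec_of_natDegree h4)
    have h7 : φ ((α ⟨0, by omega⟩ - α ⟨1, hn⟩) / (c ⟨0, by omega⟩ - c ⟨1, hn⟩)) =
        HahnSeries.C B * (HahnSeries.C t3 + tau) := by
      rw [map_div₀, map_sub, map_sub, hx' _ _ h01, hBx _ _ h01, mul_div_assoc, div_self, mul_one]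
      exact sub_ne_zero.2 fun h8 => h01 (hF.inj h8)
    have h8 : (HahnSeries.C B : L0).orderTop = 0 := by
      change (HahnSeries.single 0 B : L0).orderTop = 0
      rw [HahnSeries.orderTop_single hB0]
      rfl
    rw [h7, HahnSeries.orderTop_mul, h8, orderTop_C_add_tau ht3, add_zero] at h6
    have h9 : (1 : ℚ) ≤ 0 := by exact_mod_cast h6
    linarith
  · have h5 : 0 < (Uf f 1 t3).roots.toFinset.card := by
      rw [Finset.card_pos, Multiset.toFinset_nonempty, Ne, ← Multiset.card_eq_zero,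
        (IsAlgClosed.splits (Uf f 1 t3)).natDegree_eq_card_roots.symm]
      omega
    by_cases h6 : (Uf f 1 t3).roots.toFinset.card = 1
    · by_cases h7 : (Uf f 1 t3).natDegree = ∑ i, m i
      · exact hfin (order_A0_zero hF hm h7)
      · have hne : ∀ i j, i ≠ j → φ (c i) - φ (c j) ≠ 0 := fun i j hij =>
          sub_ne_zero.2 fun h8 => hij (hF.inj h8)
        have hr : ∀ i j, i ≠ j → (φ (c i) - φ (c j)).order =
            (φ (c ⟨0, by omega⟩) - φ (c ⟨1, hn⟩)).order := by
          intro i j hij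
          have h8 := hord i j hij
          have h9 := hord _ _ h01
          have h10 : (1 + s0 d * ((∑ l, m l : ℕ) : ℂ)) *
              (((φ (c i) - φ (c j)).order : ℂ) -
                ((φ (c ⟨0, by omega⟩) - φ (c ⟨1, hn⟩)).order : ℂ)) = 0 := by
            linear_combination h8 - h9
          have h11 := sub_eq_zero.1 ((mul_eq_zero.1 h10).resolve_left hNR.2.2)
          exact_mod_cast h11
        obtain ⟨hr0, hA, -⟩ := tangent_one hF h4.ne' h7 hr
        have h9 := hord _ _ h01
        generalize (φ (c ⟨0, by omega⟩) - φ (c ⟨1, hn⟩)).order = r at hr0 hA h9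
        rw [hA] at h9
        push_cast at h9
        have h10 : (r : ℂ) * (1 + s0 d * ((Uf f 1 t3).natDegree : ℂ)) = 0 := by
          linear_combination h9
        have h11 := (mul_eq_zero.1 h10).resolve_left (by exact_mod_cast hr0)
        have hd0 : (d : ℂ) ≠ 0 := by
          have := G.hd
          have h12 : d ≠ 0 := by omega
          exact_mod_cast h12
        have h12 : (3 : ℂ) * ((Uf f 1 t3).natDegree : ℂ) = d := by
          unfold s0 at h11
          field_simp at h11
          linear_combination -h11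
        exact h3 h6 (by exact_mod_cast h12)
    · obtain ⟨i, j, hij, h7⟩ := exists_pair hF (by omega)
      have h8 := hord i j hij
      rw [h7, Rat.cast_zero, mul_zero, zero_add] at h8
      have h9 := (mul_eq_zero.1 h8).resolve_left hs0
      exact hfin (by exact_mod_cast h9)

end

theorem SpecL.scale (hf : f.IsHomogeneous d) {a b : ℂ} (ha : a ≠ 0) (h : SpecL f a b) :
    SpecL f 1 (b / a) := by
  rcases h with h | ⟨h, h'⟩
  · left
    have h1 : (Uf f 1 (b / a)).natDegree = 0 := by
      rw [← Uf_scale_natDegree hf ha]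
      have h2 : Uf f a b = Polynomial.C (eval ![0, a, b] f) := by
        apply Polynomial.funext
        intro z
        rw [Polynomial.eval_C, Scaux.eval_Uf]
        exact h z
      rw [h2, Polynomial.natDegree_C]
    exact spec_of_natDegree h1
  · right
    rw [← Uf_scale_natDegree hf ha, ← Uf_scale_card hf ha]
    exact ⟨h, h'⟩

/-- The points of the line `x_1 = 0`. -/
theorem card_line0 (hf : f.IsHomogeneous d) (b : ℂ) :
    (Uf f 0 b).roots.toFinset.card ≤ 1 ∨
      (Uf f 0 b).roots.toFinset.card ≤ (Uf f 0 1).roots.toFinset.card := by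
  by_cases hb : b = 0
  · left
    subst hb
    rw [Finset.card_le_one]
    have h1 : ∀ z ∈ (Uf f 0 0).roots.toFinset, z = 0 := by
      intro z hz
      rw [Multiset.mem_toFinset, Polynomial.mem_roots'] at hz
      by_contra hz0
      apply hz.1
      have h2 : eval ![z, 0, 0] f = 0 := by
        rw [← Scaux.eval_Uf]
        exact hz.2
      apply Polynomial.funext
      intro w
      rw [Scaux.eval_Uf, Polynomial.eval_zero]
      have h3 := Scaux.eval_homog3 hf (w / z) z 0 0
      rw [div_mul_cancel₀ _ hz0, mul_zero, h2, mul_zero] at h3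
      exact h3
    intro x hx y hy
    rw [h1 x hx, h1 y hy]
  · right
    refine Finset.card_le_card_of_injOn (fun z => z / b) (fun z hz => ?_) (fun x _ y _ h => ?_)
    · rw [Finset.mem_coe, Multiset.mem_toFinset, Polynomial.mem_roots'] at hz ⊢
      refine ⟨fun h => hz.1 ?_, ?_⟩
      · apply Polynomial.funext
        intro w
        rw [Scaux.eval_Uf, Polynomial.eval_zero]
        have h3 := Scaux.eval_homog3 hf b (w / b) 0 1
        rw [mul_div_cancel₀ _ hb, mul_zero, mul_one, ← Scaux.eval_Uf f 0 1, h,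
          Polynomial.eval_zero, mul_zero] at h3
        exact h3
      · have h3 := Scaux.eval_homog3 hf b (z / b) 0 1
        rw [mul_div_cancel₀ _ hb, mul_zero, mul_one, ← Scaux.eval_Uf, hz.2.eq_zero] at h3
        show (Uf f 0 1).eval (z / b) = 0
        rw [Scaux.eval_Uf]
        exact (mul_eq_zero.1 h3.symm).resolve_left (pow_ne_zero _ hb)
    · exact (div_left_inj' hb).1 h

/-- **The root `-3/d`**. Let `f` be homogeneous of degree `d`, and let `p = (1, 0, 0)` be a point
of the curve `f = 0` of multiplicity `d - deg_{x_0} f` different from `2d/3` and `d/3`. If two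
lines through `p` are special, and if a third line through `p` meets the curve outside `p` in
fewer points than another line which is not tangent at `p`, but not in one point with
multiplicity `d/3`, then `-3/d` is a root of the Bernstein–Sato polynomial. -/
theorem root_special (hf : f.IsHomogeneous d) (hd : f.degreeOf 0 < d)
    (h1 : 3 * f.degreeOf 0 ≠ d) (h2 : 3 * f.degreeOf 0 ≠ 2 * d) (hs1 : SpecL f 0 1)
    (hs2 : SpecL f 1 0) {a b a' b' : ℂ} (ha : a ≠ 0) (hb : b ≠ 0)
    (hN : (Uf f a' b').natDegree = f.degreeOf 0)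
    (h2' : 2 ≤ (Uf f a' b').roots.toFinset.card)
    (hlt : (Uf f a b).roots.toFinset.card < (Uf f a' b').roots.toFinset.card)
    (h3 : (Uf f a b).roots.toFinset.card = 1 → 3 * (Uf f a b).natDegree ≠ d)
    {B : Polynomial ℂ} (hB : IsBernsteinSato f B) : B.eval (s0 d) = 0 := by
  have he : 0 < f.degreeOf 0 := by
    rw [← hN]
    by_contra h4
    have h5 : (Uf f a' b').natDegree = 0 := by omega
    rw [Polynomial.eq_C_of_natDegree_eq_zero h5] at h2'
    simp at h2'
  have h0 : f ≠ 0 := by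
    rintro rfl
    simp at he
  have ha' : a' ≠ 0 := by
    rintro rfl
    rcases hs1 with hs1 | ⟨-, hs1⟩
    · exact Uf_zero hf he hs1 b' hN
    · rcases card_line0 hf b' with h4 | h4 <;> omega
  obtain ⟨K, θ, n, c, m, A0, α, W, G, hC1, hC2⟩ := exists_glob2 hf h0 hd h1 h2 hB
  have hm : 0 < ∑ i, m i := by rw [G.sum]; exact he
  obtain ⟨φ', hφ'⟩ := exists_pl f (b' / a')
  have hn' : (Uf f 1 (b' / a')).roots.toFinset.card ≤ n := by
    have h5 := card_roots_le (G.fac hφ') hm (by
      rw [← Uf_scale_natDegree hf ha', hN, G.sum])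
    rwa [Fintype.card_fin] at h5
  rw [← Uf_scale_card hf ha'] at hn'
  refine G.thirdL hC1 hC2 he hs1 hs2 (div_ne_zero hb ha) (by omega) ?_ ?_
  · rw [← Uf_scale_card hf ha]
    omega
  · rw [← Uf_scale_card hf ha, ← Uf_scale_natDegree hf ha]
    exact h3

end MPb07157.TL
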