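import Pool.Agent.Lib.MP_b07157_agL3.Fin

/-!
# Two points: the leading terms of the differential equation
-/

noncomputable section

namespace MPb07157.TL

/-- The difference of the two equations. -/
theorem eps_sub {c : Fin 2 → L0} (hc : Function.Injective c) {A : L0}
    {m : Fin 2 → ℕ} {s b : ℂ} {κ : L0} {α : Fin 2 → L0}
    (hE : ∀ i, eps dtau c (fun i => algebraMap ℂ L0 (s * (m i : ℂ))) α A i +
      HahnSeries.C b * c i = κ) :
    dtau (α 0 - α 1) + A * (α 0 - α 1) + HahnSeries.C (s * ((∑ l, m l : ℕ) : ℂ)) *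
      ((α 0 - α 1) * (dtau (c 0 - c 1) / (c 0 - c 1))) + HahnSeries.C b * (c 0 - c 1) = 0 := by
  have hy : c 0 - c 1 ≠ 0 := sub_ne_zero.2 fun h => by
    have := hc h
    exact absurd this (by decide)
  have h0 := hE 0
  have h1 := hE 1
  have e0 : (Finset.univ.erase (0 : Fin 2)) = {1} := by decide
  have e1 : (Finset.univ.erase (1 : Fin 2)) = {0} := by decide
  rw [eps, e0, Finset.sum_singleton] at h0
  rw [eps, e1, Finset.sum_singleton] at h1
  have hq : dtau (c 1 - c 0) / (c 1 - c 0) = dtau (c 0 - c 1) / (c 0 - c 1) := by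
    have hy' : c 1 - c 0 ≠ 0 := fun h => hy (by linear_combination -h)
    have h3 : dtau (c 1 - c 0) = -dtau (c 0 - c 1) := by
      rw [map_sub, map_sub]
      ring
    rw [div_eq_div_iff hy' hy, h3]
    ring
  rw [hq] at h1
  have hs : (HahnSeries.C (s * ((∑ l, m l : ℕ) : ℂ)) : L0) =
      algebraMap ℂ L0 (s * (m 0 : ℂ)) + algebraMap ℂ L0 (s * (m 1 : ℂ)) := by
    rw [algebraMap_L0, algebraMap_L0, ← map_add, Fin.sum_univ_two]
    push_cast
    ring_nf
  rw [hs, map_sub]
  linear_combination h0 - h1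

open TLL Finaux in
/-- If the vector field does not vanish, the orders of `c_0 - c_1` and `A_0` are related. -/
theorem eps_two {c : Fin 2 → L0} (hc : Function.Injective c) {A0 : L0} (hA0 : A0 ≠ 0)
    {m : Fin 2 → ℕ} {s b : ℂ} {κ : L0} {α : Fin 2 → L0}
    (hE : ∀ i, eps dtau c (fun i => algebraMap ℂ L0 (s * (m i : ℂ))) α
      (HahnSeries.C s * (dtau A0 / A0)) i + HahnSeries.C b * c i = κ)
    (h0 : (xi c α 0 1).orderTop = 0) :
    (1 + s * ((∑ l, m l : ℕ) : ℂ)) * ((c 0 - c 1).order : ℂ) + s * (A0.order : ℂ) = 0 := by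
  have h1 := eps_sub hc hE
  have hy : c 0 - c 1 ≠ 0 := sub_ne_zero.2 fun h => by
    have := hc h
    exact absurd this (by decide)
  obtain ⟨hπ, hπ0⟩ := LLaux.logd hA0 s
  generalize hA : (HahnSeries.C s * (dtau A0 / A0) : L0) = A at h1 hπ hπ0
  have hu : α 0 - α 1 = xi c α 0 1 * (c 0 - c 1) := by
    rw [xi, div_mul_cancel₀ _ hy]
  rw [hu] at h1
  generalize xi c α 0 1 = x at h0 h1
  generalize c 0 - c 1 = y at hy h1 ⊢
  generalize s * ((∑ l, m l : ℕ) : ℂ) = σ at h1 ⊢
  have hx0 : x.orderTop = ((0 : ℚ) : WithTop ℚ) := h0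
  have hlx : Lo 0 x := lo_of_eq hx0
  have hX : x.coeff 0 ≠ 0 := coeff_ne hx0
  have hly : Lo y.order y := lo_order y
  have hldy : Lo (y.order - 1) (dtau y) := LLaux.isD.lo hly
  have hldx : Lo (-1) (dtau x) := by
    have h2 := LLaux.isD.lo hlx
    rwa [zero_sub] at h2
  have hY : y.coeff y.order ≠ 0 := coeff_ne (ord_top hy)
  -- the equation
  have h2 : dtau x * y + x * dtau y + A * (x * y) + HahnSeries.C σ * (x * dtau y) +
      HahnSeries.C b * y = 0 := by
    rw [Derivation.leibniz, smul_eq_mul, smul_eq_mul] at h1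
    have h3 : x * y * (dtau y / y) = x * dtau y := by
      field_simp
    rw [h3] at h1
    linear_combination h1
  have c1 : (dtau x * y).coeff (y.order - 1) = 0 := by
    have h3 := hldx.coeff_mul hly
    rw [show (-1 + y.order : ℚ) = y.order - 1 by ring] at h3
    rw [h3, coeff_dtau]
    norm_num
  have c2 : (x * dtau y).coeff (y.order - 1) =
      x.coeff 0 * ((y.order : ℂ) * y.coeff y.order) := by
    have h3 := hlx.coeff_mul hldy
    rw [zero_add] at h3
    rw [h3]
    congr 1
    exact LLaux.isD.coeff' y.order y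
  have c3 : (A * (x * y)).coeff (y.order - 1) =
      s * (A0.order : ℂ) * (x.coeff 0 * y.coeff y.order) := by
    have h3 := hπ.coeff_mul (hlx.mul hly)
    rw [hlx.coeff_mul hly, hπ0, show (-1 + (0 + y.order) : ℚ) = y.order - 1 by ring] at h3
    exact h3
  have c4 : y.coeff (y.order - 1) = 0 := hly _ (by linarith)
  have h3 := congrArg (fun z : L0 => z.coeff (y.order - 1)) h2
  have h4 : (dtau x * y + x * dtau y + A * (x * y) + HahnSeries.C σ * (x * dtau y) +
      HahnSeries.C b * y : L0).coeff (y.order - 1) =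
      0 + x.coeff 0 * ((y.order : ℂ) * y.coeff y.order) +
        s * (A0.order : ℂ) * (x.coeff 0 * y.coeff y.order) +
        σ * (x.coeff 0 * ((y.order : ℂ) * y.coeff y.order)) + 0 := by
    rw [HahnSeries.coeff_add, HahnSeries.coeff_add, HahnSeries.coeff_add, HahnSeries.coeff_add,
      coeff_C_mul, coeff_C_mul, c1, c2, c3, c4, mul_zero]
  have h5 := h4.symm.trans (h3.trans (HahnSeries.coeff_zero (Γ := ℚ) (R := ℂ)))
  apply mul_left_cancel₀ (mul_ne_zero hX hY)
  rw [mul_zero, ← h5]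
  ring

/-- If the vector field is zero, then `b = 0`. -/
theorem eps_zero {c : Fin 2 → L0} (hc : Function.Injective c) {A0 : L0}
    {m : Fin 2 → ℕ} {s b : ℂ} {κ : L0} {α : Fin 2 → L0}
    (hE : ∀ i, eps dtau c (fun i => algebraMap ℂ L0 (s * (m i : ℂ))) α
      (HahnSeries.C s * (dtau A0 / A0)) i + HahnSeries.C b * c i = κ)
    (h0 : α 0 = α 1) : b = 0 := by
  have h1 := eps_sub hc hE
  have hy : c 0 - c 1 ≠ 0 := sub_ne_zero.2 fun h => by
    have := hc h
    exact absurd this (by decide)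
  rw [h0, sub_self, map_zero, mul_zero, zero_mul, mul_zero, add_zero, add_zero, zero_add] at h1
  have h2 := (mul_eq_zero.1 h1).resolve_right hy
  have h3 := congrArg (fun z : L0 => z.coeff 0) h2
  rw [HahnSeries.C_apply] at h3
  have h4 : (HahnSeries.single (0 : ℚ) b : L0).coeff 0 = b := HahnSeries.coeff_single_same 0 b
  exact h4.symm.trans (h3.trans (HahnSeries.coeff_zero (Γ := ℚ) (R := ℂ)))

end MPb07157.TL
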