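import Pool.Agent.Lib.MP_b07157_agL3.G

/-!
# Generic places
-/

noncomputable section

namespace MPb07157.TL

namespace Genaux

open Gaux

theorem sum_pos {ι : Type*} (s : Finset ι) (g : ι → L0) (h : ∀ i ∈ s, 0 < (g i).orderTop) :
    0 < (∑ i ∈ s, g i).orderTop := by
  classical
  induction s using Finset.induction_on with
  | empty =>
    rw [Finset.sum_empty, HahnSeries.orderTop_zero]
    exact WithTop.coe_lt_top 0
  | insert a s ha ih =>
    rw [Finset.sum_insert ha]
    exact lt_of_lt_of_le (lt_min (h a (Finset.mem_insert_self _ _))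
      (ih fun i hi => h i (Finset.mem_insert_of_mem hi))) HahnSeries.min_orderTop_le_orderTop_add

theorem pow_pos' {y : L0} (hy : 0 < y.orderTop) {n : ℕ} (hn : 0 < n) :
    0 < (y ^ n).orderTop := by
  obtain ⟨m, rfl⟩ := Nat.exists_eq_succ_of_ne_zero hn.ne'
  rw [pow_succ, HahnSeries.orderTop_mul]
  exact Gaux.add_pos' (pow_mem (mem_RG.2 hy.le) m) hy

theorem ratfunc_mem {N : RatFunc ℂ} {t0 : ℂ} (hN : N.denom.eval t0 ≠ 0)
    (ψ : RatFunc ℂ →+* L0) (hC : ∀ z : ℂ, ψ (RatFunc.C z) = HahnSeries.C z)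
    (hX : ψ RatFunc.X = HahnSeries.C t0 + tau) : 0 ≤ (ψ N).orderTop := by
  have h3 : N * algebraMap (Polynomial ℂ) (RatFunc ℂ) N.denom =
      algebraMap (Polynomial ℂ) (RatFunc ℂ) N.num := by
    have h4 := RatFunc.num_div_denom N
    have h5 : algebraMap (Polynomial ℂ) (RatFunc ℂ) N.denom ≠ 0 :=
      RatFunc.algebraMap_ne_zero (RatFunc.denom_ne_zero N)
    exact ((div_eq_iff h5).1 h4).symm
  have h6 := congrArg (fun x => (ψ x).orderTop) h3
  simp only [map_mul, HahnSeries.orderTop_mul] at h6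
  rw [hom_poly _ hC, hom_poly _ hC, hX, orderTop_eval2 hN tau_pos, add_zero] at h6
  rw [h6]
  exact eval2_mem _ (add_mem (C_mem t0) (mem_RG.2 tau_pos.le))

/-- Almost all places are not poles. -/
theorem nonneg_generic {K' : Type} [Field K'] [Algebra (RatFunc ℂ) K']
    [FiniteDimensional (RatFunc ℂ) K'] (x : K') :
    ∃ S : Finset ℂ, ∀ (t0 : ℂ) (φ : K' →+* L0), t0 ∉ S → IsPl t0 φ →
      0 ≤ (φ x).orderTop := by
  classical
  have hint : IsIntegral (RatFunc ℂ) x := IsIntegral.of_finite _ _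
  set P := minpoly (RatFunc ℂ) x with hP
  have hmon : P.Monic := minpoly.monic hint
  refine ⟨(Finset.range P.natDegree).biUnion fun k => (P.coeff k).denom.roots.toFinset,
    fun t0 φ ht0 hφ => ?_⟩
  by_contra hcon
  push Not at hcon
  set ψ : RatFunc ℂ →+* L0 := φ.comp (algebraMap (RatFunc ℂ) K') with hψ
  have hc : ∀ k ∈ Finset.range P.natDegree, 0 ≤ (ψ (P.coeff k)).orderTop := by
    intro k hk
    refine ratfunc_mem (t0 := t0) ?_ ψ hφ.1 hφ.2
    intro h1
    apply ht0
    rw [Finset.mem_biUnion]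
    refine ⟨k, hk, ?_⟩
    rw [Multiset.mem_toFinset, Polynomial.mem_roots (RatFunc.denom_ne_zero _)]
    exact h1
  have hx0 : φ x ≠ 0 := by
    intro h1
    rw [h1, HahnSeries.orderTop_zero] at hcon
    exact absurd hcon (not_lt.2 le_top)
  set y : L0 := (φ x)⁻¹ with hy
  have hxy : φ x * y = 1 := mul_inv_cancel₀ hx0
  have hypos : 0 < y.orderTop := by
    have h1 := congrArg HahnSeries.orderTop hxy
    rw [HahnSeries.orderTop_mul, HahnSeries.orderTop_one] at h1
    by_contra h2
    push Not at h2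
    have h3 : (φ x).orderTop + y.orderTop < 0 := by
      have h4 : y.orderTop ≠ ⊤ := by
        intro h5
        rw [h5] at h2
        exact absurd h2 (not_le.2 (WithTop.coe_lt_top 0))
      have h6 : (φ x).orderTop ≠ ⊤ := ne_of_lt (lt_of_lt_of_le hcon le_top)
      lift y.orderTop to ℚ using h4 with b hb
      lift (φ x).orderTop to ℚ using h6 with a ha
      norm_cast at hcon h2 ⊢
      linarith
    rw [h1] at h3
    exact lt_irrefl _ h3
  have hrel : ∑ k ∈ Finset.range (P.natDegree + 1), ψ (P.coeff k) * (φ x) ^ k = 0 := by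
    rw [← Polynomial.eval₂_eq_sum_range (p := P) (f := ψ) (φ x), hψ, ← Polynomial.hom_eval₂]
    have h1 : Polynomial.aeval x P = 0 := minpoly.aeval _ _
    rw [Polynomial.aeval_def] at h1
    rw [h1, map_zero]
  have hrel2 : ∑ k ∈ Finset.range P.natDegree, ψ (P.coeff k) * y ^ (P.natDegree - k) + 1 = 0 := by
    have h1 := congrArg (fun z => z * y ^ P.natDegree) hrel
    simp only [Finset.sum_mul, zero_mul] at h1
    rw [Finset.sum_range_succ, Polynomial.Monic.coeff_natDegree hmon, map_one, one_mul,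
      ← mul_pow, hxy, one_pow] at h1
    rw [← h1]
    congr 1
    refine Finset.sum_congr rfl fun k hk => ?_
    have h2 : k < P.natDegree := Finset.mem_range.1 hk
    have h3 : y ^ P.natDegree = y ^ k * y ^ (P.natDegree - k) := by
      rw [← pow_add]
      congr 1
      omega
    rw [h3]
    calc ψ (P.coeff k) * y ^ (P.natDegree - k) =
        ψ (P.coeff k) * (φ x * y) ^ k * y ^ (P.natDegree - k) := by rw [hxy, one_pow, mul_one]
      _ = ψ (P.coeff k) * φ x ^ k * (y ^ k * y ^ (P.natDegree - k)) := by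
        rw [mul_pow]
        ring
  have h1 : 0 < (∑ k ∈ Finset.range P.natDegree,
      ψ (P.coeff k) * y ^ (P.natDegree - k)).orderTop := by
    refine sum_pos _ _ fun k hk => ?_
    rw [HahnSeries.orderTop_mul]
    exact Gaux.add_pos' (hc k hk)
      (pow_pos' hypos (by have := Finset.mem_range.1 hk; omega))
  rw [eq_neg_of_add_eq_zero_left hrel2, HahnSeries.orderTop_neg, HahnSeries.orderTop_one] at h1
  exact lt_irrefl _ h1

end Genaux

open Genaux in
/-- The order of a function is zero at almost all places. -/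
theorem order_generic {K' : Type} [Field K'] [Algebra (RatFunc ℂ) K']
    [FiniteDimensional (RatFunc ℂ) K'] (x : K') (hx : x ≠ 0) :
    ∃ S : Finset ℂ, ∀ (t0 : ℂ) (φ : K' →+* L0), t0 ∉ S → IsPl t0 φ → (φ x).order = 0 := by
  classical
  obtain ⟨S, hS⟩ := nonneg_generic x
  obtain ⟨S', hS'⟩ := nonneg_generic x⁻¹
  refine ⟨S ∪ S', fun t0 φ ht0 hφ => ?_⟩
  rw [Finset.notMem_union] at ht0
  have h1 := hS t0 φ ht0.1 hφ
  have h2 := hS' t0 φ ht0.2 hφ
  have h3 : φ x ≠ 0 := (map_ne_zero φ).2 hx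
  have h4 : φ x⁻¹ ≠ 0 := (map_ne_zero φ).2 (inv_ne_zero hx)
  have h5 : (φ x).orderTop + (φ x⁻¹).orderTop = 0 := by
    rw [← HahnSeries.orderTop_mul, ← map_mul, mul_inv_cancel₀ hx, map_one,
      HahnSeries.orderTop_one]
  rw [← HahnSeries.order_eq_orderTop_of_ne_zero h3] at h1 h5
  rw [← HahnSeries.order_eq_orderTop_of_ne_zero h4] at h2 h5
  norm_cast at h1 h2 h5
  linarith

end MPb07157.TL
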