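import Pool.Agent.Lib.MP_b07157_agL3.Glob

/-!
# Two points: the vector field is rational
-/

noncomputable section

namespace MPb07157.TL

open MvPolynomial

variable {f : MvPolynomial (Fin 3) ℂ} {d : ℕ} {b : Polynomial ℂ} {K : ℕ}
  {θ : Fin 3 → MvPolynomial (Fin 3) (Polynomial ℂ)} {m : Fin 2 → ℕ} {A0 : KK f}
  {W : WF (KK f) (RatFunc (KK f))}

namespace Inv2aux

/-- The multiplicity of the root `c i`. -/
theorem mult {L : Type} [Field L] [Algebra ℂ L] {t : L} {c : Fin 2 → L} {A0 : L}
    (hF : Fac f t c m A0) (i : Fin 2) : (PL f t).rootMultiplicity (c i) = m i := by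
  have h0 : ∏ i, (Polynomial.X - Polynomial.C (c i)) ^ m i ≠ 0 :=
    Finset.prod_ne_zero_iff.2 fun i _ => pow_ne_zero _ (Polynomial.X_sub_C_ne_zero _)
  have h1 : Polynomial.C A0 * ∏ i, (Polynomial.X - Polynomial.C (c i)) ^ m i ≠ 0 :=
    mul_ne_zero (Polynomial.C_ne_zero.2 hF.ne) h0
  have hne : ∀ i j : Fin 2, i ≠ j →
      ((Polynomial.X - Polynomial.C (c j)) ^ m j).rootMultiplicity (c i) = 0 := by
    intro i j hij
    refine Polynomial.rootMultiplicity_eq_zero ?_
    rw [Polynomial.IsRoot, Polynomial.eval_pow, Polynomial.eval_sub, Polynomial.eval_X,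
      Polynomial.eval_C]
    exact pow_ne_zero _ (sub_ne_zero.2 fun h => hij (hF.inj h))
  have hC : (Polynomial.C A0).rootMultiplicity (c i) = 0 := by
    refine Polynomial.rootMultiplicity_eq_zero ?_
    rw [Polynomial.IsRoot, Polynomial.eval_C]
    exact hF.ne
  rw [hF.eq, Polynomial.rootMultiplicity_mul h1, hC, zero_add]
  rw [Fin.prod_univ_two] at h0 ⊢
  rw [Polynomial.rootMultiplicity_mul h0]
  fin_cases i
  · show Polynomial.rootMultiplicity (c 0) _ + Polynomial.rootMultiplicity (c 0) _ = m 0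
    rw [hne 0 1 (by decide), add_zero, Polynomial.rootMultiplicity_X_sub_C_pow]
  · show Polynomial.rootMultiplicity (c 1) _ + Polynomial.rootMultiplicity (c 1) _ = m 1
    rw [hne 1 0 (by decide), zero_add, Polynomial.rootMultiplicity_X_sub_C_pow]

/-- The roots are the points `c i`. -/
theorem root {L : Type} [Field L] [Algebra ℂ L] {t : L} {c : Fin 2 → L} {A0 : L}
    (hF : Fac f t c m A0) {x : L} (hx : (PL f t).eval x = 0) : x = c 0 ∨ x = c 1 := by
  rw [hF.eq, Polynomial.eval_mul, Polynomial.eval_C, Fin.prod_univ_two, Polynomial.eval_mul,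
    Polynomial.eval_pow, Polynomial.eval_pow, Polynomial.eval_sub, Polynomial.eval_sub,
    Polynomial.eval_X, Polynomial.eval_C, Polynomial.eval_C] at hx
  rcases mul_eq_zero.1 hx with h | h
  · exact absurd h hF.ne
  rcases mul_eq_zero.1 h with h | h
  · left
    exact sub_eq_zero.1 (pow_eq_zero_iff (hF.pos 0).ne' |>.1 h)
  · right
    exact sub_eq_zero.1 (pow_eq_zero_iff (hF.pos 1).ne' |>.1 h)

theorem eval_root {L : Type} [Field L] [Algebra ℂ L] {t : L} {c : Fin 2 → L} {A0 : L}
    (hF : Fac f t c m A0) (i : Fin 2) : (PL f t).eval (c i) = 0 := by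
  have h1 : 0 < (PL f t).rootMultiplicity (c i) := by
    rw [mult hF]
    exact hF.pos i
  exact (Polynomial.rootMultiplicity_pos' .. |>.1 h1).2

/-- The class of the vector field, reindexed. -/
theorem cl_comp {L F : Type} [Field L] [Field F] [Algebra L F] [Algebra ℂ L] [Algebra ℂ F]
    {W : WF L F} {t : L} {c : Fin 2 → L} {α : Fin 2 → L} (h : Cl f d K θ W t c m α)
    (e : Fin 2 ≃ Fin 2) :
    Cl f d K θ W t (fun i => c (e i)) (fun i => m (e i)) (fun i => α (e i)) := by
  obtain ⟨r, hr, h1⟩ := h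
  have hlg : ∀ a : Fin 2 → L, lg W (fun i => c (e i)) (fun i => a (e i)) = lg W c a := by
    intro a
    unfold lg
    exact e.sum_comp (fun i => algebraMap L F (a i) * (W.w - algebraMap L F (c i))⁻¹)
  refine ⟨r, ?_, ?_⟩
  · unfold SS at hr ⊢
    have h2 : Set.range (fun i => (W.w - algebraMap L F (c (e i)))⁻¹) =
        Set.range (fun i => (W.w - algebraMap L F (c i))⁻¹) :=
      e.surjective.range_comp (fun i => (W.w - algebraMap L F (c i))⁻¹)
    rw [h2]
    exact hr
  · rw [h1]
    have h3 := hlg (fun i => s0m d m i * α i)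
    have h4 := hlg (s0m d m)
    rw [← h3, ← h4]
    rfl

/-- Uniqueness of the class up to a constant. -/
theorem cl_uniq {L F : Type} [Field L] [Field F] [Algebra L F] [Algebra ℂ L] [Algebra ℂ F]
    [CharZero L] {W : WF L F} {t : L} {c : Fin 2 → L} {α β : Fin 2 → L}
    (hc : Function.Injective c) (hσ : NonRes (s0m d m : Fin 2 → L))
    (hσ0 : ∀ i, (s0m d m i : L) ≠ 0) (h : Cl f d K θ W t c m α) (h' : Cl f d K θ W t c m β) :
    α 0 - α 1 = β 0 - β 1 := by
  obtain ⟨r, hr, h1⟩ := h
  obtain ⟨r', hr', h1'⟩ := h'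
  rw [h1] at h1'
  obtain ⟨κ, -, hκ⟩ := uniq W hc hσ (a := fun i => s0m d m i * α i - s0m d m i * β i)
    (R := r' - r) (sub_mem hr' hr) (by
      have e1 : lg W c (fun i => s0m d m i * α i - s0m d m i * β i) =
          lg W c (fun i => s0m d m i * α i) - lg W c (fun i => s0m d m i * β i) := by
        unfold lg
        rw [← Finset.sum_sub_distrib]
        refine Finset.sum_congr rfl fun i _ => ?_
        rw [map_sub, sub_mul]
      have e2 : nb W.dw (lg W c (s0m d m)) (r' - r) =
          nb W.dw (lg W c (s0m d m)) r' - nb W.dw (lg W c (s0m d m)) r := by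
        unfold nb
        rw [map_sub]
        ring
      rw [e1, e2]
      linear_combination h1')
  have h2 : ∀ i, α i - β i = κ := by
    intro i
    apply mul_left_cancel₀ (hσ0 i)
    rw [← hκ i]
    ring
  have h3 := h2 0
  have h4 := h2 1
  linear_combination h3 - h4

end Inv2aux

open Inv2aux

/-- The Galois group permutes the roots. -/
theorem gal_perm {c : Fin 2 → KK f} (hF : Fac f (tK f) c m A0)
    (σ : KK f ≃ₐ[RatFunc ℂ] KK f) :
    (σ (c 0) = c 0 ∧ σ (c 1) = c 1) ∨ (σ (c 0) = c 1 ∧ σ (c 1) = c 0 ∧ m 0 = m 1) := by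
  have hσt : (σ : KK f →+* KK f) (tK f) = tK f := σ.commutes _
  have hF' := hF.map (σ : KK f →+* KK f) (fun z => by
    rw [algC]
    exact σ.commutes _)
  rw [hσt] at hF'
  have h0 := root hF (eval_root hF' 0)
  have h1 := root hF (eval_root hF' 1)
  change σ (c 0) = c 0 ∨ σ (c 0) = c 1 at h0
  change σ (c 1) = c 0 ∨ σ (c 1) = c 1 at h1
  have hne : σ (c 0) ≠ σ (c 1) := fun h => by
    have h2 := hF.inj (σ.injective h)
    exact absurd h2 (by decide)
  rcases h0 with h0 | h0
  · rcases h1 with h1 | h1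
    · exact absurd (h0.trans h1.symm) hne
    · exact Or.inl ⟨h0, h1⟩
  · rcases h1 with h1 | h1
    · refine Or.inr ⟨h0, h1, ?_⟩
      have h2 := mult hF' 0
      change (PL f (tK f)).rootMultiplicity (σ (c 0)) = m 0 at h2
      rw [h0, mult hF 1] at h2
      exact h2.symm
    · exact absurd (h0.trans h1.symm) hne

/-- The elements fixed by the Galois group are rational. -/
theorem Inv2aux.rational {x : KK f} (h : ∀ σ : KK f ≃ₐ[RatFunc ℂ] KK f, σ x = x) :
    ∃ q : RatFunc ℂ, x = algebraMap (RatFunc ℂ) (KK f) q := by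
  obtain ⟨q, hq⟩ := (IsGalois.mem_range_algebraMap_iff_fixed x).2 h
  exact ⟨q, hq.symm⟩

/-- The square of the difference of the roots is a rational function. -/
theorem sq_rational {c : Fin 2 → KK f} (hF : Fac f (tK f) c m A0) :
    ∃ q : RatFunc ℂ, (c 0 - c 1) ^ 2 = algebraMap (RatFunc ℂ) (KK f) q := by
  refine rational fun σ => ?_
  rw [map_pow, map_sub]
  rcases gal_perm hF σ with ⟨h0, h1⟩ | ⟨h0, h1, -⟩
  · rw [h0, h1]
  · rw [h0, h1]
    ring

/-- The difference quotient is a rational function. -/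
theorem Glob.inv2 {c : Fin 2 → KK f} {α : Fin 2 → KK f} (G : Glob f d b K θ c m A0 α W) :
    ∃ q : RatFunc ℂ, (α 0 - α 1) / (c 0 - c 1) = algebraMap (RatFunc ℂ) (KK f) q := by
  refine rational fun σ => ?_
  have hσt : (σ : KK f →+* KK f) (tK f) = tK f := σ.commutes _
  have hcl := G.cl.map W (σ : KK f →+* KK f) (fun z => by
    rw [algC]
    exact σ.commutes _)
  rw [hσt] at hcl
  obtain ⟨hσ, hσ0, -⟩ := nonRes_s0 (L := KK f) G.hF.pos G.hd G.h1 G.h2
  rw [map_div₀, map_sub, map_sub]
  rcases gal_perm G.hF σ with ⟨h0, h1⟩ | ⟨h0, h1, hm⟩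
  · have hc : (fun i => (σ : KK f →+* KK f) (c i)) = c := by
      funext i
      fin_cases i
      · exact h0
      · exact h1
    rw [hc] at hcl
    have h2 := cl_uniq G.hF.inj hσ hσ0 G.cl hcl
    change α 0 - α 1 = σ (α 0) - σ (α 1) at h2
    rw [h0, h1, ← h2]
  · have h2 := cl_comp hcl (Equiv.swap 0 1)
    have hc : (fun i => (fun i => (σ : KK f →+* KK f) (c i)) ((Equiv.swap 0 1 : Fin 2 ≃ Fin 2) i)) =
        c := by
      funext i
      fin_cases i
      · exact h1
      · exact h0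
    have hmm : (fun i => m ((Equiv.swap 0 1 : Fin 2 ≃ Fin 2) i)) = m := by
      funext i
      fin_cases i
      · exact hm.symm
      · exact hm
    rw [hc, hmm] at h2
    have h3 := cl_uniq G.hF.inj hσ hσ0 G.cl h2
    change α 0 - α 1 = σ (α 1) - σ (α 0) at h3
    rw [h0, h1, ← neg_sub (σ (α 1)) (σ (α 0)), ← h3, ← neg_sub (c 0) (c 1), neg_div_neg_eq]

end MPb07157.TL
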