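import Pool.Agent.Lib.MP_b07157_agL3.Sc
import Pool.Agent.Lib.MP_b07157_agY.Ym8

/-!
# Linear changes of `x_1` and `x_2`
-/

noncomputable section

namespace MPb07157.TL

open MvPolynomial

/-- The substitution of `p x_1 + q x_2` and `r x_1 + s x_2` for `x_1` and `x_2`. -/
def lin (p q r s : ℂ) : MvPolynomial (Fin 3) ℂ →ₐ[ℂ] MvPolynomial (Fin 3) ℂ :=
  aeval ![X 0, C p * X 1 + C q * X 2, C r * X 1 + C s * X 2]

variable {f : MvPolynomial (Fin 3) ℂ} {d : ℕ} {p q r s : ℂ}

theorem Uf_lin (f : MvPolynomial (Fin 3) ℂ) (p q r s a b : ℂ) :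
    Uf (lin p q r s f) a b = Uf f (p * a + q * b) (r * a + s * b) := by
  have h : (aeval ![Polynomial.X, Polynomial.C a, Polynomial.C b] :
      MvPolynomial (Fin 3) ℂ →ₐ[ℂ] Polynomial ℂ).comp (lin p q r s) =
      aeval ![Polynomial.X, Polynomial.C (p * a + q * b), Polynomial.C (r * a + s * b)] := by
    refine MvPolynomial.algHom_ext fun i => ?_
    rw [AlgHom.comp_apply, lin, aeval_X, aeval_X]
    fin_cases i
    · simp
    · simp
    · simp
  exact congrArg (fun φ => φ f) h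

theorem lin_hom (hf : f.IsHomogeneous d) : (lin p q r s f).IsHomogeneous d := by
  have h : (lin p q r s f).IsHomogeneous (1 * d) := hf.aeval _ (fun i => by
    fin_cases i
    · exact isHomogeneous_X ℂ 0
    · exact ((isHomogeneous_X ℂ 1).C_mul p).add ((isHomogeneous_X ℂ 2).C_mul q)
    · exact ((isHomogeneous_X ℂ 1).C_mul r).add ((isHomogeneous_X ℂ 2).C_mul s))
  rw [one_mul] at h
  exact h

namespace LinAux

theorem degreeOf_lin_le (f : MvPolynomial (Fin 3) ℂ) (p q r s : ℂ) :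
    (lin p q r s f).degreeOf 0 ≤ f.degreeOf 0 := by
  have hl : ∀ a b : ℂ, (C a * X 1 + C b * X 2 : MvPolynomial (Fin 3) ℂ).degreeOf 0 = 0 := by
    intro a b
    apply Nat.le_zero.1
    refine (degreeOf_add_le _ _ _).trans (max_le ?_ ?_)
    · refine (degreeOf_C_mul_le _ _ _).trans ?_
      rw [degreeOf_X_of_ne (show (0 : Fin 3) ≠ 1 by decide)]
    · refine (degreeOf_C_mul_le _ _ _).trans ?_
      rw [degreeOf_X_of_ne (show (0 : Fin 3) ≠ 2 by decide)]
  have h1 : lin p q r s f = ∑ v ∈ f.support, C (coeff v f) * (X 0 ^ v 0 *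
      (C p * X 1 + C q * X 2) ^ v 1 * (C r * X 1 + C s * X 2) ^ v 2) := by
    rw [lin, aeval_def, eval₂_eq']
    refine Finset.sum_congr rfl fun v _ => ?_
    rw [Fin.prod_univ_three]
    rfl
  rw [h1]
  refine (degreeOf_sum_le _ _ _).trans (Finset.sup_le fun v hv => ?_)
  refine (degreeOf_C_mul_le _ _ _).trans ((degreeOf_mul_le _ _ _).trans ?_)
  have h2 : ((X 0 : MvPolynomial (Fin 3) ℂ) ^ v 0 * (C p * X 1 + C q * X 2) ^ v 1).degreeOf 0 ≤
      v 0 := by
    refine (degreeOf_mul_le _ _ _).trans ?_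
    have h3 := degreeOf_pow_le (0 : Fin 3) (X 0 : MvPolynomial (Fin 3) ℂ) (v 0)
    have h4 := degreeOf_pow_le (0 : Fin 3) (C p * X 1 + C q * X 2 : MvPolynomial (Fin 3) ℂ) (v 1)
    rw [hl] at h4
    rw [degreeOf_X_self] at h3
    omega
  have h5 := degreeOf_pow_le (0 : Fin 3) (C r * X 1 + C s * X 2 : MvPolynomial (Fin 3) ℂ) (v 2)
  rw [hl] at h5
  have h6 : v 0 ≤ f.degreeOf 0 := monomial_le_degreeOf 0 hv
  omega

theorem lin_lin (f : MvPolynomial (Fin 3) ℂ) (p q r s p' q' r' s' : ℂ) :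
    lin p q r s (lin p' q' r' s' f) =
      lin (p' * p + q' * r) (p' * q + q' * s) (r' * p + s' * r) (r' * q + s' * s) f := by
  have h : (lin p q r s).comp (lin p' q' r' s') =
      lin (p' * p + q' * r) (p' * q + q' * s) (r' * p + s' * r) (r' * q + s' * s) := by
    refine MvPolynomial.algHom_ext fun i => ?_
    rw [AlgHom.comp_apply]
    unfold lin
    rw [aeval_X, aeval_X]
    fin_cases i
    · simp
    · simp
      ring
    · simp
      ring
  exact congrArg (fun φ => φ f) h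

theorem lin_id (f : MvPolynomial (Fin 3) ℂ) : lin 1 0 0 1 f = f := by
  have h : lin 1 0 0 1 = AlgHom.id ℂ _ := by
    refine MvPolynomial.algHom_ext fun i => ?_
    unfold lin
    rw [aeval_X]
    fin_cases i
    · simp
    · simp
    · simp
  exact congrArg (fun φ => φ f) h

theorem lin_left (hΔ : p * s - q * r ≠ 0) (f : MvPolynomial (Fin 3) ℂ) :
    lin p q r s (lin (s / (p * s - q * r)) (-q / (p * s - q * r)) (-r / (p * s - q * r))
      (p / (p * s - q * r)) f) = f := by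
  have h1 : s / (p * s - q * r) * p + -q / (p * s - q * r) * r = 1 := by
    rw [div_mul_eq_mul_div, div_mul_eq_mul_div, ← add_div, div_eq_one_iff_eq hΔ]
    ring
  have h2 : s / (p * s - q * r) * q + -q / (p * s - q * r) * s = 0 := by
    field_simp
    ring
  have h3 : -r / (p * s - q * r) * p + p / (p * s - q * r) * r = 0 := by
    field_simp
    ring
  have h4 : -r / (p * s - q * r) * q + p / (p * s - q * r) * s = 1 := by
    rw [div_mul_eq_mul_div, div_mul_eq_mul_div, ← add_div, div_eq_one_iff_eq hΔ]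
    ring
  rw [lin_lin, h1, h2, h3, h4, lin_id]

theorem lin_right (hΔ : p * s - q * r ≠ 0) (f : MvPolynomial (Fin 3) ℂ) :
    lin (s / (p * s - q * r)) (-q / (p * s - q * r)) (-r / (p * s - q * r))
      (p / (p * s - q * r)) (lin p q r s f) = f := by
  have h1 : p * (s / (p * s - q * r)) + q * (-r / (p * s - q * r)) = 1 := by
    rw [← mul_div_assoc, ← mul_div_assoc, ← add_div, div_eq_one_iff_eq hΔ]
    ring
  have h2 : p * (-q / (p * s - q * r)) + q * (p / (p * s - q * r)) = 0 := by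
    field_simp
    ring
  have h3 : r * (s / (p * s - q * r)) + s * (-r / (p * s - q * r)) = 0 := by
    field_simp
    ring
  have h4 : r * (-q / (p * s - q * r)) + s * (p / (p * s - q * r)) = 1 := by
    rw [← mul_div_assoc, ← mul_div_assoc, ← add_div, div_eq_one_iff_eq hΔ]
    ring
  rw [lin_lin, h1, h2, h3, h4, lin_id]

end LinAux

open LinAux

theorem lin_degreeOf (hΔ : p * s - q * r ≠ 0) :
    (lin p q r s f).degreeOf 0 = f.degreeOf 0 := by
  refine le_antisymm (degreeOf_lin_le f p q r s) ?_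
  conv_lhs => rw [← lin_right hΔ f]
  exact degreeOf_lin_le _ _ _ _ _

/-- The substitution is an automorphism. -/
theorem exists_linEquiv (hΔ : p * s - q * r ≠ 0) :
    ∃ e : MvPolynomial (Fin 3) ℂ ≃ₐ[ℂ] MvPolynomial (Fin 3) ℂ, ∀ g, e g = lin p q r s g := by
  refine ⟨AlgEquiv.ofAlgHom (lin p q r s) (lin (s / (p * s - q * r)) (-q / (p * s - q * r))
    (-r / (p * s - q * r)) (p / (p * s - q * r))) ?_ ?_, fun g => rfl⟩
  · exact AlgHom.ext fun g => lin_left hΔ g
  · exact AlgHom.ext fun g => lin_right hΔ g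

theorem lin_comp (hΔ : p * s - q * r ≠ 0)
    (h : ∀ (g : MvPolynomial (Fin 3) ℂ) (k : ℕ), Irreducible g → g ^ k ∣ f →
      ¬ g ^ (k + 1) ∣ f → 3 * k ≠ d) (g : MvPolynomial (Fin 3) ℂ) (k : ℕ) (hg : Irreducible g)
    (h1 : g ^ k ∣ lin p q r s f) (h2 : ¬ g ^ (k + 1) ∣ lin p q r s f) : 3 * k ≠ d := by
  obtain ⟨e, he⟩ := exists_linEquiv hΔ
  have h3 : ∀ k, (e.symm g) ^ k ∣ f ↔ g ^ k ∣ lin p q r s f := by
    intro k
    rw [← he, ← map_dvd_iff e, map_pow, AlgEquiv.apply_symm_apply]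
  have hg' : Irreducible (e.symm g) := (MulEquiv.irreducible_iff e.symm).2 hg
  exact h (e.symm g) k hg' ((h3 k).2 h1) (fun h4 => h2 ((h3 (k + 1)).1 h4))

theorem lin_bernstein (hΔ : p * s - q * r ≠ 0) {B : Polynomial ℂ} (hB : IsBernsteinSato f B) :
    IsBernsteinSato (lin p q r s f) B := by
  obtain ⟨e, he⟩ := exists_linEquiv hΔ
  rw [← he]
  exact Alp.isBernsteinSato_equiv e hB

end MPb07157.TL
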