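import Pool.Agent.Lib.MP_b07157_agL3.Shr
import Pool.Agent.Lib.MP_b07157_agL3.Gen
import Pool.Agent.Lib.MP_b07157_agL3.Lin
import Pool.Agent.Lib.MP_b07157_agL3.Eq2
import Pool.Agent.Lib.MP_b07157_agL3.Inv2

/-!
# Lines which meet the curve in at most two points outside `p`
-/

noncomputable section

namespace MPb07157.TL

open MvPolynomial

variable {f : MvPolynomial (Fin 3) ℂ} {d : ℕ}

/-- The line through `(1, 0, 0)` and `(0, a, b)` is not tangent at `(1, 0, 0)` and meets the curve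
in two further points. -/
def Ns (f : MvPolynomial (Fin 3) ℂ) (a b : ℂ) : Prop :=
  (Uf f a b).natDegree = f.degreeOf 0 ∧ (Uf f a b).roots.toFinset.card = 2

theorem ns_pos {a b : ℂ} (h : Ns f a b) : 0 < f.degreeOf 0 := by
  rw [← h.1]
  by_contra h4
  have h5 : (Uf f a b).natDegree = 0 := by omega
  have h6 := h.2
  rw [Polynomial.eq_C_of_natDegree_eq_zero h5] at h6
  simp at h6

theorem ns_scale (hf : f.IsHomogeneous d) {a b : ℂ} (ha : a ≠ 0) : Ns f a b ↔ Ns f 1 (b / a) := by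
  unfold Ns
  rw [Uf_scale_natDegree hf ha, Uf_scale_card hf ha]

theorem ns_lin {p q r s : ℂ} (hΔ : p * s - q * r ≠ 0) (a b : ℂ) :
    Ns (lin p q r s f) a b ↔ Ns f (p * a + q * b) (r * a + s * b) := by
  unfold Ns
  rw [Uf_lin, lin_degreeOf hΔ]

theorem ns_scale0 (hf : f.IsHomogeneous d) {b : ℂ} (hb : b ≠ 0) : Ns f 0 b ↔ Ns f 0 1 := by
  have h1 : (0 : ℂ) * 0 - 1 * 1 ≠ 0 := by norm_num
  have h2 : ∀ b : ℂ, Ns (lin 0 1 1 0 f) b 0 ↔ Ns f 0 b := by
    intro b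
    rw [ns_lin h1]
    simp only [zero_mul, one_mul, add_zero, mul_zero]
  rw [← h2, ns_scale (lin_hom hf) hb, zero_div, h2]

section

variable {t0 : ℂ} {c : Fin 2 → L0} {m : Fin 2 → ℕ} {A0 : L0}

theorem order_of_ns (h : Fac f (HahnSeries.C t0 + tau) c m A0) (hs : ∑ i, m i = f.degreeOf 0)
    (hn : Ns f 1 t0) : A0.order = 0 ∧ (c 0 - c 1).order = 0 := by
  have he := ns_pos hn
  refine ⟨order_A0_zero h (by rw [hs]; exact he) (by rw [hs]; exact hn.1), ?_⟩
  obtain ⟨i, j, hij, h1⟩ := exists_pair h (by rw [hn.2])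
  have h2 : (c 0 - c 1).order = (c 1 - c 0).order := by
    rw [← HahnSeries.order_neg, neg_sub]
  fin_cases i <;> fin_cases j
  · exact absurd rfl hij
  · exact h1
  · rw [h2]
    exact h1
  · exact absurd rfl hij

end

section

variable {ι : Type} [Fintype ι] [DecidableEq ι] {t0 : ℂ} {c : ι → L0} {m : ι → ℕ} {A0 : L0}

theorem natDegree_of_order (h : Fac f (HahnSeries.C t0 + tau) c m A0)
    (hs : ∑ i, m i = f.degreeOf 0) (hA : A0.order = 0) :
    (Uf f 1 t0).natDegree = f.degreeOf 0 := by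
  refine le_antisymm (natDegree_Uf_le f 1 t0) ?_
  rw [← hs]
  apply Polynomial.le_natDegree_of_ne_zero
  intro h1
  have h2 := Zb.rd_PL f t0 (∑ i, m i)
  rw [(Zb.coeff_top h).1, h1, Zb.rd_zero_iff, Zb.orderTop_eq_zero h.ne hA] at h2
  exact lt_irrefl _ h2

end

theorem exists_ns {n : ℕ} {c : Fin n → KK f} {m : Fin n → ℕ} {A0 : KK f}
    (hF : Fac f (tK f) c m A0) (hs : ∑ i, m i = f.degreeOf 0) (S1 : Finset ℂ) :
    ∃ t0 : ℂ, t0 ∉ S1 ∧ (Uf f 1 t0).natDegree = f.degreeOf 0 ∧ n ≤ (Uf f 1 t0).roots.toFinset.card := by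
  classical
  obtain ⟨S0, hS0⟩ := order_generic A0 hF.ne
  have h1 : ∀ i j : Fin n, ∃ S : Finset ℂ, ∀ (t0 : ℂ) (φ : KK f →+* L0), t0 ∉ S → IsPl t0 φ →
      i ≠ j → (φ (c i) - φ (c j)).order = 0 := by
    intro i j
    by_cases hij : i = j
    · exact ⟨∅, fun _ _ _ _ h => absurd hij h⟩
    · obtain ⟨S, hS⟩ := order_generic (c i - c j) (sub_ne_zero.2 fun h => hij (hF.inj h))
      refine ⟨S, fun t0 φ h2 h3 _ => ?_⟩
      rw [← map_sub]
      exact hS t0 φ h2 h3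
  choose S hS using h1
  obtain ⟨t0, ht0⟩ := Infinite.exists_notMem_finset
    (S1 ∪ (S0 ∪ Finset.univ.biUnion fun i => Finset.univ.biUnion fun j => S i j))
  rw [Finset.mem_union, not_or, Finset.mem_union, not_or] at ht0
  obtain ⟨φ, hφ⟩ := exists_pl f t0
  have hFφ := Glob.facL hF hφ
  have hA := hS0 t0 φ ht0.2.1 hφ
  refine ⟨t0, ht0.1, natDegree_of_order hFφ hs hA, ?_⟩
  have h2 := le_card_roots hFφ hA (fun i j hij => hS i j t0 φ (fun h => ht0.2.2
    (Finset.mem_biUnion.2 ⟨i, Finset.mem_univ i,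
      Finset.mem_biUnion.2 ⟨j, Finset.mem_univ j, h⟩⟩)) hφ hij)
  rwa [Fintype.card_fin] at h2

theorem n_eq_two {n : ℕ} {c : Fin n → KK f} {m : Fin n → ℕ} {A0 : KK f}
    (hF : Fac f (tK f) c m A0) (hs : ∑ i, m i = f.degreeOf 0)
    (hr : ∀ a b, (Uf f a b).roots.toFinset.card ≤ 2) (hN : ∃ t, Ns f 1 t) : n = 2 := by
  obtain ⟨t0, -, -, h1⟩ := exists_ns hF hs ∅
  obtain ⟨t, ht⟩ := hN
  obtain ⟨φ, hφ⟩ := exists_pl f t
  have h2 := card_roots_le (Glob.facL hF hφ) (by rw [hs]; exact ns_pos ht)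
    (by rw [hs]; exact ht.1)
  rw [Fintype.card_fin, ht.2] at h2
  have := hr 1 t0
  omega

theorem glob_regular_inf0 {b : Polynomial ℂ} {K : ℕ}
    {θ : Fin 3 → MvPolynomial (Fin 3) (Polynomial ℂ)} {n : ℕ}
    {c : Fin n → KK f} {m : Fin n → ℕ} {A0 : KK f} {α : Fin n → KK f}
    {W : WF (KK f) (RatFunc (KK f))} (G : Glob f d b K θ c m A0 α W) {φ : KK f →+* L0}
    (hφ : IsPlInf φ) {i j : Fin n} (hij : i ≠ j) :
    ((-2 : ℚ) : WithTop ℚ) ≤ (φ ((α i - α j) / (c i - c j))).orderTop := by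
  obtain ⟨W0⟩ := exists_WF0
  have h1 := G.hF.map φ hφ.alg
  have h2 := G.cl.map W0 φ hφ.alg
  unfold tK at h1 h2
  rw [hφ.2] at h1 h2
  have h3 := TL.regular_inf0 G.hf G.h W0 h1 G.hd G.h1 G.h2 h2 hij
  unfold xi at h3
  rwa [← map_sub, ← map_sub, ← map_div₀] at h3

/-- A set with at most two elements is contained in a set `{r_1, r_2}`. -/
theorem exists_two (S : Finset ℂ) (hS : S.card ≤ 2) :
    ∃ r₁ r₂ : ℂ, r₁ ≠ r₂ ∧ ∀ z ∈ S, z = r₁ ∨ z = r₂ := by
  obtain ⟨T, hT, hT2⟩ := Infinite.exists_superset_card_eq S 2 hS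
  obtain ⟨r₁, r₂, h, rfl⟩ := Finset.card_eq_two.1 hT2
  refine ⟨r₁, r₂, h, fun z hz => ?_⟩
  have h1 := hT hz
  rwa [Finset.mem_insert, Finset.mem_singleton] at h1

/-- All lines through `p` but two are not singular. -/
theorem exists_lines (hf : f.IsHomogeneous d) (h0 : f ≠ 0) (hd : f.degreeOf 0 < d)
    (h1 : 3 * f.degreeOf 0 ≠ d) (h2 : 3 * f.degreeOf 0 ≠ 2 * d)
    (hr : ∀ a b, (Uf f a b).roots.toFinset.card ≤ 2) (hN : ∃ t, Ns f 1 t)
    (hcomp : NoThird f d) {B : Polynomial ℂ} (hB : IsBernsteinSato f B)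
    (hb : B.eval (s0 d) ≠ 0) :
    ∃ r₁ r₂ : ℂ, r₁ ≠ r₂ ∧ ∀ t0, t0 ≠ r₁ → t0 ≠ r₂ → Ns f 1 t0 := by
  obtain ⟨K, θ, n, c, m, A0, α, W, G, -, -⟩ := exists_glob2 hf h0 hd h1 h2 hB
  obtain rfl := n_eq_two G.hF G.sum hr hN
  have h01 : (0 : Fin 2) ≠ 1 := by decide
  have hdC := d_ne_of hd
  have hNR := nonRes_s0 (L := L0) G.hF.pos G.hd G.h1 G.h2
  have hbS := div_ne_zero hb hNR.2.2
  obtain ⟨q, hq⟩ := G.inv2
  obtain ⟨Q, hQ2, hQ⟩ := poly_of_regular (K' := KK f) q (fun t0 φ hφ => by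
    rw [← hq]
    exact (G.regular hφ h01).1) (fun φ hφ => by
    rw [← hq]
    exact glob_regular_inf0 G hφ h01) (exists_pl f) (exists_plInf hf)
  obtain ⟨φ0, hφ0⟩ := exists_pl f 0
  have hF0 := G.fac hφ0
  have hcm : ∀ i, 3 * m i ≠ d := by
    intro i
    obtain ⟨g, hg, hg1, hg2⟩ := exists_comp (Embaux.transcendental_add 0) hf hF0 i
    exact hcomp g (m i) hg hg1 hg2
  have hQ0 : Q ≠ 0 := by
    rintro rfl
    rw [hQ, map_zero, map_zero] at hq
    have hc : c 0 - c 1 ≠ 0 := sub_ne_zero.2 fun h => h01 (G.hF.inj h)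
    have h3 : α 0 = α 1 := sub_eq_zero.1 ((div_eq_zero_iff.1 hq).resolve_right hc)
    obtain ⟨κ, hκ⟩ := G.eq0 hφ0
    exact hbS (eps_zero hF0.inj hκ (by rw [h3]))
  obtain ⟨r₁, r₂, hr12, hr'⟩ := exists_two Q.roots.toFinset
    ((Multiset.toFinset_card_le _).trans ((Polynomial.card_roots' Q).trans hQ2))
  refine ⟨r₁, r₂, hr12, fun t0 ht1 ht2 => ?_⟩
  have hQt : Q.eval t0 ≠ 0 := by
    intro h3
    rcases hr' t0 (by
      rw [Multiset.mem_toFinset, Polynomial.mem_roots hQ0]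
      exact h3) with h4 | h4
    · exact ht1 h4
    · exact ht2 h4
  obtain ⟨φ, hφ⟩ := exists_pl f t0
  have hF := G.fac hφ
  obtain ⟨κ, hκ⟩ := G.eq0 hφ
  have hx : (φ ((α 0 - α 1) / (c 0 - c 1))).orderTop = 0 := by
    rw [hq, hQ]
    have h3 := Gaux.hom_poly (φ.comp (algebraMap (RatFunc ℂ) (KK f))) (fun z => hφ.1 z) Q
    rw [RingHom.comp_apply, RingHom.comp_apply, hφ.2] at h3
    rw [h3]
    exact Gaux.orderTop_eval2 hQt Gaux.tau_pos
  have hx' : (xi (fun i => φ (c i)) (fun i => φ (α i)) 0 1).orderTop = 0 := by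
    unfold xi
    rwa [← map_sub, ← map_sub, ← map_div₀]
  have h3 := eps_two hF.inj hF.ne hκ hx'
  have h4 : (φ (c 1) - φ (c 0)).order = (φ (c 0) - φ (c 1)).order := by
    rw [← HahnSeries.order_neg, neg_sub]
  have h5 := claim0 hF h01 hdC (fun h6 => by
    have h7 := (G.regular hφ h01).2 (spec_of_natDegree h6)
    rw [hx] at h7
    have h9 : (1 : ℚ) ≤ 0 := by exact_mod_cast h7
    linarith) hNR.2.2 (fun i j hij => by
    fin_cases i <;> fin_cases j
    · exact absurd rfl hij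
    · exact h3
    · change (1 + s0 d * ((∑ l, m l : ℕ) : ℂ)) * ((φ (c 1) - φ (c 0)).order : ℂ) +
        s0 d * ((φ A0).order : ℂ) = 0
      rw [h4]
      exact h3
    · exact absurd rfl hij) hcm
  have h6 := natDegree_of_order hF G.sum h5.1
  refine ⟨h6, le_antisymm (hr 1 t0) ?_⟩
  have h7 := le_card_roots hF h5.1 h5.2
  rwa [Fintype.card_fin] at h7

/-- All lines through `p` but `x_1 = 0` and `x_2 = 0` are not singular: the form is
shear-symmetric. -/
theorem shr_of_ns (hf : f.IsHomogeneous d) (h0 : f ≠ 0)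
    (hr : ∀ a b, (Uf f a b).roots.toFinset.card ≤ 2) (hN : ∀ t, t ≠ 0 → Ns f 1 t) : Shr f := by
  obtain ⟨n, c, m, A0, hF', hm⟩ := exists_fac hf h0
  have hF : Fac f (tK f) c m A0 := hF'
  obtain rfl := n_eq_two hF hm hr ⟨1, hN 1 one_ne_zero⟩
  obtain ⟨κ, a, hκ, ha⟩ := hF.lead0 (fun t0 φ ht hφ =>
    (order_of_ns (Glob.facL hF hφ) hm (hN t0 ht)).1)
  obtain ⟨q, hq⟩ := sq_rational hF
  have hc : c 0 - c 1 ≠ 0 := sub_ne_zero.2 fun h => absurd (hF.inj h) (by decide)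
  have hq0 : q ≠ 0 := by
    rintro rfl
    rw [map_zero] at hq
    exact hc (pow_eq_zero_iff two_ne_zero |>.1 hq)
  obtain ⟨z, k, hz, hk⟩ := mono_of_order (K' := KK f) q hq0 (fun t0 φ ht hφ => by
    have h1 := (order_of_ns (Glob.facL hF hφ) hm (hN t0 ht)).2
    have h2 : φ (c 0) - φ (c 1) ≠ 0 := by
      rw [← map_sub]
      exact (map_ne_zero φ).2 hc
    rw [← hq, map_pow, map_sub, pow_two, HahnSeries.order_mul h2 h2, h1, add_zero]) (exists_pl f)
  obtain ⟨φ0, hφ0⟩ := exists_pl f 0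
  have hF0 := Glob.facL hF hφ0
  rw [map_zero, zero_add, ha φ0 hφ0] at hF0
  have h1 := hk φ0 hφ0
  rw [← hq, map_pow, map_sub] at h1
  obtain ⟨w, hw⟩ := IsAlgClosed.exists_pow_nat_eq z (n := 2) (by norm_num)
  have h2 : (HahnSeries.single ((k : ℚ) / 2) w : L0) ^ 2 = HahnSeries.single (k : ℚ) z := by
    rw [pow_two, HahnSeries.single_mul_single, add_halves, ← pow_two, hw]
  have h3 : ∃ γ : ℂ, φ0 (c 0) - φ0 (c 1) = HahnSeries.single ((k : ℚ) / 2) γ := by
    rw [← h2] at h1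
    rcases sq_eq_sq_iff_eq_or_eq_neg.1 h1 with h4 | h4
    · exact ⟨w, h4⟩
    · exact ⟨-w, by rw [h4, HahnSeries.single_neg]⟩
  obtain ⟨γ, hγ⟩ := h3
  refine ⟨2, fun i => φ0 (c i), m, κ, a, (k : ℚ) / 2, ![![0, γ], ![-γ, 0]], hF0, hm,
    fun i j => ?_⟩
  fin_cases i <;> fin_cases j
  · simp
  · exact hγ
  · change φ0 (c 1) - φ0 (c 0) = HahnSeries.single ((k : ℚ) / 2) (-γ)
    rw [HahnSeries.single_neg, ← hγ, neg_sub]
  · simp

/-- **Lines with at most two points**: if each line through `p` meets the curve outside `p` in at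
most two points, `-3/d` is not a root and no component has the multiplicity `d/3`, the form is
exceptional. -/
theorem shr_of_two (hf : f.IsHomogeneous d) (h0 : f ≠ 0) (hd : f.degreeOf 0 < d)
    (h1 : 3 * f.degreeOf 0 ≠ d) (h2 : 3 * f.degreeOf 0 ≠ 2 * d)
    (hr : ∀ a b, (Uf f a b).roots.toFinset.card ≤ 2) (hcomp : NoThird f d) {B : Polynomial ℂ}
    (hB : IsBernsteinSato f B) (hb : B.eval (s0 d) ≠ 0) :
    Mon f ∨ ∃ p q r s : ℂ, p * s - q * r ≠ 0 ∧ Shr (lin p q r s f) := by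
  by_cases hN : ∃ t, Ns f 1 t
  swap
  · left
    obtain ⟨n, c, m, A0, hF', hm⟩ := exists_fac hf h0
    have hF : Fac f (tK f) c m A0 := hF'
    refine mon_of_le hF hm ?_
    by_contra h3
    obtain ⟨t0, -, h4, h5⟩ := exists_ns hF hm ∅
    exact hN ⟨t0, h4, le_antisymm (hr 1 t0) (by omega)⟩
  right
  obtain ⟨tinf, htinf⟩ := hN
  -- a line which is not singular is moved to infinity
  have hΔ : (0 : ℂ) * tinf - 1 * 1 ≠ 0 := by
    rw [zero_mul, one_mul, zero_sub]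
    exact neg_ne_zero.2 one_ne_zero
  set g := lin 0 1 1 tinf f with hg
  have hgh : g.IsHomogeneous d := lin_hom hf
  obtain ⟨e, he⟩ := exists_linEquiv hΔ
  have hg0 : g ≠ 0 := by
    rw [hg, ← he]
    exact (map_ne_zero_iff e e.injective).2 h0
  have hgd : g.degreeOf 0 = f.degreeOf 0 := lin_degreeOf hΔ
  have hrg : ∀ a b, (Uf g a b).roots.toFinset.card ≤ 2 := by
    intro a b
    rw [hg, Uf_lin]
    exact hr _ _
  have hginf : Ns g 0 1 := by
    rw [hg, ns_lin hΔ]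
    simpa using htinf
  have hgN : ∃ t, Ns g 1 t := by
    obtain ⟨n, c, m, A0, hF', hm⟩ := exists_fac hf h0
    have hF : Fac f (tK f) c m A0 := hF'
    obtain ⟨t0, h3, h4, h5⟩ := exists_ns hF hm {tinf}
    rw [n_eq_two hF hm hr ⟨tinf, htinf⟩] at h5
    have h6 : t0 - tinf ≠ 0 := sub_ne_zero.2 fun h => h3 (Finset.mem_singleton.2 h)
    refine ⟨(t0 - tinf)⁻¹, ?_⟩
    rw [hg, ns_lin hΔ, zero_mul, one_mul, zero_add, one_mul, ns_scale hf (inv_ne_zero h6)]
    have h7 : (1 + tinf * (t0 - tinf)⁻¹) / (t0 - tinf)⁻¹ = t0 := by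
      field_simp
      ring
    rw [h7]
    exact ⟨h4, le_antisymm (hr 1 t0) h5⟩
  obtain ⟨r₁, r₂, hr12, hlines⟩ := exists_lines hgh hg0 (by rw [hgd]; exact hd)
    (by rw [hgd]; exact h1) (by rw [hgd]; exact h2) hrg hgN (fun g' k => lin_comp hΔ hcomp g' k)
    (lin_bernstein hΔ hB) hb
  have hΔ' : (1 : ℂ) * r₂ - 1 * r₁ ≠ 0 := by
    rw [one_mul, one_mul]
    exact sub_ne_zero.2 hr12.symm
  have hS : Shr (lin 1 1 r₁ r₂ g) := by
    obtain ⟨e', he'⟩ := exists_linEquiv hΔ'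
    refine shr_of_ns (lin_hom hgh) ?_ ?_ ?_
    · rw [← he']
      exact (map_ne_zero_iff e' e'.injective).2 hg0
    · intro a b
      rw [Uf_lin]
      exact hrg _ _
    · intro t ht
      rw [ns_lin hΔ', one_mul, one_mul, mul_one]
      by_cases h3 : (1 : ℂ) + t = 0
      · rw [h3]
        have h4 : r₁ + r₂ * t ≠ 0 := by
          have h5 : t = -1 := by linear_combination h3
          rw [h5]
          intro h6
          exact hr12 (by linear_combination h6)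
        exact (ns_scale0 hgh h4).2 hginf
      · rw [ns_scale hgh h3]
        refine hlines _ ?_ ?_
        · intro h4
          rw [div_eq_iff h3] at h4
          have h5 : (r₂ - r₁) * t = 0 := by linear_combination h4
          rcases mul_eq_zero.1 h5 with h6 | h6
          · exact hr12 (sub_eq_zero.1 h6).symm
          · exact ht h6
        · intro h4
          rw [div_eq_iff h3] at h4
          exact hr12 (by linear_combination h4)
  rw [hg, LinAux.lin_lin] at hS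
  refine ⟨_, _, _, _, ?_, hS⟩
  intro h3
  exact hr12 (by linear_combination h3)

end MPb07157.TL
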