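import Pool.Agent.Lib.MP_b07157_agL3.Defs

/-!
# The root `-3/d` and lines through a point: definitions, second part
-/

noncomputable section

namespace MPb07157.TL

open MvPolynomial

/-- The polynomial `f(X, 1, t)`. -/
def PL {L : Type} [Field L] [Algebra ℂ L] (f : MvPolynomial (Fin 3) ℂ) (t : L) : Polynomial L :=
  aeval ![Polynomial.X, 1, Polynomial.C t] f

/-- The line through `(1, 0, 0)` and `(0, a, b)` is contained in the curve `f = 0`, or meets it
only in `(1, 0, 0)`. -/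
def Spec (f : MvPolynomial (Fin 3) ℂ) (a b : ℂ) : Prop :=
  ∀ z : ℂ, eval ![z, a, b] f = eval ![0, a, b] f

/-- `f(X, 1, t) = A_0 ∏ (X - c_i)^(m_i)`. -/
structure Fac {L : Type} [Field L] [Algebra ℂ L] {ι : Type} [Fintype ι]
    (f : MvPolynomial (Fin 3) ℂ) (t : L) (c : ι → L) (m : ι → ℕ) (A0 : L) : Prop where
  inj : Function.Injective c
  pos : ∀ i, 0 < m i
  ne : A0 ≠ 0
  eq : PL f t = Polynomial.C A0 * ∏ i, (Polynomial.X - Polynomial.C (c i)) ^ m i

/-- The number `-3/d`. -/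
def s0 (d : ℕ) : ℂ := -(3 / (d : ℂ))

/-- The exponents `-(3/d) m_i`. -/
def s0m {L : Type} [Field L] [Algebra ℂ L] {ι : Type} (d : ℕ) (m : ι → ℕ) (i : ι) : L :=
  algebraMap ℂ L (s0 d * (m i : ℂ))

/-- The class of the vector field at `s = -3/d`: `θ_t / f^K = ∑ s_i α_i / (w - c_i) + ∇ r`. -/
def Cl {L F : Type} [Field L] [Field F] [Algebra L F] [Algebra ℂ L] [Algebra ℂ F]
    {ι : Type} [Fintype ι] (f : MvPolynomial (Fin 3) ℂ) (d K : ℕ)
    (θ : Fin 3 → MvPolynomial (Fin 3) (Polynomial ℂ)) (W : WF L F) (t : L) (c : ι → L)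
    (m : ι → ℕ) (α : ι → L) : Prop :=
  ∃ r ∈ SS W c, (B1 f K θ W.w (algebraMap L F t)).eval (algebraMap ℂ F (s0 d)) =
    lg W c (fun i => s0m d m i * α i) + nb W.dw (lg W c (s0m d m)) r

end MPb07157.TL
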