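import Pool.Agent.Lib.MP_b07157_agL3.D0

/-!
# The Newton–Puiseux theorem
-/

noncomputable section

namespace MPb07157.TL

namespace NPaux

open Polynomial

/-- The embedding of the power series. -/
abbrev phi : PowerSeries ℂ →+* HahnSeries ℚ ℂ := HahnSeries.ofPowerSeries ℚ ℂ

theorem phi_injective : Function.Injective phi := HahnSeries.ofPowerSeries_injective

/-- The substitution of `τ ^ (1 / v)` for `τ`. -/
def ram (v : ℕ) (hv : 0 < v) : HahnSeries ℚ ℂ →+* HahnSeries ℚ ℂ :=
  HahnSeries.embDomainRingHom
    ({ toFun := fun q : ℚ => q / v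
       map_zero' := zero_div _
       map_add' := fun a b => add_div _ _ _ } : ℚ →+ ℚ)
    (fun a b h => by
      have hv' : (v : ℚ) ≠ 0 := by exact_mod_cast hv.ne'
      have h1 : a / (v : ℚ) = b / v := h
      exact (div_left_inj' hv').1 h1)
    (fun a b => by
      have hv' : (0 : ℚ) < v := by exact_mod_cast hv
      exact div_le_div_iff_of_pos_right hv')

theorem ram_coeff (v : ℕ) (hv : 0 < v) (x : HahnSeries ℚ ℂ) (q : ℚ) :
    (ram v hv x).coeff q = x.coeff (v * q) := by
  have hv' : (v : ℚ) ≠ 0 := by exact_mod_cast hv.ne'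
  have h1 : q = (v * q) / v := by
    field_simp
  conv_lhs => rw [h1]
  exact HahnSeries.embDomain_coeff

theorem phi_coeff_nat (x : PowerSeries ℂ) (n : ℕ) : (phi x).coeff (n : ℚ) =
    PowerSeries.coeff n x :=
  HahnSeries.ofPowerSeries_apply_coeff x n

theorem phi_coeff_of_not (x : PowerSeries ℂ) (q : ℚ) (hq : ∀ n : ℕ, (n : ℚ) ≠ q) :
    (phi x).coeff q = 0 := by
  unfold phi
  rw [HahnSeries.ofPowerSeries_apply]
  refine HahnSeries.embDomain_of_notMem_range ?_
  rintro ⟨n, hn⟩
  exact hq n hn

theorem ram_phi_expand (v : ℕ) (hv : 0 < v) (x : PowerSeries ℂ) :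
    ram v hv (phi (PowerSeries.expand v hv.ne' x)) = phi x := by
  have hv' : (v : ℚ) ≠ 0 := by exact_mod_cast hv.ne'
  ext q
  rw [ram_coeff]
  by_cases hq : ∃ n : ℕ, (n : ℚ) = q
  · obtain ⟨n, rfl⟩ := hq
    have h1 : (v : ℚ) * n = ((v * n : ℕ) : ℚ) := by push_cast; rfl
    rw [h1, phi_coeff_nat, phi_coeff_nat, PowerSeries.coeff_expand_mul]
  · push Not at hq
    rw [phi_coeff_of_not x q hq]
    by_cases hm : ∃ m : ℕ, (m : ℚ) = v * q
    · obtain ⟨m, hm⟩ := hm
      rw [← hm, phi_coeff_nat, PowerSeries.coeff_expand, if_neg]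
      rintro ⟨n, rfl⟩
      refine hq n ?_
      push_cast at hm
      exact mul_left_cancel₀ hv' hm
    · push Not at hm
      exact phi_coeff_of_not _ _ hm

instance : IsAdicComplete (IsLocalRing.maximalIdeal (PowerSeries ℂ)) (PowerSeries ℂ) := by
  rw [PowerSeries.maximalIdeal_eq_span_X]
  infer_instance

theorem mem_max (a : PowerSeries ℂ) : a ∈ IsLocalRing.maximalIdeal (PowerSeries ℂ) ↔
    PowerSeries.constantCoeff a = 0 := by
  rw [PowerSeries.maximalIdeal_eq_span_X, Ideal.mem_span_singleton, PowerSeries.X_dvd_iff]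

/-- Factorization of a polynomial whose reduction has a root at `0` and another root. -/
theorem exists_factor {n : ℕ} {G : (PowerSeries ℂ)[X]} (hG : G.Monic) (hn : G.natDegree = n)
    (h0 : PowerSeries.constantCoeff (G.coeff 0) = 0) {k : ℕ} (hk : k < n)
    (hk0 : PowerSeries.constantCoeff (G.coeff k) ≠ 0) :
    ∃ f q : (PowerSeries ℂ)[X], f.Monic ∧ q.Monic ∧ G = f * q ∧ f.natDegree < n ∧
      q.natDegree < n := by
  set r := IsLocalRing.residue (PowerSeries ℂ) with hr
  have hmap : (G : PowerSeries (PowerSeries ℂ)).map r ≠ 0 := by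
    intro h
    have h1 : PowerSeries.coeff k ((G : PowerSeries (PowerSeries ℂ)).map r) = 0 := by
      rw [h, map_zero]
    rw [PowerSeries.coeff_map, Polynomial.coeff_coe, hr, IsLocalRing.residue_eq_zero_iff,
      mem_max] at h1
    exact hk0 h1
  obtain ⟨f, h, H⟩ := PowerSeries.exists_isWeierstrassFactorization hmap
  have hfm : f.Monic := H.isDistinguishedAt.monic
  have hdeg := PowerSeries.IsWeierstrassFactorization.natDegree_eq_toNat_order_map H
  have hle : f.natDegree ≤ k := by
    rw [hdeg]
    have h1 : ((G : PowerSeries (PowerSeries ℂ)).map r).order ≤ k := by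
      apply PowerSeries.order_le
      rw [PowerSeries.coeff_map, Polynomial.coeff_coe, Ne, hr, IsLocalRing.residue_eq_zero_iff,
        mem_max]
      exact hk0
    exact ENat.toNat_le_of_le_natCast h1
  have hpos : 0 < f.natDegree := by
    rw [Nat.pos_iff_ne_zero]
    intro h1
    have h2 : f = 1 := hfm.natDegree_eq_zero.1 h1
    have h3 : (G : PowerSeries (PowerSeries ℂ)) = h := by
      rw [H.eq_mul, h2, Polynomial.coe_one, one_mul]
    have h4 := H.isUnit
    rw [← h3, PowerSeries.isUnit_iff_constantCoeff, ← PowerSeries.coeff_zero_eq_constantCoeff_apply,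
      Polynomial.coeff_coe, PowerSeries.isUnit_iff_constantCoeff, h0] at h4
    exact not_isUnit_zero h4
  -- `f` divides `G`
  have hfmap : (f : PowerSeries (PowerSeries ℂ)).map r ≠ 0 := by
    intro h1
    have h2 : PowerSeries.coeff f.natDegree ((f : PowerSeries (PowerSeries ℂ)).map r) = 0 := by
      rw [h1, map_zero]
    rw [PowerSeries.coeff_map, Polynomial.coeff_coe, hfm.coeff_natDegree, map_one] at h2
    exact one_ne_zero h2
  have hford : ((f : PowerSeries (PowerSeries ℂ)).map
      (Ideal.Quotient.mk (IsLocalRing.maximalIdeal (PowerSeries ℂ)))).order.toNat =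
      f.natDegree := by
    have h1 := H.isDistinguishedAt.coe_natDegree_eq_order_map (f : PowerSeries (PowerSeries ℂ)) 1
      (by
        rw [map_one]
        exact fun h2 => (IsLocalRing.maximalIdeal.isMaximal (PowerSeries ℂ)).ne_top
          ((Ideal.eq_top_iff_one _).2 h2)) (by rw [mul_one])
    rw [← h1]
    rfl
  have hD1 : (G : PowerSeries (PowerSeries ℂ)).IsWeierstrassDivision f h 0 := by
    refine ⟨?_, ?_⟩
    · rw [hford, Polynomial.degree_zero]
      exact WithBot.bot_lt_coe _
    · rw [Polynomial.coe_zero, add_zero]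
      exact H.eq_mul
  have hD2 : (G : PowerSeries (PowerSeries ℂ)).IsWeierstrassDivision f
      ((G /ₘ f : (PowerSeries ℂ)[X]) : PowerSeries (PowerSeries ℂ)) (G %ₘ f) := by
    refine ⟨?_, ?_⟩
    · rw [hford]
      have h1 := Polynomial.degree_modByMonic_lt G hfm
      rwa [Polynomial.degree_eq_natDegree hfm.ne_zero] at h1
    · rw [← Polynomial.coe_mul, ← Polynomial.coe_add]
      congr 1
      rw [add_comm]
      exact (Polynomial.modByMonic_add_div G f).symm
  have hE := hD1.elim hfmap hD2
  have hmod : G %ₘ f = 0 := hE.2.symm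
  have hGq : G = f * (G /ₘ f) := by
    conv_lhs => rw [← Polynomial.modByMonic_add_div G f]
    rw [hmod, zero_add]
  have hqm : (G /ₘ f).Monic := by
    refine Polynomial.Monic.of_mul_monic_left hfm ?_
    rw [← hGq]
    exact hG
  have hsum : n = f.natDegree + (G /ₘ f).natDegree := by
    rw [← hfm.natDegree_mul hqm, ← hGq, hn]
  exact ⟨f, G /ₘ f, hfm, hqm, hGq, by omega, by omega⟩

/-- The choice of the slope: after ramification a monic polynomial is the scaling of a polynomial
whose reduction is not a power of the variable. -/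
theorem exists_slope {n : ℕ} {p : (PowerSeries ℂ)[X]} (hp : p.Monic) (hn : p.natDegree = n)
    (hne : p ≠ X ^ n) : ∃ (v : ℕ) (hv : 0 < v) (u : ℕ) (G : (PowerSeries ℂ)[X]), G.Monic ∧
      G.natDegree = n ∧
      G.scaleRoots (PowerSeries.X ^ u) = p.map (PowerSeries.expand v hv.ne' :
        PowerSeries ℂ →ₐ[ℂ] PowerSeries ℂ).toRingHom ∧
      (p.coeff (n - 1) = 0 → 0 < n → G.coeff (n - 1) = 0) ∧
      ∃ k < n, PowerSeries.constantCoeff (G.coeff k) ≠ 0 := by
  classical
  -- the nonzero lower coefficients
  set S : Finset ℕ := (Finset.range n).filter (fun k => p.coeff k ≠ 0) with hS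
  have hSne : S.Nonempty := by
    by_contra hcon
    rw [Finset.not_nonempty_iff_eq_empty] at hcon
    apply hne
    ext1 i
    rw [Polynomial.coeff_X_pow]
    by_cases hi : i < n
    · rw [if_neg hi.ne]
      by_contra h1
      have h2 : i ∈ S := Finset.mem_filter.2 ⟨Finset.mem_range.2 hi, h1⟩
      rw [hcon] at h2
      exact absurd h2 (Finset.notMem_empty i)
    · rcases Nat.lt_or_ge n i with h1 | h1
      · rw [if_neg h1.ne', Polynomial.coeff_eq_zero_of_natDegree_lt (hn ▸ h1)]
      · have h2 : i = n := by omega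
        rw [if_pos h2, h2, ← hn, hp.coeff_natDegree]
  obtain ⟨k₀, hk₀, hmin⟩ := Finset.exists_min_image S
    (fun k => ((p.coeff k).order.toNat : ℚ) / ((n - k : ℕ) : ℚ)) hSne
  rw [hS, Finset.mem_filter, Finset.mem_range] at hk₀
  obtain ⟨v, hv⟩ : ∃ v, v = n - k₀ := ⟨_, rfl⟩
  obtain ⟨u, hu⟩ : ∃ u, u = (p.coeff k₀).order.toNat := ⟨_, rfl⟩
  have hv0 : 0 < v := by omega
  have hord : ∀ k < n, p.coeff k ≠ 0 → u * (n - k) ≤ v * (p.coeff k).order.toNat := by
    intro k hk hk1
    have h1 := hmin k (Finset.mem_filter.2 ⟨Finset.mem_range.2 hk, hk1⟩)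
    rw [← hu, ← hv] at h1
    have h2 : (0 : ℚ) < ((n - k : ℕ) : ℚ) := by
      have : 0 < n - k := by omega
      exact_mod_cast this
    have h3 : (0 : ℚ) < (v : ℚ) := by exact_mod_cast hv0
    rw [div_le_div_iff₀ h3 h2] at h1
    have h4 : u * (n - k) ≤ (p.coeff k).order.toNat * v := by exact_mod_cast h1
    rw [mul_comm v]
    exact h4
  have hcoeff : ∀ k, p.coeff k ≠ 0 → ∀ m < (p.coeff k).order.toNat,
      PowerSeries.coeff m (p.coeff k) = 0 := by
    intro k hk m hm
    apply PowerSeries.coeff_of_lt_order
    have h1 : ((p.coeff k).order.toNat : ℕ∞) = (p.coeff k).order :=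
      ENat.natCast_toNat (by
        rw [Ne, PowerSeries.order_eq_top]
        exact hk)
    rw [← h1]
    exact_mod_cast hm
  have hdvd : ∀ k < n, (PowerSeries.X : PowerSeries ℂ) ^ (u * (n - k)) ∣
      PowerSeries.expand v hv0.ne' (p.coeff k) := by
    intro k hk
    rw [PowerSeries.X_pow_dvd_iff]
    intro m hm
    rw [PowerSeries.coeff_expand]
    split_ifs with hd
    · by_cases h0 : p.coeff k = 0
      · rw [h0, map_zero]
      · obtain ⟨m', rfl⟩ := hd
        rw [Nat.mul_div_cancel_left _ hv0]
        apply hcoeff k h0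
        have h1 := hord k hk h0
        exact lt_of_mul_lt_mul_left (hm.trans_le h1) (Nat.zero_le v)
    · rfl
  have hex : ∀ k, ∃ g : PowerSeries ℂ, k < n →
      PowerSeries.expand v hv0.ne' (p.coeff k) = PowerSeries.X ^ (u * (n - k)) * g := by
    intro k
    by_cases hk : k < n
    · obtain ⟨g, hg⟩ := hdvd k hk
      exact ⟨g, fun _ => hg⟩
    · exact ⟨0, fun h => absurd h hk⟩
  choose g hg using hex
  obtain ⟨G, hGdef⟩ : ∃ G : (PowerSeries ℂ)[X],
      G = X ^ n + ∑ k ∈ Finset.range n, monomial k (g k) := ⟨_, rfl⟩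
  have hGc : ∀ i, G.coeff i = if i < n then g i else if i = n then 1 else 0 := by
    intro i
    rw [hGdef, Polynomial.coeff_add, Polynomial.coeff_X_pow, Polynomial.finsetSum_coeff]
    simp only [Polynomial.coeff_monomial]
    rw [Finset.sum_ite_eq' (Finset.range n) i g]
    simp only [Finset.mem_range]
    by_cases h1 : i < n
    · simp only [if_neg h1.ne, if_pos h1, zero_add]
    · simp only [if_neg h1, add_zero]
  have hGle : G.natDegree ≤ n := by
    rw [Polynomial.natDegree_le_iff_coeff_eq_zero]
    intro i hi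
    rw [hGc, if_neg (by omega), if_neg (by omega)]
  have hGn : G.coeff n = 1 := by rw [hGc, if_neg (lt_irrefl n), if_pos rfl]
  have hGm : G.Monic := Polynomial.monic_of_natDegree_le_of_coeff_eq_one n hGle hGn
  have hGd : G.natDegree = n := by
    refine le_antisymm hGle ?_
    apply Polynomial.le_natDegree_of_ne_zero
    rw [hGn]
    exact one_ne_zero
  refine ⟨v, hv0, u, G, hGm, hGd, ?_, ?_, k₀, hk₀.1, ?_⟩
  · ext1 i
    rw [Polynomial.coeff_scaleRoots, Polynomial.coeff_map, hGd, hGc]
    by_cases h1 : i < n
    · rw [if_pos h1]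
      have h2 := hg i h1
      change _ = PowerSeries.expand v hv0.ne' (p.coeff i)
      rw [h2, ← pow_mul, mul_comm]
    · rw [if_neg h1]
      by_cases h2 : i = n
      · rw [if_pos h2, h2, Nat.sub_self, pow_zero, mul_one, ← hn, hp.coeff_natDegree, map_one]
      · rw [if_neg h2, zero_mul, Polynomial.coeff_eq_zero_of_natDegree_lt (by omega), map_zero]
  · intro h1 h2
    rw [hGc, if_pos (by omega)]
    have h3 := hg (n - 1) (by omega)
    rw [h1, map_zero] at h3
    exact (mul_eq_zero.1 h3.symm).resolve_left (pow_ne_zero _ PowerSeries.X_ne_zero)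
  · rw [hGc, if_pos hk₀.1]
    intro h0
    have h1 := congrArg (PowerSeries.coeff (v * u)) (hg k₀ hk₀.1)
    rw [PowerSeries.coeff_expand_mul, ← hv, mul_comm v u] at h1
    have h2 : PowerSeries.coeff (u * v) (PowerSeries.X ^ (u * v) * g k₀) =
        PowerSeries.coeff 0 (g k₀) := by
      have h3 := PowerSeries.coeff_X_pow_mul (g k₀) (u * v) 0
      rwa [zero_add] at h3
    rw [h2, PowerSeries.coeff_zero_eq_constantCoeff_apply, h0, hu] at h1
    have h4 := PowerSeries.coeff_order (φ := p.coeff k₀) hk₀.2
    exact h4 h1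

/-- The translation which kills the second coefficient. -/
theorem taylor_coeff_pred {R : Type*} [CommRing R] {n : ℕ} (hn : 0 < n) {p : R[X]} (hp : p.Monic)
    (hd : p.natDegree = n) (c : R) : (taylor c p).coeff (n - 1) = p.coeff (n - 1) + n * c := by
  rw [Polynomial.taylor_coeff]
  have h1 : (hasseDeriv (n - 1) p).natDegree ≤ 1 := by
    have h2 := Polynomial.natDegree_hasseDeriv_le p (n - 1)
    omega
  rw [Polynomial.eval_eq_sum_range' (Nat.lt_succ_of_le h1), Finset.sum_range_succ,
    Finset.sum_range_one, Polynomial.hasseDeriv_coeff, Polynomial.hasseDeriv_coeff]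
  have h3 : 1 + (n - 1) = n := by omega
  rw [h3, zero_add, Nat.choose_self, pow_zero, pow_one, ← hd, hp.coeff_natDegree, hd,
    Nat.choose_symm_of_eq_add (show n = (n - 1) + 1 by omega), Nat.choose_one_right]
  push_cast
  ring

theorem splits_of_taylor {K : Type*} [Field K] {p : K[X]} {c : K} (h : (taylor c p).Splits) :
    p.Splits := by
  have h1 := h.taylor (-c)
  rwa [Polynomial.taylor_taylor, neg_add_cancel, Polynomial.taylor_zero] at h1

/-- The case of monic polynomials. -/
theorem splits_monic (n : ℕ) : ∀ p : (PowerSeries ℂ)[X], p.Monic → p.natDegree = n →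
    (p.map phi).Splits := by
  induction n using Nat.strong_induction_on with
  | _ n ih =>
    -- polynomials with second coefficient zero
    have key : 0 < n → ∀ p : (PowerSeries ℂ)[X], p.Monic → p.natDegree = n →
        p.coeff (n - 1) = 0 → (p.map phi).Splits := by
      intro hn p hp hd hz
      by_cases hne : p = X ^ n
      · rw [hne, Polynomial.map_pow, Polynomial.map_X]
        exact Splits.X_pow n
      · obtain ⟨v, hv, u, G, hGm, hGd, hsc, hGz, k, hk, hk0⟩ := exists_slope hp hd hne
        have hGz' := hGz hz hn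
        -- a root of the reduction
        set Gb : ℂ[X] := G.map (PowerSeries.constantCoeff (R := ℂ)) with hGb
        have hGbm : Gb.Monic := hGm.map _
        have hGbd : Gb.natDegree = n := by rw [hGb, hGm.natDegree_map, hGd]
        obtain ⟨a, ha⟩ : ∃ a, Gb.IsRoot a := by
          apply Complex.exists_root
          rw [Polynomial.degree_eq_natDegree hGbm.ne_zero, hGbd]
          exact_mod_cast hn
        obtain ⟨c, hc⟩ : ∃ c : PowerSeries ℂ, c = PowerSeries.C a := ⟨_, rfl⟩
        have hcc : PowerSeries.constantCoeff c = a := by rw [hc, PowerSeries.constantCoeff_C]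
        have hmapt : (taylor c G).map (PowerSeries.constantCoeff (R := ℂ)) = taylor a Gb := by
          rw [Polynomial.map_taylor, hcc]
        have ht0 : PowerSeries.constantCoeff ((taylor c G).coeff 0) = 0 := by
          rw [← Polynomial.coeff_map, hmapt, Polynomial.taylor_coeff_zero]
          exact ha
        have htk : ∃ k < n, PowerSeries.constantCoeff ((taylor c G).coeff k) ≠ 0 := by
          by_contra hcon
          push Not at hcon
          have h1 : taylor a Gb = X ^ n := by
            ext1 i
            rw [← hmapt, Polynomial.coeff_map, Polynomial.coeff_X_pow]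
            rcases lt_trichotomy i n with h2 | h2 | h2
            · rw [if_neg h2.ne]
              exact hcon i h2
            · rw [if_pos h2, h2]
              have h3 : (taylor c G).natDegree = n := by rw [Polynomial.natDegree_taylor, hGd]
              have h4 : (taylor c G).coeff n = 1 := by
                rw [← hGd, Polynomial.coeff_taylor_natDegree]
                exact hGm
              rw [h4, map_one]
            · rw [if_neg h2.ne', Polynomial.coeff_eq_zero_of_natDegree_lt, map_zero]
              rw [Polynomial.natDegree_taylor, hGd]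
              exact h2
          have h5 := taylor_coeff_pred hn hGbm hGbd a
          rw [h1, Polynomial.coeff_X_pow, if_neg (by omega), hGb, Polynomial.coeff_map, hGz',
            map_zero, zero_add] at h5
          have h6 : (n : ℂ) ≠ 0 := by exact_mod_cast hn.ne'
          have h7 : a = 0 := (mul_eq_zero.1 h5.symm).resolve_left h6
          rw [h7, Polynomial.taylor_zero] at h1
          apply hk0
          rw [← Polynomial.coeff_map, ← hGb, h1, Polynomial.coeff_X_pow, if_neg hk.ne]
        obtain ⟨k', hk', hk'0⟩ := htk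
        have htm : (taylor c G).Monic := by
          rw [Polynomial.Monic, Polynomial.leadingCoeff_taylor]
          exact hGm
        obtain ⟨f, q, hf, hq, hfq, hfd, hqd⟩ := exists_factor htm
          (by rw [Polynomial.natDegree_taylor, hGd]) ht0 hk' hk'0
        have h1 : ((taylor c G).map phi).Splits := by
          rw [hfq, Polynomial.map_mul]
          exact (ih _ hfd f hf rfl).mul (ih _ hqd q hq rfl)
        have h2 : (G.map phi).Splits := by
          rw [Polynomial.map_taylor] at h1
          exact splits_of_taylor h1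
        have h3 : ((p.map (PowerSeries.expand v hv.ne' :
            PowerSeries ℂ →ₐ[ℂ] PowerSeries ℂ).toRingHom).map phi).Splits := by
          rw [← hsc, Polynomial.map_scaleRoots _ _ _ (by
            rw [hGm.leadingCoeff, map_one]
            exact one_ne_zero)]
          exact h2.scaleRoots _
        have h4 := h3.map (ram v hv)
        rw [Polynomial.map_map, Polynomial.map_map] at h4
        have h5 : (ram v hv).comp (phi.comp (PowerSeries.expand v hv.ne' :
            PowerSeries ℂ →ₐ[ℂ] PowerSeries ℂ).toRingHom) = phi := by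
          ext1 x
          exact ram_phi_expand v hv x
        rwa [RingHom.comp_assoc, h5] at h4
    intro p hp hd
    rcases Nat.eq_zero_or_pos n with hn | hn
    · apply Splits.of_natDegree_eq_zero
      rw [hp.natDegree_map, hd, hn]
    · obtain ⟨c, hc⟩ : ∃ c : PowerSeries ℂ,
          c = -(PowerSeries.C ((n : ℂ)⁻¹) * p.coeff (n - 1)) := ⟨_, rfl⟩
      have h1 : (taylor c p).coeff (n - 1) = 0 := by
        rw [taylor_coeff_pred hn hp hd, hc]
        have h2 : (n : PowerSeries ℂ) * PowerSeries.C ((n : ℂ)⁻¹) = 1 := by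
          have h3 : (n : PowerSeries ℂ) = PowerSeries.C (n : ℂ) := by
            rw [map_natCast]
          rw [h3, ← map_mul, mul_inv_cancel₀ (by exact_mod_cast hn.ne'), map_one]
        linear_combination -(p.coeff (n - 1)) * h2
      have h2 : ((taylor c p).map phi).Splits := by
        refine key hn _ ?_ ?_ h1
        · rw [Polynomial.Monic, Polynomial.leadingCoeff_taylor]
          exact hp
        · rw [Polynomial.natDegree_taylor, hd]
      rw [Polynomial.map_taylor] at h2
      exact splits_of_taylor h2

end NPaux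

/-- Polynomials over `ℂ[[τ]]` split over the field of series with rational exponents. -/
theorem newton_puiseux (p : Polynomial (PowerSeries ℂ)) :
    (p.map (HahnSeries.ofPowerSeries ℚ ℂ)).Splits := by
  by_cases hp : p = 0
  · rw [hp, Polynomial.map_zero]
    exact Polynomial.Splits.zero
  have hm := Polynomial.monic_integralNormalization hp
  have h1 := NPaux.splits_monic _ _ hm rfl
  have ha : NPaux.phi p.leadingCoeff ≠ 0 := by
    intro h0
    apply hp
    rw [← Polynomial.leadingCoeff_eq_zero]
    exact NPaux.phi_injective (h0.trans (map_zero _).symm)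
  have h2 : ((p.map NPaux.phi).scaleRoots (NPaux.phi p.leadingCoeff)).Splits := by
    rw [← Polynomial.map_scaleRoots _ _ _ ha, ← Polynomial.leadingCoeff_smul_integralNormalization,
      Polynomial.smul_eq_C_mul, Polynomial.map_mul, Polynomial.map_C]
    exact h1.C_mul _
  have h3 := h2.scaleRoots (NPaux.phi p.leadingCoeff)⁻¹
  rwa [← Polynomial.scaleRoots_mul, mul_inv_cancel₀ ha, Polynomial.scaleRoots_one] at h3

end MPb07157.TL
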