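import Pool.Agent.Lib.MP_b07157_agL3.G
import Pool.Agent.Lib.MP_b07157_agL3.NP

/-!
# The places of the splitting field of `f(X, 1, t)`
-/

noncomputable section

namespace MPb07157.TL

open MvPolynomial

namespace Embaux

/-! ### The homomorphisms of the rational functions -/

theorem ofPS_algebraMap (z : ℂ) :
    HahnSeries.ofPowerSeries ℚ ℂ (algebraMap ℂ (PowerSeries ℂ) z) = HahnSeries.C z := by
  rw [PowerSeries.algebraMap_apply, Algebra.algebraMap_self, RingHom.id_apply,
    HahnSeries.ofPowerSeries_C]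

theorem aeval_tau (p : Polynomial ℂ) :
    Polynomial.aeval tau p = HahnSeries.ofPowerSeries ℚ ℂ (p : PowerSeries ℂ) := by
  have h : ((Polynomial.aeval tau : Polynomial ℂ →ₐ[ℂ] L0) : Polynomial ℂ →+* L0) =
      (HahnSeries.ofPowerSeries ℚ ℂ).comp Polynomial.coeToPowerSeries.ringHom := by
    refine Polynomial.ringHom_ext (fun z => ?_) ?_
    · rw [RingHom.coe_coe, Polynomial.aeval_C, algebraMap_L0, RingHom.comp_apply,
        Polynomial.coeToPowerSeries.ringHom_apply, Polynomial.coe_C, HahnSeries.ofPowerSeries_C]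
    · rw [RingHom.coe_coe, Polynomial.aeval_X, RingHom.comp_apply,
        Polynomial.coeToPowerSeries.ringHom_apply, Polynomial.coe_X, HahnSeries.ofPowerSeries_X]
      rfl
  exact congrArg (fun φ => φ p) h

theorem transcendental_tau : Transcendental ℂ tau := by
  rw [transcendental_iff_injective]
  intro p q hpq
  rw [aeval_tau, aeval_tau] at hpq
  exact Polynomial.coe_injective ℂ (HahnSeries.ofPowerSeries_injective hpq)

theorem tau_ne : tau ≠ 0 := by
  intro h
  apply transcendental_tau
  rw [h]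
  exact isAlgebraic_zero

theorem transcendental_add (t0 : ℂ) : Transcendental ℂ (HahnSeries.C t0 + tau : L0) := by
  intro h
  apply transcendental_tau
  have h1 : IsAlgebraic ℂ (HahnSeries.C t0 : L0) := isAlgebraic_algebraMap (A := L0) t0
  have h2 := h.sub h1
  rwa [add_sub_cancel_left] at h2

theorem transcendental_inv : Transcendental ℂ (tau⁻¹ : L0) := fun h =>
  transcendental_tau (IsAlgebraic.inv_iff.1 h)

/-- The homomorphism of the rational functions with `t ↦ T`. -/
theorem exists_psi {T : L0} (hT : Transcendental ℂ T) : ∃ ψ : RatFunc ℂ →+* L0,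
    (∀ z : ℂ, ψ (RatFunc.C z) = HahnSeries.C z) ∧ ψ RatFunc.X = T := by
  have hinj := transcendental_iff_injective.1 hT
  refine ⟨IsFractionRing.lift (A := Polynomial ℂ) (K := RatFunc ℂ)
    (g := ((Polynomial.aeval T : Polynomial ℂ →ₐ[ℂ] L0) : Polynomial ℂ →+* L0)) hinj, ?_, ?_⟩
  · intro z
    rw [← RatFunc.algebraMap_C, IsFractionRing.lift_algebraMap, RingHom.coe_coe,
      Polynomial.aeval_C, algebraMap_L0]
  · rw [← RatFunc.algebraMap_X, IsFractionRing.lift_algebraMap, RingHom.coe_coe,
      Polynomial.aeval_X]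

/-! ### The polynomial `f(X, 1, t)` -/

/-- Naturality of the evaluation at polynomials. -/
theorem map_aeval {R R' : Type} [CommRing R] [Algebra ℂ R] [CommRing R'] [Algebra ℂ R']
    (φ : R →+* R') (hφ : ∀ z : ℂ, φ (algebraMap ℂ R z) = algebraMap ℂ R' z)
    (x : Fin 3 → Polynomial R) (f : MvPolynomial (Fin 3) ℂ) :
    (aeval x f).map φ = aeval (fun i => (x i).map φ) f := by
  have h : (Polynomial.mapRingHom φ).comp
      ((aeval x : MvPolynomial (Fin 3) ℂ →ₐ[ℂ] Polynomial R) : MvPolynomial (Fin 3) ℂ →+* _) =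
      ((aeval (fun i => (x i).map φ) : MvPolynomial (Fin 3) ℂ →ₐ[ℂ] Polynomial R') :
        MvPolynomial (Fin 3) ℂ →+* _) := by
    refine MvPolynomial.ringHom_ext (fun z => ?_) (fun i => ?_)
    · rw [RingHom.comp_apply, RingHom.coe_coe, RingHom.coe_coe, aeval_C, aeval_C,
        Polynomial.coe_mapRingHom, Polynomial.algebraMap_apply, Polynomial.algebraMap_apply,
        Polynomial.map_C, hφ]
    · rw [RingHom.comp_apply, RingHom.coe_coe, RingHom.coe_coe, aeval_X, aeval_X,
        Polynomial.coe_mapRingHom]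
  exact congrArg (fun φ => φ f) h

theorem map_PL {L L' : Type} [Field L] [Algebra ℂ L] [Field L'] [Algebra ℂ L'] (φ : L →+* L')
    (hφ : ∀ z : ℂ, φ (algebraMap ℂ L z) = algebraMap ℂ L' z) (f : MvPolynomial (Fin 3) ℂ)
    (t : L) : (PL f t).map φ = PL f (φ t) := by
  unfold PL
  rw [map_aeval φ hφ]
  congr 2
  funext i
  fin_cases i
  · exact Polynomial.map_X φ
  · exact Polynomial.map_one φ
  · exact Polynomial.map_C φ

theorem splits_PL (f : MvPolynomial (Fin 3) ℂ) (t0 : ℂ) :
    (PL f (HahnSeries.C t0 + tau : L0)).Splits := by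
  have h := newton_puiseux (aeval ![Polynomial.X, 1,
    Polynomial.C (PowerSeries.C t0 + PowerSeries.X)] f)
  rw [map_aeval _ (fun z => by rw [ofPS_algebraMap, algebraMap_L0])] at h
  unfold PL
  have e : (fun i => Polynomial.map (HahnSeries.ofPowerSeries ℚ ℂ)
      ((![Polynomial.X, 1, Polynomial.C (PowerSeries.C t0 + PowerSeries.X)] :
        Fin 3 → Polynomial (PowerSeries ℂ)) i)) =
      ![Polynomial.X, 1, Polynomial.C (HahnSeries.C t0 + tau : L0)] := by
    funext i
    fin_cases i
    · exact Polynomial.map_X _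
    · exact Polynomial.map_one _
    · show Polynomial.map _ (Polynomial.C (PowerSeries.C t0 + PowerSeries.X)) = _
      rw [Polynomial.map_C, map_add, HahnSeries.ofPowerSeries_C, HahnSeries.ofPowerSeries_X]
      rfl
  rw [e] at h
  exact h

/-- Homogeneity. -/
theorem aeval_homog {R : Type} [CommRing R] [Algebra ℂ R] {f : MvPolynomial (Fin 3) ℂ} {d : ℕ}
    (hf : f.IsHomogeneous d) (c : R) (x : Fin 3 → R) :
    aeval (fun i => c * x i) f = c ^ d * aeval x f := by
  rw [aeval_def, aeval_def, eval₂_eq', eval₂_eq', Finset.mul_sum]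
  refine Finset.sum_congr rfl fun v hv => ?_
  have h1 : ∑ i, v i = d := by
    have h2 := hf (mem_support_iff.1 hv)
    rw [← h2, Finsupp.weight_apply, Finsupp.sum_fintype _ _ (by simp)]
    simp
  have h3 : ∏ i, (c * x i) ^ v i = c ^ d * ∏ i, x i ^ v i := by
    rw [← h1, ← Finset.prod_pow_eq_pow_sum, ← Finset.prod_mul_distrib]
    exact Finset.prod_congr rfl fun i _ => mul_pow _ _ _
  rw [h3]
  ring

theorem splits_PL_inv {f : MvPolynomial (Fin 3) ℂ} {d : ℕ} (hf : f.IsHomogeneous d) :
    (PL f (tau⁻¹ : L0)).Splits := by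
  have h := newton_puiseux (aeval ![Polynomial.X, Polynomial.C PowerSeries.X, 1] f)
  rw [map_aeval _ (fun z => by rw [ofPS_algebraMap, algebraMap_L0])] at h
  have e : (fun i => Polynomial.map (HahnSeries.ofPowerSeries ℚ ℂ)
      ((![Polynomial.X, Polynomial.C PowerSeries.X, 1] :
        Fin 3 → Polynomial (PowerSeries ℂ)) i)) =
      ![Polynomial.X, Polynomial.C (tau : L0), 1] := by
    funext i
    fin_cases i
    · exact Polynomial.map_X _
    · show Polynomial.map _ (Polynomial.C PowerSeries.X) = _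
      rw [Polynomial.map_C, HahnSeries.ofPowerSeries_X]
      rfl
    · exact Polynomial.map_one _
  rw [e] at h
  have h2 := (h.comp_of_natDegree_le_one (g := Polynomial.C tau * Polynomial.X)
    ((Polynomial.natDegree_C_mul_le _ _).trans Polynomial.natDegree_X_le)).C_mul ((tau⁻¹) ^ d)
  have e2 : (aeval ![Polynomial.X, Polynomial.C (tau : L0), 1] f : Polynomial L0).comp
      (Polynomial.C tau * Polynomial.X) =
      aeval (fun i => Polynomial.C tau * (![Polynomial.X, 1, Polynomial.C (tau⁻¹ : L0)] :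
        Fin 3 → Polynomial L0) i) f := by
    have h3 : (Polynomial.compRingHom (Polynomial.C tau * Polynomial.X : Polynomial L0)).comp
        ((aeval ![Polynomial.X, Polynomial.C (tau : L0), 1] :
          MvPolynomial (Fin 3) ℂ →ₐ[ℂ] Polynomial L0) : MvPolynomial (Fin 3) ℂ →+* _) =
        ((aeval (fun i => Polynomial.C tau * (![Polynomial.X, 1, Polynomial.C (tau⁻¹ : L0)] :
          Fin 3 → Polynomial L0) i) : MvPolynomial (Fin 3) ℂ →ₐ[ℂ] Polynomial L0) :
            MvPolynomial (Fin 3) ℂ →+* _) := by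
      refine MvPolynomial.ringHom_ext (fun z => ?_) (fun i => ?_)
      · rw [RingHom.comp_apply, RingHom.coe_coe, RingHom.coe_coe, aeval_C, aeval_C,
          Polynomial.coe_compRingHom_apply, Polynomial.algebraMap_apply, Polynomial.C_comp]
      · rw [RingHom.comp_apply, RingHom.coe_coe, RingHom.coe_coe, aeval_X, aeval_X,
          Polynomial.coe_compRingHom_apply]
        fin_cases i
        · exact Polynomial.X_comp
        · show (Polynomial.C (tau : L0)).comp _ = Polynomial.C tau * 1
          rw [Polynomial.C_comp, mul_one]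
        · show (1 : Polynomial L0).comp _ = Polynomial.C tau * Polynomial.C (tau⁻¹ : L0)
          rw [Polynomial.one_comp, ← Polynomial.C_mul, mul_inv_cancel₀ tau_ne, Polynomial.C_1]
    exact congrArg (fun φ => φ f) h3
  have h5 := aeval_homog (R := Polynomial L0) hf (Polynomial.C tau)
    ![Polynomial.X, 1, Polynomial.C (tau⁻¹ : L0)]
  rw [e2, h5, ← mul_assoc, ← Polynomial.C_pow, ← Polynomial.C_mul, ← mul_pow,
    inv_mul_cancel₀ tau_ne, one_pow, Polynomial.C_1, one_mul] at h2
  exact h2

/-- The extension to the splitting field. -/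
theorem exists_lift {f : MvPolynomial (Fin 3) ℂ} (ψ : RatFunc ℂ →+* L0)
    (hψ : ∀ z : ℂ, ψ (RatFunc.C z) = HahnSeries.C z) (hs : (PL f (ψ RatFunc.X)).Splits) :
    ∃ φ : (PL f (RatFunc.X : RatFunc ℂ)).SplittingField →+* L0,
      ∀ x : RatFunc ℂ, φ (algebraMap (RatFunc ℂ) _ x) = ψ x := by
  letI : Algebra (RatFunc ℂ) L0 := ψ.toAlgebra
  have h1 : ((PL f (RatFunc.X : RatFunc ℂ)).map (algebraMap (RatFunc ℂ) L0)).Splits := by
    rw [map_PL (algebraMap (RatFunc ℂ) L0) (fun z => ?_)]
    · exact hs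
    · rw [RatFunc.algebraMap_eq_C, algebraMap_L0]
      exact hψ z
  refine ⟨((Polynomial.SplittingField.lift _ h1 :
    (PL f (RatFunc.X : RatFunc ℂ)).SplittingField →ₐ[RatFunc ℂ] L0) : _ →+* L0), fun x => ?_⟩
  rw [RingHom.coe_coe, AlgHom.commutes]
  rfl

end Embaux

end MPb07157.TL
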