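import Pool.Agent.Lib.MP_b07157_agL3.U
import Pool.Agent.Lib.MP_b07157_agM2.E

/-!
# The differential equation of the Hermite reduction
-/

noncomputable section

namespace MPb07157.TL

open MvPolynomial

variable {L F : Type} [Field L] [Field F] [Algebra L F] [Algebra ℂ L] [Algebra ℂ F]
  [IsScalarTower ℂ L F] {ι : Type} [Fintype ι] [DecidableEq ι]

namespace Eaux

/-- A derivation over `ℂ` or `L` is a derivation over `ℤ`. -/
def toZ {R K : Type} [CommRing R] [Field K] [Algebra R K] (D : Derivation R K K) :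
    Derivation ℤ K K :=
  Derivation.mk' (D : K →+ K).toIntLinearMap (fun a b => D.leibniz a b)

theorem toZ_apply {R K : Type} [CommRing R] [Field K] [Algebra R K] (D : Derivation R K K)
    (x : K) : toZ D x = D x := rfl

omit [Algebra ℂ L] [Algebra ℂ F] [IsScalarTower ℂ L F] [Fintype ι] [DecidableEq ι] in
theorem w_ne {W : WF L F} (a : L) : W.w - algebraMap L F a ≠ 0 := by
  intro h
  have h1 : (Polynomial.aeval W.w : Polynomial L → F) (Polynomial.X - Polynomial.C a) =
      (Polynomial.aeval W.w : Polynomial L → F) 0 := by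
    rw [map_sub, Polynomial.aeval_X, Polynomial.aeval_C, map_zero, h]
  exact Polynomial.X_sub_C_ne_zero a (W.inj h1)

omit [IsScalarTower ℂ L F] [DecidableEq ι] in
theorem conn {W : WF L F} (T : TF W) {c : ι → L} (hc : Function.Injective c) {σ : ι → L}
    (hσ' : ∀ i, T.δ (σ i) = 0) (A : L) :
    LM.Conn (toZ T.dt) (toZ W.dw) W.w (algebraMap L F A) (fun i => algebraMap L F (c i))
      (fun i => algebraMap L F (σ i)) where
  hw := W.dw_w
  htw := T.dt_w
  hp := W.dw.map_algebraMap A
  hc i := W.dw.map_algebraMap (c i)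
  hct i := by
    rw [toZ_apply, toZ_apply, T.dt_alg]
    exact W.dw.map_algebraMap _
  ha i := W.dw.map_algebraMap (σ i)
  hat i := by
    rw [toZ_apply, T.dt_alg, hσ', map_zero]
  hne i := w_ne _
  hinj i j h := hc ((algebraMap L F).injective h)
  comm x := T.comm x

omit [Algebra ℂ L] [Algebra ℂ F] [IsScalarTower ℂ L F] [DecidableEq ι] in
theorem lg_eq (W : WF L F) (c a : ι → L) :
    lg W c a = ∑ i, algebraMap L F (a i) / (W.w - algebraMap L F (c i)) := by
  unfold lg
  simp only [div_eq_mul_inv]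

omit [Algebra ℂ L] [Algebra ℂ F] [IsScalarTower ℂ L F] [DecidableEq ι] in
theorem nw_eq (W : WF L F) (c σ : ι → L) (x : F) :
    LM.nw (toZ W.dw) W.w (fun i => algebraMap L F (c i)) (fun i => algebraMap L F (σ i)) x =
      nb W.dw (lg W c σ) x := by
  unfold LM.nw nb
  rw [lg_eq, toZ_apply, mul_comm x]

omit [IsScalarTower ℂ L F] [DecidableEq ι] in
theorem nt_eq {W : WF L F} (T : TF W) (c σ : ι → L) (A : L) (x : F) :
    LM.nt (toZ T.dt) W.w (algebraMap L F A) (fun i => algebraMap L F (c i))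
      (fun i => algebraMap L F (σ i)) x = nb T.dt (wt T c σ A) x := by
  unfold LM.nt nb wt
  rw [lg_eq, toZ_apply, mul_comm x]
  simp only [toZ_apply, T.dt_alg, map_mul]

omit [Algebra ℂ L] [Algebra ℂ F] [IsScalarTower ℂ L F] [DecidableEq ι] in
theorem inv_mem (W : WF L F) (c : ι → L) (i : ι) :
    (W.w - algebraMap L F (c i))⁻¹ ∈ SS W c :=
  Algebra.subset_adjoin (Set.mem_insert_of_mem _ ⟨i, rfl⟩)

omit [Algebra ℂ L] [Algebra ℂ F] [IsScalarTower ℂ L F] [DecidableEq ι] in
theorem lg_mem (W : WF L F) (c a : ι → L) : lg W c a ∈ SS W c :=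
  (SS W c).sum_mem fun i _ => (SS W c).mul_mem ((SS W c).algebraMap_mem _) (inv_mem W c i)

omit [IsScalarTower ℂ L F] [DecidableEq ι] in
theorem wt_mem {W : WF L F} (T : TF W) (c σ : ι → L) (A : L) : wt T c σ A ∈ SS W c :=
  (SS W c).sub_mem ((SS W c).algebraMap_mem _) (lg_mem W c _)

omit [IsScalarTower ℂ L F] [DecidableEq ι] in
theorem dt_mem {W : WF L F} (T : TF W) (c : ι → L) {x : F} (hx : x ∈ SS W c) :
    T.dt x ∈ SS W c := by
  unfold SS at hx
  induction hx using Algebra.adjoin_induction with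
  | mem x hx =>
    rcases hx with rfl | ⟨i, rfl⟩
    · rw [T.dt_w]
      exact (SS W c).zero_mem
    · show T.dt (W.w - algebraMap L F (c i))⁻¹ ∈ SS W c
      rw [Derivation.leibniz_inv, map_sub, T.dt_w, T.dt_alg, smul_eq_mul]
      have h1 := inv_mem W c i
      exact (SS W c).mul_mem ((SS W c).neg_mem ((SS W c).pow_mem h1 2))
        ((SS W c).sub_mem (SS W c).zero_mem ((SS W c).algebraMap_mem _))
  | algebraMap a =>
    rw [T.dt_alg]
    exact (SS W c).algebraMap_mem _
  | add x y _ _ hx hy =>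
    rw [map_add]
    exact (SS W c).add_mem hx hy
  | mul x y hx' hy' hx hy =>
    rw [Derivation.leibniz, smul_eq_mul, smul_eq_mul]
    exact (SS W c).add_mem ((SS W c).mul_mem hx' hy) ((SS W c).mul_mem hy' hx)

omit [IsScalarTower ℂ L F] [DecidableEq ι] in
theorem nt_mem {W : WF L F} (T : TF W) (c σ : ι → L) (A : L) {x : F} (hx : x ∈ SS W c) :
    nb T.dt (wt T c σ A) x ∈ SS W c :=
  (SS W c).add_mem (dt_mem T c hx) ((SS W c).mul_mem (wt_mem T c σ A) hx)

end Eaux

open Eaux in
/-- If `q = ∇_t V_1 + ∇_w V_2`, `V_1 = ∑ σ_i α_i / (w - c_i) + ∇_w r` and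
`q = - ∑ σ_i β_i / (w - c_i) + ∇_w ρ`, then `ε_i + β_i = κ` for all `i` with `σ_i ≠ 0`. -/
theorem eqE {W : WF L F} (T : TF W) {c : ι → L} (hc : Function.Injective c) {σ : ι → L}
    (hσ : NonRes σ) (hσ' : ∀ i, T.δ (σ i) = 0) {A : L} {α β : ι → L} {V₁ V₂ q r ρ : F}
    (hV₂ : V₂ ∈ SS W c) (hr : r ∈ SS W c) (hρ : ρ ∈ SS W c)
    (h1 : V₁ = lg W c (fun i => σ i * α i) + nb W.dw (lg W c σ) r)
    (h2 : q = -lg W c (fun i => σ i * β i) + nb W.dw (lg W c σ) ρ)
    (h3 : q = nb T.dt (wt T c σ A) V₁ + nb W.dw (lg W c σ) V₂) :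
    ∃ κ : L, ∀ i, σ i * (eps T.δ c σ α A i + β i - κ) = 0 := by
  have : CharZero L := charZero_of_injective_algebraMap (algebraMap ℂ L).injective
  have hC := conn T hc hσ' A
  -- the class
  have h4 := hC.nt_class (α := fun i => algebraMap L F (α i))
    (fun i => W.dw.map_algebraMap (α i))
  have h5 := hC.nt_nw r
  simp only [nt_eq, nw_eq] at h4 h5
  have e1 : ∑ i, algebraMap L F (σ i) * algebraMap L F (α i) /
      (W.w - algebraMap L F (c i)) = lg W c (fun i => σ i * α i) := by
    rw [lg_eq]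
    simp only [map_mul]
  have e2 : ∑ i, algebraMap L F (σ i) * algebraMap L F (α i) *
      (toZ T.dt) (algebraMap L F (c i)) / (W.w - algebraMap L F (c i)) =
      lg W c (fun i => σ i * α i * T.δ (c i)) := by
    rw [lg_eq]
    simp only [map_mul, toZ_apply, T.dt_alg]
  have e3 : ∑ i, algebraMap L F (σ i) / (W.w - algebraMap L F (c i)) *
      ((toZ T.dt) (algebraMap L F (α i)) + algebraMap L F A * algebraMap L F (α i) +
      ∑ j, algebraMap L F (σ j) * ((algebraMap L F (α i) - algebraMap L F (α j)) /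
        (algebraMap L F (c i) - algebraMap L F (c j)) *
        ((toZ T.dt) (algebraMap L F (c i)) - (toZ T.dt) (algebraMap L F (c j))))) =
      lg W c (fun i => σ i * eps T.δ c σ α A i) := by
    rw [lg_eq]
    refine Finset.sum_congr rfl fun i _ => ?_
    rw [← Finset.add_sum_erase _ _ (Finset.mem_univ i)]
    simp only [eps, map_mul, map_add, map_sum, map_sub, map_div₀, toZ_apply, T.dt_alg, sub_self,
      zero_div, zero_mul, mul_zero, zero_add, mul_div_assoc]
    have e4 : ∀ j, algebraMap L F (σ j) * ((algebraMap L F (α i) - algebraMap L F (α j)) /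
        (algebraMap L F (c i) - algebraMap L F (c j)) *
        (algebraMap L F (T.δ (c i)) - algebraMap L F (T.δ (c j)))) =
        algebraMap L F (σ j) * (algebraMap L F (α i) - algebraMap L F (α j)) *
        ((algebraMap L F (T.δ (c i)) - algebraMap L F (T.δ (c j))) /
        (algebraMap L F (c i) - algebraMap L F (c j))) := fun j => by ring
    simp only [e4]
    ring
  rw [e1, e2, e3] at h4
  -- the difference
  have h6 : lg W c (fun i => σ i * (eps T.δ c σ α A i + β i)) =
      nb W.dw (lg W c σ) (ρ - nb T.dt (wt T c σ A) r - V₂ +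
        lg W c (fun i => σ i * α i * T.δ (c i))) := by
    have e5 : lg W c (fun i => σ i * (eps T.δ c σ α A i + β i)) =
        lg W c (fun i => σ i * eps T.δ c σ α A i) + lg W c (fun i => σ i * β i) := by
      unfold lg
      rw [← Finset.sum_add_distrib]
      refine Finset.sum_congr rfl fun i _ => ?_
      simp only [mul_add, map_add, add_mul]
    have e6 : ∀ x y, nb W.dw (lg W c σ) (x + y) = nb W.dw (lg W c σ) x + nb W.dw (lg W c σ) y := by
      intro x y
      unfold nb
      rw [map_add]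
      ring
    have e7 : ∀ x y, nb W.dw (lg W c σ) (x - y) = nb W.dw (lg W c σ) x - nb W.dw (lg W c σ) y := by
      intro x y
      unfold nb
      rw [map_sub]
      ring
    have e8 : ∀ x y, nb T.dt (wt T c σ A) (x + y) =
        nb T.dt (wt T c σ A) x + nb T.dt (wt T c σ A) y := by
      intro x y
      unfold nb
      rw [map_add]
      ring
    rw [e5, ← h4, e6, e7, e7, ← h5]
    rw [h1, e8] at h3
    rw [h2] at h3
    linear_combination -h3
  obtain ⟨κ, -, h7⟩ := uniq W hc hσ
    ((SS W c).add_mem ((SS W c).sub_mem ((SS W c).sub_mem hρ (nt_mem T c σ A hr)) hV₂)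
      (lg_mem W c _)) h6
  refine ⟨κ, fun i => ?_⟩
  rw [mul_sub, h7 i, sub_self]

end MPb07157.TL
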