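import Pool.Agent.Lib.MP_b07157_agL3.Defs

/-!
# Hermite reduction, with a parameter `s`
-/

noncomputable section

set_option linter.unusedSectionVars false

namespace MPb07157.TL

open MvPolynomial

variable {L F : Type} [Field L] [Field F] [Algebra L F] {ι : Type} [Fintype ι] [DecidableEq ι]

namespace Haux

section basics

omit [DecidableEq ι]

theorem lg_add (W : WF L F) (c a b : ι → L) :
    lg W c (fun i => a i + b i) = lg W c a + lg W c b := by
  simp only [lg, map_add, add_mul, Finset.sum_add_distrib]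

theorem lg_smul (W : WF L F) (c a : ι → L) (x : L) :
    lg W c (fun i => x * a i) = algebraMap L F x * lg W c a := by
  simp only [lg, map_mul, Finset.mul_sum, mul_assoc]

theorem lg_zero (W : WF L F) (c : ι → L) : lg W c (fun _ => 0) = 0 := by
  simp only [lg, map_zero, zero_mul, Finset.sum_const_zero]

theorem nb_add (W : WF L F) (ω x y : F) :
    nb W.dw ω (x + y) = nb W.dw ω x + nb W.dw ω y := by
  simp only [nb, map_add]
  ring

theorem dw_alg_mul (W : WF L F) (x : L) (y : F) :
    W.dw (algebraMap L F x * y) = algebraMap L F x * W.dw y := by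
  rw [← Algebra.smul_def, ← Algebra.smul_def]
  exact W.dw.map_smul x y

theorem nb_smul (W : WF L F) (ω y : F) (x : L) :
    nb W.dw ω (algebraMap L F x * y) = algebraMap L F x * nb W.dw ω y := by
  simp only [nb]
  rw [dw_alg_mul]
  ring

theorem nb_zero (W : WF L F) (ω : F) : nb W.dw ω 0 = 0 := by
  simp only [nb, map_zero, mul_zero, add_zero]

theorem alg_mem (W : WF L F) (c : ι → L) (x : L) : algebraMap L F x ∈ SS W c :=
  Subalgebra.algebraMap_mem _ x

theorem w_mem (W : WF L F) (c : ι → L) : W.w ∈ SS W c :=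
  Algebra.subset_adjoin (Set.mem_insert _ _)

theorem u_mem (W : WF L F) (c : ι → L) (i : ι) :
    (W.w - algebraMap L F (c i))⁻¹ ∈ SS W c :=
  Algebra.subset_adjoin (Set.mem_insert_of_mem _ ⟨i, rfl⟩)

theorem w_sub_ne (W : WF L F) (x : L) : W.w - algebraMap L F x ≠ 0 := by
  intro h
  have h1 : Polynomial.aeval W.w (Polynomial.X - Polynomial.C x : Polynomial L) =
      Polynomial.aeval W.w (0 : Polynomial L) := by
    rw [map_sub, Polynomial.aeval_X, Polynomial.aeval_C, map_zero]
    exact h
  exact Polynomial.X_sub_C_ne_zero x (W.inj h1)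

end basics

variable [Algebra ℂ L]

/-- The conclusion of the theorem. -/
def Red (W : WF L F) (c : ι → L) (σ : ι → Polynomial ℂ) (A : Polynomial F) : Prop :=
  ∃ (D : Polynomial ℂ) (a : ι → Polynomial L),
      (∀ s : ℂ, NonRes (fun i => algebraMap ℂ L ((σ i).eval s)) → D.eval s ≠ 0) ∧
      ∀ s : ℂ, ∃ r ∈ SS W c,
        algebraMap L F (algebraMap ℂ L (D.eval s)) *
            A.eval (algebraMap L F (algebraMap ℂ L s)) =
          lg W c (fun i => (a i).eval (algebraMap ℂ L s)) +
            nb W.dw (lg W c fun i => algebraMap ℂ L ((σ i).eval s)) r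

theorem eval_mapC (p : Polynomial ℂ) (s : ℂ) :
    (p.map (algebraMap ℂ L)).eval (algebraMap ℂ L s) = algebraMap ℂ L (p.eval s) := by
  rw [Polynomial.eval_map, Polynomial.eval₂_at_apply]

omit [Fintype ι] [DecidableEq ι] in
theorem eval_mapL (p : Polynomial L) (x : L) :
    (p.map (algebraMap L F)).eval (algebraMap L F x) = algebraMap L F (p.eval x) := by
  rw [Polynomial.eval_map, Polynomial.eval₂_at_apply]

variable {W : WF L F} {c : ι → L} {σ : ι → Polynomial ℂ}

omit [DecidableEq ι] in
theorem Red.zero : Red W c σ 0 := by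
  refine ⟨1, fun _ => 0, fun s _ => by simp, fun s => ⟨0, Subalgebra.zero_mem _, ?_⟩⟩
  rw [nb_zero, Polynomial.eval_zero, mul_zero]
  simp only [Polynomial.eval_zero]
  rw [lg_zero, add_zero]

omit [DecidableEq ι] in
theorem Red.add {A B : Polynomial F} (hA : Red W c σ A) (hB : Red W c σ B) :
    Red W c σ (A + B) := by
  obtain ⟨D1, a1, h1, k1⟩ := hA
  obtain ⟨D2, a2, h2, k2⟩ := hB
  refine ⟨D1 * D2, fun i => D2.map (algebraMap ℂ L) * a1 i + D1.map (algebraMap ℂ L) * a2 i,
    fun s hs => ?_, fun s => ?_⟩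
  · rw [Polynomial.eval_mul]
    exact mul_ne_zero (h1 s hs) (h2 s hs)
  · obtain ⟨r1, m1, e1⟩ := k1 s
    obtain ⟨r2, m2, e2⟩ := k2 s
    refine ⟨algebraMap L F (algebraMap ℂ L (D2.eval s)) * r1 +
      algebraMap L F (algebraMap ℂ L (D1.eval s)) * r2,
      Subalgebra.add_mem _ (Subalgebra.mul_mem _ (alg_mem W c _) m1)
        (Subalgebra.mul_mem _ (alg_mem W c _) m2), ?_⟩
    rw [nb_add, nb_smul, nb_smul]
    simp only [Polynomial.eval_add, Polynomial.eval_mul, eval_mapC]
    rw [lg_add, lg_smul, lg_smul, map_mul, map_mul]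
    linear_combination (algebraMap L F (algebraMap ℂ L (D2.eval s))) * e1 +
      (algebraMap L F (algebraMap ℂ L (D1.eval s))) * e2

omit [DecidableEq ι] in
theorem Red.polyMul {A : Polynomial F} (hA : Red W c σ A) (P : Polynomial L) :
    Red W c σ (P.map (algebraMap L F) * A) := by
  obtain ⟨D1, a1, h1, k1⟩ := hA
  refine ⟨D1, fun i => P * a1 i, h1, fun s => ?_⟩
  obtain ⟨r1, m1, e1⟩ := k1 s
  refine ⟨algebraMap L F (P.eval (algebraMap ℂ L s)) * r1,
    Subalgebra.mul_mem _ (alg_mem W c _) m1, ?_⟩
  rw [nb_smul]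
  simp only [Polynomial.eval_mul, eval_mapL]
  rw [lg_smul]
  linear_combination (algebraMap L F (P.eval (algebraMap ℂ L s))) * e1

omit [DecidableEq ι] in
theorem Red.sum {κ : Type} (S : Finset κ) (A : κ → Polynomial F)
    (h : ∀ j ∈ S, Red W c σ (A j)) : Red W c σ (∑ j ∈ S, A j) := by
  classical
  induction S using Finset.induction_on with
  | empty => rw [Finset.sum_empty]; exact Red.zero
  | insert j S hj ih =>
    rw [Finset.sum_insert hj]
    exact (h j (Finset.mem_insert_self _ _)).add
      (ih fun i hi => h i (Finset.mem_insert_of_mem hi))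

omit [DecidableEq ι] in
/-- Division by a polynomial in `s` which does not vanish at nonresonant exponents. -/
theorem Red.div {x y : F} {E : Polynomial ℂ} {B : Polynomial F} (hy : y ∈ SS W c)
    (hE : ∀ s : ℂ, NonRes (fun i => algebraMap ℂ L ((σ i).eval s)) → E.eval s ≠ 0)
    (hB : Red W c σ B)
    (h : ∀ s : ℂ, algebraMap L F (algebraMap ℂ L (E.eval s)) * x =
      nb W.dw (lg W c fun i => algebraMap ℂ L ((σ i).eval s)) y +
        B.eval (algebraMap L F (algebraMap ℂ L s))) :
    Red W c σ (Polynomial.C x) := by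
  obtain ⟨D1, a1, h1, k1⟩ := hB
  refine ⟨D1 * E, a1, fun s hs => ?_, fun s => ?_⟩
  · rw [Polynomial.eval_mul]
    exact mul_ne_zero (h1 s hs) (hE s hs)
  · obtain ⟨r1, m1, e1⟩ := k1 s
    refine ⟨r1 + algebraMap L F (algebraMap ℂ L (D1.eval s)) * y,
      Subalgebra.add_mem _ m1 (Subalgebra.mul_mem _ (alg_mem W c _) hy), ?_⟩
    rw [nb_add, nb_smul, Polynomial.eval_C, Polynomial.eval_mul, map_mul, map_mul]
    linear_combination (algebraMap L F (algebraMap ℂ L (D1.eval s))) * h s + e1

/-- The reducible elements. -/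
def RedS (W : WF L F) (c : ι → L) (σ : ι → Polynomial ℂ) : Submodule L F where
  carrier := {x | Red W c σ (Polynomial.C x)}
  zero_mem' := by
    show Red W c σ (Polynomial.C 0)
    rw [Polynomial.C_0]
    exact Red.zero
  add_mem' := by
    intro x y hx hy
    show Red W c σ (Polynomial.C (x + y))
    rw [Polynomial.C_add]
    exact Red.add hx hy
  smul_mem' := by
    intro l x hx
    show Red W c σ (Polynomial.C (l • x))
    have h := Red.polyMul hx (Polynomial.C l)
    rw [Polynomial.map_C, ← Polynomial.C_mul] at h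
    rw [Algebra.smul_def]
    exact h

omit [DecidableEq ι] in
theorem mem_RedS {x : F} : x ∈ RedS W c σ ↔ Red W c σ (Polynomial.C x) := Iff.rfl

/-- Short for `1 / (w - c_i)`. -/
def u (W : WF L F) (c : ι → L) (i : ι) : F := (W.w - algebraMap L F (c i))⁻¹

omit [Fintype ι] [DecidableEq ι] [Algebra ℂ L] in
theorem w_mul_u (W : WF L F) (c : ι → L) (i : ι) :
    W.w * u W c i = 1 + algebraMap L F (c i) * u W c i := by
  have h : (W.w - algebraMap L F (c i)) * u W c i = 1 := mul_inv_cancel₀ (w_sub_ne W (c i))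
  linear_combination h

omit [Fintype ι] [DecidableEq ι] [Algebra ℂ L] in
theorem u_mul_u (W : WF L F) (c : ι → L) (hc : Function.Injective c) {i l : ι} (hil : l ≠ i) :
    u W c l * u W c i = (c l - c i)⁻¹ • (u W c l - u W c i) := by
  have h1 : (W.w - algebraMap L F (c i)) * u W c i = 1 := mul_inv_cancel₀ (w_sub_ne W (c i))
  have h2 : (W.w - algebraMap L F (c l)) * u W c l = 1 := mul_inv_cancel₀ (w_sub_ne W (c l))
  have hne : c l - c i ≠ 0 := sub_ne_zero.2 fun h => hil (hc h)
  have h3 : u W c l - u W c i = algebraMap L F (c l - c i) * (u W c l * u W c i) := by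
    rw [map_sub]
    linear_combination (-u W c l) * h1 + (u W c i) * h2
  rw [h3, Algebra.smul_def, ← mul_assoc, ← map_mul, inv_mul_cancel₀ hne, map_one, one_mul]

omit [Fintype ι] [Algebra ℂ L] in
/-- Products of the `u_i` in a submodule. -/
theorem u_mul_pow_mem (W : WF L F) (c : ι → L) (hc : Function.Injective c) (S : Submodule L F)
    {i l : ι} (hil : l ≠ i) (hl : u W c l ∈ S) :
    ∀ k : ℕ, (∀ j, 1 ≤ j → j ≤ k → u W c i ^ j ∈ S) → u W c l * u W c i ^ k ∈ S
  | 0, _ => by rwa [pow_zero, mul_one]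
  | k + 1, h => by
    have ih := u_mul_pow_mem W c hc S hil hl k fun j h1 h2 => h j h1 (by omega)
    have e : u W c l * u W c i ^ (k + 1) =
        (c l - c i)⁻¹ • (u W c l * u W c i ^ k - u W c i ^ (k + 1)) := by
      calc u W c l * u W c i ^ (k + 1) = (u W c l * u W c i) * u W c i ^ k := by ring
        _ = ((c l - c i)⁻¹ • (u W c l - u W c i)) * u W c i ^ k := by rw [u_mul_u W c hc hil]
        _ = (c l - c i)⁻¹ • (u W c l * u W c i ^ k - u W c i ^ (k + 1)) := by
          rw [smul_mul_assoc]
          congr 1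
          ring
    rw [e]
    exact S.smul_mem _ (S.sub_mem ih (h (k + 1) (by omega) le_rfl))

omit [Fintype ι] [DecidableEq ι] [Algebra ℂ L] in
/-- Products of powers of `w` and `u_l` in a submodule. -/
theorem w_pow_mul_mem (W : WF L F) (c : ι → L) (S : Submodule L F) {l : ι}
    (hl : u W c l ∈ S) :
    ∀ k : ℕ, (∀ j, j < k → W.w ^ j ∈ S) → W.w ^ k * u W c l ∈ S
  | 0, _ => by rwa [pow_zero, one_mul]
  | k + 1, h => by
    have ih := w_pow_mul_mem W c S hl k fun j hj => h j (by omega)
    have e : W.w ^ (k + 1) * u W c l = W.w ^ k + c l • (W.w ^ k * u W c l) := by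
      rw [Algebra.smul_def]
      linear_combination (W.w ^ k) * w_mul_u W c l
    rw [e]
    exact S.add_mem (h k (by omega)) (S.smul_mem _ ih)

omit [Fintype ι] [Algebra ℂ L] in
/-- Partial fractions. -/
theorem SS_le (W : WF L F) [Fintype ι] (c : ι → L) (hc : Function.Injective c)
    (S : Submodule L F) (hw : ∀ k, W.w ^ k ∈ S) (hu : ∀ i k, 1 ≤ k → u W c i ^ k ∈ S) {x : F}
    (hx : x ∈ SS W c) : x ∈ S := by
  classical
  -- the span of the basis
  let Bs : Set F := Set.range (fun k : ℕ => W.w ^ k) ∪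
    {y | ∃ (i : ι) (k : ℕ), 1 ≤ k ∧ y = u W c i ^ k}
  have hB : Submodule.span L Bs ≤ S := by
    rw [Submodule.span_le]
    rintro y (⟨k, rfl⟩ | ⟨i, k, hk, rfl⟩)
    · exact hw k
    · exact hu i k hk
  have bw : ∀ k, W.w ^ k ∈ Submodule.span L Bs := fun k =>
    Submodule.subset_span (Or.inl ⟨k, rfl⟩)
  have bu : ∀ i k, 1 ≤ k → u W c i ^ k ∈ Submodule.span L Bs := fun i k hk =>
    Submodule.subset_span (Or.inr ⟨i, k, hk, rfl⟩)
  have bu1 : ∀ i, u W c i ∈ Submodule.span L Bs := fun i => by
    have := bu i 1 le_rfl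
    rwa [pow_one] at this
  -- multiplication by a generator
  have key : ∀ g ∈ insert W.w (Set.range fun i => (W.w - algebraMap L F (c i))⁻¹),
      ∀ y ∈ Submodule.span L Bs, g * y ∈ Submodule.span L Bs := by
    intro g hg y hy
    induction hy using Submodule.span_induction with
    | mem y hy =>
      rcases hg with rfl | ⟨i, rfl⟩
      · rcases hy with ⟨k, rfl⟩ | ⟨i, k, hk, rfl⟩
        · have := bw (k + 1)
          rw [pow_succ'] at this
          exact this
        · obtain ⟨k, rfl⟩ : ∃ k', k = k' + 1 := ⟨k - 1, by omega⟩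
          have e : W.w * u W c i ^ (k + 1) = u W c i ^ k + c i • u W c i ^ (k + 1) := by
            rw [Algebra.smul_def]
            linear_combination (u W c i ^ k) * w_mul_u W c i
          rw [e]
          refine Submodule.add_mem _ ?_ (Submodule.smul_mem _ _ (bu i _ hk))
          rcases Nat.eq_zero_or_pos k with h0 | h0
          · rw [h0, pow_zero]
            have := bw 0
            rwa [pow_zero] at this
          · exact bu i k h0
      · show u W c i * y ∈ _
        rcases hy with ⟨k, rfl⟩ | ⟨l, k, hk, rfl⟩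
        · have := w_pow_mul_mem W c (Submodule.span L Bs) (bu1 i) k fun j _ => bw j
          rwa [mul_comm] at this
        · by_cases hil : i = l
          · subst hil
            rw [← pow_succ']
            exact bu i _ (by omega)
          · exact u_mul_pow_mem W c hc (Submodule.span L Bs) hil (bu1 i) k fun j h1 _ => bu l j h1
    | zero => rw [mul_zero]; exact Submodule.zero_mem _
    | add a b _ _ ha hb => rw [mul_add]; exact Submodule.add_mem _ ha hb
    | smul l a _ ha =>
      rw [mul_smul_comm]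
      exact Submodule.smul_mem _ _ ha
  -- multiplication by an element of the algebra
  have key2 : ∀ y ∈ Submodule.span L Bs, x * y ∈ Submodule.span L Bs := by
    refine Algebra.adjoin_induction (p := fun x _ => ∀ y ∈ Submodule.span L Bs,
      x * y ∈ Submodule.span L Bs) (fun g hg => key g hg) (fun l y hy => ?_) ?_ ?_ hx
    · rw [← Algebra.smul_def]
      exact Submodule.smul_mem _ _ hy
    · intro a b _ _ ha hb y hy
      rw [add_mul]
      exact Submodule.add_mem _ (ha y hy) (hb y hy)
    · intro a b _ _ ha hb y hy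
      rw [mul_assoc]
      exact ha _ (hb y hy)
  have h1 : (1 : F) ∈ Submodule.span L Bs := by
    have := bw 0
    rwa [pow_zero] at this
  have := key2 1 h1
  rw [mul_one] at this
  exact hB this

theorem u_mem_RedS (W : WF L F) (c : ι → L) (σ : ι → Polynomial ℂ) (i : ι) :
    u W c i ∈ RedS W c σ := by
  show Red W c σ (Polynomial.C (u W c i))
  refine ⟨1, fun l => if l = i then 1 else 0, fun s _ => by simp,
    fun s => ⟨0, Subalgebra.zero_mem _, ?_⟩⟩
  rw [nb_zero, Polynomial.eval_one, map_one, map_one, one_mul, Polynomial.eval_C, add_zero]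
  rw [lg, Finset.sum_eq_single i]
  · have h1 : (fun l => if l = i then (1 : Polynomial L) else 0) i = 1 := if_pos rfl
    rw [h1, Polynomial.eval_one, map_one, one_mul]
    rfl
  · intro l _ hl
    have h1 : (fun l => if l = i then (1 : Polynomial L) else 0) l = 0 := if_neg hl
    rw [h1, Polynomial.eval_zero, map_zero, zero_mul]
  · intro h
    exact (h (Finset.mem_univ i)).elim

omit [DecidableEq ι] [Algebra ℂ L] in
theorem lg_eq_u (W : WF L F) (c a : ι → L) :
    lg W c a = ∑ i, algebraMap L F (a i) * u W c i := rfl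

omit [DecidableEq ι] in
/-- The sum `∑ p_l(s) x_l` is reducible. -/
theorem red_sum (p : ι → Polynomial L) (x : ι → F) (S : Finset ι)
    (hx : ∀ i ∈ S, x i ∈ RedS W c σ) :
    Red W c σ (∑ i ∈ S, (p i).map (algebraMap L F) * Polynomial.C (x i)) :=
  Red.sum S _ fun i hi => Red.polyMul (mem_RedS.1 (hx i hi)) (p i)

omit [Fintype ι] [DecidableEq ι] in
theorem eval_sum (p : ι → Polynomial L) (x : ι → F) (S : Finset ι) (s : ℂ) :
    (∑ i ∈ S, (p i).map (algebraMap L F) * Polynomial.C (x i)).eval
      (algebraMap L F (algebraMap ℂ L s)) =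
    ∑ i ∈ S, algebraMap L F ((p i).eval (algebraMap ℂ L s)) * x i := by
  rw [Polynomial.eval_finsetSum]
  refine Finset.sum_congr rfl fun i _ => ?_
  rw [Polynomial.eval_mul, Polynomial.eval_C, eval_mapL]

omit [Fintype ι] [DecidableEq ι] [Algebra ℂ L] in
theorem dw_u (W : WF L F) (c : ι → L) (i : ι) : W.dw (u W c i) = -(u W c i ^ 2) := by
  have h1 : (W.w - algebraMap L F (c i)) * u W c i = 1 := mul_inv_cancel₀ (w_sub_ne W (c i))
  have h2 := congrArg W.dw h1
  rw [Derivation.leibniz, map_sub, W.dw_w, Derivation.map_algebraMap, Derivation.map_one_eq_zero,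
    sub_zero, smul_eq_mul, smul_eq_mul, mul_one] at h2
  linear_combination (u W c i) * h2 - (W.dw (u W c i)) * h1

theorem w_pow_mem_RedS (W : WF L F) (c : ι → L) (σ : ι → Polynomial ℂ) :
    ∀ k : ℕ, W.w ^ k ∈ RedS W c σ := by
  intro k
  induction k using Nat.strong_induction_on with
  | _ k ih =>
    show Red W c σ (Polynomial.C (W.w ^ k))
    refine Red.div (y := W.w ^ (k + 1)) (E := ((k + 1 : ℕ) : Polynomial ℂ) + ∑ i, σ i)
      (B := ∑ l, (-((σ l).map (algebraMap ℂ L) * Polynomial.C (c l))).map (algebraMap L F) *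
        Polynomial.C (W.w ^ k * u W c l))
      (Subalgebra.pow_mem _ (w_mem W c) _) ?_ ?_ ?_
    · intro s hs h0
      apply hs.2 (k + 1) (by omega)
      have h1 := congrArg (algebraMap ℂ L) h0
      rw [Polynomial.eval_add, Polynomial.eval_natCast, Polynomial.eval_finsetSum, map_add,
        map_natCast, map_sum, map_zero] at h1
      rw [add_comm]
      exact h1
    · exact red_sum _ _ _ fun l _ => w_pow_mul_mem W c _ (u_mem_RedS W c σ l) k fun j hj => ih j hj
    · intro s
      rw [eval_sum, nb, lg_eq_u, Derivation.leibniz_pow, W.dw_w]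
      have h2 : ∀ l, algebraMap L F ((-((σ l).map (algebraMap ℂ L) * Polynomial.C (c l))).eval
          (algebraMap ℂ L s)) * (W.w ^ k * u W c l) =
          -(algebraMap L F (algebraMap ℂ L ((σ l).eval s)) * (W.w ^ (k + 1) * u W c l)) +
            algebraMap L F (algebraMap ℂ L ((σ l).eval s)) * W.w ^ k := by
        intro l
        rw [Polynomial.eval_neg, Polynomial.eval_mul, eval_mapC, Polynomial.eval_C, map_neg,
          map_mul]
        linear_combination (algebraMap L F (algebraMap ℂ L ((σ l).eval s)) * W.w ^ k) *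
          w_mul_u W c l
      rw [Finset.sum_congr rfl fun l _ => h2 l, Finset.sum_add_distrib, Finset.sum_neg_distrib,
        ← Finset.sum_mul, Finset.sum_mul]
      have h3 : ∑ l, algebraMap L F (algebraMap ℂ L ((σ l).eval s)) * (W.w ^ (k + 1) * u W c l) =
          ∑ l, algebraMap L F (algebraMap ℂ L ((σ l).eval s)) * u W c l * W.w ^ (k + 1) :=
        Finset.sum_congr rfl fun l _ => by ring
      rw [h3, Polynomial.eval_add, Polynomial.eval_natCast, Polynomial.eval_finsetSum, map_add,
        map_add, map_natCast, map_natCast, map_sum, map_sum, nsmul_eq_mul, Nat.add_sub_cancel,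
        smul_eq_mul, mul_one]
      ring

theorem u_pow_mem_RedS (W : WF L F) (c : ι → L) (hc : Function.Injective c)
    (σ : ι → Polynomial ℂ) (i : ι) : ∀ k : ℕ, 1 ≤ k → u W c i ^ k ∈ RedS W c σ := by
  intro k
  induction k using Nat.strong_induction_on with
  | _ k ih =>
    intro hk
    rcases Nat.lt_or_ge 1 k with h1 | h1
    swap
    · have : k = 1 := by omega
      rw [this, pow_one]
      exact u_mem_RedS W c σ i
    obtain ⟨k, rfl⟩ : ∃ k', k = k' + 1 := ⟨k - 1, by omega⟩
    show Red W c σ (Polynomial.C (u W c i ^ (k + 1)))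
    refine Red.div (y := u W c i ^ k) (E := σ i - (k : Polynomial ℂ))
      (B := ∑ l ∈ Finset.univ.erase i, (-((σ l).map (algebraMap ℂ L))).map (algebraMap L F) *
        Polynomial.C (u W c l * u W c i ^ k))
      (Subalgebra.pow_mem _ (u_mem W c i) _) ?_ ?_ ?_
    · intro s hs h0
      apply hs.1 i k (by omega)
      have h1 := congrArg (algebraMap ℂ L) h0
      rw [Polynomial.eval_sub, Polynomial.eval_natCast, map_sub, map_natCast, map_zero] at h1
      exact sub_eq_zero.1 h1
    · refine red_sum _ _ _ fun l hl => ?_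
      refine u_mul_pow_mem W c hc _ (Finset.ne_of_mem_erase hl) (u_mem_RedS W c σ l) k
        fun j hj1 hj2 => ih j (by omega) hj1
    · intro s
      rw [eval_sum, nb, lg_eq_u, Derivation.leibniz_pow, dw_u]
      have h2 : ∀ l, algebraMap L F ((-((σ l).map (algebraMap ℂ L))).eval
          (algebraMap ℂ L s)) * (u W c l * u W c i ^ k) =
          -(algebraMap L F (algebraMap ℂ L ((σ l).eval s)) * u W c l * u W c i ^ k) := by
        intro l
        rw [Polynomial.eval_neg, eval_mapC, map_neg]
        ring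
      rw [Finset.sum_congr rfl fun l _ => h2 l, Finset.sum_neg_distrib, ← Finset.sum_mul]
      rw [← Finset.add_sum_erase Finset.univ _ (Finset.mem_univ i)]
      obtain ⟨m, rfl⟩ : ∃ m, k = m + 1 := ⟨k - 1, by omega⟩
      rw [Polynomial.eval_sub, Polynomial.eval_natCast, map_sub, map_sub, map_natCast,
        map_natCast, nsmul_eq_mul, Nat.add_sub_cancel, smul_eq_mul]
      ring

end Haux

/-- Hermite reduction: `D(s) A(s) = ∑ a_i(s) / (w - c_i) + ∇ r`, where `D(s) ≠ 0` if the exponents
are not resonant. -/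
theorem hermite [Algebra ℂ L] (W : WF L F) {c : ι → L} (hc : Function.Injective c)
    (σ : ι → Polynomial ℂ) (A : Polynomial F) (hA : ∀ k, A.coeff k ∈ SS W c) :
    ∃ (D : Polynomial ℂ) (a : ι → Polynomial L),
      (∀ s : ℂ, NonRes (fun i => algebraMap ℂ L ((σ i).eval s)) → D.eval s ≠ 0) ∧
      ∀ s : ℂ, ∃ r ∈ SS W c,
        algebraMap L F (algebraMap ℂ L (D.eval s)) *
            A.eval (algebraMap L F (algebraMap ℂ L s)) =
          lg W c (fun i => (a i).eval (algebraMap ℂ L s)) +
            nb W.dw (lg W c fun i => algebraMap ℂ L ((σ i).eval s)) r := by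
  have h1 : ∀ k, A.coeff k ∈ Haux.RedS W c σ := fun k =>
    Haux.SS_le W c hc _ (Haux.w_pow_mem_RedS W c σ) (Haux.u_pow_mem_RedS W c hc σ) (hA k)
  have h2 : Haux.Red W c σ (∑ k ∈ Finset.range (A.natDegree + 1),
      (Polynomial.X ^ k : Polynomial L).map (algebraMap L F) * Polynomial.C (A.coeff k)) :=
    Haux.Red.sum _ _ fun k _ => Haux.Red.polyMul (Haux.mem_RedS.1 (h1 k)) _
  have h3 : (∑ k ∈ Finset.range (A.natDegree + 1),
      (Polynomial.X ^ k : Polynomial L).map (algebraMap L F) * Polynomial.C (A.coeff k)) = A := by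
    conv_rhs => rw [A.as_sum_range]
    refine Finset.sum_congr rfl fun k _ => ?_
    rw [Polynomial.map_pow, Polynomial.map_X, mul_comm, Polynomial.C_mul_X_pow_eq_monomial]
  rw [h3] at h2
  exact h2

end MPb07157.TL
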