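import Pool.Agent.Lib.MP_b07157_agL3.Defs

/-!
# Euler's formula in the chart `(w, 1, t)`
-/

noncomputable section

namespace MPb07157.TL

open MvPolynomial

namespace J1aux

variable {F : Type} [Field F] [Algebra ℂ F]

theorem deriv_aeval (D : Derivation ℂ F F) {x : Fin 3 → F} {j : Fin 3}
    (h : ∀ i, D (x i) = if i = j then 1 else 0) (p : MvPolynomial (Fin 3) ℂ) :
    D (aeval x p) = aeval x (pderiv j p) := by
  induction p using MvPolynomial.induction_on with
  | C a =>
    rw [pderiv_C, map_zero, ← algebraMap_eq, AlgHom.commutes, Derivation.map_algebraMap]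
  | add p q hp hq => rw [map_add, map_add, map_add, map_add, hp, hq]
  | mul_X p i hp =>
    rw [map_mul, Derivation.leibniz, hp, aeval_X, h, Derivation.leibniz, pderiv_X, map_add]
    simp only [smul_eq_mul, map_mul, aeval_X]
    by_cases hij : i = j
    · subst hij
      simp
    · rw [if_neg hij, Pi.single_eq_of_ne hij]
      simp

theorem dt_aeval {dt : Derivation ℂ F F} {w t : F} (htw : dt w = 0) (htt : dt t = 1)
    (p : MvPolynomial (Fin 3) ℂ) : dt (aeval (pt w t) p) = aeval (pt w t) (pderiv 2 p) := by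
  refine deriv_aeval dt (fun i => ?_) p
  fin_cases i
  · simpa [pt] using htw
  · simp [pt]
  · simpa [pt] using htt

theorem dw_aeval {dw : Derivation ℂ F F} {w t : F} (hww : dw w = 1) (hwt : dw t = 0)
    (p : MvPolynomial (Fin 3) ℂ) : dw (aeval (pt w t) p) = aeval (pt w t) (pderiv 0 p) := by
  refine deriv_aeval dw (fun i => ?_) p
  fin_cases i
  · simpa [pt] using hww
  · simp [pt]
  · simpa [pt] using hwt

theorem euler_aeval {w t : F} {p : MvPolynomial (Fin 3) ℂ} {n : ℕ} (hp : p.IsHomogeneous n) :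
    aeval (pt w t) (pderiv 1 p) = n * aeval (pt w t) p -
      w * aeval (pt w t) (pderiv 0 p) - t * aeval (pt w t) (pderiv 2 p) := by
  have h := congrArg (aeval (pt w t)) hp.sum_X_mul_pderiv
  rw [map_sum, Fin.sum_univ_three] at h
  simp only [map_mul, aeval_X, nsmul_eq_mul, map_natCast] at h
  have e0 : pt w t 0 = w := rfl
  have e1 : pt w t 1 = 1 := rfl
  have e2 : pt w t 2 = t := rfl
  rw [e0, e1, e2] at h
  linear_combination h

theorem EV_eval {n : ℕ} (x : Fin n → F) (s : ℂ) (p : MvPolynomial (Fin n) (Polynomial ℂ)) :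
    (EV x p).eval (algebraMap ℂ F s) = aeval x (spec s p) := by
  have h : (Polynomial.evalRingHom (algebraMap ℂ F s)).comp (EV x) =
      (aeval x : MvPolynomial (Fin n) ℂ →ₐ[ℂ] F).toRingHom.comp (spec s) := by
    refine MvPolynomial.ringHom_ext (fun q => ?_) (fun i => ?_)
    · simp only [RingHom.comp_apply, EV, eval₂Hom_C, Polynomial.coe_mapRingHom,
        Polynomial.coe_evalRingHom, spec, map_C, AlgHom.toRingHom_eq_coe, RingHom.coe_coe,
        aeval_C]
      rw [Polynomial.eval_map_algebraMap, Polynomial.aeval_algebraMap_apply]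
      simp
    · simp only [RingHom.comp_apply, EV, eval₂Hom_X', Polynomial.coe_evalRingHom,
        Polynomial.eval_C, spec, map_X, AlgHom.toRingHom_eq_coe, RingHom.coe_coe, aeval_X]
  exact congrArg (fun φ => φ p) h

theorem spec_liftS {n : ℕ} (s : ℂ) (p : MvPolynomial (Fin n) ℂ) : spec s (liftS p) = p := by
  unfold spec liftS
  rw [MvPolynomial.map_map]
  have h : (Polynomial.evalRingHom s).comp Polynomial.C = RingHom.id ℂ := by
    ext a
    simp
  rw [h, MvPolynomial.map_id]

theorem spec_C {n : ℕ} (s : ℂ) (q : Polynomial ℂ) :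
    (spec s (C q) : MvPolynomial (Fin n) ℂ) = C (q.eval s) := by
  unfold spec
  rw [map_C]
  rfl

theorem spec_pderiv {n : ℕ} (s : ℂ) (i : Fin n) (p : MvPolynomial (Fin n) (Polynomial ℂ)) :
    spec s (pderiv i p) = pderiv i (spec s p) := by
  unfold spec
  rw [pderiv_map]

theorem spec_homog {n : ℕ} (s : ℂ) {p : MvPolynomial (Fin n) (Polynomial ℂ)} {m : ℕ}
    (h : p.IsHomogeneous m) : (spec s p).IsHomogeneous m := h.map _

/-- The identity for `θ`, specialised. -/
theorem eqn_aeval {f : MvPolynomial (Fin 3) ℂ} {d : ℕ} {b : Polynomial ℂ} {K : ℕ}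
    {θ : Fin 3 → MvPolynomial (Fin 3) (Polynomial ℂ)} (h : Thet f d b K θ) (x : Fin 3 → F)
    (s : ℂ) :
    algebraMap ℂ F (b.eval s) * aeval x f ^ (K + 1) =
      ∑ i, (aeval x f * aeval x (pderiv i (spec s (θ i))) +
        (algebraMap ℂ F s - K) * aeval x (pderiv i f) * aeval x (spec s (θ i))) := by
  have h1 := congrArg (fun p => aeval x (spec s p)) h.eqn
  simp only [map_mul, map_pow, map_sum, map_add, spec_liftS, spec_C, spec_pderiv, aeval_C] at h1
  rw [h1]
  refine Finset.sum_congr rfl fun i _ => ?_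
  simp only [Polynomial.eval_sub, Polynomial.eval_X, Polynomial.eval_natCast, map_sub,
    map_natCast]

theorem deriv_inv_pow (D : Derivation ℂ F F) {g : F} (K : ℕ) :
    D (g⁻¹ ^ K) = -(K : F) * (g⁻¹ ^ K * g⁻¹) * D g := by
  induction K with
  | zero => simp
  | succ K ih =>
    rw [pow_succ, Derivation.leibniz, ih, Derivation.leibniz_inv]
    simp only [smul_eq_mul]
    push_cast
    ring

end J1aux

open J1aux in
/-- Euler's formula in the chart `ℓ ≠ 0`. -/
theorem J1aux.euler_part' {F : Type} [Field F] [Algebra ℂ F]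
    {f : MvPolynomial (Fin 3) ℂ} {d : ℕ} (hf : f.IsHomogeneous d)
    {b : Polynomial ℂ} {K : ℕ} {θ : Fin 3 → MvPolynomial (Fin 3) (Polynomial ℂ)}
    (h : Thet f d b K θ) {dt dw : Derivation ℂ F F} {w t : F} (hww : dw w = 1) (hwt : dw t = 0)
    (htw : dt w = 0) (htt : dt t = 1) (hg : aeval (pt w t) f ≠ 0) {lam : ℂ}
    (hl : w ≠ algebraMap ℂ F lam) (s : ℂ) :
    algebraMap ℂ F (b.eval s) =
      nb dt (algebraMap ℂ F s * (dt (aeval (pt w t) f) / aeval (pt w t) f))
          ((B1 f K θ w t).eval (algebraMap ℂ F s)) +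
        nb dw (algebraMap ℂ F s * (dw (aeval (pt w t) f) / aeval (pt w t) f) -
            algebraMap ℂ F (d * s + 3) * (w - algebraMap ℂ F lam)⁻¹)
          ((aeval (pt w t) f)⁻¹ ^ K *
            (aeval (pt w t) (spec s (θ 0)) - w * aeval (pt w t) (spec s (θ 1)))) +
        algebraMap ℂ F (d * s + 3) * (w - algebraMap ℂ F lam)⁻¹ *
          ((aeval (pt w t) f)⁻¹ ^ K *
            (aeval (pt w t) (spec s (θ 0)) -
              algebraMap ℂ F lam * aeval (pt w t) (spec s (θ 1)))) := by
  have hB : (B1 f K θ w t).eval (algebraMap ℂ F s) = (aeval (pt w t) f)⁻¹ ^ K *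
      (aeval (pt w t) (spec s (θ 2)) - t * aeval (pt w t) (spec s (θ 1))) := by
    unfold B1
    rw [Polynomial.eval_mul, Polynomial.eval_sub, Polynomial.eval_mul, Polynomial.eval_C,
      Polynomial.eval_C, EV_eval, EV_eval]
  have h1 := eqn_aeval h (pt w t) s
  rw [Fin.sum_univ_three] at h1
  have E1 := euler_aeval (w := w) (t := t) hf
  have E2 := euler_aeval (w := w) (t := t) (spec_homog s (h.hom 1))
  have hds : algebraMap ℂ F (d * s + 3) = d * algebraMap ℂ F s + 3 := by
    rw [map_add, map_mul, map_natCast, map_ofNat]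
  have hL : (w - algebraMap ℂ F lam)⁻¹ * (w - algebraMap ℂ F lam) = 1 :=
    inv_mul_cancel₀ (sub_ne_zero.2 hl)
  have hG : (aeval (pt w t) f)⁻¹ * aeval (pt w t) f = 1 := inv_mul_cancel₀ hg
  have hQ : (aeval (pt w t) f)⁻¹ ^ K * (aeval (pt w t) f)⁻¹ * aeval (pt w t) f ^ (K + 1) = 1 := by
    rw [← pow_succ, ← mul_pow, hG, one_pow]
  rw [hB, hds]
  unfold nb
  rw [Derivation.leibniz, Derivation.leibniz, deriv_inv_pow, deriv_inv_pow]
  simp only [smul_eq_mul, map_sub, Derivation.leibniz]
  rw [dt_aeval htw htt, dt_aeval htw htt, dt_aeval htw htt, dw_aeval hww hwt, dw_aeval hww hwt,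
    dw_aeval hww hwt, htt, hww, div_eq_mul_inv, div_eq_mul_inv]
  push_cast at E2
  set P : F := (aeval (pt w t) f)⁻¹ ^ K
  set G : F := (aeval (pt w t) f)⁻¹
  set M : F := (w - algebraMap ℂ F lam)⁻¹
  set gK : F := aeval (pt w t) f ^ (K + 1)
  set g : F := aeval (pt w t) f
  set S : F := algebraMap ℂ F s
  set B : F := algebraMap ℂ F (b.eval s)
  set l : F := algebraMap ℂ F lam
  set g0 : F := aeval (pt w t) (pderiv 0 f)
  set g1 : F := aeval (pt w t) (pderiv 1 f)
  set g2 : F := aeval (pt w t) (pderiv 2 f)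
  set a0 : F := aeval (pt w t) (spec s (θ 0))
  set a1 : F := aeval (pt w t) (spec s (θ 1))
  set a2 : F := aeval (pt w t) (spec s (θ 2))
  set a00 : F := aeval (pt w t) (pderiv 0 (spec s (θ 0)))
  set a11 : F := aeval (pt w t) (pderiv 1 (spec s (θ 1)))
  set a22 : F := aeval (pt w t) (pderiv 2 (spec s (θ 2)))
  linear_combination (-B) * hQ + P * G * h1 +
    (P * (a00 + a11 + a22) + (S - K) * d * P * a1) * hG - ((d * S + 3) * P * a1) * hL +
    P * E2 + (S - K) * P * G * a1 * E1

end MPb07157.TL
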