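import Pool.Agent.Lib.MP_b07157_agL3.J1

/-!
# The divergences in the chart `ℓ ≠ 0`
-/

noncomputable section

namespace MPb07157.TL

open MvPolynomial

namespace J2aux

open J1aux

variable {F : Type} [Field F] [Algebra ℂ F]

theorem deriv_aeval2 (D : Derivation ℂ F F) (x : Fin 2 → F) (p : MvPolynomial (Fin 2) ℂ) :
    D (aeval x p) = D (x 0) * aeval x (pderiv 0 p) + D (x 1) * aeval x (pderiv 1 p) := by
  induction p using MvPolynomial.induction_on with
  | C a =>
    rw [pderiv_C, pderiv_C, map_zero, ← algebraMap_eq, AlgHom.commutes,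
      Derivation.map_algebraMap]
    ring
  | add p q hp hq =>
    simp only [map_add, hp, hq]
    ring
  | mul_X p i hp =>
    rw [map_mul, Derivation.leibniz, hp, aeval_X, Derivation.leibniz, Derivation.leibniz,
      pderiv_X, pderiv_X, map_add, map_add]
    simp only [smul_eq_mul, map_mul, aeval_X]
    fin_cases i
    · simp
      ring
    · simp
      ring

theorem aeval_smul_homog {n : ℕ} (c : F) (x : Fin n → F) {G : MvPolynomial (Fin n) ℂ} {m : ℕ}
    (hG : G.IsHomogeneous m) : aeval (fun i => c * x i) G = c ^ m * aeval x G := by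
  rw [aeval_def, aeval_def, eval₂_eq', eval₂_eq', Finset.mul_sum]
  refine Finset.sum_congr rfl fun e he => ?_
  have h1 : ∑ i, e i = m := by
    have h2 := hG (mem_support_iff.1 he)
    rw [← h2, Finsupp.weight_apply, Finsupp.sum_fintype _ _ (by simp)]
    simp
  simp_rw [mul_pow]
  rw [Finset.prod_mul_distrib, Finset.prod_pow_eq_pow_sum, h1]
  ring

theorem res_aeval {lam : ℂ} {w t : F} (hl : w ≠ algebraMap ℂ F lam)
    {G : MvPolynomial (Fin 3) ℂ} {m : ℕ} (hG : G.IsHomogeneous m) :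
    aeval (pq lam w t) (res lam 0 G) =
      (w - algebraMap ℂ F lam)⁻¹ ^ m * aeval (pt w t) G := by
  have hL : (w - algebraMap ℂ F lam)⁻¹ * (w - algebraMap ℂ F lam) = 1 :=
    inv_mul_cancel₀ (sub_ne_zero.2 hl)
  have h1 : aeval (pq lam w t) (res lam 0 G) =
      aeval (fun i => (w - algebraMap ℂ F lam)⁻¹ * pt w t i) G := by
    unfold res
    rw [← AlgHom.comp_apply]
    refine congrArg (fun φ : MvPolynomial (Fin 3) ℂ →ₐ[ℂ] F => φ G) ?_
    refine MvPolynomial.algHom_ext fun i => ?_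
    rw [AlgHom.comp_apply, aeval_X, aeval_X]
    fin_cases i
    · simp only [rv, pq, pt]
      simp
      linear_combination (-1 : F) * hL
    · simp [rv, pq, pt]
    · simp [rv, pq, pt, mul_comm]
  rw [h1]
  exact aeval_smul_homog _ _ hG

theorem spec_resP (s : ℂ) (lam mu : ℂ) (q : MvPolynomial (Fin 3) (Polynomial ℂ)) :
    spec s (resP lam mu q) = res lam mu (spec s q) := by
  have h : (spec s).comp (resP lam mu).toRingHom = (res lam mu).toRingHom.comp (spec s) := by
    refine MvPolynomial.ringHom_ext (fun q => ?_) (fun i => ?_)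
    · simp only [RingHom.comp_apply, AlgHom.toRingHom_eq_coe, RingHom.coe_coe, resP, res, spec,
        aeval_C, map_C]
      rw [algebraMap_eq, map_C, algebraMap_eq]
    · simp only [RingHom.comp_apply, AlgHom.toRingHom_eq_coe, RingHom.coe_coe, resP, res,
        aeval_X]
      rw [spec_liftS, spec, map_X, aeval_X]
  exact congrArg (fun φ => φ q) h

/-- The identity in the chart, specialised. -/
theorem chart_aeval {f : MvPolynomial (Fin 3) ℂ} {K : ℕ}
    {θ : Fin 3 → MvPolynomial (Fin 3) (Polynomial ℂ)} {lam : ℂ} {j : ℕ}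
    {p : MvPolynomial (Fin 2) (Polynomial ℂ)} {u : Fin 2 → MvPolynomial (Fin 2) (Polynomial ℂ)}
    (h : resP lam 0 (θ 0 - C (Polynomial.C lam) * θ 1 - C (Polynomial.C 0) * θ 2) *
        liftS (res lam 0 f) ^ (j + 1) =
      p * liftS (res lam 0 f) ^ (K + j + 2) + ∑ i, (liftS (res lam 0 f) * pderiv i (u i) +
        C (Polynomial.X - ((K + j : ℕ) : Polynomial ℂ)) * liftS (pderiv i (res lam 0 f)) * u i))
    (x : Fin 2 → F) (s : ℂ) :
    (aeval x (res lam 0 (spec s (θ 0))) - algebraMap ℂ F lam *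
        aeval x (res lam 0 (spec s (θ 1)))) * aeval x (res lam 0 f) ^ (j + 1) =
      aeval x (spec s p) * aeval x (res lam 0 f) ^ (K + j + 2) +
        ∑ i, (aeval x (res lam 0 f) * aeval x (pderiv i (spec s (u i))) +
          (algebraMap ℂ F s - ((K + j : ℕ) : F)) * aeval x (pderiv i (res lam 0 f)) *
            aeval x (spec s (u i))) := by
  have h1 := congrArg (fun p => aeval x (spec s p)) h
  have hC : ∀ a : ℂ, res lam 0 (C a) = C a := fun a => by
    unfold res
    rw [aeval_C, algebraMap_eq]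
  simp only [map_mul, map_pow, map_sum, map_add, map_sub, spec_liftS, spec_C, spec_pderiv,
    spec_resP, hC, aeval_C] at h1
  simp only [Polynomial.eval_C, Polynomial.eval_zero, Polynomial.eval_X,
    Polynomial.eval_natCast, map_natCast, map_zero, zero_mul, sub_zero] at h1
  exact h1

/-- The divergences in the chart `ℓ ≠ 0`. -/
theorem chart_part' {f : MvPolynomial (Fin 3) ℂ} {d : ℕ} (hf : f.IsHomogeneous d)
    {b : Polynomial ℂ} {K : ℕ} {θ : Fin 3 → MvPolynomial (Fin 3) (Polynomial ℂ)}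
    (h : Thet f d b K θ) {dt dw : Derivation ℂ F F} {w t : F} (hww : dw w = 1) (hwt : dw t = 0)
    (htw : dt w = 0) (htt : dt t = 1) (hg : aeval (pt w t) f ≠ 0) {lam : ℂ}
    (hl : w ≠ algebraMap ℂ F lam) :
    ∃ (j : ℕ) (p : MvPolynomial (Fin 2) (Polynomial ℂ))
      (u : Fin 2 → MvPolynomial (Fin 2) (Polynomial ℂ)), ∀ s : ℂ,
      (w - algebraMap ℂ F lam)⁻¹ *
          ((aeval (pt w t) f)⁻¹ ^ K *
            (aeval (pt w t) (spec s (θ 0)) -
              algebraMap ℂ F lam * aeval (pt w t) (spec s (θ 1)))) =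
        aeval (pq lam w t) (spec s p * res lam 0 f) +
          nb dt (algebraMap ℂ F s * (dt (aeval (pt w t) f) / aeval (pt w t) f))
            ((U1 f lam (K + j) u w t).eval (algebraMap ℂ F s)) +
          nb dw (algebraMap ℂ F s * (dw (aeval (pt w t) f) / aeval (pt w t) f) -
              algebraMap ℂ F (d * s + 3) * (w - algebraMap ℂ F lam)⁻¹)
            (-((w - algebraMap ℂ F lam) ^ 2 *
              (aeval (pq lam w t) (res lam 0 f))⁻¹ ^ (K + j) *
              aeval (pq lam w t) (spec s (u 0)))) := by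
  obtain ⟨j, p, u, hu⟩ := h.chart lam 0
  refine ⟨j, p, u, fun s => ?_⟩
  have h1 := chart_aeval hu (pq lam w t) s
  rw [Fin.sum_univ_two] at h1
  have hU : (U1 f lam (K + j) u w t).eval (algebraMap ℂ F s) = (w - algebraMap ℂ F lam) *
      (aeval (pq lam w t) (res lam 0 f))⁻¹ ^ (K + j) *
      (aeval (pq lam w t) (spec s (u 1)) - t * aeval (pq lam w t) (spec s (u 0))) := by
    unfold U1
    rw [Polynomial.eval_mul, Polynomial.eval_sub, Polynomial.eval_mul, Polynomial.eval_C,
      Polynomial.eval_C, EV_eval, EV_eval]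
  have hl0 : w - algebraMap ℂ F lam ≠ 0 := sub_ne_zero.2 hl
  have E := res_aeval (t := t) hl hf
  have E0 := res_aeval (t := t) hl (spec_homog s (h.hom 0))
  have E1 := res_aeval (t := t) hl (spec_homog s (h.hom 1))
  have hds : algebraMap ℂ F (d * s + 3) = d * algebraMap ℂ F s + 3 := by
    rw [map_add, map_mul, map_natCast, map_ofNat]
  have hwM : dw (w - algebraMap ℂ F lam)⁻¹ = -(w - algebraMap ℂ F lam)⁻¹ ^ 2 := by
    rw [Derivation.leibniz_inv, map_sub, hww, Derivation.map_algebraMap, smul_eq_mul]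
    ring
  have htM : dt (w - algebraMap ℂ F lam)⁻¹ = 0 := by
    rw [Derivation.leibniz_inv, map_sub, htw, Derivation.map_algebraMap, smul_eq_mul]
    ring
  have e0 : pq lam w t 0 = (w - algebraMap ℂ F lam)⁻¹ := rfl
  have e1 : pq lam w t 1 = t * (w - algebraMap ℂ F lam)⁻¹ := rfl
  have Dt : ∀ P : MvPolynomial (Fin 2) ℂ, dt (aeval (pq lam w t) P) =
      (w - algebraMap ℂ F lam)⁻¹ * aeval (pq lam w t) (pderiv 1 P) := fun P => by
    rw [deriv_aeval2, e0, e1, Derivation.leibniz, htM, htt]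
    simp
  have Dw : ∀ P : MvPolynomial (Fin 2) ℂ, dw (aeval (pq lam w t) P) =
      -(w - algebraMap ℂ F lam)⁻¹ ^ 2 * (aeval (pq lam w t) (pderiv 0 P) +
        t * aeval (pq lam w t) (pderiv 1 P)) := fun P => by
    rw [deriv_aeval2, e0, e1, Derivation.leibniz, hwM, hwt]
    simp
    ring
  -- `g = f_ℓ (w - lam)^d`
  have hgf : aeval (pt w t) f = (w - algebraMap ℂ F lam) ^ d *
      aeval (pq lam w t) (res lam 0 f) := by
    rw [E, ← mul_assoc, ← mul_pow, mul_inv_cancel₀ hl0, one_pow, one_mul]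
  have hf0 : aeval (pq lam w t) (res lam 0 f) ≠ 0 := fun h0 => hg (by rw [hgf, h0, mul_zero])
  have hgt : dt (aeval (pt w t) f) / aeval (pt w t) f = (w - algebraMap ℂ F lam)⁻¹ *
      aeval (pq lam w t) (pderiv 1 (res lam 0 f)) * (aeval (pq lam w t) (res lam 0 f))⁻¹ := by
    rw [hgf, Derivation.leibniz, Derivation.leibniz_pow, Dt, map_sub, htw,
      Derivation.map_algebraMap]
    simp only [smul_eq_mul]
    field_simp
    simp
  have hWd : dw ((w - algebraMap ℂ F lam) ^ d) =
      d * (w - algebraMap ℂ F lam)⁻¹ * (w - algebraMap ℂ F lam) ^ d := by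
    rw [Derivation.leibniz_pow, map_sub, hww, Derivation.map_algebraMap]
    rcases Nat.eq_zero_or_pos d with hd | hd
    · subst hd
      simp
    · obtain ⟨e, rfl⟩ : ∃ e, d = e + 1 := ⟨d - 1, by omega⟩
      simp only [Nat.add_sub_cancel, smul_eq_mul, pow_succ, nsmul_eq_mul]
      field_simp
      ring
  have hgw : dw (aeval (pt w t) f) / aeval (pt w t) f = d * (w - algebraMap ℂ F lam)⁻¹ -
      (w - algebraMap ℂ F lam)⁻¹ ^ 2 * (aeval (pq lam w t) (pderiv 0 (res lam 0 f)) +
        t * aeval (pq lam w t) (pderiv 1 (res lam 0 f))) *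
        (aeval (pq lam w t) (res lam 0 f))⁻¹ := by
    rw [hgf, Derivation.leibniz, hWd, Dw]
    simp only [smul_eq_mul]
    field_simp
    ring
  have hMW : (w - algebraMap ℂ F lam)⁻¹ * (w - algebraMap ℂ F lam) = 1 := inv_mul_cancel₀ hl0
  have hG : (aeval (pq lam w t) (res lam 0 f))⁻¹ * aeval (pq lam w t) (res lam 0 f) = 1 :=
    inv_mul_cancel₀ hf0
  have hdW : dw (w - algebraMap ℂ F lam) = 1 := by
    rw [map_sub, hww, Derivation.map_algebraMap, sub_zero]
  have hdWt : dt (w - algebraMap ℂ F lam) = 0 := by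
    rw [map_sub, htw, Derivation.map_algebraMap, sub_zero]
  -- the left side
  have q1 : (aeval (pq lam w t) (res lam 0 f))⁻¹ ^ (K + j) *
      (aeval (pq lam w t) (res lam 0 f))⁻¹ * aeval (pq lam w t) (res lam 0 f) ^ (j + 1) =
      (aeval (pq lam w t) (res lam 0 f))⁻¹ ^ K := by
    rw [← pow_succ, add_assoc, pow_add, mul_assoc, ← mul_pow, hG, one_pow, mul_one]
  have q2 : (aeval (pq lam w t) (res lam 0 f))⁻¹ ^ (K + j) *
      (aeval (pq lam w t) (res lam 0 f))⁻¹ * aeval (pq lam w t) (res lam 0 f) ^ (K + j + 2) =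
      aeval (pq lam w t) (res lam 0 f) := by
    rw [← pow_succ, pow_succ (aeval (pq lam w t) (res lam 0 f)) (K + j + 1), ← mul_assoc,
      ← mul_pow, hG, one_pow, one_mul]
  have h2 : (w - algebraMap ℂ F lam)⁻¹ *
          ((aeval (pt w t) f)⁻¹ ^ K *
            (aeval (pt w t) (spec s (θ 0)) -
              algebraMap ℂ F lam * aeval (pt w t) (spec s (θ 1)))) =
      (aeval (pq lam w t) (res lam 0 (spec s (θ 0))) - algebraMap ℂ F lam *
        aeval (pq lam w t) (res lam 0 (spec s (θ 1)))) *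
        (aeval (pq lam w t) (res lam 0 f))⁻¹ ^ K := by
    have h3 : (aeval (pt w t) f)⁻¹ = (w - algebraMap ℂ F lam)⁻¹ ^ d *
        (aeval (pq lam w t) (res lam 0 f))⁻¹ := by
      rw [hgf, mul_inv, inv_pow]
    rw [h3, E0, E1, mul_pow, pow_succ, pow_mul]
    ring
  have hUt : dt ((w - algebraMap ℂ F lam) * (aeval (pq lam w t) (res lam 0 f))⁻¹ ^ (K + j) *
      (aeval (pq lam w t) (spec s (u 1)) - t * aeval (pq lam w t) (spec s (u 0)))) =
      (w - algebraMap ℂ F lam) * (-((K + j : ℕ) : F) *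
        ((aeval (pq lam w t) (res lam 0 f))⁻¹ ^ (K + j) *
          (aeval (pq lam w t) (res lam 0 f))⁻¹) * ((w - algebraMap ℂ F lam)⁻¹ *
          aeval (pq lam w t) (pderiv 1 (res lam 0 f)))) *
        (aeval (pq lam w t) (spec s (u 1)) - t * aeval (pq lam w t) (spec s (u 0))) +
      (w - algebraMap ℂ F lam) * (aeval (pq lam w t) (res lam 0 f))⁻¹ ^ (K + j) *
        ((w - algebraMap ℂ F lam)⁻¹ * aeval (pq lam w t) (pderiv 1 (spec s (u 1))) -
          aeval (pq lam w t) (spec s (u 0)) -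
          t * ((w - algebraMap ℂ F lam)⁻¹ * aeval (pq lam w t) (pderiv 1 (spec s (u 0))))) := by
    rw [Derivation.leibniz, Derivation.leibniz, map_sub dt (aeval (pq lam w t) (spec s (u 1))),
      Derivation.leibniz dt t, deriv_inv_pow, hdWt, Dt, Dt, Dt, htt]
    simp only [smul_eq_mul]
    ring
  have hUw : dw ((w - algebraMap ℂ F lam) ^ 2 * (aeval (pq lam w t) (res lam 0 f))⁻¹ ^ (K + j) *
      aeval (pq lam w t) (spec s (u 0))) =
      2 * (w - algebraMap ℂ F lam) * (aeval (pq lam w t) (res lam 0 f))⁻¹ ^ (K + j) *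
        aeval (pq lam w t) (spec s (u 0)) +
      (w - algebraMap ℂ F lam) ^ 2 * (-((K + j : ℕ) : F) *
        ((aeval (pq lam w t) (res lam 0 f))⁻¹ ^ (K + j) *
          (aeval (pq lam w t) (res lam 0 f))⁻¹) * (-(w - algebraMap ℂ F lam)⁻¹ ^ 2 *
          (aeval (pq lam w t) (pderiv 0 (res lam 0 f)) +
            t * aeval (pq lam w t) (pderiv 1 (res lam 0 f))))) *
        aeval (pq lam w t) (spec s (u 0)) +
      (w - algebraMap ℂ F lam) ^ 2 * (aeval (pq lam w t) (res lam 0 f))⁻¹ ^ (K + j) *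
        (-(w - algebraMap ℂ F lam)⁻¹ ^ 2 * (aeval (pq lam w t) (pderiv 0 (spec s (u 0))) +
          t * aeval (pq lam w t) (pderiv 1 (spec s (u 0))))) := by
    rw [Derivation.leibniz, Derivation.leibniz, deriv_inv_pow, Derivation.leibniz_pow, hdW, Dw,
      Dw]
    simp only [smul_eq_mul, nsmul_eq_mul]
    push_cast
    ring
  rw [h2, hU, hgt, hgw, hds, map_mul]
  unfold nb
  rw [map_neg, hUt, hUw]
  set W : F := w - algebraMap ℂ F lam
  set G : F := (aeval (pq lam w t) (res lam 0 f))⁻¹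
  set g : F := aeval (pq lam w t) (res lam 0 f)
  set M : F := W⁻¹
  set GN : F := G ^ (K + j)
  set N : F := ((K + j : ℕ) : F)
  set S : F := algebraMap ℂ F s
  set u0 : F := aeval (pq lam w t) (spec s (u 0))
  set u1 : F := aeval (pq lam w t) (spec s (u 1))
  set u00 : F := aeval (pq lam w t) (pderiv 0 (spec s (u 0)))
  set u01 : F := aeval (pq lam w t) (pderiv 1 (spec s (u 0)))
  set u11 : F := aeval (pq lam w t) (pderiv 1 (spec s (u 1)))
  set p0 : F := aeval (pq lam w t) (pderiv 0 (res lam 0 f))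
  set p1 : F := aeval (pq lam w t) (pderiv 1 (res lam 0 f))
  linear_combination GN * G * h1 - (aeval (pq lam w t) (res lam 0 (spec s (θ 0))) -
      algebraMap ℂ F lam * aeval (pq lam w t) (res lam 0 (spec s (θ 1)))) * q1 +
    aeval (pq lam w t) (spec s p) * q2 + GN * (u00 + u11) * hG -
    ((-N * GN * G * p1 * (u1 - t * u0) + GN * u11 - t * GN * u01 +
        S * p1 * GN * G * (u1 - t * u0) - S * d * W * GN * u0 + (d * S + 3) * W * GN * u0) +
      (-N * GN * G * (p0 + t * p1) * u0 + GN * (u00 + t * u01) +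
        S * (p0 + t * p1) * GN * G * u0) * (M * W + 1)) * hMW

end J2aux

end MPb07157.TL
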