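import Pool.Agent.Lib.MP_b07157_agL3.Defs
import Pool.Agent.Lib.MP_b07157_agL3.J1
import Pool.Agent.Lib.MP_b07157_agL3.J2

/-!
# The identity on the plane `(w, t)`
-/

noncomputable section

namespace MPb07157.TL

open MvPolynomial

variable {F : Type} [Field F] [Algebra ℂ F]

/-- Euler's formula in the chart `ℓ ≠ 0`. -/
theorem euler_part {f : MvPolynomial (Fin 3) ℂ} {d : ℕ} (hf : f.IsHomogeneous d)
    {b : Polynomial ℂ} {K : ℕ} {θ : Fin 3 → MvPolynomial (Fin 3) (Polynomial ℂ)}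
    (h : Thet f d b K θ) {dt dw : Derivation ℂ F F} {w t : F} (hww : dw w = 1) (hwt : dw t = 0)
    (htw : dt w = 0) (htt : dt t = 1) (hg : aeval (pt w t) f ≠ 0) {lam : ℂ}
    (hl : w ≠ algebraMap ℂ F lam) (s : ℂ) :
    algebraMap ℂ F (b.eval s) =
      nb dt (algebraMap ℂ F s * (dt (aeval (pt w t) f) / aeval (pt w t) f))
          ((B1 f K θ w t).eval (algebraMap ℂ F s)) +
        nb dw (algebraMap ℂ F s * (dw (aeval (pt w t) f) / aeval (pt w t) f) -
            algebraMap ℂ F (d * s + 3) * (w - algebraMap ℂ F lam)⁻¹)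
          ((aeval (pt w t) f)⁻¹ ^ K *
            (aeval (pt w t) (spec s (θ 0)) - w * aeval (pt w t) (spec s (θ 1)))) +
        algebraMap ℂ F (d * s + 3) * (w - algebraMap ℂ F lam)⁻¹ *
          ((aeval (pt w t) f)⁻¹ ^ K *
            (aeval (pt w t) (spec s (θ 0)) -
              algebraMap ℂ F lam * aeval (pt w t) (spec s (θ 1)))) :=
  J1aux.euler_part' hf h hww hwt htw htt hg hl s

/-- The divergences in the chart `ℓ ≠ 0`. -/
theorem chart_part {f : MvPolynomial (Fin 3) ℂ} {d : ℕ} (hf : f.IsHomogeneous d)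
    {b : Polynomial ℂ} {K : ℕ} {θ : Fin 3 → MvPolynomial (Fin 3) (Polynomial ℂ)}
    (h : Thet f d b K θ) {dt dw : Derivation ℂ F F} {w t : F} (hww : dw w = 1) (hwt : dw t = 0)
    (htw : dt w = 0) (htt : dt t = 1) (hg : aeval (pt w t) f ≠ 0) {lam : ℂ}
    (hl : w ≠ algebraMap ℂ F lam) :
    ∃ (j : ℕ) (p : MvPolynomial (Fin 2) (Polynomial ℂ))
      (u : Fin 2 → MvPolynomial (Fin 2) (Polynomial ℂ)), ∀ s : ℂ,
      (w - algebraMap ℂ F lam)⁻¹ *
          ((aeval (pt w t) f)⁻¹ ^ K *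
            (aeval (pt w t) (spec s (θ 0)) -
              algebraMap ℂ F lam * aeval (pt w t) (spec s (θ 1)))) =
        aeval (pq lam w t) (spec s p * res lam 0 f) +
          nb dt (algebraMap ℂ F s * (dt (aeval (pt w t) f) / aeval (pt w t) f))
            ((U1 f lam (K + j) u w t).eval (algebraMap ℂ F s)) +
          nb dw (algebraMap ℂ F s * (dw (aeval (pt w t) f) / aeval (pt w t) f) -
              algebraMap ℂ F (d * s + 3) * (w - algebraMap ℂ F lam)⁻¹)
            (-((w - algebraMap ℂ F lam) ^ 2 *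
              (aeval (pq lam w t) (res lam 0 f))⁻¹ ^ (K + j) *
              aeval (pq lam w t) (spec s (u 0)))) :=
  J2aux.chart_part' hf h hww hwt htw htt hg hl

end MPb07157.TL
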