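import Pool.Agent.Lib.MP_b07157_agL3.Defs2

/-!
# Rational functions: existence, derivations, maps
-/

noncomputable section

namespace MPb07157.TL

open MvPolynomial

namespace RFaux

section lift

variable {L F : Type} [Field L] [Field F] [Algebra L F]

/-- Homomorphisms of `L[w]` extend to `L(w)`. -/
theorem exists_lift {w : F} (inj : Function.Injective (Polynomial.aeval w : Polynomial L → F))
    (surj : ∀ x : F, ∃ p q : Polynomial L, q ≠ 0 ∧
      x * Polynomial.aeval w q = Polynomial.aeval w p)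
    {A : Type} [CommRing A] (g : Polynomial L →+* A) (hg : ∀ q, q ≠ 0 → IsUnit (g q)) :
    ∃ Ψ : F →+* A, ∀ p : Polynomial L, Ψ (Polynomial.aeval w p) = g p := by
  let _ : Algebra (Polynomial L) F := (Polynomial.aeval w : Polynomial L →ₐ[L] F).toRingHom.toAlgebra
  have halg : ∀ p : Polynomial L, algebraMap (Polynomial L) F p = Polynomial.aeval w p :=
    fun p => rfl
  have hne : ∀ q : Polynomial L, q ≠ 0 → Polynomial.aeval w q ≠ 0 := fun q hq h0 =>
    hq (inj (h0.trans (map_zero (Polynomial.aeval w)).symm))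
  have : IsLocalization (nonZeroDivisors (Polynomial L)) F :=
    { map_units := fun y => by
        rw [halg]
        exact (hne _ (nonZeroDivisors.coe_ne_zero y)).isUnit
      surj := fun x => by
        obtain ⟨p, q, hq, h⟩ := surj x
        exact ⟨(p, ⟨q, mem_nonZeroDivisors_of_ne_zero hq⟩), h⟩
      exists_of_eq := fun {x y} h => ⟨1, by
        have : x = y := inj h
        rw [this]⟩ }
  refine ⟨IsLocalization.lift (M := nonZeroDivisors (Polynomial L)) (g := g) fun y =>
    hg _ (nonZeroDivisors.coe_ne_zero y), fun p => ?_⟩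
  exact IsLocalization.lift_eq _ p

/-- Homomorphisms of `L(w)` are determined on `L[w]`. -/
theorem hom_ext {w : F} (inj : Function.Injective (Polynomial.aeval w : Polynomial L → F))
    (surj : ∀ x : F, ∃ p q : Polynomial L, q ≠ 0 ∧
      x * Polynomial.aeval w q = Polynomial.aeval w p)
    {A : Type} [CommRing A] {Ψ Φ : F →+* A}
    (h : ∀ p : Polynomial L, Ψ (Polynomial.aeval w p) = Φ (Polynomial.aeval w p)) (x : F) :
    Ψ x = Φ x := by
  obtain ⟨p, q, hq, hx⟩ := surj x
  have hne : Polynomial.aeval w q ≠ 0 := fun h0 =>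
    hq (inj (h0.trans (map_zero (Polynomial.aeval w)).symm))
  have hu : IsUnit (Ψ (Polynomial.aeval w q)) := hne.isUnit.map Ψ
  have h1 : Ψ x * Ψ (Polynomial.aeval w q) = Φ x * Ψ (Polynomial.aeval w q) := by
    rw [← map_mul, hx, h p, ← hx, map_mul, h q]
  exact hu.mul_right_cancel h1

/-- A derivation along a homomorphism that vanishes on `L` and at `w` is zero. -/
theorem der_zero {w : F} (inj : Function.Injective (Polynomial.aeval w : Polynomial L → F))
    (surj : ∀ x : F, ∃ p q : Polynomial L, q ≠ 0 ∧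
      x * Polynomial.aeval w q = Polynomial.aeval w p)
    {A : Type} [CommRing A] (Ψ : F →+* A) (E : F → A) (hadd : ∀ x y, E (x + y) = E x + E y)
    (hmul : ∀ x y, E (x * y) = Ψ x * E y + Ψ y * E x)
    (hL : ∀ a : L, E (algebraMap L F a) = 0) (hw : E w = 0) (x : F) : E x = 0 := by
  have hpow : ∀ k : ℕ, E (w ^ k) = 0 := by
    intro k
    induction k with
    | zero =>
      rw [pow_zero, ← map_one (algebraMap L F)]
      exact hL 1
    | succ k ih => rw [pow_succ, hmul, ih, hw, mul_zero, mul_zero, add_zero]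
  have hpol : ∀ p : Polynomial L, E (Polynomial.aeval w p) = 0 := by
    intro p
    induction p using Polynomial.induction_on' with
    | add p q hp hq => rw [map_add, hadd, hp, hq, add_zero]
    | monomial k a =>
      rw [Polynomial.aeval_monomial, hmul, hL, hpow, mul_zero, mul_zero, add_zero]
  obtain ⟨p, q, hq, hx⟩ := surj x
  have hne : Polynomial.aeval w q ≠ 0 := fun h0 =>
    hq (inj (h0.trans (map_zero (Polynomial.aeval w)).symm))
  have hu : IsUnit (Ψ (Polynomial.aeval w q)) := hne.isUnit.map Ψ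
  have h1 := hmul x (Polynomial.aeval w q)
  rw [hx, hpol, hpol, mul_zero, zero_add] at h1
  exact (hu.mul_right_eq_zero).1 h1.symm

/-- The homomorphism `a ↦ a + δ a ε`. -/
def dualC {C0 : Type} [CommRing C0] [Algebra C0 L] (δ : Derivation C0 L L) :
    L →+* TrivSqZeroExt F F where
  toFun a := TrivSqZeroExt.inl (algebraMap L F a) + TrivSqZeroExt.inr (algebraMap L F (δ a))
  map_one' := by
    ext <;> simp
  map_mul' p q := by
    ext
    · simp
    · simp only [map_mul, Derivation.leibniz, smul_eq_mul, map_add, TrivSqZeroExt.snd_add,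
        TrivSqZeroExt.snd_inl, TrivSqZeroExt.snd_inr, TrivSqZeroExt.snd_mul,
        TrivSqZeroExt.fst_add, TrivSqZeroExt.fst_inl, TrivSqZeroExt.fst_inr,
        MulOpposite.smul_eq_mul_unop, MulOpposite.unop_op]
      ring
  map_zero' := by
    ext <;> simp
  map_add' p q := by
    ext
    · simp only [map_add, TrivSqZeroExt.fst_add, TrivSqZeroExt.fst_inl,
        TrivSqZeroExt.fst_inr, add_zero]
    · simp only [map_add, TrivSqZeroExt.snd_add, TrivSqZeroExt.snd_inl,
        TrivSqZeroExt.snd_inr, zero_add]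

theorem dualC_fst {C0 : Type} [CommRing C0] [Algebra C0 L] (δ : Derivation C0 L L) (a : L) :
    (dualC (F := F) δ a).fst = algebraMap L F a := by
  change (TrivSqZeroExt.inl _ + TrivSqZeroExt.inr _ : TrivSqZeroExt F F).fst = _
  rw [TrivSqZeroExt.fst_add, TrivSqZeroExt.fst_inl, TrivSqZeroExt.fst_inr, add_zero]

theorem dualC_snd {C0 : Type} [CommRing C0] [Algebra C0 L] (δ : Derivation C0 L L) (a : L) :
    (dualC (F := F) δ a).snd = algebraMap L F (δ a) := by
  change (TrivSqZeroExt.inl _ + TrivSqZeroExt.inr _ : TrivSqZeroExt F F).snd = _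
  rw [TrivSqZeroExt.snd_add, TrivSqZeroExt.snd_inl, TrivSqZeroExt.snd_inr, zero_add]

/-- Derivations of `L` extend to `L(w)`, with any value at `w`. -/
theorem exists_der {w : F} (inj : Function.Injective (Polynomial.aeval w : Polynomial L → F))
    (surj : ∀ x : F, ∃ p q : Polynomial L, q ≠ 0 ∧
      x * Polynomial.aeval w q = Polynomial.aeval w p)
    {C0 : Type} [CommRing C0] [Algebra C0 L] [Algebra C0 F] [IsScalarTower C0 L F]
    (δ : Derivation C0 L L) (e : F) :
    ∃ D : Derivation C0 F F, (∀ a, D (algebraMap L F a) = algebraMap L F (δ a)) ∧ D w = e := by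
  have hne : ∀ q : Polynomial L, q ≠ 0 → Polynomial.aeval w q ≠ 0 := fun q hq h0 =>
    hq (inj (h0.trans (map_zero (Polynomial.aeval w)).symm))
  set g : Polynomial L →+* TrivSqZeroExt F F :=
    Polynomial.eval₂RingHom (dualC δ) (TrivSqZeroExt.inl w + TrivSqZeroExt.inr e) with hg
  set fh : TrivSqZeroExt F F →+* F := (TrivSqZeroExt.fstHom F F F).toRingHom with hfh
  have hfh' : ∀ x, fh x = x.fst := fun x => rfl
  have hfst : ∀ p, (g p).fst = Polynomial.aeval w p := by
    intro p
    have h1 : fh.comp g = (Polynomial.aeval w : Polynomial L →ₐ[L] F).toRingHom := by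
      refine Polynomial.ringHom_ext (fun a => ?_) ?_
      · change (g (Polynomial.C a)).fst = Polynomial.aeval w (Polynomial.C a)
        rw [hg, Polynomial.coe_eval₂RingHom, Polynomial.eval₂_C, dualC_fst, Polynomial.aeval_C]
      · change (g Polynomial.X).fst = Polynomial.aeval w Polynomial.X
        rw [hg, Polynomial.coe_eval₂RingHom, Polynomial.eval₂_X, Polynomial.aeval_X,
          TrivSqZeroExt.fst_add, TrivSqZeroExt.fst_inl, TrivSqZeroExt.fst_inr, add_zero]
    exact congrFun (congrArg DFunLike.coe h1) p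
  obtain ⟨Ψ, hΨ⟩ := exists_lift inj surj g fun q hq => by
    rw [TrivSqZeroExt.isUnit_iff_isUnit_fst, hfst]
    exact (hne q hq).isUnit
  have hid : ∀ x, (Ψ x).fst = x := by
    intro x
    refine hom_ext inj surj (Ψ := fh.comp Ψ) (Φ := RingHom.id F) (fun p => ?_) x
    change (Ψ _).fst = Polynomial.aeval w p
    rw [hΨ, hfst]
  have hC : ∀ a : L, Ψ (algebraMap L F a) = dualC δ a := by
    intro a
    have h1 : algebraMap L F a = Polynomial.aeval w (Polynomial.C a) := by
      rw [Polynomial.aeval_C]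
    rw [h1, hΨ, hg, Polynomial.coe_eval₂RingHom, Polynomial.eval₂_C]
  have hX : Ψ w = TrivSqZeroExt.inl w + TrivSqZeroExt.inr e := by
    have h1 : w = Polynomial.aeval w (Polynomial.X : Polynomial L) := by
      rw [Polynomial.aeval_X]
    conv_lhs => rw [h1]
    rw [hΨ, hg, Polynomial.coe_eval₂RingHom, Polynomial.eval₂_X]
  have hmul : ∀ a b : F, (Ψ (a * b)).snd = a * (Ψ b).snd + b * (Ψ a).snd := by
    intro a b
    rw [map_mul, TrivSqZeroExt.snd_mul, hid, hid, smul_eq_mul,
      MulOpposite.smul_eq_mul_unop, MulOpposite.unop_op, mul_comm b]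
  refine ⟨Derivation.mk'
    { toFun := fun x => (Ψ x).snd
      map_add' := fun a b => by rw [map_add, TrivSqZeroExt.snd_add]
      map_smul' := fun c a => ?_ } ?_, ?_, ?_⟩
  · have h1 : (Ψ (algebraMap C0 F c)).snd = 0 := by
      rw [IsScalarTower.algebraMap_apply C0 L F, hC, dualC_snd, Derivation.map_algebraMap,
        map_zero]
    rw [Algebra.smul_def, hmul, h1, mul_zero, add_zero, RingHom.id_apply, Algebra.smul_def]
  · intro a b
    exact hmul a b
  · intro a
    change (Ψ (algebraMap L F a)).snd = _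
    rw [hC, dualC_snd]
  · change (Ψ w).snd = e
    rw [hX, TrivSqZeroExt.snd_add, TrivSqZeroExt.snd_inl, TrivSqZeroExt.snd_inr, zero_add]

end lift

section map

variable {L F L' F' : Type} [Field L] [Field F] [Algebra L F] [Field L'] [Field F']
  [Algebra L' F'] {ι : Type} [Fintype ι]

theorem map_lg {W : WF L F} {W' : WF L' F'} {φ : L →+* L'} {Ψ : F →+* F'}
    (hΨ : ∀ x, Ψ (algebraMap L F x) = algebraMap L' F' (φ x)) (hw : Ψ W.w = W'.w)
    (c a : ι → L) : Ψ (lg W c a) = lg W' (fun i => φ (c i)) (fun i => φ (a i)) := by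
  unfold lg
  rw [map_sum]
  refine Finset.sum_congr rfl fun i _ => ?_
  rw [map_mul, map_inv₀, map_sub, hw, hΨ, hΨ]

omit [Fintype ι] in
theorem map_SS {W : WF L F} {W' : WF L' F'} {φ : L →+* L'} {Ψ : F →+* F'}
    (hΨ : ∀ x, Ψ (algebraMap L F x) = algebraMap L' F' (φ x)) (hw : Ψ W.w = W'.w)
    (c : ι → L) {r : F} (hr : r ∈ SS W c) : Ψ r ∈ SS W' (fun i => φ (c i)) := by
  unfold SS at hr
  induction hr using Algebra.adjoin_induction with
  | mem x hx =>
    refine Algebra.subset_adjoin ?_
    rcases Set.mem_insert_iff.1 hx with h | ⟨i, h⟩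
    · left
      rw [h, hw]
    · right
      refine ⟨i, ?_⟩
      rw [← h]
      change (W'.w - algebraMap L' F' (φ (c i)))⁻¹ = Ψ (W.w - algebraMap L F (c i))⁻¹
      rw [map_inv₀, map_sub, hw, hΨ]
  | algebraMap a =>
    rw [hΨ]
    exact Subalgebra.algebraMap_mem _ _
  | add x y _ _ hx hy =>
    rw [map_add]
    exact add_mem hx hy
  | mul x y _ _ hx hy =>
    rw [map_mul]
    exact mul_mem hx hy

end map

theorem comp_scale {L : Type} [Field L] {u : L} (hu : u ≠ 0) (p : Polynomial L) :
    (p.comp (Polynomial.C u * Polynomial.X)).comp (Polynomial.C u⁻¹ * Polynomial.X) = p := by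
  rw [Polynomial.comp_assoc, Polynomial.mul_comp, Polynomial.C_comp, Polynomial.X_comp,
    ← mul_assoc, ← Polynomial.C_mul, mul_inv_cancel₀ hu, Polynomial.C_1, one_mul,
    Polynomial.comp_X]

end RFaux

/-- The field of rational functions. -/
theorem exists_WF (L : Type) [Field L] : Nonempty (WF L (RatFunc L)) := by
  have hal : ∀ p : Polynomial L, Polynomial.aeval (RatFunc.X : RatFunc L) p =
      algebraMap (Polynomial L) (RatFunc L) p := fun p =>
    RatFunc.aeval_X_left_eq_algebraMap p
  have inj : Function.Injective (Polynomial.aeval (RatFunc.X : RatFunc L) :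
      Polynomial L → RatFunc L) := by
    intro p q h
    rw [hal, hal] at h
    exact RatFunc.algebraMap_injective L h
  have surj : ∀ x : RatFunc L, ∃ p q : Polynomial L, q ≠ 0 ∧
      x * Polynomial.aeval RatFunc.X q = Polynomial.aeval RatFunc.X p := by
    intro x
    refine ⟨x.num, x.denom, x.denom_ne_zero, ?_⟩
    rw [hal, hal]
    have h1 : algebraMap (Polynomial L) (RatFunc L) x.denom ≠ 0 := fun h =>
      x.denom_ne_zero (RatFunc.algebraMap_injective L (h.trans (map_zero _).symm))
    exact (((div_eq_iff h1).1 x.num_div_denom)).symm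
  obtain ⟨D, h1, h2⟩ := RFaux.exists_der inj surj (0 : Derivation L L L) 1
  exact ⟨⟨RatFunc.X, D, h2, inj, surj⟩⟩

/-- Derivations of `L` extend to `L(w)`, with `dt w = 0`. -/
theorem exists_TF {L F : Type} [Field L] [Field F] [Algebra L F] [Algebra ℂ L] [Algebra ℂ F]
    [IsScalarTower ℂ L F] (W : WF L F) (δ : Derivation ℂ L L) : ∃ T : TF W, T.δ = δ := by
  obtain ⟨D, h1, h2⟩ := RFaux.exists_der W.inj W.surj δ 0
  refine ⟨⟨δ, D, h1, h2, fun x => ?_⟩, rfl⟩
  have h3 := RFaux.der_zero W.inj W.surj (RingHom.id F) (fun x => D (W.dw x) - W.dw (D x))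
    (fun x y => by simp only [map_add]; ring)
    (fun x y => by
      simp only [Derivation.leibniz, smul_eq_mul, map_add, RingHom.id_apply]
      ring)
    (fun a => by
      have h4 : ∀ b : L, W.dw (algebraMap L F b) = 0 := fun b => Derivation.map_algebraMap W.dw b
      change D (W.dw (algebraMap L F a)) - W.dw (D (algebraMap L F a)) = 0
      rw [h1, h4, h4, map_zero, sub_zero])
    (by
      change D (W.dw W.w) - W.dw (D W.w) = 0
      rw [W.dw_w, h2, map_zero, Derivation.map_one_eq_zero, sub_zero]) x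
  exact sub_eq_zero.1 h3

/-- Homomorphisms `L → L'` extend to `L(w) → L'(w)`. -/
theorem exists_map {L F L' F' : Type} [Field L] [Field F] [Algebra L F] [Field L'] [Field F']
    [Algebra L' F'] (W : WF L F) (W' : WF L' F') (φ : L →+* L') :
    ∃ Ψ : F →+* F', (∀ x, Ψ (algebraMap L F x) = algebraMap L' F' (φ x)) ∧ Ψ W.w = W'.w ∧
      ∀ x, Ψ (W.dw x) = W'.dw (Ψ x) := by
  obtain ⟨Ψ, hΨ⟩ := RFaux.exists_lift W.inj W.surj
    ((Polynomial.aeval W'.w : Polynomial L' →ₐ[L'] F').toRingHom.comp (Polynomial.mapRingHom φ))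
    fun q hq => by
      have h1 : Polynomial.aeval W'.w (q.map φ) ≠ 0 := fun h0 =>
        hq ((Polynomial.map_eq_zero_iff φ.injective).1
          (W'.inj (h0.trans (map_zero (Polynomial.aeval W'.w)).symm)))
      exact h1.isUnit
  have hΨ' : ∀ p : Polynomial L, Ψ (Polynomial.aeval W.w p) = Polynomial.aeval W'.w (p.map φ) :=
    hΨ
  have e1 : ∀ x, Ψ (algebraMap L F x) = algebraMap L' F' (φ x) := by
    intro x
    have h1 := hΨ' (Polynomial.C x)
    rwa [Polynomial.aeval_C, Polynomial.map_C, Polynomial.aeval_C] at h1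
  have e2 : Ψ W.w = W'.w := by
    have h1 := hΨ' Polynomial.X
    rwa [Polynomial.aeval_X, Polynomial.map_X, Polynomial.aeval_X] at h1
  refine ⟨Ψ, e1, e2, fun x => ?_⟩
  have h3 := RFaux.der_zero W.inj W.surj Ψ (fun x => Ψ (W.dw x) - W'.dw (Ψ x))
    (fun x y => by simp only [map_add]; ring)
    (fun x y => by
      simp only [Derivation.leibniz, smul_eq_mul, map_add, map_mul]
      ring)
    (fun a => by
      have h4 : W.dw (algebraMap L F a) = 0 := Derivation.map_algebraMap W.dw a
      have h5 : W'.dw (algebraMap L' F' (φ a)) = 0 := Derivation.map_algebraMap W'.dw (φ a)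
      change Ψ (W.dw (algebraMap L F a)) - W'.dw (Ψ (algebraMap L F a)) = 0
      rw [h4, e1, h5, map_zero, sub_zero])
    (by
      change Ψ (W.dw W.w) - W'.dw (Ψ W.w) = 0
      rw [W.dw_w, e2, W'.dw_w, map_one, sub_self]) x
  exact sub_eq_zero.1 h3

/-- The class of the vector field is compatible with homomorphisms. -/
theorem Cl.map {L F L' F' : Type} [Field L] [Field F] [Algebra L F] [Algebra ℂ L] [Algebra ℂ F]
    [IsScalarTower ℂ L F] [Field L'] [Field F'] [Algebra L' F'] [Algebra ℂ L'] [Algebra ℂ F']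
    [IsScalarTower ℂ L' F'] {ι : Type} [Fintype ι] {f : MvPolynomial (Fin 3) ℂ} {d K : ℕ}
    {θ : Fin 3 → MvPolynomial (Fin 3) (Polynomial ℂ)} {W : WF L F} {t : L} {c : ι → L}
    {m : ι → ℕ} {α : ι → L} (h : Cl f d K θ W t c m α) (W' : WF L' F') (φ : L →+* L')
    (hφ : ∀ z : ℂ, φ (algebraMap ℂ L z) = algebraMap ℂ L' z) :
    Cl f d K θ W' (φ t) (fun i => φ (c i)) m (fun i => φ (α i)) := by
  obtain ⟨Ψ, e1, e2, e3⟩ := exists_map W W' φ
  obtain ⟨r, hr, h⟩ := h
  have eC : ∀ z : ℂ, Ψ (algebraMap ℂ F z) = algebraMap ℂ F' z := by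
    intro z
    rw [IsScalarTower.algebraMap_apply ℂ L F, e1, hφ, ← IsScalarTower.algebraMap_apply ℂ L' F']
  have ept : ∀ i, Ψ (pt W.w (algebraMap L F t) i) = pt W'.w (algebraMap L' F' (φ t)) i := by
    intro i
    fin_cases i
    · exact e2
    · exact map_one Ψ
    · exact e1 t
  have ef : Ψ (aeval (pt W.w (algebraMap L F t)) f) =
      aeval (pt W'.w (algebraMap L' F' (φ t))) f := by
    have h1 : Ψ.comp (algebraMap ℂ F) = algebraMap ℂ F' := RingHom.ext eC
    have h2 : (Ψ : F → F') ∘ pt W.w (algebraMap L F t) = pt W'.w (algebraMap L' F' (φ t)) :=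
      funext ept
    rw [aeval_def, aeval_def, eval₂_comp_left Ψ, h1, h2]
  have eEV : ∀ P : MvPolynomial (Fin 3) (Polynomial ℂ),
      (EV (pt W.w (algebraMap L F t)) P).map Ψ = EV (pt W'.w (algebraMap L' F' (φ t))) P := by
    intro P
    have h1 : Ψ.comp (algebraMap ℂ F) = algebraMap ℂ F' := RingHom.ext eC
    have h2 : (Polynomial.mapRingHom Ψ).comp (EV (pt W.w (algebraMap L F t))) =
        EV (pt W'.w (algebraMap L' F' (φ t))) := by
      refine MvPolynomial.ringHom_ext (fun p => ?_) fun i => ?_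
      · change (EV (pt W.w (algebraMap L F t)) (C p)).map Ψ = EV _ (C p)
        unfold EV
        rw [coe_eval₂Hom, coe_eval₂Hom, eval₂_C, eval₂_C, Polynomial.coe_mapRingHom,
          Polynomial.coe_mapRingHom, Polynomial.map_map, h1]
      · change (EV (pt W.w (algebraMap L F t)) (X i)).map Ψ = EV _ (X i)
        unfold EV
        rw [coe_eval₂Hom, coe_eval₂Hom, eval₂_X, eval₂_X, Polynomial.map_C]
        exact congrArg Polynomial.C (ept i)
    exact congrFun (congrArg DFunLike.coe h2) P
  have eB : Ψ ((B1 f K θ W.w (algebraMap L F t)).eval (algebraMap ℂ F (s0 d))) =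
      (B1 f K θ W'.w (algebraMap L' F' (φ t))).eval (algebraMap ℂ F' (s0 d)) := by
    rw [← Polynomial.eval₂_hom, ← Polynomial.eval_map, eC]
    congr 1
    unfold B1
    rw [Polynomial.map_mul, Polynomial.map_C, Polynomial.map_sub, Polynomial.map_mul,
      Polynomial.map_C, eEV, eEV, map_pow, map_inv₀, ef, e1]
  have es : (fun i => φ (s0m (L := L) d m i)) = s0m (L := L') d m := by
    funext i
    exact hφ _
  refine ⟨Ψ r, RFaux.map_SS e1 e2 c hr, ?_⟩
  rw [← eB, h, map_add, RFaux.map_lg e1 e2]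
  unfold nb
  rw [map_add, map_mul, e3, RFaux.map_lg e1 e2, es]
  congr 2
  funext i
  rw [map_mul]
  congr 1
  exact hφ _

/-- Rescaling of the coordinate `w`. -/
def WF.scale {L F : Type} [Field L] [Field F] [Algebra L F] (W : WF L F) (u : L) (hu : u ≠ 0) :
    WF L F where
  w := algebraMap L F u * W.w
  dw := algebraMap L F u⁻¹ • W.dw
  dw_w := by
    have h1 : W.dw (algebraMap L F u) = 0 := Derivation.map_algebraMap W.dw u
    rw [Derivation.smul_apply, Derivation.leibniz, h1, W.dw_w, smul_zero, add_zero, smul_eq_mul,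
      smul_eq_mul, mul_one, ← map_mul, inv_mul_cancel₀ hu, map_one]
  inj := by
    intro p q h
    have h1 : ∀ P : Polynomial L, Polynomial.aeval (algebraMap L F u * W.w) P =
        Polynomial.aeval W.w (P.comp (Polynomial.C u * Polynomial.X)) := fun P => by
      rw [Polynomial.aeval_comp, map_mul, Polynomial.aeval_C, Polynomial.aeval_X]
    have h2 : p.comp (Polynomial.C u * Polynomial.X) = q.comp (Polynomial.C u * Polynomial.X) := by
      apply W.inj
      rw [← h1, ← h1]
      exact h
    rw [← RFaux.comp_scale hu p, ← RFaux.comp_scale hu q, h2]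
  surj := by
    intro x
    obtain ⟨p, q, hq, h⟩ := W.surj x
    have h1 : ∀ P : Polynomial L, Polynomial.aeval (algebraMap L F u * W.w)
        (P.comp (Polynomial.C u⁻¹ * Polynomial.X)) = Polynomial.aeval W.w P := fun P => by
      rw [Polynomial.aeval_comp, map_mul, Polynomial.aeval_C, Polynomial.aeval_X, ← mul_assoc,
        ← map_mul, inv_mul_cancel₀ hu, map_one, one_mul]
    refine ⟨p.comp (Polynomial.C u⁻¹ * Polynomial.X), q.comp (Polynomial.C u⁻¹ * Polynomial.X),
      fun h0 => hq ?_, ?_⟩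
    · rw [← RFaux.comp_scale (inv_ne_zero hu) q, h0, Polynomial.zero_comp]
    · rw [h1, h1, h]

end MPb07157.TL
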