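import Pool.Agent.Lib.MP_b07157_agL3.LTa
import Pool.Agent.Lib.MP_b07157_agL3.E
import Pool.Agent.Lib.MP_b07157_agL3.J
import Pool.Agent.Lib.MP_b07157_agL3.RF
import Pool.Agent.Lib.MP_b07157_agL3.H

/-!
# The differential equation at `s = -3/d`
-/

noncomputable section

namespace MPb07157.TL

open MvPolynomial

variable {F : Type} [Field F] [Algebra L0 F] [Algebra ℂ F] [IsScalarTower ℂ L0 F]
  {ι : Type} [Fintype ι] [DecidableEq ι]
  {f : MvPolynomial (Fin 3) ℂ} {d : ℕ} {b : Polynomial ℂ} {K : ℕ}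
  {θ : Fin 3 → MvPolynomial (Fin 3) (Polynomial ℂ)}
  {t0 : ℂ} {c : ι → L0} {m : ι → ℕ} {A0 : L0} {α : ι → L0}

namespace EQ0aux

theorem dtau_tau : dtau tau = 1 := by
  ext q
  rw [coeff_dtau]
  by_cases hq : q = 0
  · subst hq
    simp [tau, HahnSeries.coeff_single_same]
  · have h1 : q + 1 ≠ 1 := fun h => hq (by linarith)
    have h2 : (tau : L0).coeff (q + 1) = 0 := HahnSeries.coeff_single_of_ne h1
    rw [h2, mul_zero, HahnSeries.coeff_one, if_neg hq]

end EQ0aux

/-- The exponents at `s = -3/d` are not resonant. -/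
theorem nonRes_s0 {L : Type} [Field L] [Algebra ℂ L] (hm : ∀ i, 0 < m i) (hd : ∑ i, m i < d)
    (h1 : 3 * ∑ i, m i ≠ d) (h2 : 3 * ∑ i, m i ≠ 2 * d) :
    NonRes (s0m d m : ι → L) ∧ (∀ i, (s0m d m i : L) ≠ 0) ∧
      1 + s0 d * ((∑ i, m i : ℕ) : ℂ) ≠ 0 := by
  have hd0 : 0 < d := lt_of_le_of_lt (Nat.zero_le _) hd
  have hdC : (d : ℂ) ≠ 0 := Nat.cast_ne_zero.mpr hd0.ne'
  have hs0 : s0 d ≠ 0 := by
    unfold s0
    exact neg_ne_zero.mpr (div_ne_zero three_ne_zero hdC)
  have hinj : Function.Injective (algebraMap ℂ L) := (algebraMap ℂ L).injective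
  have key : ∀ e k : ℕ, s0 d * (e : ℂ) + (k : ℂ) = 0 → 3 * e = k * d := by
    intro e k h
    unfold s0 at h
    have h3 : (3 : ℂ) * e = k * d := by
      field_simp at h
      linear_combination -h
    exact_mod_cast h3
  refine ⟨⟨fun i k hk h => ?_, fun k hk h => ?_⟩, fun i h => ?_, fun h => ?_⟩
  · have h3 : s0 d * (m i : ℂ) = (k : ℂ) := by
      apply hinj
      rw [map_natCast]
      exact h
    unfold s0 at h3
    have h4 : ((3 * m i + k * d : ℕ) : ℂ) = 0 := by
      push_cast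
      field_simp at h3
      linear_combination -h3
    have h5 : 3 * m i + k * d = 0 := by exact_mod_cast h4
    have h6 : 0 < k * d := Nat.mul_pos hk hd0
    omega
  · have h3 : s0 d * ((∑ i, m i : ℕ) : ℂ) + (k : ℂ) = 0 := by
      apply hinj
      rw [map_zero, map_add, map_natCast, ← h]
      congr 1
      unfold s0m
      rw [← map_sum, ← Finset.mul_sum]
      push_cast
      rfl
    have h4 := key _ _ h3
    have h5 : k < 3 := by
      by_contra h6
      have h7 : 3 * d ≤ k * d := Nat.mul_le_mul_right _ (not_lt.mp h6)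
      omega
    interval_cases k
    · omega
    · omega
  · have h3 : s0 d * (m i : ℂ) = 0 := by
      apply hinj
      rw [map_zero]
      exact h
    rcases mul_eq_zero.mp h3 with h4 | h4
    · exact hs0 h4
    · exact (hm i).ne' (by exact_mod_cast h4)
  · have h4 := key (∑ i, m i) 1 (by rw [Nat.cast_one]; linear_combination h)
    omega

/-- The differential equation at `s = -3/d`. -/
theorem eq0 (hf : f.IsHomogeneous d) (h : Thet f d b K θ) (W : WF L0 F)
    (hF : Fac f (HahnSeries.C t0 + tau) c m A0) (hd : ∑ i, m i < d) (h1 : 3 * ∑ i, m i ≠ d)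
    (h2 : 3 * ∑ i, m i ≠ 2 * d) (hα : Cl f d K θ W (HahnSeries.C t0 + tau) c m α) :
    ∃ κ : L0, ∀ i, eps dtau c (s0m d m) α (HahnSeries.C (s0 d) * (dtau A0 / A0)) i +
      HahnSeries.C (b.eval (s0 d) / (1 + s0 d * ((∑ i, m i : ℕ) : ℂ))) * c i = κ := by
  obtain ⟨T, hT⟩ := exists_TF W dtau
  obtain ⟨hσ, hσ0, hS⟩ := nonRes_s0 (L := L0) hF.pos hd h1 h2
  have hd0 : 0 < d := lt_of_le_of_lt (Nat.zero_le _) hd
  have hdC : (d : ℂ) ≠ 0 := Nat.cast_ne_zero.mpr hd0.ne'
  obtain ⟨r, hr, hV1⟩ := hα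
  have hds : (d : ℂ) * s0 d + 3 = 0 := by
    unfold s0
    field_simp
    ring
  have htt : T.dt (algebraMap L0 F (HahnSeries.C t0 + tau)) = 1 := by
    rw [T.dt_alg, hT, map_add, EQ0aux.dtau_tau, ← algebraMap_L0, Derivation.map_algebraMap, zero_add,
      map_one]
  have hwt : (W.dw.restrictScalars ℂ) (algebraMap L0 F (HahnSeries.C t0 + tau)) = 0 :=
    W.dw.map_algebraMap _
  have hl : W.w ≠ algebraMap ℂ F 0 := by
    have h3 := w_ne W (0 : L0)
    rwa [map_zero] at h3 ⊢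
  have hE := euler_part hf h (dt := T.dt) (dw := W.dw.restrictScalars ℂ) (w := W.w)
    (t := algebraMap L0 F (HahnSeries.C t0 + tau)) W.dw_w hwt T.dt_w htt (g_ne W hF)
    (lam := 0) hl (s0 d)
  rw [hds, map_zero, zero_mul, zero_mul, add_zero, sub_zero] at hE
  rw [omega_t0 T hF (s0 d), hT] at hE
  have hE2 : algebraMap ℂ F (s0 d) *
      ((W.dw.restrictScalars ℂ) (aeval (pt W.w (algebraMap L0 F (HahnSeries.C t0 + tau))) f) /
        aeval (pt W.w (algebraMap L0 F (HahnSeries.C t0 + tau))) f) =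
      lg W c (s0m d m) := omega_w0 W hF (s0 d)
  rw [hE2] at hE
  set κ : ℂ := b.eval (s0 d) / (1 + s0 d * ((∑ i, m i : ℕ) : ℂ)) with hκ
  have hδ : ∀ i, T.δ ((s0m d m : ι → L0) i) = 0 := fun i => T.δ.map_algebraMap _
  set V₂ : F := (aeval (pt W.w (algebraMap L0 F (HahnSeries.C t0 + tau))) f)⁻¹ ^ K *
    (aeval (pt W.w (algebraMap L0 F (HahnSeries.C t0 + tau))) (spec (s0 d) (θ 0)) -
      W.w * aeval (pt W.w (algebraMap L0 F (HahnSeries.C t0 + tau))) (spec (s0 d) (θ 1)))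
    with hV₂
  have hw : W.w ∈ SS W c := Algebra.subset_adjoin (Set.mem_insert _ _)
  have hV₂m : V₂ ∈ SS W c :=
    (SS W c).mul_mem ((SS W c).pow_mem (g_inv_mem W hF) K)
      ((SS W c).sub_mem (pt_mem W _) ((SS W c).mul_mem hw (pt_mem W _)))
  have hρm : algebraMap L0 F (HahnSeries.C κ) * W.w ∈ SS W c :=
    (SS W c).mul_mem ((SS W c).algebraMap_mem _) hw
  have hq : algebraMap ℂ F (b.eval (s0 d)) =
      -lg W c (fun i => s0m d m i * (HahnSeries.C κ * c i)) +
        nb W.dw (lg W c (s0m d m)) (algebraMap L0 F (HahnSeries.C κ) * W.w) := by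
    have e1 : W.dw (algebraMap L0 F (HahnSeries.C κ) * W.w) =
        algebraMap L0 F (HahnSeries.C κ) := by
      rw [Derivation.leibniz, W.dw.map_algebraMap, W.dw_w, smul_zero, add_zero, smul_eq_mul,
        mul_one]
    have e2 : lg W c (s0m d m) * W.w = algebraMap ℂ F (s0 d * ((∑ i, m i : ℕ) : ℂ)) +
        lg W c (fun i => s0m d m i * c i) := by
      unfold lg
      rw [Finset.sum_mul]
      have e3 : algebraMap ℂ F (s0 d * ((∑ i, m i : ℕ) : ℂ)) =
          ∑ i, algebraMap L0 F (s0m d m i) := by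
        unfold s0m
        rw [← map_sum, ← map_sum, ← Finset.mul_sum,
          IsScalarTower.algebraMap_apply ℂ L0 F]
        push_cast
        rfl
      rw [e3, ← Finset.sum_add_distrib]
      refine Finset.sum_congr rfl fun i _ => ?_
      have e4 : W.w - algebraMap L0 F (c i) ≠ 0 := sub_ne_zero.mpr (w_ne W (c i))
      rw [map_mul]
      field_simp
      ring
    have e5 : lg W c (fun i => s0m d m i * (HahnSeries.C κ * c i)) =
        algebraMap L0 F (HahnSeries.C κ) * lg W c (fun i => s0m d m i * c i) := by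
      unfold lg
      rw [Finset.mul_sum]
      refine Finset.sum_congr rfl fun i _ => ?_
      simp only [map_mul]
      ring
    have e6 : algebraMap L0 F (HahnSeries.C κ) = algebraMap ℂ F κ := by
      rw [IsScalarTower.algebraMap_apply ℂ L0 F, algebraMap_L0]
    have e7 : b.eval (s0 d) = κ * (1 + s0 d * ((∑ i, m i : ℕ) : ℂ)) := by
      rw [hκ, div_mul_cancel₀ _ hS]
    unfold nb
    rw [e1, e5, e6, e7]
    have e8 : lg W c (s0m d m) * (algebraMap ℂ F κ * W.w) =
        algebraMap ℂ F κ * (lg W c (s0m d m) * W.w) := by ring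
    rw [e8, e2, map_mul, map_add, map_one]
    ring
  obtain ⟨κ', hκ'⟩ := eqE T hF.inj hσ hδ (A := HahnSeries.C (s0 d) * (dtau A0 / A0))
    (α := α) (β := fun i => HahnSeries.C κ * c i) (V₂ := V₂) hV₂m hr hρm hV1 hq hE
  refine ⟨κ', fun i => ?_⟩
  have h3 := (mul_eq_zero.mp (hκ' i)).resolve_left (hσ0 i)
  rw [hT] at h3
  exact sub_eq_zero.mp h3

/-- The class of the vector field exists. -/
theorem exists_cl {L F' : Type} [Field L] [Field F'] [Algebra L F'] [Algebra ℂ L] [Algebra ℂ F']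
    [IsScalarTower ℂ L F'] (W : WF L F') {t : L} {c : ι → L} {A0 : L} (hF : Fac f t c m A0)
    (hd : ∑ i, m i < d) (h1 : 3 * ∑ i, m i ≠ d) (h2 : 3 * ∑ i, m i ≠ 2 * d) :
    ∃ α : ι → L, Cl f d K θ W t c m α := by
  obtain ⟨hσ, hσ0, hS⟩ := nonRes_s0 (L := L) hF.pos hd h1 h2
  obtain ⟨D, a, hD, hr⟩ := hermite W hF.inj (fun i => Polynomial.C (m i : ℂ) * Polynomial.X)
    (B1 f K θ W.w (algebraMap L F' t)) (B1_mem W hF K θ)
  have hev : (fun i => algebraMap ℂ L ((Polynomial.C (m i : ℂ) * Polynomial.X).eval (s0 d))) =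
      (s0m d m : ι → L) := by
    funext i
    unfold s0m
    rw [Polynomial.eval_mul, Polynomial.eval_C, Polynomial.eval_X, mul_comm]
  have hD0 : D.eval (s0 d) ≠ 0 := hD (s0 d) (by rw [hev]; exact hσ)
  obtain ⟨r, hr1, hr2⟩ := hr (s0 d)
  rw [hev] at hr2
  have hDL : algebraMap ℂ L (D.eval (s0 d)) ≠ 0 :=
    (map_ne_zero_iff _ (algebraMap ℂ L).injective).mpr hD0
  have hDF : algebraMap L F' (algebraMap ℂ L (D.eval (s0 d))) ≠ 0 :=
    (map_ne_zero_iff _ (algebraMap L F').injective).mpr hDL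
  refine ⟨fun i => (a i).eval (algebraMap ℂ L (s0 d)) /
    (algebraMap ℂ L (D.eval (s0 d)) * s0m d m i),
    algebraMap L F' (algebraMap ℂ L (D.eval (s0 d)))⁻¹ * r,
    (SS W c).mul_mem ((SS W c).algebraMap_mem _) hr1, ?_⟩
  have e1 : lg W c (fun i => s0m d m i * ((a i).eval (algebraMap ℂ L (s0 d)) /
      (algebraMap ℂ L (D.eval (s0 d)) * s0m d m i))) =
      algebraMap L F' (algebraMap ℂ L (D.eval (s0 d)))⁻¹ *
        lg W c (fun i => (a i).eval (algebraMap ℂ L (s0 d))) := by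
    unfold lg
    rw [Finset.mul_sum]
    refine Finset.sum_congr rfl fun i _ => ?_
    have e2 : (s0m d m i : L) * ((a i).eval (algebraMap ℂ L (s0 d)) /
      (algebraMap ℂ L (D.eval (s0 d)) * s0m d m i)) =
        (algebraMap ℂ L (D.eval (s0 d)))⁻¹ * (a i).eval (algebraMap ℂ L (s0 d)) := by
      have := hσ0 i
      field_simp
    beta_reduce
    rw [e2, map_mul, mul_assoc]
  have e3 : nb W.dw (lg W c (s0m d m))
      (algebraMap L F' (algebraMap ℂ L (D.eval (s0 d)))⁻¹ * r) =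
      algebraMap L F' (algebraMap ℂ L (D.eval (s0 d)))⁻¹ * nb W.dw (lg W c (s0m d m)) r := by
    unfold nb
    rw [Derivation.leibniz, W.dw.map_algebraMap, smul_zero, add_zero, smul_eq_mul]
    ring
  rw [e1, e3, ← mul_add, ← hr2, IsScalarTower.algebraMap_apply ℂ L F' (s0 d), map_inv₀,
    inv_mul_cancel_left₀ hDF]

end MPb07157.TL
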