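import Pool.Agent.Lib.MP_b07157_agL3.Emba

/-!
# The factorization of `f(X, 1, t)`: helper lemmas
-/

noncomputable section

namespace MPb07157.TL

open MvPolynomial

namespace Embb

/-- The coefficients of `f(X, x_1, x_2)`. -/
theorem coeff_aeval {R : Type} [CommRing R] [Algebra ℂ R] (f : MvPolynomial (Fin 3) ℂ)
    (x1 x2 : R) (j : ℕ) :
    (aeval ![Polynomial.X, Polynomial.C x1, Polynomial.C x2] f : Polynomial R).coeff j =
      ∑ v ∈ f.support, if v 0 = j then algebraMap ℂ R (f.coeff v) * (x1 ^ v 1 * x2 ^ v 2)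
        else 0 := by
  rw [aeval_def, eval₂_eq', Polynomial.finsetSum_coeff]
  refine Finset.sum_congr rfl fun v _ => ?_
  have h : algebraMap ℂ (Polynomial R) (f.coeff v) *
      ∏ i, (![Polynomial.X, Polynomial.C x1, Polynomial.C x2] : Fin 3 → Polynomial R) i ^ v i =
      Polynomial.C (algebraMap ℂ R (f.coeff v) * (x1 ^ v 1 * x2 ^ v 2)) *
        Polynomial.X ^ v 0 := by
    rw [Fin.prod_univ_three, Polynomial.algebraMap_apply]
    simp only [Matrix.cons_val_zero, Matrix.cons_val_one, Matrix.cons_val]
    rw [← Polynomial.C_pow, ← Polynomial.C_pow, Polynomial.C_mul, Polynomial.C_mul]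
    ring
  rw [h, Polynomial.coeff_C_mul_X_pow]
  by_cases h0 : v 0 = j
  · rw [if_pos h0, if_pos h0.symm]
  · rw [if_neg h0, if_neg (fun h1 => h0 h1.symm)]

theorem sum_eq {f : MvPolynomial (Fin 3) ℂ} {d : ℕ} (hf : f.IsHomogeneous d)
    {v : Fin 3 →₀ ℕ} (hv : v ∈ f.support) : v 0 + v 1 + v 2 = d := by
  have h2 := hf (mem_support_iff.1 hv)
  rw [← h2, Finsupp.weight_apply, Finsupp.sum_fintype _ _ (by simp), Fin.sum_univ_three]
  simp

theorem exists_top {f : MvPolynomial (Fin 3) ℂ} (h0 : f ≠ 0) :
    ∃ v ∈ f.support, v 0 = f.degreeOf 0 := by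
  have hne : f.support.Nonempty := by
    rw [Finset.nonempty_iff_ne_empty]
    intro h
    exact h0 (support_eq_empty.1 h)
  obtain ⟨v, hv, h1⟩ := Finset.exists_mem_eq_sup f.support hne (fun m => m 0)
  exact ⟨v, hv, by rw [degreeOf_eq_sup, h1]⟩

theorem le_degreeOf {f : MvPolynomial (Fin 3) ℂ} {v : Fin 3 →₀ ℕ} (hv : v ∈ f.support) :
    v 0 ≤ f.degreeOf 0 := by
  rw [degreeOf_eq_sup]
  exact Finset.le_sup (f := fun m : Fin 3 →₀ ℕ => m 0) hv

theorem PL_eq {L : Type} [Field L] [Algebra ℂ L] (f : MvPolynomial (Fin 3) ℂ) (t : L) :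
    PL f t = aeval ![Polynomial.X, Polynomial.C 1, Polynomial.C t] f := by
  unfold PL
  rw [Polynomial.C_1]

/-- The degree of `f(X, 1, t)`. -/
theorem natDegree_PL {L : Type} [Field L] [Algebra ℂ L] {f : MvPolynomial (Fin 3) ℂ} {d : ℕ}
    (hf : f.IsHomogeneous d) (h0 : f ≠ 0) {t : L} (ht : Transcendental ℂ t) :
    (PL f t).natDegree = f.degreeOf 0 ∧ PL f t ≠ 0 := by
  have hc : (PL f t).coeff (f.degreeOf 0) ≠ 0 := by
    set q : Polynomial ℂ := ∑ v ∈ f.support, if v 0 = f.degreeOf 0 then
      Polynomial.C (f.coeff v) * Polynomial.X ^ v 2 else 0 with hq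
    have h1 : (PL f t).coeff (f.degreeOf 0) = Polynomial.aeval t q := by
      rw [PL_eq, coeff_aeval, hq, map_sum]
      refine Finset.sum_congr rfl fun v _ => ?_
      by_cases h : v 0 = f.degreeOf 0
      · rw [if_pos h, if_pos h, map_mul, map_pow, Polynomial.aeval_X, Polynomial.aeval_C,
          one_pow, one_mul]
      · rw [if_neg h, if_neg h, map_zero]
    obtain ⟨v, hv, hv0⟩ := exists_top h0
    have h2 : q.coeff (v 2) = f.coeff v := by
      rw [hq, Polynomial.finsetSum_coeff, Finset.sum_eq_single v]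
      · rw [if_pos hv0, Polynomial.coeff_C_mul_X_pow, if_pos rfl]
      · intro u hu huv
        by_cases h : u 0 = f.degreeOf 0
        · rw [if_pos h, Polynomial.coeff_C_mul_X_pow, if_neg]
          intro h3
          apply huv
          have e1 := sum_eq hf hu
          have e2 := sum_eq hf hv
          ext i
          fin_cases i
          · exact h.trans hv0.symm
          · show u 1 = v 1
            omega
          · exact h3.symm
        · rw [if_neg h, Polynomial.coeff_zero]
      · intro h
        exact (h hv).elim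
    rw [h1]
    intro h3
    have h4 : q = 0 := (transcendental_iff.1 ht) q h3
    rw [h4, Polynomial.coeff_zero] at h2
    exact mem_support_iff.1 hv h2.symm
  refine ⟨le_antisymm ?_ (Polynomial.le_natDegree_of_ne_zero hc), ?_⟩
  · rw [Polynomial.natDegree_le_iff_coeff_eq_zero]
    intro N hN
    rw [PL_eq, coeff_aeval]
    refine Finset.sum_eq_zero fun v hv => if_neg ?_
    intro h
    have := le_degreeOf hv
    omega
  · intro h
    rw [h, Polynomial.coeff_zero] at hc
    exact hc rfl

/-- A split polynomial is a product over its distinct roots. -/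
theorem exists_roots {L : Type} [Field L] {p : Polynomial L} (hp : p.Splits) (h0 : p ≠ 0) :
    ∃ (n : ℕ) (c : Fin n → L) (m : Fin n → ℕ), Function.Injective c ∧ (∀ i, 0 < m i) ∧
      p = Polynomial.C p.leadingCoeff * ∏ i, (Polynomial.X - Polynomial.C (c i)) ^ m i ∧
      ∑ i, m i = p.natDegree := by
  classical
  let e := p.roots.toFinset.equivFin
  refine ⟨_, fun i => (e.symm i : L), fun i => p.roots.count (e.symm i : L), ?_, ?_, ?_, ?_⟩
  · intro i j hij
    exact e.symm.injective (Subtype.ext hij)
  · intro i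
    rw [Multiset.count_pos, ← Multiset.mem_toFinset]
    exact (e.symm i).2
  · have h1 := hp.eq_prod_roots
    have h2 : (p.roots.map fun a => Polynomial.X - Polynomial.C a).prod =
        ∏ i, (Polynomial.X - Polynomial.C ((e.symm i : L))) ^ p.roots.count (e.symm i : L) := by
      rw [Finset.prod_multiset_map_count, ← Finset.prod_coe_sort]
      exact (Equiv.prod_comp e.symm fun a : p.roots.toFinset =>
        (Polynomial.X - Polynomial.C (a : L)) ^ p.roots.count (a : L)).symm
    rw [← h2]
    exact h1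
  · have h1 : ∑ i, p.roots.count (e.symm i : L) = Multiset.card p.roots := by
      rw [← Multiset.toFinset_sum_count_eq p.roots]
      exact (Equiv.sum_comp e.symm fun a : p.roots.toFinset => p.roots.count (a : L)).trans
        (Finset.sum_coe_sort _ fun a : L => p.roots.count a)
    rw [h1]
    exact hp.natDegree_eq_card_roots.symm

end Embb

end MPb07157.TL
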