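import Pool.Agent.Lib.MP_b07157_agL3.G
import Pool.Agent.Lib.MP_b07157_agL3.NP
import Pool.Agent.Lib.MP_b07157_agL3.Emba
import Pool.Agent.Lib.MP_b07157_agL3.Embb

/-!
# The splitting field of `f(X, 1, t)` and its places
-/

noncomputable section

namespace MPb07157.TL

open MvPolynomial

/-- The splitting field of `f(X, 1, t)` over `ℂ(t)`. -/
abbrev KK (f : MvPolynomial (Fin 3) ℂ) : Type :=
  (PL f (RatFunc.X : RatFunc ℂ)).SplittingField

theorem exists_pl (f : MvPolynomial (Fin 3) ℂ) (t0 : ℂ) : ∃ φ : KK f →+* L0, IsPl t0 φ := by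
  obtain ⟨ψ, h1, h2⟩ := Embaux.exists_psi (Embaux.transcendental_add t0)
  obtain ⟨φ, hφ⟩ := Embaux.exists_lift (f := f) ψ h1 (by
    rw [h2]
    exact Embaux.splits_PL f t0)
  exact ⟨φ, fun z => by rw [hφ, h1], by rw [hφ, h2]⟩

theorem exists_plInf {f : MvPolynomial (Fin 3) ℂ} {d : ℕ} (hf : f.IsHomogeneous d) :
    ∃ φ : KK f →+* L0, IsPlInf φ := by
  obtain ⟨ψ, h1, h2⟩ := Embaux.exists_psi Embaux.transcendental_inv
  obtain ⟨φ, hφ⟩ := Embaux.exists_lift (f := f) ψ h1 (by
    rw [h2]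
    exact Embaux.splits_PL_inv hf)
  exact ⟨φ, fun z => by rw [hφ, h1], by rw [hφ, h2]⟩

/-- The splitting. -/
theorem exists_fac {f : MvPolynomial (Fin 3) ℂ} {d : ℕ} (hf : f.IsHomogeneous d) (h0 : f ≠ 0) :
    ∃ (n : ℕ) (c : Fin n → KK f) (m : Fin n → ℕ) (A0 : KK f),
      Fac f (algebraMap (RatFunc ℂ) (KK f) RatFunc.X) c m A0 ∧
        ∑ i, m i = f.degreeOf 0 := by
  have hX : Transcendental ℂ (RatFunc.X : RatFunc ℂ) := RatFunc.transcendental_X
  have hT : Transcendental ℂ (algebraMap (RatFunc ℂ) (KK f) RatFunc.X) :=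
    (transcendental_algebraMap_iff (algebraMap (RatFunc ℂ) (KK f)).injective).2 hX
  obtain ⟨hd, hne⟩ := Embb.natDegree_PL hf h0 hT
  have hmap : (PL f (RatFunc.X : RatFunc ℂ)).map (algebraMap (RatFunc ℂ) (KK f)) =
      PL f (algebraMap (RatFunc ℂ) (KK f) RatFunc.X) :=
    Embaux.map_PL _ (fun z => (IsScalarTower.algebraMap_apply ℂ (RatFunc ℂ) (KK f) z).symm) f _
  have hsp : (PL f (algebraMap (RatFunc ℂ) (KK f) RatFunc.X)).Splits := by
    rw [← hmap]
    exact Polynomial.SplittingField.splits _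
  obtain ⟨n, c, m, h1, h2, h3, h4⟩ := Embb.exists_roots hsp hne
  exact ⟨n, c, m, _, ⟨h1, h2, Polynomial.leadingCoeff_ne_zero.2 hne, h3⟩, h4.trans hd⟩

/-- A line which is special. -/
theorem degreeOf_lt {f : MvPolynomial (Fin 3) ℂ} {d : ℕ} (hf : f.IsHomogeneous d)
    (he : 0 < f.degreeOf 0) (hs : Spec f 0 1) : f.degreeOf 0 < d := by
  have h0 : f ≠ 0 := by
    rintro rfl
    rw [degreeOf_zero] at he
    exact lt_irrefl _ he
  obtain ⟨v, hv, hv0⟩ := Embb.exists_top h0
  have hvd := Embb.sum_eq hf hv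
  rcases lt_or_eq_of_le (show f.degreeOf 0 ≤ d by omega) with h | h
  · exact h
  exfalso
  set P : Polynomial ℂ := aeval ![Polynomial.X, Polynomial.C (0 : ℂ), Polynomial.C (1 : ℂ)] f
    with hP
  have hc : P.coeff d = f.coeff v := by
    rw [hP, Embb.coeff_aeval, Finset.sum_eq_single v]
    · rw [if_pos (by omega)]
      have e1 : v 1 = 0 := by omega
      rw [e1, pow_zero, one_pow, mul_one, mul_one]
      rfl
    · intro u hu huv
      by_cases h1 : u 0 = d
      · exfalso
        apply huv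
        have e1 := Embb.sum_eq hf hu
        ext i
        fin_cases i
        · show u 0 = v 0
          omega
        · show u 1 = v 1
          omega
        · show u 2 = v 2
          omega
      · rw [if_neg h1]
    · intro h1
      exact (h1 hv).elim
  have hev : ∀ z : ℂ, P.eval z = eval ![z, 0, 1] f := by
    intro z
    have h1 : (Polynomial.evalRingHom z).comp
        ((aeval ![Polynomial.X, Polynomial.C (0 : ℂ), Polynomial.C (1 : ℂ)] :
          MvPolynomial (Fin 3) ℂ →ₐ[ℂ] Polynomial ℂ) : MvPolynomial (Fin 3) ℂ →+* _) =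
        (eval ![z, 0, 1] : MvPolynomial (Fin 3) ℂ →+* ℂ) := by
      refine MvPolynomial.ringHom_ext (fun a => ?_) (fun i => ?_)
      · rw [RingHom.comp_apply, RingHom.coe_coe, aeval_C, eval_C, Polynomial.coe_evalRingHom,
          Polynomial.algebraMap_apply, Polynomial.eval_C]
        rfl
      · rw [RingHom.comp_apply, RingHom.coe_coe, aeval_X, eval_X, Polynomial.coe_evalRingHom]
        fin_cases i
        · exact Polynomial.eval_X
        · exact Polynomial.eval_C
        · exact Polynomial.eval_C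
    exact congrArg (fun φ => φ f) h1
  have hcon : P = Polynomial.C (P.eval 0) := by
    refine Polynomial.funext fun z => ?_
    rw [Polynomial.eval_C, hev, hev]
    exact hs z
  have h2 : P.coeff d = 0 := by
    rw [hcon, Polynomial.coeff_C, if_neg (by omega)]
  rw [hc] at h2
  exact mem_support_iff.1 hv h2

/-- The factorization is compatible with homomorphisms. -/
theorem Fac.map {L L' : Type} [Field L] [Algebra ℂ L] [Field L'] [Algebra ℂ L'] {ι : Type}
    [Fintype ι] {f : MvPolynomial (Fin 3) ℂ} {t : L} {c : ι → L} {m : ι → ℕ} {A0 : L}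
    (h : Fac f t c m A0) (φ : L →+* L') (hφ : ∀ z : ℂ, φ (algebraMap ℂ L z) = algebraMap ℂ L' z) :
    Fac f (φ t) (fun i => φ (c i)) m (φ A0) := by
  refine ⟨fun i j hij => h.inj (φ.injective hij), h.pos, (map_ne_zero φ).2 h.ne, ?_⟩
  rw [← Embaux.map_PL φ hφ, h.eq, Polynomial.map_mul, Polynomial.map_C, Polynomial.map_prod]
  congr 1
  refine Finset.prod_congr rfl fun i _ => ?_
  rw [Polynomial.map_pow, Polynomial.map_sub, Polynomial.map_X, Polynomial.map_C]

end MPb07157.TL
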