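import Mathlib

/-! Local leading coefficient lemma (Theorem L, MP_b07157_ag), core part (helper23). -/

namespace MPb07157.TLL

open HahnSeries Finset

variable {F : Type*} [Field F]

/-- all coefficients of `x` at exponents `< n` vanish -/
def Lo (n : ℚ) (x : HahnSeries ℚ F) : Prop := ∀ q < n, x.coeff q = 0

theorem lo_iff {n : ℚ} {x : HahnSeries ℚ F} : Lo n x ↔ (n : WithTop ℚ) ≤ x.orderTop := by
  rw [le_orderTop_iff_forall]
  constructor
  · intro h j hj
    exact h j (by exact_mod_cast hj)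
  · intro h q hq
    exact h q (by exact_mod_cast hq)

theorem Lo.mono {n m : ℚ} {x : HahnSeries ℚ F} (h : Lo n x) (hm : m ≤ n) : Lo m x :=
  fun q hq => h q (lt_of_lt_of_le hq hm)

theorem Lo.zero (n : ℚ) : Lo n (0 : HahnSeries ℚ F) := fun _ _ => by simp

theorem Lo.add {n : ℚ} {x y : HahnSeries ℚ F} (hx : Lo n x) (hy : Lo n y) : Lo n (x + y) :=
  fun q hq => by rw [coeff_add, hx q hq, hy q hq, add_zero]

theorem Lo.neg {n : ℚ} {x : HahnSeries ℚ F} (hx : Lo n x) : Lo n (-x) :=
  fun q hq => by rw [coeff_neg, hx q hq, neg_zero]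

theorem Lo.sub {n : ℚ} {x y : HahnSeries ℚ F} (hx : Lo n x) (hy : Lo n y) : Lo n (x - y) := by
  rw [sub_eq_add_neg]; exact hx.add hy.neg

theorem Lo.coeff_mul {n m : ℚ} {x y : HahnSeries ℚ F} (hx : Lo n x) (hy : Lo m y) :
    (x * y).coeff (n + m) = x.coeff n * y.coeff m := by
  rw [HahnSeries.coeff_mul]
  have key : ∀ p ∈ antidiagonal x.isPWO_support y.isPWO_support (n + m), p = (n, m) := by
    intro p hp
    rw [Finset.mem_antidiagonal] at hp
    obtain ⟨h1, h2, h3⟩ := hp
    have a1 : n ≤ p.1 := by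
      by_contra hc
      exact h1 (hx _ (not_le.mp hc))
    have a2 : m ≤ p.2 := by
      by_contra hc
      exact h2 (hy _ (not_le.mp hc))
    have e1 : p.1 = n := by linarith
    have e2 : p.2 = m := by linarith
    exact Prod.ext e1 e2
  by_cases hmem : (n, m) ∈ antidiagonal x.isPWO_support y.isPWO_support (n + m)
  · rw [Finset.sum_eq_single (n, m)]
    · intro b hb hne
      exact absurd (key b hb) hne
    · intro h
      exact absurd hmem h
  · rw [Finset.sum_eq_zero]
    · by_contra hne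
      apply hmem
      rw [Finset.mem_antidiagonal]
      refine ⟨?_, ?_, rfl⟩
      · intro h0
        exact hne (by rw [h0, zero_mul])
      · intro h0
        exact hne (by rw [h0, mul_zero])
    · intro b hb
      exact absurd (key b hb ▸ hb) hmem

theorem Lo.mul {n m : ℚ} {x y : HahnSeries ℚ F} (hx : Lo n x) (hy : Lo m y) :
    Lo (n + m) (x * y) := by
  rw [lo_iff, orderTop_mul, WithTop.coe_add]
  exact add_le_add (lo_iff.mp hx) (lo_iff.mp hy)

/-- cancellation of a factor with known lowest coefficient -/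
theorem Lo.of_mul {n m : ℚ} {x y : HahnSeries ℚ F} (hxn : x.orderTop = (n : WithTop ℚ))
    (hxy : Lo (n + m) (x * y)) : Lo m y := by
  rw [lo_iff, orderTop_mul, hxn, WithTop.coe_add] at hxy
  rw [lo_iff]
  exact (WithTop.add_le_add_iff_left (WithTop.coe_ne_top)).mp hxy

theorem coeff_ne {n : ℚ} {x : HahnSeries ℚ F} (h : x.orderTop = (n : WithTop ℚ)) :
    x.coeff n ≠ 0 := coeff_orderTop_ne h

theorem lo_of_eq {n : ℚ} {x : HahnSeries ℚ F} (h : x.orderTop = (n : WithTop ℚ)) : Lo n x :=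
  lo_iff.mpr h.ge

variable (δ : HahnSeries ℚ F → HahnSeries ℚ F)

/-- `δ` is the derivation `d/dt` of `F((t^ℚ))` -/
structure IsD : Prop where
  coeff : ∀ x q, (δ x).coeff q = ((q + 1 : ℚ) : F) * x.coeff (q + 1)
  mul : ∀ x y, δ (x * y) = δ x * y + x * δ y

variable {δ}

theorem IsD.add (h : IsD δ) (x y : HahnSeries ℚ F) : δ (x + y) = δ x + δ y := by
  ext q
  rw [coeff_add, h.coeff, h.coeff, h.coeff, coeff_add, mul_add]

theorem IsD.sub (h : IsD δ) (x y : HahnSeries ℚ F) : δ (x - y) = δ x - δ y := by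
  ext q
  rw [coeff_sub, h.coeff, h.coeff, h.coeff, coeff_sub, mul_sub]

theorem IsD.lo (h : IsD δ) {n : ℚ} {x : HahnSeries ℚ F} (hx : Lo n x) : Lo (n - 1) (δ x) := by
  intro q hq
  rw [h.coeff, hx (q + 1) (by linarith), mul_zero]

theorem IsD.coeff' (h : IsD δ) (n : ℚ) (x : HahnSeries ℚ F) :
    (δ x).coeff (n - 1) = (n : F) * x.coeff n := by
  rw [h.coeff]
  norm_num

/-- coefficient of `y' x` at the lowest exponent -/
theorem IsD.coeff_mul (h : IsD δ) {n m : ℚ} {x y : HahnSeries ℚ F} (hy : Lo n y) (hx : Lo m x) :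
    (δ y * x).coeff (n + m - 1) = (n : F) * (y * x).coeff (n + m) := by
  rw [hy.coeff_mul hx, show n + m - 1 = (n - 1) + m by ring, (h.lo hy).coeff_mul hx, h.coeff']
  ring

variable {ι : Type*} [Fintype ι] [DecidableEq ι]

/-- the term of an index `l`: `P = c_i - c_l`, `Q = c_j - c_l`, `P X - Q Y = (P - Q) x` -/
theorem term_near (h : IsD δ) {n μ : ℚ} {P Q X Y x : HahnSeries ℚ F} (hc : P * X - Q * Y = (P - Q) * x)
    (hP : Lo n P) (hQ : Lo n Q) (hX : Lo μ X) (hY : Lo μ Y) :
    (δ P * X - δ Q * Y).coeff (n + μ - 1) = (n : F) * ((P - Q) * x).coeff (n + μ) := by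
  rw [coeff_sub, h.coeff_mul hP hX, h.coeff_mul hQ hY, ← hc, coeff_sub]
  ring

theorem term_far (h : IsD δ) {n m μ : ℚ} {P Q X Y x : HahnSeries ℚ F}
    (hc : P * X - Q * Y = (P - Q) * x) (hR : Lo n (P - Q)) (hQ : Q.orderTop = (m : WithTop ℚ))
    (hx : Lo μ x) (hX : Lo μ X) (hX0 : X.coeff μ = 0) :
    (δ P * X - δ Q * Y).coeff (n + μ - 1) = (m : F) * ((P - Q) * x).coeff (n + μ) := by
  set R := P - Q with hRdef
  have hPe : P = Q + R := by rw [hRdef]; ring
  have hW : Q * (δ P * X - δ Q * Y) = (δ R * Q - R * δ Q) * X + δ Q * (R * x) := by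
    have hQY : Q * Y = P * X - R * x := by rw [← hc]; ring
    have hdP : δ P = δ Q + δ R := by rw [hPe, h.add]
    calc Q * (δ P * X - δ Q * Y) = Q * δ P * X - δ Q * (Q * Y) := by ring
      _ = Q * δ P * X - δ Q * (P * X - R * x) := by rw [hQY]
      _ = (δ R * Q - R * δ Q) * X + δ Q * (R * x) := by rw [hdP, hPe]; ring
  have hQl : Lo m Q := lo_of_eq hQ
  have hA : Lo (n + m - 1) (δ R * Q - R * δ Q) := by
    have h1 : Lo (n + m - 1) (δ R * Q) := by
      have := (h.lo hR).mul hQl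
      exact this.mono (by linarith)
    have h2 : Lo (n + m - 1) (R * δ Q) := by
      have := hR.mul (h.lo hQl)
      exact this.mono (by linarith)
    exact h1.sub h2
  have hB : Lo (n + μ) (R * x) := hR.mul hx
  have hC : Lo (m - 1 + (n + μ)) (δ Q * (R * x)) := (h.lo hQl).mul hB
  have hWl : Lo (m + (n + μ - 1)) (Q * (δ P * X - δ Q * Y)) := by
    rw [hW]
    refine Lo.add ((hA.mul hX).mono (by linarith)) (hC.mono (by linarith))
  have hZ : Lo (n + μ - 1) (δ P * X - δ Q * Y) := Lo.of_mul hQ hWl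
  have e1 : (Q * (δ P * X - δ Q * Y)).coeff (m + (n + μ - 1)) =
      Q.coeff m * (δ P * X - δ Q * Y).coeff (n + μ - 1) := hQl.coeff_mul hZ
  have e2 : (Q * (δ P * X - δ Q * Y)).coeff (m + (n + μ - 1)) =
      (m : F) * (Q.coeff m * (R * x).coeff (n + μ)) := by
    rw [hW, coeff_add]
    have f1 : ((δ R * Q - R * δ Q) * X).coeff (m + (n + μ - 1)) = 0 := by
      rw [show m + (n + μ - 1) = (n + m - 1) + μ by ring, hA.coeff_mul hX, hX0, mul_zero]
    have f2 : (δ Q * (R * x)).coeff (m + (n + μ - 1)) = (m : F) * (Q * (R * x)).coeff (m + (n + μ)) := by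
      rw [show m + (n + μ - 1) = m + (n + μ) - 1 by ring]
      exact h.coeff_mul hQl hB
    rw [f1, f2, hQl.coeff_mul hB, zero_add]
  have hq : Q.coeff m ≠ 0 := coeff_ne hQ
  apply mul_left_cancel₀ hq
  rw [← e1, e2]
  ring

theorem ord_top {x : HahnSeries ℚ F} (hx : x ≠ 0) : x.orderTop = (x.order : WithTop ℚ) :=
  (order_eq_orderTop_of_ne_zero hx).symm

theorem lo_order (x : HahnSeries ℚ F) : Lo x.order x :=
  fun _ hq => coeff_eq_zero_of_lt_order hq

/-- The relation between the leading coefficients: `n_l = ord (c_i - c_l)`, `n = ord (c_i - c_j)`. -/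
theorem rel (h : IsD δ) {c α ρ : ι → HahnSeries ℚ F} {ξ : ι → ι → HahnSeries ℚ F}
    {π : HahnSeries ℚ F} {p0 : F} {a : ι → F} (hc : Function.Injective c)
    (hξ : ∀ i j, ξ i j * (c i - c j) = α i - α j) (hπ : Lo (-1) π) (hπ0 : π.coeff (-1) = p0)
    (heq : ∀ i, δ (α i) + π * α i + ∑ l, HahnSeries.C (a l) * ((δ (c i) - δ (c l)) * ξ i l) = ρ i)
    {i j : ι} (hij : i ≠ j) (hρ : Lo (c i - c j).order (ρ i - ρ j))
    {μ : ℚ} (hμ : μ < 1) (hlo : ∀ i j, i ≠ j → Lo μ (ξ i j)) (h0 : (ξ i j).coeff μ ≠ 0)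
    (hmin : ∀ l, i ≠ l → (ξ i l).coeff μ ≠ 0 → (c i - c j).order ≤ (c i - c l).order) :
    ((μ + (c i - c j).order : ℚ) : F) + p0 + ∑ l, a l *
      ((if l = i then (c i - c j).order else min (c i - c l).order (c i - c j).order : ℚ) : F) = 0 := by
  have hne : ∀ {i j : ι}, i ≠ j → c i - c j ≠ 0 := fun hab => sub_ne_zero.mpr (fun he => hab (hc he))
  set R := c i - c j with hR
  set n := R.order with hn
  set x := ξ i j with hx
  have hRne : R ≠ 0 := hne hij
  have hRlo : Lo n R := lo_order R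
  have hxlo : Lo μ x := hlo i j hij
  have hL : (R * x).coeff (n + μ) ≠ 0 := by
    rw [hRlo.coeff_mul hxlo]
    exact mul_ne_zero (coeff_ne (ord_top hRne)) h0
  set L := (R * x).coeff (n + μ) with hLdef
  have hαij : α i - α j = R * x := by rw [← hξ i j]; ring
  have hsymm : ξ j i = x := by
    have h1 := hξ j i
    have h2 := hξ i j
    have h3 : ξ j i * (c i - c j) = ξ i j * (c i - c j) := by linear_combination (-1) * h1 - h2
    exact mul_right_cancel₀ hRne h3
  -- the single terms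
  have hterm : ∀ l, (((δ (c i) - δ (c l)) * ξ i l) - ((δ (c j) - δ (c l)) * ξ j l)).coeff (n + μ - 1) =
      ((if l = i then n else min (c i - c l).order n : ℚ) : F) * L := by
    intro l
    by_cases hli : l = i
    · subst hli
      rw [if_pos rfl, sub_self, zero_mul, hsymm]
      have : (0 : HahnSeries ℚ F) - (δ (c j) - δ (c l)) * x = δ R * x := by rw [hR, h.sub]; ring
      rw [this]
      exact h.coeff_mul hRlo hxlo
    rw [if_neg hli]
    by_cases hlj : l = j
    · subst hlj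
      rw [sub_self (δ (c l)), zero_mul, sub_zero, ← h.sub, ← hR, min_self]
      exact h.coeff_mul hRlo hxlo
    have hil : i ≠ l := fun he => hli he.symm
    have hjl : j ≠ l := fun he => hlj he.symm
    have hcc : (c i - c l) * ξ i l - (c j - c l) * ξ j l = ((c i - c l) - (c j - c l)) * x := by
      have h1 := hξ i l
      have h2 := hξ j l
      have h3 := hξ i j
      rw [← hx] at h3
      linear_combination h1 - h2 - h3
    have hPQ : (c i - c l) - (c j - c l) = R := by rw [hR]; ring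
    rw [← h.sub, ← h.sub]
    rcases lt_or_ge (c i - c l).order n with hlt | hge
    · rw [min_eq_left hlt.le]
      have hQo : (c j - c l).orderTop = (((c i - c l).order : ℚ) : WithTop ℚ) := by
        have hQ : c j - c l = (c i - c l) - R := by rw [hR]; ring
        rw [hQ, ← ord_top (hne hil)]
        apply orderTop_sub
        rw [ord_top (hne hil), ord_top hRne]
        exact_mod_cast hlt
      have h00 : (ξ i l).coeff μ = 0 := by
        by_contra hc0
        exact absurd (hmin l hil hc0) (not_le.mpr hlt)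
      have := term_far h (n := n) (μ := μ) (m := (c i - c l).order) hcc (by rw [hPQ]; exact hRlo) hQo
        hxlo (hlo i l hil) h00
      rw [this, hPQ]
    · rw [min_eq_right hge]
      have hP : Lo n (c i - c l) := (lo_order _).mono hge
      have hQ : Lo n (c j - c l) := by
        have e : c j - c l = (c i - c l) - R := by rw [hR]; ring
        rw [e]
        exact hP.sub hRlo
      have := term_near h (n := n) (μ := μ) hcc hP hQ (hlo i l hil) (hlo j l hjl)
      rw [this, hPQ]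
  -- the coefficient of the difference of the equations
  have hdiff : (δ (α i) - δ (α j)) + π * (α i - α j) +
      ∑ l, HahnSeries.C (a l) * (((δ (c i) - δ (c l)) * ξ i l) - ((δ (c j) - δ (c l)) * ξ j l)) =
      ρ i - ρ j := by
    rw [← heq i, ← heq j]
    simp only [mul_sub, Finset.sum_sub_distrib]
    ring
  have hco := congrArg (fun z => z.coeff (n + μ - 1)) hdiff
  simp only [coeff_add, coeff_sub] at hco
  have t1 : (δ (α i)).coeff (n + μ - 1) - (δ (α j)).coeff (n + μ - 1) = ((n + μ : ℚ) : F) * L := by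
    rw [h.coeff', h.coeff', ← mul_sub, ← coeff_sub, hαij]
  have t2 : (π * (α i - α j)).coeff (n + μ - 1) = p0 * L := by
    rw [hαij, show n + μ - 1 = -1 + (n + μ) by ring, hπ.coeff_mul (hRlo.mul hxlo), hπ0]
  have t4 : (ρ i).coeff (n + μ - 1) - (ρ j).coeff (n + μ - 1) = 0 := by
    rw [← coeff_sub]
    exact hρ _ (by linarith)
  have t3 : (∑ l, HahnSeries.C (a l) * (((δ (c i) - δ (c l)) * ξ i l) -
      ((δ (c j) - δ (c l)) * ξ j l))).coeff (n + μ - 1) =
      (∑ l, a l * ((if l = i then n else min (c i - c l).order n : ℚ) : F)) * L := by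
    rw [coeff_sum, Finset.sum_mul]
    apply Finset.sum_congr rfl
    intro l _
    rw [C_mul_eq_smul, coeff_smul, hterm l, smul_eq_mul]
    ring
  rw [t1, t2, t3, t4] at hco
  have hfin : (((μ + n : ℚ) : F) + p0 + ∑ l, a l *
      ((if l = i then n else min (c i - c l).order n : ℚ) : F)) * L = 0 := by
    rw [← hco, add_comm μ n]
    ring
  exact (mul_eq_zero.mp hfin).resolve_right hL

/-- Either all `ξ_ij` vanish to order `≥ 1`, or the least order `μ < 1` satisfies the relation of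
the leading coefficients for some pair. -/
theorem exists_rel (h : IsD δ) {c α ρ : ι → HahnSeries ℚ F} {ξ : ι → ι → HahnSeries ℚ F}
    {π : HahnSeries ℚ F} {p0 : F} {a : ι → F} (hc : Function.Injective c)
    (hξ : ∀ i j, ξ i j * (c i - c j) = α i - α j) (hπ : Lo (-1) π) (hπ0 : π.coeff (-1) = p0)
    (heq : ∀ i, δ (α i) + π * α i + ∑ l, HahnSeries.C (a l) * ((δ (c i) - δ (c l)) * ξ i l) = ρ i)
    (hρ : ∀ i j, i ≠ j → Lo (c i - c j).order (ρ i - ρ j)) :
    (∀ i j, i ≠ j → Lo 1 (ξ i j)) ∨ ∃ (μ : ℚ) (i j : ι), μ < 1 ∧ i ≠ j ∧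
      (∀ i' j', i' ≠ j' → Lo μ (ξ i' j')) ∧ (ξ i j).coeff μ ≠ 0 ∧
      ((μ + (c i - c j).order : ℚ) : F) + p0 + ∑ l, a l *
      ((if l = i then (c i - c j).order else min (c i - c l).order (c i - c j).order : ℚ) : F) = 0 := by
  classical
  by_cases hall : ∀ i j, i ≠ j → Lo 1 (ξ i j)
  · exact Or.inl hall
  right
  push Not at hall
  obtain ⟨i₀, j₀, hij₀, hn₀⟩ := hall
  -- the least order
  let S : Finset (ι × ι) := Finset.univ.filter fun p => p.1 ≠ p.2
  have hS : S.Nonempty := ⟨(i₀, j₀), by simp [S, hij₀]⟩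
  obtain ⟨p, hpS, hp⟩ := S.exists_min_image (fun p => (ξ p.1 p.2).orderTop) hS
  have hpij : p.1 ≠ p.2 := (Finset.mem_filter.mp hpS).2
  have hle : ∀ i j, i ≠ j → (ξ p.1 p.2).orderTop ≤ (ξ i j).orderTop :=
    fun i j hij => hp (i, j) (by simp [S, hij])
  have hlt : (ξ p.1 p.2).orderTop < ((1 : ℚ) : WithTop ℚ) := by
    have h1 := hle i₀ j₀ hij₀
    rw [lo_iff, not_le] at hn₀
    exact lt_of_le_of_lt h1 hn₀
  obtain ⟨μ, hμ⟩ : ∃ μ : ℚ, (ξ p.1 p.2).orderTop = (μ : WithTop ℚ) := by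
    have hne : (ξ p.1 p.2).orderTop ≠ ⊤ := ne_top_of_lt hlt
    exact ⟨(ξ p.1 p.2).orderTop.untop hne, by simp⟩
  have hμ1 : μ < 1 := by rw [hμ] at hlt; exact_mod_cast hlt
  have hlo : ∀ i j, i ≠ j → Lo μ (ξ i j) := fun i j hij => by
    rw [lo_iff, ← hμ]; exact hle i j hij
  -- among the pairs of least order, the least distance
  let S' : Finset (ι × ι) := Finset.univ.filter fun p => p.1 ≠ p.2 ∧ (ξ p.1 p.2).coeff μ ≠ 0
  have hS' : S'.Nonempty := ⟨p, by simp [S', hpij, coeff_ne hμ]⟩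
  obtain ⟨q, hqS, hq⟩ := S'.exists_min_image (fun p => (c p.1 - c p.2).order) hS'
  obtain ⟨hqij, hq0⟩ := (Finset.mem_filter.mp hqS).2
  refine ⟨μ, q.1, q.2, hμ1, hqij, hlo, hq0, ?_⟩
  exact rel h hc hξ hπ hπ0 heq hqij (hρ _ _ hqij) hμ1 hlo hq0
    (fun l hl hl0 => hq (q.1, l) (by simp [S', hl, hl0]))

end MPb07157.TLL
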