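import Pool.Agent.Lib.MP_b07157_agL3.Defs
import Pool.Agent.Lib.MP_b07157_agL3.LLcore

/-!
# The local lemma
-/

noncomputable section

namespace MPb07157.TL

variable {ι : Type} [Fintype ι] [DecidableEq ι]

namespace LLaux

open TLL

theorem isD : IsD (F := ℂ) (fun x => dtau x) where
  coeff := coeff_dtau
  mul x y := by
    change dtau (x * y) = dtau x * y + x * dtau y
    rw [Derivation.leibniz, smul_eq_mul, smul_eq_mul]
    ring

theorem logd {A0 : L0} (hA0 : A0 ≠ 0) (s : ℂ) :
    Lo (-1) (HahnSeries.C s * (dtau A0 / A0) : L0) ∧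
      (HahnSeries.C s * (dtau A0 / A0) : L0).coeff (-1) = s * (A0.order : ℂ) := by
  have h1 : A0 * (HahnSeries.C s * (dtau A0 / A0)) = HahnSeries.C s * dtau A0 := by
    field_simp
  have h2 : Lo (A0.order - 1) (HahnSeries.C s * dtau A0 : L0) := by
    have h3 : Lo (A0.order - 1) (dtau A0) := isD.lo (lo_order A0)
    intro q hq
    rw [HahnSeries.C_mul_eq_smul, HahnSeries.coeff_smul, h3 q hq, smul_zero]
  have h3 : Lo (-1) (HahnSeries.C s * (dtau A0 / A0) : L0) := by
    apply Lo.of_mul (ord_top hA0)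
    rw [h1]
    exact h2.mono (by linarith)
  refine ⟨h3, ?_⟩
  have h4 : (A0 * (HahnSeries.C s * (dtau A0 / A0))).coeff (A0.order + -1) =
      A0.coeff A0.order * (HahnSeries.C s * (dtau A0 / A0) : L0).coeff (-1) :=
    (lo_order A0).coeff_mul h3
  have h5 : (HahnSeries.C s * dtau A0 : L0).coeff (A0.order + -1) =
      s * ((A0.order : ℂ) * A0.coeff A0.order) := by
    rw [HahnSeries.C_mul_eq_smul, HahnSeries.coeff_smul, show A0.order + -1 = A0.order - 1 by ring,
      isD.coeff', smul_eq_mul]
  rw [h1, h5] at h4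
  have h6 : A0.coeff A0.order ≠ 0 := coeff_ne (ord_top hA0)
  apply mul_left_cancel₀ h6
  rw [← h4]
  ring

theorem sum_split (i j : ι) (hij : i ≠ j) (f : ι → ℂ) :
    ∑ l, f l = f i + f j + ∑ l ∈ (Finset.univ.erase i).erase j, f l := by
  rw [← Finset.add_sum_erase Finset.univ f (Finset.mem_univ i),
    ← Finset.add_sum_erase (Finset.univ.erase i) f
      (Finset.mem_erase.mpr ⟨hij.symm, Finset.mem_univ j⟩)]
  ring

end LLaux

open TLL LLaux in
/-- The local lemma: a solution of the differential equation for an irrational `s` is regular,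
except possibly if an exponent vanishes. -/
theorem local_lemma {c : ι → L0} (hc : Function.Injective c) {A0 : L0} (hA0 : A0 ≠ 0) {s : ℂ}
    (hs : ∀ q : ℚ, s ≠ (q : ℂ)) (a b : ι → ℤ) {α β : ι → L0} {κ : L0}
    (hE : ∀ i, eps dtau c (fun i => HahnSeries.C ((a i : ℂ) * s + (b i : ℂ))) α
      (HahnSeries.C s * (dtau A0 / A0)) i + β i = κ)
    (hβ : ∀ i j, i ≠ j → 0 ≤ (xi c β i j).orderTop) :
    (∀ i j, i ≠ j → ((1 : ℚ) : WithTop ℚ) ≤ (xi c α i j).orderTop) ∨
      ∃ i j, i ≠ j ∧ Nn A0 c a i j = 0 ∧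
        ∀ k l, k ≠ l → ((-(Mm c b i j) : ℚ) : WithTop ℚ) ≤ (xi c α k l).orderTop := by
  have hsub : ∀ {i j : ι}, i ≠ j → c i - c j ≠ 0 := fun hab => sub_ne_zero.mpr (fun he => hab (hc he))
  obtain ⟨hπ, hπ0⟩ := logd hA0 s
  have hξ : ∀ i j, xi c α i j * (c i - c j) = α i - α j := by
    intro i j
    by_cases hij : i = j
    · subst hij; simp
    · rw [xi, div_mul_cancel₀ _ (hsub hij)]
  have heq : ∀ i, dtau (α i) + (HahnSeries.C s * (dtau A0 / A0)) * α i +
      ∑ l, HahnSeries.C ((a l : ℂ) * s + (b l : ℂ)) * ((dtau (c i) - dtau (c l)) * xi c α i l) =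
      κ - β i := by
    intro i
    rw [← hE i, eps, ← Finset.add_sum_erase Finset.univ _ (Finset.mem_univ i)]
    simp only [sub_self, zero_mul, mul_zero, zero_add, add_sub_cancel_right]
    congr 1
    apply Finset.sum_congr rfl
    intro l _
    rw [xi, map_sub]
    ring
  have hρ : ∀ i j, i ≠ j → Lo (c i - c j).order ((κ - β i) - (κ - β j)) := by
    intro i j hij
    have e : (κ - β i) - (κ - β j) = -(xi c β i j * (c i - c j)) := by
      rw [xi, div_mul_cancel₀ _ (hsub hij)]; ring
    rw [e]
    apply Lo.neg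
    have h0 : Lo 0 (xi c β i j) := lo_iff.mpr (hβ i j hij)
    have := h0.mul (lo_order (c i - c j))
    rwa [zero_add] at this
  rcases exists_rel isD hc hξ hπ hπ0 heq hρ with h1 | ⟨μ, i, j, hμ, hij, hlo, -, hrel⟩
  · left
    intro i j hij
    exact lo_iff.mp (h1 i j hij)
  right
  have e : ∀ l : ι, ((a l : ℂ) * s + (b l : ℂ)) *
      ((if l = i then (c i - c j).order else min (c i - c l).order (c i - c j).order : ℚ) : ℂ) =
      (((b l : ℚ) * (if l = i then (c i - c j).order else
        min (c i - c l).order (c i - c j).order) : ℚ) : ℂ) +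
      s * (((a l : ℚ) * (if l = i then (c i - c j).order else
        min (c i - c l).order (c i - c j).order) : ℚ) : ℂ) := by
    intro l
    push_cast
    ring
  simp only [e, Finset.sum_add_distrib, ← Finset.mul_sum, ← Rat.cast_sum] at hrel
  have hN : A0.order + ∑ l, (a l : ℚ) * (if l = i then (c i - c j).order else
        min (c i - c l).order (c i - c j).order) = Nn A0 c a i j := by
    rw [Nn, ← Finset.add_sum_erase Finset.univ _ (Finset.mem_univ i),
      ← Finset.add_sum_erase (Finset.univ.erase i) _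
        (Finset.mem_erase.mpr ⟨hij.symm, Finset.mem_univ j⟩), if_pos rfl, if_neg hij.symm, min_self]
    have : ∑ l ∈ (Finset.univ.erase i).erase j, (a l : ℚ) * (if l = i then (c i - c j).order else
        min (c i - c l).order (c i - c j).order) = ∑ l ∈ (Finset.univ.erase i).erase j,
        (a l : ℚ) * min (c i - c l).order (c i - c j).order := by
      apply Finset.sum_congr rfl
      intro l hl
      rw [if_neg (Finset.mem_erase.mp (Finset.mem_erase.mp hl).2).1]
    rw [this]
    ring
  have hM : (c i - c j).order + ∑ l, (b l : ℚ) * (if l = i then (c i - c j).order else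
        min (c i - c l).order (c i - c j).order) = Mm c b i j := by
    rw [Mm, ← Finset.add_sum_erase Finset.univ _ (Finset.mem_univ i),
      ← Finset.add_sum_erase (Finset.univ.erase i) _
        (Finset.mem_erase.mpr ⟨hij.symm, Finset.mem_univ j⟩), if_pos rfl, if_neg hij.symm, min_self]
    have : ∑ l ∈ (Finset.univ.erase i).erase j, (b l : ℚ) * (if l = i then (c i - c j).order else
        min (c i - c l).order (c i - c j).order) = ∑ l ∈ (Finset.univ.erase i).erase j,
        (b l : ℚ) * min (c i - c l).order (c i - c j).order := by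
      apply Finset.sum_congr rfl
      intro l hl
      rw [if_neg (Finset.mem_erase.mp (Finset.mem_erase.mp hl).2).1]
    rw [this]
    ring
  have hrel2 : ((μ + Mm c b i j : ℚ) : ℂ) + s * ((Nn A0 c a i j : ℚ) : ℂ) = 0 := by
    rw [← hN, ← hM, ← hrel]
    push_cast
    ring
  have hN0 : Nn A0 c a i j = 0 := by
    by_contra hne
    have hne' : ((Nn A0 c a i j : ℚ) : ℂ) ≠ 0 := by exact_mod_cast hne
    apply hs (-(μ + Mm c b i j) / Nn A0 c a i j)
    push_cast
    push_cast at hrel2
    field_simp
    linear_combination hrel2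
  have hμ0 : μ = -(Mm c b i j) := by
    rw [hN0] at hrel2
    have h3 : ((μ + Mm c b i j : ℚ) : ℂ) = 0 := by simpa using hrel2
    have h4 : μ + Mm c b i j = 0 := by exact_mod_cast h3
    linarith
  refine ⟨i, j, hij, hN0, fun k l hkl => ?_⟩
  rw [← hμ0]
  exact lo_iff.mp (hlo k l hkl)

end MPb07157.TL
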