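import Pool.Agent.Lib.MP_b07157_agL3.Defs2
import Pool.Agent.Lib.MP_b07157_agM2.S2
import Pool.Agent.Lib.MP_b07157_agL3.LL

/-!
# Two special lines: the structure of the solution
-/

noncomputable section

namespace MPb07157.TL

variable {ι : Type} [Fintype ι] [DecidableEq ι]

namespace Finaux

open TLL

theorem dtau_tau : dtau tau = 1 := by
  ext q
  rw [coeff_dtau, tau, HahnSeries.coeff_single, HahnSeries.coeff_one]
  by_cases h : q = 0
  · subst h
    simp
  · rw [if_neg h, if_neg (fun h1 => h (by linarith)), mul_zero]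

theorem dtau_t (t3 : ℂ) : dtau (HahnSeries.C t3 + tau) = 1 := by
  rw [map_add, ← algebraMap_L0, Derivation.map_algebraMap, zero_add, dtau_tau]

theorem coeff_t (t3 : ℂ) : (HahnSeries.C t3 + tau : L0).coeff 0 = t3 := by
  rw [HahnSeries.coeff_add, HahnSeries.C_apply, HahnSeries.coeff_single_same, tau,
    HahnSeries.coeff_single, if_neg (by norm_num), add_zero]

theorem lo_t (t3 : ℂ) : Lo 0 (HahnSeries.C t3 + tau : L0) := by
  intro q hq
  rw [HahnSeries.coeff_add, HahnSeries.C_apply, HahnSeries.coeff_single,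
    if_neg (by linarith), tau, HahnSeries.coeff_single, if_neg (by linarith), add_zero]

theorem t_ne {t3 : ℂ} (ht3 : t3 ≠ 0) : (HahnSeries.C t3 + tau : L0) ≠ 0 := by
  intro h
  apply ht3
  rw [← coeff_t t3, h, HahnSeries.coeff_zero]

theorem coeff_C_mul (r : ℂ) (x : L0) (q : ℚ) : (HahnSeries.C r * x : L0).coeff q =
    r * x.coeff q := by
  rw [HahnSeries.C_mul_eq_smul, HahnSeries.coeff_smul, smul_eq_mul]

end Finaux

open TLL Finaux in
/-- If `b ≠ 0`, the constants `x_ij` are equal, the differences `c_i - c_j` satisfy a differential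
equation of the first order, and their orders are known. -/
theorem fin {c : ι → L0} (hc : Function.Injective c) {A0 : L0} (hA0 : A0 ≠ 0) {t3 : ℂ}
    (ht3 : t3 ≠ 0) {m : ι → ℕ} {s b : ℂ} {κ : L0} {x : ι → ι → ℂ} {α : ι → L0}
    (h2 : 1 < Fintype.card ι)
    (hx : ∀ i j, i ≠ j → α i - α j = HahnSeries.C (x i j) * (HahnSeries.C t3 + tau) * (c i - c j))
    (hE : ∀ i, eps dtau c (fun i => algebraMap ℂ L0 (s * (m i : ℂ))) α
      (HahnSeries.C s * (dtau A0 / A0)) i + HahnSeries.C b * c i = κ) (hb : b ≠ 0) :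
    ∃ B : ℂ, B ≠ 0 ∧ (∀ i j, i ≠ j → x i j = B) ∧
      (∀ i j, HahnSeries.C B *
        ((1 + HahnSeries.C s * (dtau A0 / A0 * (HahnSeries.C t3 + tau))) * (c i - c j) +
          (1 + HahnSeries.C s * ∑ l, (m l : L0)) *
            ((HahnSeries.C t3 + tau) * (dtau (c i) - dtau (c j)))) =
        -(HahnSeries.C b * (c i - c j))) ∧
      ∀ i j, i ≠ j → (1 + s * ((∑ l, m l : ℕ) : ℂ)) * ((c i - c j).order : ℂ) +
        s * (A0.order : ℂ) = 0 := by
  have hsub : ∀ {i j : ι}, i ≠ j → c i - c j ≠ 0 := fun hab =>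
    sub_ne_zero.mpr (fun he => hab (hc he))
  have hEqs : LM.Eqs dtau (HahnSeries.C t3 + tau) (dtau A0 / A0) c α m x s (-b)
      (κ * (HahnSeries.C t3 + tau)) := by
    refine ⟨dtau_t t3, t_ne ht3, hc, hx, fun i => ?_⟩
    have h1 := hE i
    have h3 : ∑ l ∈ Finset.univ.erase i, algebraMap ℂ L0 (s * (m l : ℂ)) * (α i - α l) *
        (dtau (c i - c l) / (c i - c l)) = algebraMap ℂ L0 s * ∑ j, (m j : L0) *
          ((dtau (c i) - dtau (c j)) * (algebraMap ℂ L0 (x i j) * (HahnSeries.C t3 + tau))) := by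
      rw [← Finset.add_sum_erase Finset.univ _ (Finset.mem_univ i), sub_self, zero_mul, mul_zero,
        zero_add, Finset.mul_sum]
      refine Finset.sum_congr rfl fun l hl => ?_
      have hil : i ≠ l := (Finset.ne_of_mem_erase hl).symm
      have h4 := hsub hil
      rw [hx i l hil, map_mul, map_natCast, map_sub, algebraMap_L0 (x i l)]
      field_simp
    rw [eps, h3] at h1
    rw [← h1, map_neg, algebraMap_L0 b, algebraMap_L0 s]
    ring
  obtain ⟨B, hB, hall, hode⟩ := hEqs.ode (neg_ne_zero.2 hb) h2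
  refine ⟨B, hB, hall, fun i j => ?_, fun i j hij => ?_⟩
  · have h1 := hode i j
    rw [map_neg, algebraMap_L0, algebraMap_L0, algebraMap_L0] at h1
    rw [h1]
    ring
  · have h1 := hode i j
    have hz := hsub hij
    generalize hzz : c i - c j = z at h1 hz ⊢
    have hd : dtau (c i) - dtau (c j) = dtau z := by rw [← hzz, map_sub]
    rw [hd, map_neg, algebraMap_L0, algebraMap_L0, algebraMap_L0] at h1
    obtain ⟨hπ, hπ0⟩ := LLaux.logd hA0 s
    have hlz : Lo z.order z := lo_order z
    have hldz : Lo (z.order - 1) (dtau z) := LLaux.isD.lo hlz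
    -- the three terms
    have e1 : ((HahnSeries.C s * (dtau A0 / A0)) * ((HahnSeries.C t3 + tau) * z)).coeff
        (-1 + (0 + z.order)) = s * (A0.order : ℂ) * (t3 * z.coeff z.order) := by
      rw [hπ.coeff_mul ((lo_t t3).mul hlz), (lo_t t3).coeff_mul hlz, hπ0, coeff_t]
    have e2 : ((HahnSeries.C t3 + tau) * dtau z).coeff (0 + (z.order - 1)) =
        t3 * ((z.order : ℂ) * z.coeff z.order) := by
      rw [(lo_t t3).coeff_mul hldz, coeff_t]
      congr 1
      exact LLaux.isD.coeff' z.order z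
    have e3 : z.coeff (z.order - 1) = 0 := hlz _ (by linarith)
    have hsum : (1 + HahnSeries.C s * ∑ l, (m l : L0) : L0) =
        HahnSeries.C (1 + s * ((∑ l, m l : ℕ) : ℂ)) := by
      rw [map_add, map_one, map_mul, map_natCast]
      push_cast
      rfl
    rw [hsum] at h1
    have h3 := congrArg (fun y : L0 => y.coeff (z.order - 1)) h1
    have h4 : (HahnSeries.C B * ((1 + HahnSeries.C s * (dtau A0 / A0 *
        (HahnSeries.C t3 + tau))) * z + HahnSeries.C (1 + s * ((∑ l, m l : ℕ) : ℂ)) *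
        ((HahnSeries.C t3 + tau) * dtau z)) : L0) = HahnSeries.C B * (z +
        (HahnSeries.C s * (dtau A0 / A0)) * ((HahnSeries.C t3 + tau) * z) +
        HahnSeries.C (1 + s * ((∑ l, m l : ℕ) : ℂ)) * ((HahnSeries.C t3 + tau) * dtau z)) := by
      ring
    rw [h4] at h3
    have h5 : (HahnSeries.C B * (z +
        (HahnSeries.C s * (dtau A0 / A0)) * ((HahnSeries.C t3 + tau) * z) +
        HahnSeries.C (1 + s * ((∑ l, m l : ℕ) : ℂ)) * ((HahnSeries.C t3 + tau) * dtau z)) :
        L0).coeff (z.order - 1) = B * (0 + s * (A0.order : ℂ) * (t3 * z.coeff z.order) +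
        (1 + s * ((∑ l, m l : ℕ) : ℂ)) * (t3 * ((z.order : ℂ) * z.coeff z.order))) := by
      rw [coeff_C_mul, HahnSeries.coeff_add, HahnSeries.coeff_add, coeff_C_mul, e3]
      have e1' := e1
      have e2' := e2
      rw [show (-1 + (0 + z.order) : ℚ) = z.order - 1 by ring] at e1'
      rw [zero_add] at e2'
      rw [e1', e2']
    have h6 : (HahnSeries.C (-b) * z : L0).coeff (z.order - 1) = 0 := by
      rw [coeff_C_mul, e3, mul_zero]
    have h7 : (-HahnSeries.C b * z : L0) = HahnSeries.C (-b) * z := by rw [map_neg]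
    rw [h7] at h3
    have h8 := h5.symm.trans (h3.trans h6)
    have h9 : z.coeff z.order ≠ 0 := coeff_ne (ord_top hz)
    have h10 := (mul_eq_zero.1 h8).resolve_left hB
    have h11 : t3 * z.coeff z.order ≠ 0 := mul_ne_zero ht3 h9
    apply mul_left_cancel₀ h11
    rw [mul_zero, ← h10]
    ring

end MPb07157.TL
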