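import Pool.Agent.Lib.MP_b07157_agL3.Defs2

/-!
# Scaling of the points of a line
-/

noncomputable section

namespace MPb07157.TL

open MvPolynomial

variable {f : MvPolynomial (Fin 3) ℂ} {d : ℕ}

namespace Scaux

theorem eval_Uf (f : MvPolynomial (Fin 3) ℂ) (a b z : ℂ) :
    (Uf f a b).eval z = eval ![z, a, b] f := by
  have h : (Polynomial.evalRingHom z).comp
      ((aeval ![Polynomial.X, Polynomial.C a, Polynomial.C b] :
        MvPolynomial (Fin 3) ℂ →ₐ[ℂ] Polynomial ℂ) : MvPolynomial (Fin 3) ℂ →+* _) =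
      eval ![z, a, b] := by
    refine MvPolynomial.ringHom_ext (fun c => ?_) (fun i => ?_)
    · simp
    · rw [RingHom.comp_apply, RingHom.coe_coe, aeval_X, eval_X]
      fin_cases i <;> simp
  exact congrArg (fun φ => φ f) h

theorem eval_homog (hf : f.IsHomogeneous d) (c : ℂ) (x : Fin 3 → ℂ) :
    eval (fun i => c * x i) f = c ^ d * eval x f := by
  rw [eval_eq', eval_eq', Finset.mul_sum]
  refine Finset.sum_congr rfl fun v hv => ?_
  have h1 : ∑ i, v i = d := by
    have h2 := hf (mem_support_iff.1 hv)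
    rw [← h2, Finsupp.weight_apply, Finsupp.sum_fintype _ _ (by simp)]
    simp
  have h3 : ∏ i, (c * x i) ^ v i = c ^ d * ∏ i, x i ^ v i := by
    rw [← h1, ← Finset.prod_pow_eq_pow_sum, ← Finset.prod_mul_distrib]
    exact Finset.prod_congr rfl fun i _ => mul_pow _ _ _
  rw [h3]
  ring

theorem eval_homog3 (hf : f.IsHomogeneous d) (c x y z : ℂ) :
    eval ![c * x, c * y, c * z] f = c ^ d * eval ![x, y, z] f := by
  rw [← eval_homog hf c ![x, y, z]]
  refine congrArg (fun g => eval g f) ?_
  funext i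
  fin_cases i <;> rfl

theorem comp_Uf (hf : f.IsHomogeneous d) {a b : ℂ} (ha : a ≠ 0) :
    (Uf f a b).comp (Polynomial.C a * Polynomial.X) = Polynomial.C (a ^ d) * Uf f 1 (b / a) := by
  refine Polynomial.funext fun z => ?_
  rw [Polynomial.eval_comp, Polynomial.eval_mul, Polynomial.eval_C, Polynomial.eval_X, eval_Uf,
    Polynomial.eval_mul, Polynomial.eval_C, eval_Uf, ← eval_homog3 hf, mul_one,
    mul_div_cancel₀ _ ha]

end Scaux

open Scaux

theorem Uf_scale_natDegree (hf : f.IsHomogeneous d) {a b : ℂ} (ha : a ≠ 0) :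
    (Uf f a b).natDegree = (Uf f 1 (b / a)).natDegree := by
  have h := congrArg Polynomial.natDegree (comp_Uf (b := b) hf ha)
  rw [Polynomial.natDegree_comp, Polynomial.natDegree_C_mul_X a ha, mul_one,
    Polynomial.natDegree_C_mul (pow_ne_zero d ha)] at h
  exact h

theorem Uf_scale_card (hf : f.IsHomogeneous d) {a b : ℂ} (ha : a ≠ 0) :
    (Uf f a b).roots.toFinset.card = (Uf f 1 (b / a)).roots.toFinset.card := by
  have h0 := comp_Uf (b := b) hf ha
  have hz : Uf f a b = 0 ↔ Uf f 1 (b / a) = 0 := by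
    constructor
    · intro h
      rw [h, Polynomial.zero_comp] at h0
      rcases mul_eq_zero.1 h0.symm with h1 | h1
      · exact absurd (Polynomial.C_eq_zero.1 h1) (pow_ne_zero d ha)
      · exact h1
    · intro h
      rw [h, mul_zero] at h0
      refine Polynomial.funext fun z => ?_
      have h1 := congrArg (Polynomial.eval (z / a)) h0
      rw [Polynomial.eval_comp, Polynomial.eval_mul, Polynomial.eval_C, Polynomial.eval_X,
        mul_div_cancel₀ _ ha, Polynomial.eval_zero] at h1
      rw [h1, Polynomial.eval_zero]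
  have he : ∀ z, (Uf f a b).eval (a * z) = a ^ d * (Uf f 1 (b / a)).eval z := by
    intro z
    have h1 := congrArg (Polynomial.eval z) h0
    rw [Polynomial.eval_comp, Polynomial.eval_mul, Polynomial.eval_C, Polynomial.eval_X,
      Polynomial.eval_mul, Polynomial.eval_C] at h1
    exact h1
  have hi : (Uf f a b).roots.toFinset =
      (Uf f 1 (b / a)).roots.toFinset.image (fun z => a * z) := by
    ext w
    rw [Finset.mem_image, Multiset.mem_toFinset, Polynomial.mem_roots']
    constructor
    · rintro ⟨h1, h2⟩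
      refine ⟨w / a, ?_, mul_div_cancel₀ _ ha⟩
      rw [Multiset.mem_toFinset, Polynomial.mem_roots']
      refine ⟨fun h => h1 (hz.2 h), ?_⟩
      have h3 := he (w / a)
      rw [mul_div_cancel₀ _ ha, h2.eq_zero] at h3
      exact (mul_eq_zero.1 h3.symm).resolve_left (pow_ne_zero d ha)
    · rintro ⟨z, h1, rfl⟩
      rw [Multiset.mem_toFinset, Polynomial.mem_roots'] at h1
      refine ⟨fun h => h1.1 (hz.1 h), ?_⟩
      show (Uf f a b).eval (a * z) = 0
      rw [he, h1.2.eq_zero, mul_zero]
  rw [hi, Finset.card_image_of_injective _ (mul_right_injective₀ ha)]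

/-- If the line `x_1 = 0` is special, then `f(X, 0, b)` does not have full degree. -/
theorem Uf_zero (hf : f.IsHomogeneous d) (he : 0 < f.degreeOf 0) (hs : Spec f 0 1) (b : ℂ) :
    (Uf f 0 b).natDegree ≠ f.degreeOf 0 := by
  have h1 : ∀ (c z : ℂ), c ≠ 0 → eval ![z, 0, c] f = eval ![0, 0, c] f := by
    intro c z hc
    have h2 := eval_homog3 hf c (z / c) 0 1
    have h3 := eval_homog3 hf c 0 0 1
    rw [mul_div_cancel₀ _ hc, mul_zero, mul_one] at h2
    rw [mul_zero, mul_one] at h3
    rw [h2, h3, hs]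
  have h4 : ∀ (c z : ℂ), eval ![z, 0, c] f = eval ![0, 0, c] f := by
    intro c z
    have hq : ∀ y x : ℂ, Polynomial.eval x
        (aeval ![Polynomial.C y, 0, Polynomial.X] f : Polynomial ℂ) = eval ![y, 0, x] f := by
      intro y x
      have h : (Polynomial.evalRingHom x).comp
          ((aeval ![Polynomial.C y, 0, Polynomial.X] :
            MvPolynomial (Fin 3) ℂ →ₐ[ℂ] Polynomial ℂ) : MvPolynomial (Fin 3) ℂ →+* _) =
          eval ![y, 0, x] := by
        refine MvPolynomial.ringHom_ext (fun c => ?_) (fun i => ?_)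
        · simp
        · rw [RingHom.comp_apply, RingHom.coe_coe, aeval_X, eval_X]
          fin_cases i <;> simp
      exact congrArg (fun φ => φ f) h
    have h5 : (aeval ![Polynomial.C z, 0, Polynomial.X] f : Polynomial ℂ) =
        aeval ![Polynomial.C 0, 0, Polynomial.X] f := by
      refine Polynomial.eq_of_infinite_eval_eq _ _ ?_
      refine Set.Infinite.mono (s := {x : ℂ | x ≠ 0}) (fun x hx => ?_) ?_
      · show Polynomial.eval x _ = Polynomial.eval x _
        rw [hq, hq]
        exact h1 x z hx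
      · have h6 : ({0} : Set ℂ)ᶜ.Infinite := (Set.finite_singleton (0 : ℂ)).infinite_compl
        exact h6
    rw [← hq z c, h5, hq]
  have h7 : Uf f 0 b = Polynomial.C (eval ![0, 0, b] f) := by
    refine Polynomial.funext fun z => ?_
    rw [eval_Uf, Polynomial.eval_C, h4]
  rw [h7, Polynomial.natDegree_C]
  exact he.ne

theorem natDegree_Uf_le (f : MvPolynomial (Fin 3) ℂ) (a b : ℂ) :
    (Uf f a b).natDegree ≤ f.degreeOf 0 := by
  unfold Uf
  rw [aeval_def, eval₂_eq']
  refine Polynomial.natDegree_sum_le_of_forall_le _ _ fun v hv => ?_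
  rw [Fin.prod_univ_three]
  have h1 : v 0 ≤ f.degreeOf 0 := monomial_le_degreeOf 0 hv
  have h2 : algebraMap ℂ (Polynomial ℂ) (coeff v f) *
      ((![Polynomial.X, Polynomial.C a, Polynomial.C b] : Fin 3 → Polynomial ℂ) 0 ^ v 0 *
        (![Polynomial.X, Polynomial.C a, Polynomial.C b] : Fin 3 → Polynomial ℂ) 1 ^ v 1 *
        (![Polynomial.X, Polynomial.C a, Polynomial.C b] : Fin 3 → Polynomial ℂ) 2 ^ v 2) =
      Polynomial.C (coeff v f * a ^ v 1 * b ^ v 2) * Polynomial.X ^ v 0 := by
    simp only [Matrix.cons_val_zero, Matrix.cons_val_one, Matrix.cons_val, map_mul, map_pow]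
    rw [show algebraMap ℂ (Polynomial ℂ) (coeff v f) = Polynomial.C (coeff v f) from rfl]
    ring
  rw [h2]
  exact (Polynomial.natDegree_C_mul_X_pow_le _ _).trans h1

/-- A line with constant restriction is special. -/
theorem spec_of_natDegree {a b : ℂ} (h : (Uf f a b).natDegree = 0) : Spec f a b := by
  intro z
  rw [← eval_Uf, ← eval_Uf, Polynomial.eq_C_of_natDegree_eq_zero h, Polynomial.eval_C,
    Polynomial.eval_C]

end MPb07157.TL
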