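import Pool.Agent.Lib.MP_b07157_agL3.Inf
import Pool.Agent.Lib.MP_b07157_agL3.EQ0
import Pool.Agent.Lib.MP_b07157_agL3.Emb
import Pool.Agent.Lib.MP_b07157_agL3.Fin
import Pool.Agent.Lib.MP_b07157_agL3.Sc

/-!
# The global vector field and its expansions
-/

noncomputable section

namespace MPb07157.TL

open MvPolynomial

variable {f : MvPolynomial (Fin 3) ℂ} {d : ℕ}

instance : IsGalois (RatFunc ℂ) (KK f) := ⟨⟩

/-- The rational functions over the field of series. -/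
def F0 : Type := RatFunc L0

instance : Field F0 := inferInstanceAs (Field (RatFunc L0))

instance : Algebra L0 F0 := inferInstanceAs (Algebra L0 (RatFunc L0))

instance : Algebra ℂ F0 := ((algebraMap L0 F0).comp (algebraMap ℂ L0)).toAlgebra

instance : IsScalarTower ℂ L0 F0 := by
  refine ⟨fun x y z => ?_⟩
  rw [Algebra.smul_def (x • y) z, Algebra.smul_def x, Algebra.smul_def y,
    ← HahnSeries.C_mul_eq_smul, map_mul, mul_assoc]
  rfl

theorem exists_WF0 : Nonempty (WF L0 F0) := exists_WF L0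

/-- The function `t`. -/
def tK (f : MvPolynomial (Fin 3) ℂ) : KK f := algebraMap (RatFunc ℂ) (KK f) RatFunc.X

/-- The global data. -/
structure Glob (f : MvPolynomial (Fin 3) ℂ) (d : ℕ) (b : Polynomial ℂ) (K : ℕ)
    (θ : Fin 3 → MvPolynomial (Fin 3) (Polynomial ℂ)) {n : ℕ} (c : Fin n → KK f) (m : Fin n → ℕ)
    (A0 : KK f) (α : Fin n → KK f) (W : WF (KK f) (RatFunc (KK f))) : Prop where
  hf : f.IsHomogeneous d
  h : Thet f d b K θ
  hF : Fac f (tK f) c m A0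
  sum : ∑ i, m i = f.degreeOf 0
  hd : ∑ i, m i < d
  h1 : 3 * ∑ i, m i ≠ d
  h2 : 3 * ∑ i, m i ≠ 2 * d
  cl : Cl f d K θ W (tK f) c m α

theorem exists_glob (hf : f.IsHomogeneous d) (h0 : f ≠ 0) (hd : f.degreeOf 0 < d)
    (h1 : 3 * f.degreeOf 0 ≠ d) (h2 : 3 * f.degreeOf 0 ≠ 2 * d) {B : Polynomial ℂ}
    (hB : IsBernsteinSato f B) :
    ∃ (K : ℕ) (θ : Fin 3 → MvPolynomial (Fin 3) (Polynomial ℂ)) (n : ℕ) (c : Fin n → KK f)
      (m : Fin n → ℕ) (A0 : KK f) (α : Fin n → KK f) (W : WF (KK f) (RatFunc (KK f))),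
      Glob f d B K θ c m A0 α W := by
  obtain ⟨K, θ, h⟩ := exists_thet hf hB
  obtain ⟨n, c, m, A0, hF, hm⟩ := exists_fac hf h0
  obtain ⟨W⟩ := exists_WF (KK f)
  obtain ⟨α, hα⟩ := exists_cl (K := K) (θ := θ) W hF (by rw [hm]; exact hd)
    (by rw [hm]; exact h1) (by rw [hm]; exact h2)
  exact ⟨K, θ, n, c, m, A0, α, W, hf, h, hF, hm, by rw [hm]; exact hd, by rw [hm]; exact h1,
    by rw [hm]; exact h2, hα⟩

section

variable {b : Polynomial ℂ} {K : ℕ} {θ : Fin 3 → MvPolynomial (Fin 3) (Polynomial ℂ)} {n : ℕ}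
  {c : Fin n → KK f} {m : Fin n → ℕ} {A0 : KK f} {α : Fin n → KK f}
  {W : WF (KK f) (RatFunc (KK f))}

theorem algC (z : ℂ) : algebraMap ℂ (KK f) z = algebraMap (RatFunc ℂ) (KK f) (RatFunc.C z) := by
  rw [IsScalarTower.algebraMap_apply ℂ (RatFunc ℂ) (KK f)]
  rfl

theorem IsPl.alg {t0 : ℂ} {φ : KK f →+* L0} (hφ : IsPl t0 φ) (z : ℂ) :
    φ (algebraMap ℂ (KK f) z) = algebraMap ℂ L0 z := by
  rw [algC, hφ.1, algebraMap_L0]

theorem IsPlInf.alg {φ : KK f →+* L0} (hφ : IsPlInf φ) (z : ℂ) :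
    φ (algebraMap ℂ (KK f) z) = algebraMap ℂ L0 z := by
  rw [algC, hφ.1, algebraMap_L0]

theorem Glob.fac (G : Glob f d b K θ c m A0 α W) {t0 : ℂ} {φ : KK f →+* L0} (hφ : IsPl t0 φ) :
    Fac f (HahnSeries.C t0 + tau) (fun i => φ (c i)) m (φ A0) := by
  have h1 := G.hF.map φ hφ.alg
  unfold tK at h1
  rwa [hφ.2] at h1

theorem Glob.cl' (G : Glob f d b K θ c m A0 α W) {t0 : ℂ} {φ : KK f →+* L0} (hφ : IsPl t0 φ)
    (W0 : WF L0 F0) :
    Cl f d K θ W0 (HahnSeries.C t0 + tau) (fun i => φ (c i)) m (fun i => φ (α i)) := by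
  have h1 := G.cl.map W0 φ hφ.alg
  unfold tK at h1
  rwa [hφ.2] at h1

/-- The expansions at the finite places. -/
theorem Glob.regular (G : Glob f d b K θ c m A0 α W) {t0 : ℂ} {φ : KK f →+* L0}
    (hφ : IsPl t0 φ) {i j : Fin n} (hij : i ≠ j) :
    0 ≤ (φ ((α i - α j) / (c i - c j))).orderTop ∧
      (Spec f 1 t0 → ((1 : ℚ) : WithTop ℚ) ≤ (φ ((α i - α j) / (c i - c j))).orderTop) := by
  obtain ⟨W0⟩ := exists_WF0
  have h1 := TL.regular G.hf G.h W0 (G.fac hφ) G.hd G.h1 G.h2 (G.cl' hφ W0) hij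
  unfold xi at h1
  rwa [← map_sub, ← map_sub, ← map_div₀] at h1

/-- The expansions at the infinite places. -/
theorem Glob.regular_inf (G : Glob f d b K θ c m A0 α W) {φ : KK f →+* L0}
    (hφ : IsPlInf φ) (hs : Spec f 0 1) {i j : Fin n} (hij : i ≠ j) :
    ((-1 : ℚ) : WithTop ℚ) ≤ (φ ((α i - α j) / (c i - c j))).orderTop := by
  obtain ⟨W0⟩ := exists_WF0
  have h1 := G.hF.map φ hφ.alg
  have h2 := G.cl.map W0 φ hφ.alg
  unfold tK at h1 h2
  rw [hφ.2] at h1 h2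
  have h3 := TL.regular_inf G.hf G.h W0 h1 G.hd G.h1 G.h2 h2 hs hij
  unfold xi at h3
  rwa [← map_sub, ← map_sub, ← map_div₀] at h3

/-- The differential equation. -/
theorem Glob.eq0 (G : Glob f d b K θ c m A0 α W) {t0 : ℂ} {φ : KK f →+* L0}
    (hφ : IsPl t0 φ) :
    ∃ κ : L0, ∀ i, eps dtau (fun i => φ (c i)) (s0m d m) (fun i => φ (α i))
      (HahnSeries.C (s0 d) * (dtau (φ A0) / φ A0)) i +
      HahnSeries.C (b.eval (s0 d) / (1 + s0 d * ((∑ i, m i : ℕ) : ℂ))) * φ (c i) = κ := by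
  obtain ⟨W0⟩ := exists_WF0
  exact TL.eq0 G.hf G.h W0 (G.fac hφ) G.hd G.h1 G.h2 (G.cl' hφ W0)

theorem tK_ne : tK f ≠ 0 := by
  unfold tK
  rw [Ne, map_eq_zero_iff _ (algebraMap (RatFunc ℂ) (KK f)).injective]
  exact RatFunc.X_ne_zero

theorem orderTop_tau : (tau : L0).orderTop = ((1 : ℚ) : WithTop ℚ) := by
  unfold tau
  rw [HahnSeries.orderTop_single one_ne_zero]

theorem C_add_tau_ne (t0 : ℂ) : (HahnSeries.C t0 + tau : L0) ≠ 0 := by
  intro h
  have h1 := congrArg (fun x : L0 => x.coeff 1) h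
  simp only [HahnSeries.coeff_add, HahnSeries.coeff_zero] at h1
  have h2 : (HahnSeries.C t0 : L0).coeff 1 = 0 := by
    change (HahnSeries.single 0 t0 : L0).coeff 1 = 0
    rw [HahnSeries.coeff_single_of_ne one_ne_zero]
  have h3 : (tau : L0).coeff 1 = 1 := by
    unfold tau
    rw [HahnSeries.coeff_single_same]
  rw [h2, h3] at h1
  norm_num at h1

theorem orderTop_C_add_tau {t0 : ℂ} (ht : t0 ≠ 0) : (HahnSeries.C t0 + tau : L0).orderTop = 0 := by
  have h1 : (HahnSeries.C t0 : L0).orderTop = 0 := by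
    change (HahnSeries.single 0 t0 : L0).orderTop = 0
    rw [HahnSeries.orderTop_single ht]
    rfl
  rw [HahnSeries.orderTop_add_eq_left, h1]
  rw [h1, orderTop_tau]
  exact_mod_cast zero_lt_one

theorem mul_inv_orderTop {x : L0} {t0 : ℂ} (hx : 0 ≤ x.orderTop)
    (h0 : t0 = 0 → ((1 : ℚ) : WithTop ℚ) ≤ x.orderTop) :
    0 ≤ (x * (HahnSeries.C t0 + tau)⁻¹).orderTop := by
  have hne := C_add_tau_ne t0
  by_cases hx0 : x = 0
  · rw [hx0, zero_mul, HahnSeries.orderTop_zero]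
    exact le_top
  have h1 : x.orderTop = (x * (HahnSeries.C t0 + tau)⁻¹).orderTop +
      (HahnSeries.C t0 + tau : L0).orderTop := by
    rw [← HahnSeries.orderTop_mul, mul_assoc, inv_mul_cancel₀ hne, mul_one]
  by_cases ht : t0 = 0
  · subst ht
    rw [map_zero, zero_add] at h1 ⊢
    rw [orderTop_tau] at h1
    have h2 := h0 rfl
    rw [h1] at h2
    generalize (x * (tau : L0)⁻¹).orderTop = y at h2 ⊢
    induction y with
    | top => exact le_top
    | coe y =>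
      rw [← WithTop.coe_add, WithTop.coe_le_coe] at h2
      have h3 : (0 : ℚ) ≤ y := by linarith
      exact_mod_cast h3
  · rw [orderTop_C_add_tau ht, add_zero] at h1
    rw [← h1]
    exact hx

/-- Two special lines: the difference quotients are `x_ij t` with constants `x_ij`. -/
theorem Glob.const (G : Glob f d b K θ c m A0 α W) (hs1 : Spec f 0 1) (hs2 : Spec f 1 0)
    {i j : Fin n} (hij : i ≠ j) :
    ∃ z : ℂ, α i - α j = algebraMap ℂ (KK f) z * tK f * (c i - c j) := by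
  have hc : c i - c j ≠ 0 := sub_ne_zero.2 fun h => hij (G.hF.inj h)
  obtain ⟨z, hz⟩ := const_of_regular ((α i - α j) / (c i - c j) * (tK f)⁻¹) (by
    intro t0 φ hφ
    have h1 := G.regular hφ hij
    rw [map_mul, map_inv₀]
    have h2 : φ (tK f) = HahnSeries.C t0 + tau := hφ.2
    rw [h2]
    exact mul_inv_orderTop h1.1 (fun h => h1.2 (by rw [h]; exact hs2))) (by
    intro φ hφ
    have h1 := G.regular_inf hφ hs1 hij
    rw [map_mul, map_inv₀]
    have h2 : φ (tK f) = tau⁻¹ := hφ.2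
    rw [h2, inv_inv, HahnSeries.orderTop_mul, orderTop_tau]
    refine le_trans ?_ (add_le_add_left h1 _)
    rw [← WithTop.coe_add]
    norm_num) (exists_pl f) (exists_plInf G.hf)
  refine ⟨z, ?_⟩
  rw [algC, ← hz]
  have := tK_ne (f := f)
  field_simp

end

end MPb07157.TL
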