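import Pool.Agent.Lib.MP_b07157_agL3.G

/-!
# Rational functions which are regular at all finite places
-/

noncomputable section

namespace MPb07157.TL

namespace PolAux

open Gaux

theorem num_eval_ne {N : RatFunc ℂ} {t0 : ℂ} (h : N.denom.eval t0 = 0) : N.num.eval t0 ≠ 0 := by
  intro h1
  obtain ⟨u, v, huv⟩ := RatFunc.isCoprime_num_denom N
  have h2 := congrArg (Polynomial.eval t0) huv
  rw [Polynomial.eval_add, Polynomial.eval_mul, Polynomial.eval_mul, h1, h,
    mul_zero, mul_zero, add_zero, Polynomial.eval_one] at h2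
  exact zero_ne_one h2

theorem mul_denom (N : RatFunc ℂ) : N * algebraMap (Polynomial ℂ) (RatFunc ℂ) N.denom =
    algebraMap (Polynomial ℂ) (RatFunc ℂ) N.num := by
  have h4 := RatFunc.num_div_denom N
  have h5 : algebraMap (Polynomial ℂ) (RatFunc ℂ) N.denom ≠ 0 :=
    RatFunc.algebraMap_ne_zero (RatFunc.denom_ne_zero N)
  exact ((div_eq_iff h5).1 h4).symm

/-- The relation `φ(N) * denom = num` at a place above `t0`. -/
theorem orderTop_eq (N : RatFunc ℂ) {t0 : ℂ} {ψ : RatFunc ℂ →+* L0}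
    (hC : ∀ z : ℂ, ψ (RatFunc.C z) = HahnSeries.C z) (hX : ψ RatFunc.X = HahnSeries.C t0 + tau) :
    (ψ N).orderTop +
        (N.denom.eval₂ (HahnSeries.C : ℂ →+* L0) (HahnSeries.C t0 + tau)).orderTop =
      (N.num.eval₂ (HahnSeries.C : ℂ →+* L0) (HahnSeries.C t0 + tau)).orderTop := by
  have h6 := congrArg (fun x => (ψ x).orderTop) (mul_denom N)
  simp only [map_mul, HahnSeries.orderTop_mul] at h6
  rw [hom_poly _ hC, hom_poly _ hC, hX] at h6
  exact h6

theorem denom_eval_ne (N : RatFunc ℂ) {t0 : ℂ} {ψ : RatFunc ℂ →+* L0}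
    (hC : ∀ z : ℂ, ψ (RatFunc.C z) = HahnSeries.C z) (hX : ψ RatFunc.X = HahnSeries.C t0 + tau)
    (h : 0 ≤ (ψ N).orderTop) : N.denom.eval t0 ≠ 0 := by
  intro ht0
  have h6 := orderTop_eq N hC hX
  rw [orderTop_eval2 (num_eval_ne ht0) tau_pos] at h6
  have h7 := orderTop_eval2_pos (f := N.denom) (t0 := t0) ht0 tau_pos
  have h8 := Gaux.add_pos' h h7
  rw [h6] at h8
  exact lt_irrefl _ h8

/-- The order of a polynomial at infinity. -/
theorem orderTop_inf {p : Polynomial ℂ} (hp : p ≠ 0) :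
    (p.eval₂ (HahnSeries.C : ℂ →+* L0) (tau⁻¹)).orderTop + ((tau : L0) ^ p.natDegree).orderTop =
      0 := by
  let _ : Invertible (tau⁻¹ : L0) := ⟨tau, mul_inv_cancel₀ tau_ne, inv_mul_cancel₀ tau_ne⟩
  have h2 := Polynomial.eval₂_reverse_mul_pow (HahnSeries.C : ℂ →+* L0) (tau⁻¹ : L0) p
  have h3 : (⅟(tau⁻¹ : L0)) = HahnSeries.C (0 : ℂ) + tau := by
    rw [map_zero, zero_add]
    rfl
  rw [h3] at h2
  have h4 : p.reverse.eval 0 ≠ 0 := by
    rw [← Polynomial.coeff_zero_eq_eval_zero, Polynomial.coeff_zero_reverse]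
    exact Polynomial.leadingCoeff_ne_zero.2 hp
  have h5 := congrArg (fun x : L0 => (x * tau ^ p.natDegree).orderTop) h2
  simp only [mul_assoc, ← mul_pow, inv_mul_cancel₀ tau_ne, one_pow, mul_one] at h5
  rw [orderTop_eval2 h4 tau_pos, HahnSeries.orderTop_mul] at h5
  exact h5.symm

theorem orderTop_tau_pow (m : ℕ) : ((tau : L0) ^ m).orderTop = ((m : ℚ) : WithTop ℚ) := by
  induction m with
  | zero =>
    rw [pow_zero, HahnSeries.orderTop_one, Nat.cast_zero]
    rfl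
  | succ m ih =>
    rw [pow_succ, HahnSeries.orderTop_mul, ih, orderTop_tau, ← WithTop.coe_add, Nat.cast_succ]

/-- A monic polynomial with no root outside `0` is a power of `X`. -/
theorem eq_mul_X_pow {p : Polynomial ℂ} (hp : p ≠ 0) (h : ∀ z : ℂ, z ≠ 0 → p.eval z ≠ 0) :
    p = Polynomial.C p.leadingCoeff * Polynomial.X ^ p.natDegree := by
  have hs : p.Splits := IsAlgClosed.splits p
  have h1 := hs.eq_prod_roots
  have h2 : ∀ r ∈ p.roots, r = 0 := by
    intro r hr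
    by_contra hne
    exact h r hne ((Polynomial.mem_roots hp).1 hr)
  have h3 : p.roots = Multiset.replicate (Multiset.card p.roots) 0 :=
    Multiset.eq_replicate.2 ⟨rfl, h2⟩
  have h4 : Multiset.card p.roots = p.natDegree := hs.natDegree_eq_card_roots.symm
  rw [h3, h4, Multiset.map_replicate, Multiset.prod_replicate, map_zero, sub_zero] at h1
  exact h1

theorem tau_pow_div (z : ℂ) (i j : ℕ) : HahnSeries.C z * (tau : L0) ^ i =
    HahnSeries.single ((((i : ℤ) - (j : ℤ) : ℤ)) : ℚ) z * tau ^ j := by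
  unfold tau
  rw [HahnSeries.single_pow, HahnSeries.single_pow, HahnSeries.single_mul_single]
  have hC : (HahnSeries.C z : L0) = HahnSeries.single 0 z := rfl
  rw [hC, HahnSeries.single_mul_single]
  congr 1
  · simp
  · simp

end PolAux

open Gaux PolAux

/-- A rational function which is regular at all finite places and has a pole of order at most `2`
at infinity is a polynomial of degree at most `2`. -/
theorem poly_of_regular {K' : Type} [Field K'] [Algebra (RatFunc ℂ) K'] (q : RatFunc ℂ)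
    (h0 : ∀ (t0 : ℂ) (φ : K' →+* L0), IsPl t0 φ →
      0 ≤ (φ (algebraMap (RatFunc ℂ) K' q)).orderTop)
    (hi : ∀ φ : K' →+* L0, IsPlInf φ →
      ((-2 : ℚ) : WithTop ℚ) ≤ (φ (algebraMap (RatFunc ℂ) K' q)).orderTop)
    (he0 : ∀ t0 : ℂ, ∃ φ : K' →+* L0, IsPl t0 φ) (hei : ∃ φ : K' →+* L0, IsPlInf φ) :
    ∃ Q : Polynomial ℂ, Q.natDegree ≤ 2 ∧ q = algebraMap (Polynomial ℂ) (RatFunc ℂ) Q := by
  have hd : q.denom.natDegree = 0 := by
    by_contra hne
    obtain ⟨t0, ht0⟩ := IsAlgClosed.exists_root q.denom (by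
      intro h1
      exact hne (Polynomial.natDegree_eq_of_degree_eq_some (by rw [h1]; rfl)))
    obtain ⟨φ, hφ⟩ := he0 t0
    exact denom_eval_ne q (ψ := φ.comp (algebraMap (RatFunc ℂ) K')) hφ.1 hφ.2 (h0 t0 φ hφ) ht0
  have hd1 : q.denom = 1 :=
    Polynomial.eq_one_of_monic_natDegree_zero (RatFunc.monic_denom q) hd
  have hN : q = algebraMap (Polynomial ℂ) (RatFunc ℂ) q.num := by
    have h4 := RatFunc.num_div_denom q
    rw [hd1, map_one, div_one] at h4
    exact h4.symm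
  refine ⟨q.num, ?_, hN⟩
  by_cases hp : q.num = 0
  · rw [hp, Polynomial.natDegree_zero]
    exact Nat.zero_le 2
  obtain ⟨φ, hφ⟩ := hei
  have h1 := hi φ hφ
  have h2 : φ (algebraMap (RatFunc ℂ) K' q) =
      q.num.eval₂ (HahnSeries.C : ℂ →+* L0) (tau⁻¹) := by
    have h3 := hom_poly (φ.comp (algebraMap (RatFunc ℂ) K')) hφ.1 q.num
    rw [← hN, RingHom.comp_apply, RingHom.comp_apply, hφ.2] at h3
    exact h3
  rw [h2] at h1
  have h4 := orderTop_inf hp
  rw [orderTop_tau_pow] at h4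
  have h5 : ((-2 : ℚ) : WithTop ℚ) + ((q.num.natDegree : ℚ) : WithTop ℚ) ≤ 0 := by
    rw [← h4]
    exact add_le_add_left h1 _
  rw [← WithTop.coe_add] at h5
  have h6 : (-2 : ℚ) + q.num.natDegree ≤ 0 := WithTop.coe_le_coe.1 h5
  have h7 : (q.num.natDegree : ℚ) ≤ 2 := by linarith
  exact_mod_cast h7

/-- A rational function whose order is zero at all places above `t0 ≠ 0, ∞` is a monomial. -/
theorem mono_of_order {K' : Type} [Field K'] [Algebra (RatFunc ℂ) K'] (q : RatFunc ℂ)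
    (hq : q ≠ 0) (h0 : ∀ (t0 : ℂ) (φ : K' →+* L0), t0 ≠ 0 → IsPl t0 φ →
      (φ (algebraMap (RatFunc ℂ) K' q)).order = 0)
    (he0 : ∀ t0 : ℂ, ∃ φ : K' →+* L0, IsPl t0 φ) :
    ∃ (z : ℂ) (k : ℤ), z ≠ 0 ∧ ∀ φ : K' →+* L0, IsPl 0 φ →
      φ (algebraMap (RatFunc ℂ) K' q) = HahnSeries.single (k : ℚ) z := by
  have hn0 : q.num ≠ 0 := RatFunc.num_ne_zero hq
  have hot : ∀ (t0 : ℂ) (φ : K' →+* L0), t0 ≠ 0 → IsPl t0 φ →
      (φ (algebraMap (RatFunc ℂ) K' q)).orderTop = 0 := by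
    intro t0 φ ht hφ
    have h1 : φ (algebraMap (RatFunc ℂ) K' q) ≠ 0 := by
      rw [← RingHom.comp_apply]
      exact (map_ne_zero _).2 hq
    rw [← HahnSeries.order_eq_orderTop_of_ne_zero h1, h0 t0 φ ht hφ]
    rfl
  have hden : ∀ t0 : ℂ, t0 ≠ 0 → q.denom.eval t0 ≠ 0 := by
    intro t0 ht
    obtain ⟨φ, hφ⟩ := he0 t0
    exact denom_eval_ne q (ψ := φ.comp (algebraMap (RatFunc ℂ) K')) hφ.1 hφ.2
      (hot t0 φ ht hφ).ge
  have hnum : ∀ t0 : ℂ, t0 ≠ 0 → q.num.eval t0 ≠ 0 := by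
    intro t0 ht h1
    obtain ⟨φ, hφ⟩ := he0 t0
    have h2 := orderTop_eq q (ψ := φ.comp (algebraMap (RatFunc ℂ) K')) hφ.1 hφ.2
    rw [orderTop_eval2 (hden t0 ht) tau_pos, RingHom.comp_apply, hot t0 φ ht hφ, add_zero] at h2
    have h3 := orderTop_eval2_pos (f := q.num) (t0 := t0) h1 tau_pos
    rw [← h2] at h3
    exact lt_irrefl _ h3
  have e1 := eq_mul_X_pow hn0 hnum
  have e2 := eq_mul_X_pow (RatFunc.denom_ne_zero q) hden
  rw [(RatFunc.monic_denom q).leadingCoeff, map_one, one_mul] at e2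
  refine ⟨q.num.leadingCoeff, (q.num.natDegree : ℤ) - (q.denom.natDegree : ℤ),
    Polynomial.leadingCoeff_ne_zero.2 hn0, fun φ hφ => ?_⟩
  have h1 := congrArg (φ.comp (algebraMap (RatFunc ℂ) K')) (mul_denom q)
  have hX : (φ.comp (algebraMap (RatFunc ℂ) K')) RatFunc.X = tau := by
    have := hφ.2
    rw [map_zero, zero_add] at this
    exact this
  rw [map_mul, hom_poly _ hφ.1, hom_poly _ hφ.1, hX, e1, e2, Polynomial.eval₂_mul,
    Polynomial.eval₂_pow, Polynomial.eval₂_X, Polynomial.eval₂_C, Polynomial.eval₂_pow,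
    Polynomial.eval₂_X] at h1
  rw [tau_pow_div _ _ q.denom.natDegree] at h1
  exact mul_right_cancel₀ (pow_ne_zero _ tau_ne) h1

end MPb07157.TL
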