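import Pool.Agent.Lib.MP_b07157_agL3.Defs2
import Pool.Agent.Lib.MP_b07157_agQ.HomDvd

/-!
# Roots and components
-/

noncomputable section

namespace MPb07157.TL

open MvPolynomial

namespace CmpAux

/-! ### Irreducible polynomials over a factorial ring -/

/-- An irreducible polynomial `G` of positive degree divides every polynomial which vanishes at a
root of `G`. -/
theorem dvd_of_root {R : Type} [CommRing R] [IsDomain R] [UniqueFactorizationMonoid R]
    {M : Type} [Field M] {ψ : R →+* M} (hψ : Function.Injective ψ) {y : M} {G Q : Polynomial R}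
    (hG : Irreducible G) (hd : G.natDegree ≠ 0) (h1 : G.eval₂ ψ y = 0) (h2 : Q.eval₂ ψ y = 0) :
    G ∣ Q := by
  have hp : G.IsPrimitive := hG.isPrimitive hd
  have hi : Irreducible (G.map (algebraMap R (FractionRing R))) :=
    (hp.irreducible_iff_irreducible_map_fraction_map).1 hG
  let κ : FractionRing R →+* M := IsFractionRing.lift hψ
  have hκ : κ.comp (algebraMap R (FractionRing R)) = ψ := by
    ext r
    exact IsFractionRing.lift_algebraMap hψ r
  have e : ∀ P : Polynomial R, (P.map (algebraMap R (FractionRing R))).eval₂ κ y =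
      P.eval₂ ψ y := by
    intro P
    rw [Polynomial.eval₂_map, hκ]
  apply hp.dvd_of_fraction_map_dvd_fraction_map (K := FractionRing R)
  by_contra hcon
  obtain ⟨a, b, hab⟩ := (hi.coprime_iff_not_dvd).2 hcon
  have h3 := congrArg (Polynomial.eval₂ κ y) hab
  rw [Polynomial.eval₂_add, Polynomial.eval₂_mul, Polynomial.eval₂_mul, e, e, h1, h2, mul_zero,
    mul_zero, add_zero, Polynomial.eval₂_one] at h3
  exact zero_ne_one h3

variable {L : Type} [Field L] [Algebra ℂ L] {t : L}

/-- `r(u, t u)`. -/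
def ps (t : L) : MvPolynomial (Fin 2) ℂ →ₐ[ℂ] Polynomial L :=
  aeval ![Polynomial.X, Polynomial.C t * Polynomial.X]

theorem ps_monomial (m : Fin 2 →₀ ℕ) (c : ℂ) :
    ps t (monomial m c) =
      Polynomial.C (algebraMap ℂ L c * t ^ m 1) * Polynomial.X ^ (m 0 + m 1) := by
  unfold ps
  rw [aeval_monomial, Finsupp.prod_fintype _ _ (fun i => pow_zero _), Fin.prod_univ_two]
  simp only [Matrix.cons_val_zero, Matrix.cons_val_one]
  rw [mul_pow, ← map_pow, map_mul, pow_add]
  have : algebraMap ℂ (Polynomial L) c = Polynomial.C (algebraMap ℂ L c) := rfl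
  rw [this]
  ring

theorem ps_injective (ht : Transcendental ℂ t) : Function.Injective (ps t) := by
  classical
  rw [injective_iff_map_eq_zero]
  intro r hr
  ext m
  rw [coeff_zero]
  let Q : Polynomial ℂ := ∑ m' ∈ r.support, if m' 0 + m' 1 = m 0 + m 1 then
    Polynomial.monomial (m' 1) (coeff m' r) else 0
  have h1 : (ps t r).coeff (m 0 + m 1) = Polynomial.aeval t Q := by
    conv_lhs => rw [r.as_sum]
    rw [map_sum, Polynomial.finsetSum_coeff, map_sum]
    refine Finset.sum_congr rfl fun m' _ => ?_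
    rw [ps_monomial, Polynomial.coeff_C_mul, Polynomial.coeff_X_pow]
    by_cases h : m' 0 + m' 1 = m 0 + m 1
    · rw [if_pos h.symm, if_pos h, Polynomial.aeval_monomial, mul_one]
    · rw [if_neg (Ne.symm h), if_neg h, map_zero, mul_zero]
  rw [hr, Polynomial.coeff_zero] at h1
  have h2 : Q = 0 := by
    by_contra h
    exact ht ⟨Q, h, h1.symm⟩
  have h3 := congrArg (fun q => Polynomial.coeff q (m 1)) h2
  simp only [Polynomial.coeff_zero] at h3
  rw [← h3]
  by_cases hm : m ∈ r.support
  · rw [Polynomial.finsetSum_coeff, Finset.sum_eq_single_of_mem m hm, if_pos rfl,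
      Polynomial.coeff_monomial, if_pos rfl]
    intro m' _ hne
    split_ifs with h
    · rw [Polynomial.coeff_monomial, if_neg]
      intro h4
      apply hne
      ext i
      fin_cases i
      · show m' 0 = m 0
        omega
      · exact h4
    · exact Polynomial.coeff_zero _
  · rw [notMem_support_iff.1 hm, Polynomial.finsetSum_coeff]
    symm
    apply Finset.sum_eq_zero
    intro m' hm'
    split_ifs with h
    · rw [Polynomial.coeff_monomial, if_neg]
      intro h4
      apply hm
      have : m = m' := by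
        ext i
        fin_cases i
        · show m 0 = m' 0
          omega
        · exact h4.symm
      rwa [this]
    · exact Polynomial.coeff_zero _

/-- `q(c u, u, t u)`. -/
def ph (c t : L) : MvPolynomial (Fin 3) ℂ →ₐ[ℂ] Polynomial L :=
  aeval ![Polynomial.C c * Polynomial.X, Polynomial.X, Polynomial.C t * Polynomial.X]

theorem ph_eq (c : L) (q : MvPolynomial (Fin 3) ℂ) :
    ph c t q = (finSuccEquiv ℂ 2 q).eval₂ (ps t : MvPolynomial (Fin 2) ℂ →+* Polynomial L)
      (Polynomial.C c * Polynomial.X) := by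
  have hC : ∀ a : ℂ, finSuccEquiv ℂ 2 (C a) = Polynomial.C (C a) := fun a => by
    rw [← MvPolynomial.algebraMap_eq, AlgEquiv.commutes]
    rfl
  induction q using MvPolynomial.induction_on with
  | C a =>
    rw [hC, Polynomial.eval₂_C]
    show ph c t (algebraMap ℂ _ a) = ps t (algebraMap ℂ _ a)
    rw [AlgHom.commutes, AlgHom.commutes]
  | add p q hp hq => rw [map_add, map_add, hp, hq, Polynomial.eval₂_add]
  | mul_X p j hp =>
    rw [map_mul, map_mul, hp, Polynomial.eval₂_mul]
    congr 1
    fin_cases j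
    · show ph c t (X 0) = Polynomial.eval₂ _ _ (finSuccEquiv ℂ 2 (X 0))
      rw [finSuccEquiv_X_zero, Polynomial.eval₂_X, ph, aeval_X]
      rfl
    · show ph c t (X 1) = Polynomial.eval₂ _ _ (finSuccEquiv ℂ 2 (X (Fin.succ 0)))
      rw [finSuccEquiv_X_succ, Polynomial.eval₂_C, ph, aeval_X]
      show Polynomial.X = ps t (X 0)
      rw [ps, aeval_X]
      rfl
    · show ph c t (X 2) = Polynomial.eval₂ _ _ (finSuccEquiv ℂ 2 (X (Fin.succ 1)))
      rw [finSuccEquiv_X_succ, Polynomial.eval₂_C, ph, aeval_X]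
      show Polynomial.C t * Polynomial.X = ps t (X 1)
      rw [ps, aeval_X]
      rfl

theorem eval_PL (c : L) (q : MvPolynomial (Fin 3) ℂ) :
    (PL q t).eval c = aeval ![c, 1, t] q := by
  induction q using MvPolynomial.induction_on with
  | C a =>
    show (PL (algebraMap ℂ _ a) t).eval c = aeval ![c, 1, t] (algebraMap ℂ _ a)
    rw [PL, AlgHom.commutes, AlgHom.commutes]
    exact Polynomial.eval_C
  | add p q hp hq => rw [PL, map_add, Polynomial.eval_add, map_add, ← hp, ← hq, PL, PL]
  | mul_X p j hp =>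
    rw [PL, map_mul, Polynomial.eval_mul, map_mul, ← hp, PL, aeval_X, aeval_X]
    congr 1
    fin_cases j
    · exact Polynomial.eval_X
    · exact Polynomial.eval_one
    · exact Polynomial.eval_C

theorem ph_hom (c : L) {q : MvPolynomial (Fin 3) ℂ} {k : ℕ} (hq : q.IsHomogeneous k) :
    ph c t q = Polynomial.C ((PL q t).eval c) * Polynomial.X ^ k := by
  rw [eval_PL]
  conv_lhs => rw [q.as_sum]
  conv_rhs => rw [q.as_sum]
  rw [map_sum, map_sum, map_sum, Finset.sum_mul]
  refine Finset.sum_congr rfl fun m hm => ?_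
  have h1 : m.degree = k := by
    by_contra hcon
    exact (mem_support_iff.1 hm) (hq.coeff_eq_zero hcon)
  rw [Finsupp.degree_eq_sum, Fin.sum_univ_three] at h1
  rw [ph, aeval_monomial, aeval_monomial, Finsupp.prod_fintype _ _ (fun i => pow_zero _),
    Finsupp.prod_fintype _ _ (fun i => pow_zero _), Fin.prod_univ_three, Fin.prod_univ_three]
  have e1 : algebraMap ℂ (Polynomial L) (coeff m q) =
      Polynomial.C (algebraMap ℂ L (coeff m q)) := rfl
  rw [e1, ← h1]
  simp only [Matrix.cons_val_zero, Matrix.cons_val_one, Matrix.cons_val, map_mul, map_pow,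
    one_pow, map_one, mul_pow, pow_add]
  ring

theorem ph_eq_zero (c : L) {q : MvPolynomial (Fin 3) ℂ} {k : ℕ} (hq : q.IsHomogeneous k) :
    ph c t q = 0 ↔ (PL q t).eval c = 0 := by
  rw [ph_hom c hq, mul_eq_zero, Polynomial.C_eq_zero]
  constructor
  · rintro (h | h)
    · exact h
    · exact absurd h (pow_ne_zero _ Polynomial.X_ne_zero)
  · exact Or.inl

theorem fse_pderiv (n : ℕ) (g : MvPolynomial (Fin (n + 1)) ℂ) :
    finSuccEquiv ℂ n (pderiv 0 g) = Polynomial.derivative (finSuccEquiv ℂ n g) := by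
  have hC : ∀ a : ℂ, finSuccEquiv ℂ n (C a) = Polynomial.C (C a) := fun a => by
    rw [← MvPolynomial.algebraMap_eq, AlgEquiv.commutes]
    rfl
  induction g using MvPolynomial.induction_on with
  | C a => rw [pderiv_C, map_zero, hC, Polynomial.derivative_C]
  | add p q hp hq => rw [map_add, map_add, map_add, map_add, hp, hq]
  | mul_X p j hp =>
    rw [Derivation.leibniz, map_add, smul_eq_mul, smul_eq_mul, map_mul, map_mul, map_mul, hp,
      Polynomial.derivative_mul]
    induction j using Fin.cases with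
    | zero =>
      rw [pderiv_X_self, map_one, finSuccEquiv_X_zero, Polynomial.derivative_X]
      ring
    | succ j =>
      rw [pderiv_X_of_ne (Fin.succ_ne_zero j), map_zero, finSuccEquiv_X_succ,
        Polynomial.derivative_C]
      ring

theorem PL_mul (p q : MvPolynomial (Fin 3) ℂ) : PL (p * q) t = PL p t * PL q t := by
  rw [PL, map_mul, PL, PL]

theorem PL_pow (p : MvPolynomial (Fin 3) ℂ) (k : ℕ) : PL (p ^ k) t = PL p t ^ k := by
  rw [PL, map_pow, PL]

theorem PL_pderiv (g : MvPolynomial (Fin 3) ℂ) :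
    PL (pderiv 0 g) t = Polynomial.derivative (PL g t) := by
  induction g using MvPolynomial.induction_on with
  | C a =>
    rw [pderiv_C]
    have : PL (C a) t = Polynomial.C (algebraMap ℂ L a) := by
      show PL (algebraMap ℂ _ a) t = _
      rw [PL, AlgHom.commutes]
      rfl
    rw [this, Polynomial.derivative_C, PL, map_zero]
  | add p q hp hq =>
    have : ∀ a b : MvPolynomial (Fin 3) ℂ, PL (a + b) t = PL a t + PL b t := fun a b => by
      rw [PL, map_add, PL, PL]
    rw [map_add, this, this, map_add, hp, hq]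
  | mul_X p j hp =>
    have : ∀ a b : MvPolynomial (Fin 3) ℂ, PL (a + b) t = PL a t + PL b t := fun a b => by
      rw [PL, map_add, PL, PL]
    rw [Derivation.leibniz, smul_eq_mul, smul_eq_mul, this, PL_mul, PL_mul, PL_mul,
      Polynomial.derivative_mul, hp]
    have h0 : PL (X 0) t = Polynomial.X := by
      rw [PL, aeval_X]
      rfl
    have h1 : PL (X 1) t = 1 := by
      rw [PL, aeval_X]
      rfl
    have h2 : PL (X 2) t = Polynomial.C t := by
      rw [PL, aeval_X]
      rfl
    have hone : PL 1 t = 1 := by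
      rw [PL, map_one]
    have hzero : PL 0 t = 0 := by
      rw [PL, map_zero]
    have hj : PL (pderiv 0 (X j)) t = Polynomial.derivative (PL (X j) t) := by
      fin_cases j
      · show PL (pderiv 0 (X 0)) t = Polynomial.derivative (PL (X 0) t)
        rw [pderiv_X_self, hone, h0, Polynomial.derivative_X]
      · show PL (pderiv 0 (X 1)) t = Polynomial.derivative (PL (X 1) t)
        rw [pderiv_X_of_ne (by decide), hzero, h1, Polynomial.derivative_one]
      · show PL (pderiv 0 (X 2)) t = Polynomial.derivative (PL (X 2) t)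
        rw [pderiv_X_of_ne (by decide), hzero, h2, Polynomial.derivative_C]
    rw [hj]
    ring

omit [Algebra ℂ L] in
/-- The exponent of `X - c` is unique. -/
theorem pow_unique {c : L} {a b : ℕ} {P Q : Polynomial L}
    (h : (Polynomial.X - Polynomial.C c) ^ a * P = (Polynomial.X - Polynomial.C c) ^ b * Q)
    (hP : P.eval c ≠ 0) (hQ : Q.eval c ≠ 0) : a = b := by
  have key : ∀ {a b : ℕ} {P Q : Polynomial L},
      (Polynomial.X - Polynomial.C c) ^ a * P = (Polynomial.X - Polynomial.C c) ^ b * Q →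
      P.eval c ≠ 0 → ¬ a < b := by
    intro a b P Q h hP hab
    obtain ⟨k, rfl⟩ := Nat.exists_eq_add_of_lt hab
    rw [show a + k + 1 = a + (k + 1) by ring, pow_add, mul_assoc] at h
    have h1 := mul_left_cancel₀ (pow_ne_zero a (Polynomial.X_sub_C_ne_zero c)) h
    apply hP
    rw [h1, Polynomial.eval_mul, Polynomial.eval_pow, Polynomial.eval_sub, Polynomial.eval_X,
      Polynomial.eval_C, sub_self, zero_pow (Nat.succ_ne_zero k), zero_mul]
  have h1 := key h hP
  have h2 := key h.symm hQ
  omega

end CmpAux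

open CmpAux

/-- The multiplicity of a root of `f(X, 1, t)` is the multiplicity of an irreducible factor. -/
theorem exists_comp {L : Type} [Field L] [Algebra ℂ L] {t : L} (ht : Transcendental ℂ t)
    {ι : Type} [Fintype ι] {f : MvPolynomial (Fin 3) ℂ} {d : ℕ} (hf : f.IsHomogeneous d)
    {c : ι → L} {m : ι → ℕ} {A0 : L} (h : Fac f t c m A0) (i : ι) :
    ∃ g : MvPolynomial (Fin 3) ℂ, Irreducible g ∧ g ^ m i ∣ f ∧ ¬ g ^ (m i + 1) ∣ f := by
  classical
  have hXc : ∀ a : L, Polynomial.X - Polynomial.C a ≠ 0 := Polynomial.X_sub_C_ne_zero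
  have hf0 : f ≠ 0 := by
    rintro rfl
    have h1 := h.eq
    rw [PL, map_zero] at h1
    have h2 := mul_eq_zero.1 h1.symm
    rcases h2 with h2 | h2
    · exact h.ne (Polynomial.C_eq_zero.1 h2)
    · exact Finset.prod_ne_zero_iff.2 (fun j _ => pow_ne_zero _ (hXc _)) h2
  -- the root
  have hfac : PL f t = (Polynomial.X - Polynomial.C (c i)) ^ m i *
      (Polynomial.C A0 * ∏ j ∈ Finset.univ.erase i,
        (Polynomial.X - Polynomial.C (c j)) ^ m j) := by
    rw [h.eq, ← Finset.mul_prod_erase _ _ (Finset.mem_univ i)]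
    ring
  have hfac' : (Polynomial.C A0 * ∏ j ∈ Finset.univ.erase i,
      (Polynomial.X - Polynomial.C (c j)) ^ m j).eval (c i) ≠ 0 := by
    rw [Polynomial.eval_mul, Polynomial.eval_C, Polynomial.eval_prod]
    refine mul_ne_zero h.ne (Finset.prod_ne_zero_iff.2 fun j hj => ?_)
    rw [Polynomial.eval_pow, Polynomial.eval_sub, Polynomial.eval_X, Polynomial.eval_C]
    apply pow_ne_zero
    rw [sub_ne_zero]
    intro h1
    exact Finset.ne_of_mem_erase hj (h.inj h1).symm
  have hroot : (PL f t).eval (c i) = 0 := by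
    rw [hfac, Polynomial.eval_mul, Polynomial.eval_pow, Polynomial.eval_sub, Polynomial.eval_X,
      Polynomial.eval_C, sub_self, zero_pow (h.pos i).ne', zero_mul]
  have hph : ph (c i) t f = 0 := (ph_eq_zero (c i) hf).2 hroot
  -- an irreducible factor
  obtain ⟨g, hg, hgf, hg0⟩ : ∃ g, Prime g ∧ g ∣ f ∧ ph (c i) t g = 0 := by
    obtain ⟨s, hs, u, hu⟩ := UniqueFactorizationMonoid.exists_prime_factors f hf0
    have h1 : ph (c i) t s.prod = 0 := by
      have h2 : ph (c i) t s.prod * ph (c i) t (u : MvPolynomial (Fin 3) ℂ) = 0 := by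
        rw [← map_mul, hu, hph]
      exact (mul_eq_zero.1 h2).resolve_right (u.isUnit.map (ph (c i) t)).ne_zero
    rw [map_multiset_prod, Multiset.prod_eq_zero_iff, Multiset.mem_map] at h1
    obtain ⟨g, hg, hg0⟩ := h1
    exact ⟨g, hs g hg, (Multiset.dvd_prod hg).trans ⟨u, hu.symm⟩, hg0⟩
  obtain ⟨e, he⟩ := isHomogeneous_of_dvd hf hf0 hgf
  obtain ⟨k, q, hq, hfk⟩ := WfDvdMonoid.max_power_factor hf0 hg.irreducible
  have hq0 : q ≠ 0 := by
    rintro rfl
    exact hq (dvd_zero g)
  obtain ⟨e', he'⟩ := isHomogeneous_of_dvd hf hf0 (Dvd.intro_left _ hfk.symm : q ∣ f)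
  -- the kernel
  let ψ : MvPolynomial (Fin 2) ℂ →+* FractionRing (Polynomial L) :=
    (algebraMap (Polynomial L) (FractionRing (Polynomial L))).comp
      (ps t : MvPolynomial (Fin 2) ℂ →+* Polynomial L)
  have hinj : Function.Injective (algebraMap (Polynomial L) (FractionRing (Polynomial L))) :=
    IsFractionRing.injective _ _
  have hψ : Function.Injective ψ := hinj.comp (ps_injective ht)
  let y : FractionRing (Polynomial L) := algebraMap (Polynomial L) _
    (Polynomial.C (c i) * Polynomial.X)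
  have hev : ∀ p : MvPolynomial (Fin 3) ℂ, (finSuccEquiv ℂ 2 p).eval₂ ψ y =
      algebraMap (Polynomial L) _ (ph (c i) t p) := by
    intro p
    rw [ph_eq, Polynomial.hom_eval₂]
  have hG : Irreducible (finSuccEquiv ℂ 2 g) :=
    (MulEquiv.irreducible_iff (finSuccEquiv ℂ 2)).2 hg.irreducible
  have hd : (finSuccEquiv ℂ 2 g).natDegree ≠ 0 := by
    intro h1
    rw [Polynomial.natDegree_eq_zero] at h1
    obtain ⟨r, hr⟩ := h1
    have h2 := hev g
    rw [hg0, map_zero, ← hr, Polynomial.eval₂_C] at h2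
    have h3 : r = 0 := hψ (h2.trans (map_zero ψ).symm)
    rw [h3, Polynomial.C_0] at hr
    exact hG.ne_zero hr.symm
  have key : ∀ p : MvPolynomial (Fin 3) ℂ, ph (c i) t p = 0 →
      finSuccEquiv ℂ 2 g ∣ finSuccEquiv ℂ 2 p := by
    intro p hp
    apply dvd_of_root hψ hG hd (y := y)
    · rw [hev, hg0, map_zero]
    · rw [hev, hp, map_zero]
  have h1 : (PL q t).eval (c i) ≠ 0 := by
    intro h2
    apply hq
    rw [← map_dvd_iff (finSuccEquiv ℂ 2)]
    exact key q ((ph_eq_zero (c i) he').2 h2)
  have h2 : (Polynomial.derivative (PL g t)).eval (c i) ≠ 0 := by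
    rw [← PL_pderiv]
    intro h3
    have h4 := key _ ((ph_eq_zero (c i) he.pderiv).2 h3)
    rw [fse_pderiv] at h4
    have h5 : Polynomial.derivative (finSuccEquiv ℂ 2 g) ≠ 0 := by
      intro h6
      exact hd (Polynomial.derivative_eq_zero.1 h6)
    have h6 := Polynomial.natDegree_le_of_dvd h4 h5
    have h7 := Polynomial.natDegree_derivative_lt hd
    omega
  obtain ⟨g1, hg1⟩ : Polynomial.X - Polynomial.C (c i) ∣ PL g t :=
    Polynomial.dvd_iff_isRoot.2 ((ph_eq_zero (c i) he).1 hg0)
  have h3 : g1.eval (c i) ≠ 0 := by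
    rw [hg1] at h2
    intro h4
    apply h2
    rw [Polynomial.derivative_mul, Polynomial.eval_add, Polynomial.eval_mul, Polynomial.eval_mul,
      h4, Polynomial.eval_sub, Polynomial.eval_X, Polynomial.eval_C, sub_self]
    ring
  have h4 : k = m i := by
    have h5 : (Polynomial.X - Polynomial.C (c i)) ^ k * (g1 ^ k * PL q t) =
        (Polynomial.X - Polynomial.C (c i)) ^ m i *
      (Polynomial.C A0 * ∏ j ∈ Finset.univ.erase i,
        (Polynomial.X - Polynomial.C (c j)) ^ m j) := by
      rw [← hfac, hfk, PL_mul, PL_pow, hg1, mul_pow]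
      ring
    refine pow_unique h5 ?_ hfac'
    rw [Polynomial.eval_mul, Polynomial.eval_pow]
    exact mul_ne_zero (pow_ne_zero _ h3) h1
  refine ⟨g, hg.irreducible, ?_, ?_⟩
  · rw [← h4, hfk]
    exact dvd_mul_right _ _
  · rw [← h4, hfk, pow_succ]
    intro h5
    exact hq ((mul_dvd_mul_iff_left (pow_ne_zero k hg.ne_zero)).1 h5)

end MPb07157.TL
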