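import Mathlib

/-!
# The derivation `d/dτ` of the field of (generalised) Puiseux series
-/

noncomputable section

namespace MPb07157.TL

/-- Series in `τ` with rational exponents. -/
abbrev L0 : Type := HahnSeries ℚ ℂ

/-- The constants. -/
instance (priority := 100000) algL0 : Algebra ℂ (HahnSeries ℚ ℂ) :=
  HahnSeries.instAlgebra

theorem algebraMap_L0 (z : ℂ) : algebraMap ℂ L0 z = HahnSeries.C z := by
  rfl

/-- The variable `τ`. -/
def tau : L0 := HahnSeries.single (1 : ℚ) (1 : ℂ)

namespace D0aux

/-- The Euler operator. -/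
def eul (x : L0) : L0 where
  coeff q := ((q : ℚ) : ℂ) * x.coeff q
  isPWO_support' := x.isPWO_support.mono fun q hq h0 => hq (by
    have h1 : x.coeff q = 0 := h0
    show ((q : ℚ) : ℂ) * x.coeff q = 0
    rw [h1, mul_zero])

theorem coeff_eul (x : L0) (q : ℚ) : (eul x).coeff q = ((q : ℚ) : ℂ) * x.coeff q := rfl

theorem support_eul (x : L0) : (eul x).support ⊆ x.support := fun q hq h0 => hq (by
  have h1 : x.coeff q = 0 := h0
  rw [coeff_eul, h1, mul_zero])

theorem eul_mul (x y : L0) : eul (x * y) = x * eul y + y * eul x := by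
  ext q
  rw [coeff_eul, HahnSeries.coeff_add, mul_comm y (eul x), HahnSeries.coeff_mul,
    HahnSeries.coeff_mul_right' y.isPWO_support (support_eul y),
    HahnSeries.coeff_mul_left' x.isPWO_support (support_eul x), Finset.mul_sum,
    ← Finset.sum_add_distrib]
  refine Finset.sum_congr rfl fun p hp => ?_
  have h := (Finset.mem_antidiagonal.1 hp).2.2
  rw [coeff_eul, coeff_eul, ← h]
  push_cast
  ring

/-- The Euler derivation. -/
def eulD : Derivation ℂ L0 L0 := Derivation.mk'
  { toFun := eul
    map_add' := fun x y => by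
      ext q
      rw [coeff_eul, HahnSeries.coeff_add, HahnSeries.coeff_add, coeff_eul, coeff_eul]
      ring
    map_smul' := fun c x => by
      ext q
      have h1 : (c • x).coeff q = c * x.coeff q := rfl
      have h2 : (c • eul x).coeff q = c * (eul x).coeff q := rfl
      rw [coeff_eul, h1, RingHom.id_apply, h2, coeff_eul]
      ring } (fun x y => eul_mul x y)

theorem eulD_apply (x : L0) : eulD x = eul x := rfl

end D0aux

open D0aux in
/-- The derivation `d/dτ`. -/
theorem exists_dtau : ∃ D : Derivation ℂ L0 L0,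
    ∀ (x : L0) (q : ℚ), (D x).coeff q = ((q + 1 : ℚ) : ℂ) * x.coeff (q + 1) := by
  refine ⟨(HahnSeries.single (-1 : ℚ) (1 : ℂ) : L0) • eulD, fun x q => ?_⟩
  rw [Derivation.smul_apply, eulD_apply, smul_eq_mul]
  have h := HahnSeries.coeff_single_mul_add (r := (1 : ℂ)) (x := eul x) (a := q + 1) (b := (-1 : ℚ))
  rw [show q + 1 + -1 = q by ring] at h
  rw [h, coeff_eul, one_mul]

/-- The derivation `d/dτ`. -/
def dtau : Derivation ℂ L0 L0 := exists_dtau.choose

theorem coeff_dtau (x : L0) (q : ℚ) :
    (dtau x).coeff q = ((q + 1 : ℚ) : ℂ) * x.coeff (q + 1) := exists_dtau.choose_spec x q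

end MPb07157.TL
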