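import Pool.Agent.Lib.MP_b07157_agL3.D0
import Pool.Agent.Lib.MP_b07157_ag.Defs

/-!
# The root `-3/d` and lines through a point: definitions
-/

noncomputable section

namespace MPb07157.TL

open MvPolynomial

/-! ### Functions of `w` over a field `L` -/

/-- The field `F` consists of the rational functions of `w` over `L`; `dw = d/dw`. -/
structure WF (L F : Type) [Field L] [Field F] [Algebra L F] where
  w : F
  dw : Derivation L F F
  dw_w : dw w = 1
  inj : Function.Injective (Polynomial.aeval w : Polynomial L → F)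
  surj : ∀ x : F, ∃ p q : Polynomial L, q ≠ 0 ∧
    x * Polynomial.aeval w q = Polynomial.aeval w p

section

variable {L F : Type} [Field L] [Field F] [Algebra L F] {ι : Type} [Fintype ι]

/-- `∑_i a_i / (w - c_i)`. -/
def lg (W : WF L F) (c a : ι → L) : F :=
  ∑ i, algebraMap L F (a i) * (W.w - algebraMap L F (c i))⁻¹

/-- The ring of the functions with poles only at the points `c_i` and at infinity. -/
def SS (W : WF L F) (c : ι → L) : Subalgebra L F :=
  Algebra.adjoin L (insert W.w (Set.range fun i => (W.w - algebraMap L F (c i))⁻¹))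

/-- `∇ x = D x + ω x`. -/
def nb {R : Type} [Add R] [Mul R] (D : R → R) (ω x : R) : R := D x + ω * x

/-- The exponents are not positive integers, and the sum of the exponents is not a negative
integer. -/
def NonRes (σ : ι → L) : Prop :=
  (∀ i, ∀ k : ℕ, 0 < k → σ i ≠ k) ∧ ∀ k : ℕ, 0 < k → (∑ i, σ i) + k ≠ 0

end

section

variable {L F : Type} [Field L] [Field F] [Algebra L F] [Algebra ℂ L] [Algebra ℂ F]
  [IsScalarTower ℂ L F] {ι : Type} [Fintype ι] [DecidableEq ι]

/-- A second derivation `d/dt`, which extends the derivation `δ` of `L`. -/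
structure TF (W : WF L F) where
  δ : Derivation ℂ L L
  dt : Derivation ℂ F F
  dt_alg : ∀ x : L, dt (algebraMap L F x) = algebraMap L F (δ x)
  dt_w : dt W.w = 0
  comm : ∀ x, dt (W.dw x) = W.dw (dt x)

/-- The coefficients of `∇_t (∑ σ_i α_i / (w - c_i))`. -/
def eps (δ : Derivation ℂ L L) (c σ α : ι → L) (A : L) (i : ι) : L :=
  δ (α i) + A * α i +
    ∑ l ∈ Finset.univ.erase i, σ l * (α i - α l) * (δ (c i - c l) / (c i - c l))

/-- The logarithmic derivative with respect to `t` of `A_0 ∏ (w - c_i)^(σ_i)`,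
`A = A_0' / A_0`. -/
def wt {W : WF L F} (T : TF W) (c σ : ι → L) (A : L) : F :=
  algebraMap L F A - lg W c (fun i => σ i * T.δ (c i))

end

/-! ### Orders -/

section

variable {ι : Type} [Fintype ι] [DecidableEq ι]

/-- The coefficient of `s` in the exponent of the pair `i, j`. -/
def Nn (A0 : L0) (c : ι → L0) (a : ι → ℤ) (i j : ι) : ℚ :=
  A0.order + (a i + a j) * (c i - c j).order +
    ∑ l ∈ (Finset.univ.erase i).erase j, (a l : ℚ) * min (c i - c l).order (c i - c j).order

/-- The constant term of the exponent of the pair `i, j`. -/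
def Mm (c : ι → L0) (b : ι → ℤ) (i j : ι) : ℚ :=
  (1 + b i + b j) * (c i - c j).order +
    ∑ l ∈ (Finset.univ.erase i).erase j, (b l : ℚ) * min (c i - c l).order (c i - c j).order

/-- The points `c_i` and the point `lam`. -/
def cO (c : ι → L0) (lam : ℂ) : Option ι → L0
  | none => HahnSeries.C lam
  | some i => c i

/-- The exponents are `a_i s + b_i`. -/
def aO (d : ℕ) (m : ι → ℕ) : Option ι → ℤ
  | none => -(d : ℤ)
  | some i => (m i : ℤ)

/-- The exponents are `a_i s + b_i`. -/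
def bO : Option ι → ℤ
  | none => -3
  | some _ => 0

/-- The exponents are `a_i s + b_i`. -/
def sg (d : ℕ) (m : ι → ℕ) (s : ℂ) (i : Option ι) : L0 :=
  HahnSeries.C ((aO d m i : ℂ) * s + (bO i : ℂ))

/-- The exponents as polynomials in `s`. -/
def sgP (d : ℕ) (m : ι → ℕ) (i : Option ι) : Polynomial ℂ :=
  Polynomial.C (aO d m i : ℂ) * Polynomial.X + Polynomial.C (bO i : ℂ)

/-- The difference quotient. -/
def xi (c α : ι → L0) (i j : ι) : L0 := (α i - α j) / (c i - c j)

end

/-! ### The chart `x_0 - lam x_1 - mu x_2 = 1` -/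

/-- The point `(1 + lam X + mu Y, X, Y)`. -/
def rv (lam mu : ℂ) : Fin 3 → MvPolynomial (Fin 2) ℂ :=
  ![1 + C lam * X 0 + C mu * X 1, X 0, X 1]

/-- Restriction to the chart. -/
def res (lam mu : ℂ) : MvPolynomial (Fin 3) ℂ →ₐ[ℂ] MvPolynomial (Fin 2) ℂ := aeval (rv lam mu)

/-- Restriction to the chart. -/
def resP (lam mu : ℂ) :
    MvPolynomial (Fin 3) (Polynomial ℂ) →ₐ[Polynomial ℂ] MvPolynomial (Fin 2) (Polynomial ℂ) :=
  aeval (fun i => liftS (rv lam mu i))

/-- `b(s) f^s = ∑ ∂_i (θ_i f^(s-K))` with homogeneous `θ_i` such that `θ_i f^(s-K)` belongs to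
`D[s] f^(s+1)`; the last property is used in the following form: in the chart `ℓ = 1`,
`ℓ = x_0 - lam x_1 - mu x_2`, one has
`ℓ(θ) f^(s-K) = p f^(s+1) + ∑ ∂_i (u_i f^(s-K-j))`. -/
structure Thet (f : MvPolynomial (Fin 3) ℂ) (d : ℕ) (b : Polynomial ℂ) (K : ℕ)
    (θ : Fin 3 → MvPolynomial (Fin 3) (Polynomial ℂ)) : Prop where
  hom : ∀ i, (θ i).IsHomogeneous (d * K + 1)
  eqn : C b * liftS f ^ (K + 1) = ∑ i, (liftS f * pderiv i (θ i) +
    C (Polynomial.X - (K : Polynomial ℂ)) * liftS (pderiv i f) * θ i)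
  chart : ∀ lam mu : ℂ, ∃ (j : ℕ) (p : MvPolynomial (Fin 2) (Polynomial ℂ))
    (u : Fin 2 → MvPolynomial (Fin 2) (Polynomial ℂ)),
    resP lam mu (θ 0 - C (Polynomial.C lam) * θ 1 - C (Polynomial.C mu) * θ 2) *
        liftS (res lam mu f) ^ (j + 1) =
      p * liftS (res lam mu f) ^ (K + j + 2) + ∑ i, (liftS (res lam mu f) * pderiv i (u i) +
        C (Polynomial.X - ((K + j : ℕ) : Polynomial ℂ)) * liftS (pderiv i (res lam mu f)) * u i)

/-! ### Evaluation with a polynomial in `s` as the result -/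

/-- Evaluation of the variables at `x`, the result being a polynomial in `s`. -/
def EV {F : Type} [Field F] [Algebra ℂ F] {n : ℕ} (x : Fin n → F) :
    MvPolynomial (Fin n) (Polynomial ℂ) →+* Polynomial F :=
  eval₂Hom (Polynomial.mapRingHom (algebraMap ℂ F)) (fun i => Polynomial.C (x i))

/-- Specialisation of `s`. -/
def spec {n : ℕ} (s : ℂ) : MvPolynomial (Fin n) (Polynomial ℂ) →+* MvPolynomial (Fin n) ℂ :=
  MvPolynomial.map (Polynomial.evalRingHom s)

section

variable {F : Type} [Field F] [Algebra ℂ F]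

/-- The point `(w, 1, t)`. -/
def pt (w t : F) : Fin 3 → F := ![w, 1, t]

/-- The point `(X, Y) = (1/(w - lam), t/(w - lam))`. -/
def pq (lam : ℂ) (w t : F) : Fin 2 → F :=
  ![(w - algebraMap ℂ F lam)⁻¹, t * (w - algebraMap ℂ F lam)⁻¹]

/-- `(θ_2 - t θ_1) / f^K` at the point `(w, 1, t)`. -/
def B1 (f : MvPolynomial (Fin 3) ℂ) (K : ℕ) (θ : Fin 3 → MvPolynomial (Fin 3) (Polynomial ℂ))
    (w t : F) : Polynomial F :=
  Polynomial.C ((aeval (pt w t) f)⁻¹ ^ K) *
    (EV (pt w t) (θ 2) - Polynomial.C t * EV (pt w t) (θ 1))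

/-- `(w - lam) (u_1 - t u_0) / f_ℓ^N` at the point `(X, Y)`. -/
def U1 (f : MvPolynomial (Fin 3) ℂ) (lam : ℂ) (N : ℕ)
    (u : Fin 2 → MvPolynomial (Fin 2) (Polynomial ℂ)) (w t : F) : Polynomial F :=
  Polynomial.C ((w - algebraMap ℂ F lam) * (aeval (pq lam w t) (res lam 0 f))⁻¹ ^ N) *
    (EV (pq lam w t) (u 1) - Polynomial.C t * EV (pq lam w t) (u 0))

end

/-- The polynomial `f(X, a, b)`. -/
def Uf (f : MvPolynomial (Fin 3) ℂ) (a b : ℂ) : Polynomial ℂ :=
  aeval ![Polynomial.X, Polynomial.C a, Polynomial.C b] f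

end MPb07157.TL
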