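import Pool.Agent.Lib.MP_b07157_agL3.Defs
import Pool.Agent.Lib.MP_b07157_ag.NewtRootLoc
import Pool.Agent.Lib.MP_b07157_agQ.QHom

/-!
# Elements of `D[s] f^(s+1)` modulo divergences; restriction to `x_0 = 1`
-/

noncomputable section

namespace MPb07157.TL

open MvPolynomial

namespace F1aux

variable {n : ℕ} {f : MvPolynomial (Fin n) ℂ}

theorem pderiv_lift (i : Fin n) (f : MvPolynomial (Fin n) ℂ) :
    pderiv i (liftS f) = liftS (pderiv i f) := by
  unfold liftS
  rw [pderiv_map]

/-- The divergence of `u f^(s+1-K)`, multiplied by `f^(K+1-(s+1))`. -/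
def dv (f : MvPolynomial (Fin n) ℂ) (K : ℕ)
    (u : Fin n → MvPolynomial (Fin n) (Polynomial ℂ)) : MvPolynomial (Fin n) (Polynomial ℂ) :=
  ∑ i, (liftS f * pderiv i (u i) +
          C (Polynomial.X + 1 - ((K : ℕ) : Polynomial ℂ)) * liftS (pderiv i f) * u i)

/-- Being a divergence. -/
def Div (f : MvPolynomial (Fin n) ℂ) (K : ℕ) (x : MvPolynomial (Fin n) (Polynomial ℂ)) : Prop :=
  ∃ u : Fin n → MvPolynomial (Fin n) (Polynomial ℂ), (∀ i, InDn f K (u i)) ∧ x = dv f K u

theorem inDn_zero (K : ℕ) : InDn f K 0 := by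
  induction K with
  | zero => simpa using InDn.mul (f := f) 0 InDn.base
  | succ K ih => simpa using InDn.raise ih

theorem div_zero (K : ℕ) : Div f K 0 :=
  ⟨fun _ => 0, fun _ => inDn_zero K, by simp [dv]⟩

theorem div_add {K : ℕ} {x y : MvPolynomial (Fin n) (Polynomial ℂ)} (hx : Div f K x)
    (hy : Div f K y) : Div f K (x + y) := by
  obtain ⟨u, hu, rfl⟩ := hx
  obtain ⟨v, hv, rfl⟩ := hy
  refine ⟨fun i => u i + v i, fun i => (hu i).add (hv i), ?_⟩
  unfold dv
  rw [← Finset.sum_add_distrib]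
  refine Finset.sum_congr rfl fun i _ => ?_
  rw [map_add]
  ring

theorem div_F {K : ℕ} {x : MvPolynomial (Fin n) (Polynomial ℂ)} (hx : Div f K x) :
    Div f (K + 1) (liftS f * x) := by
  obtain ⟨u, hu, rfl⟩ := hx
  refine ⟨fun i => liftS f * u i, fun i => (hu i).raise, ?_⟩
  unfold dv
  rw [Finset.mul_sum]
  refine Finset.sum_congr rfl fun i _ => ?_
  rw [Derivation.leibniz, pderiv_lift]
  simp only [smul_eq_mul, Nat.cast_add, Nat.cast_one, map_sub, map_add, map_one]
  ring

theorem div_Fpow {K : ℕ} {x : MvPolynomial (Fin n) (Polynomial ℂ)} (hx : Div f K x) (j : ℕ) :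
    Div f (K + j) (liftS f ^ j * x) := by
  induction j with
  | zero => simpa using hx
  | succ j ih =>
    have := div_F ih
    rw [← mul_assoc, ← pow_succ'] at this
    exact this

theorem div_single {K : ℕ} {g : MvPolynomial (Fin n) (Polynomial ℂ)} (h : InDn f K g)
    (i : Fin n) : Div f K (liftS f * pderiv i g +
      C (Polynomial.X + 1 - ((K : ℕ) : Polynomial ℂ)) * liftS (pderiv i f) * g) := by
  classical
  refine ⟨fun l => if l = i then g else 0, fun l => ?_, ?_⟩
  · by_cases hl : l = i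
    · simp only [hl, if_true]; exact h
    · simp only [hl, if_false]; exact inDn_zero K
  · unfold dv
    rw [Finset.sum_eq_single i]
    · simp
    · intro l _ hl
      simp [hl]
    · intro h0
      exact absurd (Finset.mem_univ i) h0

theorem main {k : ℕ} {g : MvPolynomial (Fin n) (Polynomial ℂ)} (h : InDn f k g) :
    ∀ c : MvPolynomial (Fin n) (Polynomial ℂ),
    ∃ (j : ℕ) (p : MvPolynomial (Fin n) (Polynomial ℂ)),
      Div f (k + j) (c * g * liftS f ^ (j + 1) - p * liftS f ^ (k + j + 1)) := by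
  induction h with
  | base =>
    intro c
    refine ⟨0, c, ?_⟩
    have : c * 1 * liftS f ^ (0 + 1) - c * liftS f ^ (0 + 0 + 1) = 0 := by ring
    rw [this]
    exact div_zero _
  | @add k g h _ _ ih1 ih2 =>
    intro c
    obtain ⟨j1, p1, h1⟩ := ih1 c
    obtain ⟨j2, p2, h2⟩ := ih2 c
    refine ⟨j1 + j2, p1 + p2, ?_⟩
    have e1 := div_Fpow h1 j2
    have e2 := div_Fpow h2 j1
    rw [show k + j2 + j1 = k + (j1 + j2) by ring] at e2
    rw [show k + j1 + j2 = k + (j1 + j2) by ring] at e1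
    have := div_add e1 e2
    refine (congrArg (Div f (k + (j1 + j2))) ?_).mp this
    ring
  | @mul k g c' _ ih =>
    intro c
    obtain ⟨j, p, h1⟩ := ih (c * c')
    refine ⟨j, p, ?_⟩
    rw [← mul_assoc c c' g]
    exact h1
  | @deriv k g i hg ih =>
    intro c
    obtain ⟨j, p, h1⟩ := ih (-pderiv i c)
    refine ⟨j, p, ?_⟩
    have e1 := div_F h1
    have e2 := div_Fpow (div_single (hg.mul c) i) (j + 1)
    rw [show k + (j + 1) = k + 1 + j by ring] at e2
    rw [show k + j + 1 = k + 1 + j by ring] at e1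
    have := div_add e1 e2
    refine (congrArg (Div f (k + 1 + j)) ?_).mp this
    rw [Derivation.leibniz]
    simp only [smul_eq_mul]
    ring
  | @raise k g _ ih =>
    intro c
    obtain ⟨j, p, h1⟩ := ih c
    refine ⟨j, p, ?_⟩
    have e1 := div_F h1
    rw [show k + j + 1 = k + 1 + j by ring] at e1
    refine (congrArg (Div f (k + 1 + j)) ?_).mp e1
    ring
  | @lower k g _ ih =>
    intro c
    obtain ⟨j, p, h1⟩ := ih c
    refine ⟨j + 1, p, ?_⟩
    rw [show k + 1 + j = k + (j + 1) by ring] at h1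
    refine (congrArg (Div f (k + (j + 1))) ?_).mp h1
    ring

end F1aux

/-- An element `c g f^(s+1-k)` with `g f^(s+1-k) ∈ D[s] f^(s+1)` is `p f^(s+1)` plus a divergence. -/
theorem div_form {n : ℕ} {f : MvPolynomial (Fin n) ℂ} {k : ℕ}
    {g : MvPolynomial (Fin n) (Polynomial ℂ)} (h : InDn f k g)
    (c : MvPolynomial (Fin n) (Polynomial ℂ)) :
    ∃ (j : ℕ) (p : MvPolynomial (Fin n) (Polynomial ℂ))
      (u : Fin n → MvPolynomial (Fin n) (Polynomial ℂ)), (∀ i, InDn f (k + j) (u i)) ∧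
      c * g * liftS f ^ (j + 1) = p * liftS f ^ (k + j + 1) +
        ∑ i, (liftS f * pderiv i (u i) +
          C (Polynomial.X + 1 - ((k + j : ℕ) : Polynomial ℂ)) * liftS (pderiv i f) * u i) := by
  obtain ⟨j, p, u, hu, he⟩ := F1aux.main h c
  refine ⟨j, p, u, hu, ?_⟩
  unfold F1aux.dv at he
  rw [← he]
  ring

end MPb07157.TL
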