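import Pool.Agent.Lib.MP_b07157_agL3.F3

/-!
# Permutations of the variables and charts
-/

noncomputable section

namespace MPb07157.TL

open MvPolynomial

namespace F4aux

theorem extS_renameEquiv (ρ : Equiv.Perm (Fin 3)) (g : MvPolynomial (Fin 3) (Polynomial ℂ)) :
    extS (renameEquiv ℂ ρ) g = rename ρ g := by
  have h : extS (renameEquiv ℂ ρ) = rename ρ := by
    apply MvPolynomial.algHom_ext
    intro i
    unfold extS
    rw [aeval_X, rename_X, renameEquiv_apply, rename_X]
    unfold liftS
    rw [map_X]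
  rw [h]

theorem homogeneousComponent_rename (ρ : Equiv.Perm (Fin 3)) (δ : ℕ)
    (g : MvPolynomial (Fin 3) (Polynomial ℂ)) :
    homogeneousComponent δ (rename ρ g) = rename ρ (homogeneousComponent δ g) := by
  have hh : ∀ (k : ℕ) (x : MvPolynomial (Fin 3) (Polynomial ℂ)), x.IsHomogeneous k →
      (rename ρ x).IsHomogeneous k := fun k x hx => hx.rename_isHomogeneous
  conv_lhs => rw [← sum_homogeneousComponent g, map_sum, map_sum]
  have h1 : ∀ i ∈ Finset.range (g.totalDegree + 1),
      homogeneousComponent δ (rename ρ (homogeneousComponent i g)) =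
        if i = δ then rename ρ (homogeneousComponent δ g) else 0 := by
    intro i _
    rw [homogeneousComponent_of_mem (hh i _ (homogeneousComponent_isHomogeneous i g))]
    by_cases h : i = δ
    · subst h
      simp
    · rw [if_neg (fun h' => h h'.symm), if_neg h]
  rw [Finset.sum_congr rfl h1, Finset.sum_ite_eq' (Finset.range (g.totalDegree + 1)) δ]
  split_ifs with h
  · rfl
  · rw [homogeneousComponent_eq_zero _ _ (by
      rw [Finset.mem_range] at h
      omega), map_zero]

/-- The chart property after a permutation of the variables. -/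
theorem chartq (ρ : Equiv.Perm (Fin 3)) {f : MvPolynomial (Fin 3) ℂ} {d : ℕ}
    (hf : f.IsHomogeneous d) {K : ℕ} {g : MvPolynomial (Fin 3) (Polynomial ℂ)}
    (hg : InDn f (1 + K) g) (δ : ℕ) : ∃ (j : ℕ) (p : MvPolynomial (Fin 2) (Polynomial ℂ))
    (v : Fin 2 → MvPolynomial (Fin 2) (Polynomial ℂ)),
    resP 0 0 (rename ρ (homogeneousComponent δ g)) *
        liftS (res 0 0 (rename ρ f)) ^ (j + 1) =
      p * liftS (res 0 0 (rename ρ f)) ^ (K + j + 2) +
        ∑ i, (liftS (res 0 0 (rename ρ f)) * pderiv i (v i) +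
          C (Polynomial.X - ((K + j : ℕ) : Polynomial ℂ)) *
            liftS (pderiv i (res 0 0 (rename ρ f))) * v i) := by
  have h0 := InDn.equiv (renameEquiv ℂ ρ) hg
  rw [extS_renameEquiv, renameEquiv_apply] at h0
  have h1 := dehomog (hf.rename_isHomogeneous (f := ρ)) h0 δ
  rw [homogeneousComponent_rename] at h1
  obtain ⟨j, p, v, -, h2⟩ := div_form h1 1
  refine ⟨j, p, v, ?_⟩
  rw [one_mul] at h2
  rw [h2]
  have e2 : (Polynomial.X + 1 - ((1 + K + j : ℕ) : Polynomial ℂ)) =
      Polynomial.X - ((K + j : ℕ) : Polynomial ℂ) := by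
    push_cast
    ring
  rw [e2, show 1 + K + j + 1 = K + j + 2 by ring]

end F4aux

end MPb07157.TL
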