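import Pool.Agent.Lib.MP_b07157_agL3.F3
import Pool.Agent.Lib.MP_b07157_agL3.F4a

/-!
# The identity on `P^2`, with the charts `x_1 = 1` and `x_2 = 1`
-/

noncomputable section

namespace MPb07157.TL

open MvPolynomial

/-- The point `(X, 1, Y)`. -/
def rq : Fin 3 → MvPolynomial (Fin 2) ℂ := ![X 0, 1, X 1]

/-- Restriction to the chart `x_1 = 1`. -/
def resq : MvPolynomial (Fin 3) ℂ →ₐ[ℂ] MvPolynomial (Fin 2) ℂ := aeval rq

/-- Restriction to the chart `x_1 = 1`. -/
def resqP :
    MvPolynomial (Fin 3) (Polynomial ℂ) →ₐ[Polynomial ℂ] MvPolynomial (Fin 2) (Polynomial ℂ) :=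
  aeval (fun i => liftS (rq i))

/-- In the chart `x_1 = 1`: `g f^(s-K) = p f^(s+1) + ∑ ∂_i (u_i f^(s-K-j))`. -/
def Ch (f : MvPolynomial (Fin 3) ℂ) (K : ℕ) (g : MvPolynomial (Fin 3) (Polynomial ℂ)) : Prop :=
  ∃ (j : ℕ) (p : MvPolynomial (Fin 2) (Polynomial ℂ))
    (u : Fin 2 → MvPolynomial (Fin 2) (Polynomial ℂ)),
    resqP g * liftS (resq f) ^ (j + 1) =
      p * liftS (resq f) ^ (K + j + 2) + ∑ i, (liftS (resq f) * pderiv i (u i) +
        C (Polynomial.X - ((K + j : ℕ) : Polynomial ℂ)) * liftS (pderiv i (resq f)) * u i)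

namespace F4aux

theorem resq_eq (g : MvPolynomial (Fin 3) ℂ) :
    resq g = res 0 0 (rename (Equiv.swap (0 : Fin 3) 1) g) := by
  have h : resq = (res 0 0).comp (rename (Equiv.swap (0 : Fin 3) 1)) := by
    apply MvPolynomial.algHom_ext
    intro i
    rw [AlgHom.comp_apply, rename_X]
    unfold resq res
    rw [aeval_X, aeval_X]
    fin_cases i
    · have h1 : (Equiv.swap (0 : Fin 3) 1) ((fun i => i) ⟨0, by decide⟩) = 1 := by decide
      rw [h1]
      simp [rq, rv]
    · have h1 : (Equiv.swap (0 : Fin 3) 1) ((fun i => i) ⟨1, by decide⟩) = 0 := by decide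
      rw [h1]
      simp [rq, rv]
    · have h1 : (Equiv.swap (0 : Fin 3) 1) ((fun i => i) ⟨2, by decide⟩) = 2 := by decide
      rw [h1]
      simp [rq, rv]
  rw [h]
  rfl

theorem resqP_eq (g : MvPolynomial (Fin 3) (Polynomial ℂ)) :
    resqP g = resP 0 0 (rename (Equiv.swap (0 : Fin 3) 1) g) := by
  have h : resqP = (resP 0 0).comp (rename (Equiv.swap (0 : Fin 3) 1)) := by
    apply MvPolynomial.algHom_ext
    intro i
    rw [AlgHom.comp_apply, rename_X]
    unfold resqP resP
    rw [aeval_X, aeval_X]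
    congr 1
    fin_cases i
    · have h1 : (Equiv.swap (0 : Fin 3) 1) ((fun i => i) ⟨0, by decide⟩) = 1 := by decide
      rw [h1]
      simp [rq, rv]
    · have h1 : (Equiv.swap (0 : Fin 3) 1) ((fun i => i) ⟨1, by decide⟩) = 0 := by decide
      rw [h1]
      simp [rq, rv]
    · have h1 : (Equiv.swap (0 : Fin 3) 1) ((fun i => i) ⟨2, by decide⟩) = 2 := by decide
      rw [h1]
      simp [rq, rv]
  rw [h]
  rfl

theorem ch_zero (f : MvPolynomial (Fin 3) ℂ) (K : ℕ) : Ch f K 0 := by
  refine ⟨0, 0, fun _ => 0, ?_⟩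
  simp

theorem ch1 {f : MvPolynomial (Fin 3) ℂ} {d : ℕ} (hf : f.IsHomogeneous d) {K : ℕ}
    {g : MvPolynomial (Fin 3) (Polynomial ℂ)} (hg : InDn f (1 + K) g) (δ : ℕ) :
    Ch f K (homogeneousComponent δ g) := by
  obtain ⟨j, p, v, h⟩ := chartq (Equiv.swap (0 : Fin 3) 1) hf hg δ
  refine ⟨j, p, v, ?_⟩
  rw [resqP_eq, resq_eq]
  exact h

theorem ch2 {f : MvPolynomial (Fin 3) ℂ} {d : ℕ} (hf : f.IsHomogeneous d) {K : ℕ}
    {g : MvPolynomial (Fin 3) (Polynomial ℂ)} (hg : InDn f (1 + K) g) (δ : ℕ) :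
    Ch (sw f) K (sw (homogeneousComponent δ g)) := by
  obtain ⟨j, p, v, h⟩ := chartq ((Equiv.swap (1 : Fin 3) 2).trans (Equiv.swap (0 : Fin 3) 1))
    hf hg δ
  refine ⟨j, p, v, ?_⟩
  rw [resqP_eq, resq_eq]
  unfold sw
  rw [rename_rename, rename_rename]
  exact h

end F4aux

open F4aux in
/-- The identity on `P^2`. -/
theorem exists_thet2 {f : MvPolynomial (Fin 3) ℂ} {d : ℕ} (hf : f.IsHomogeneous d)
    {b : Polynomial ℂ} (hb : IsBernsteinSato f b) :
    ∃ K θ, Thet f d b K θ ∧ Ch f K (θ 1) ∧ Ch (sw f) K (sw (θ 2)) := by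
  rcases Nat.eq_zero_or_pos d with hd | hd
  · subst hd
    have hfc : ∃ a : ℂ, f = C a := by
      have h := hf
      rw [← totalDegree_zero_iff_isHomogeneous, totalDegree_eq_zero_iff_eq_C] at h
      exact ⟨_, h⟩
    obtain ⟨a, rfl⟩ := hfc
    have hl : ∀ (n : ℕ) (x : ℂ), liftS (C x : MvPolynomial (Fin n) ℂ) = C (Polynomial.C x) := by
      intro n x
      unfold liftS
      rw [map_C]
    have hr : ∀ lam mu : ℂ, res lam mu (C a) = C a := by
      intro lam mu
      unfold res
      rw [aeval_C]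
      rfl
    by_cases ha : a = 0
    · subst ha
      refine ⟨0, fun _ => 0, ⟨fun i => isHomogeneous_zero _ _ _, ?_, ?_⟩, ch_zero _ _, ?_⟩
      · simp [liftS]
      · intro lam mu
        refine ⟨0, 0, fun _ => 0, ?_⟩
        simp
      · rw [map_zero]
        exact ch_zero _ _
    · refine ⟨0, ![C b * X 0, 0, 0], ⟨?_, ?_, ?_⟩, ch_zero _ _, ?_⟩
      · intro i
        rw [Nat.zero_mul, Nat.zero_add]
        fin_cases i
        · have := (isHomogeneous_C (Fin 3) b).mul (isHomogeneous_X (Polynomial ℂ) (0 : Fin 3))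
          rwa [zero_add] at this
        · exact isHomogeneous_zero _ _ _
        · exact isHomogeneous_zero _ _ _
      · rw [Fin.sum_univ_three, hl]
        simp only [Matrix.cons_val_zero, Matrix.cons_val_one, Matrix.cons_val, Fin.isValue,
          pderiv_C, map_zero, mul_zero, add_zero, zero_add, pow_one]
        have h0 : liftS (0 : MvPolynomial (Fin 3) ℂ) = 0 := map_zero _
        rw [h0, pderiv_C_mul, pderiv_X_self]
        simp only [mul_zero, zero_mul, add_zero]
        rw [mul_comm, mul_one]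
      · intro lam mu
        refine ⟨0, resP lam mu (C b * X 0) * C (Polynomial.C a⁻¹), fun _ => 0, ?_⟩
        rw [hr, hl]
        simp only [Matrix.cons_val_zero, Matrix.cons_val_one, Matrix.cons_val, Fin.isValue,
          mul_zero, map_zero, sub_zero, add_zero, Finset.sum_const_zero]
        have e : (C (Polynomial.C a⁻¹) * C (Polynomial.C a) :
            MvPolynomial (Fin 2) (Polynomial ℂ)) = 1 := by
          rw [← C_mul, ← Polynomial.C_mul, inv_mul_cancel₀ ha, Polynomial.C_1, C_1]
        calc resP lam mu (C b * X 0) * C (Polynomial.C a) ^ (0 + 1)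
            = resP lam mu (C b * X 0) * 1 * C (Polynomial.C a) := by ring
          _ = resP lam mu (C b * X 0) * (C (Polynomial.C a⁻¹) * C (Polynomial.C a)) *
              C (Polynomial.C a) := by rw [e]
          _ = _ := by ring
      · have h0 : sw ((![C b * X 0, 0, 0] : Fin 3 → MvPolynomial (Fin 3) (Polynomial ℂ)) 2) =
            0 := map_zero _
        rw [h0]
        exact ch_zero _ _
  · obtain ⟨K, p, u, hu, h⟩ := div_form hb 1
    refine ⟨K, fun i => homogeneousComponent (d * K + 1) (u i), ⟨fun i =>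
      homogeneousComponent_isHomogeneous _ _, ?_, fun lam mu => F3aux.chart hf hu _ lam mu⟩,
      ch1 hf (hu 1) _, ch2 hf (hu 2) _⟩
    have hF : (liftS f).IsHomogeneous d := liftS_isHomogeneous hf
    have h1 := congrArg (homogeneousComponent (d * (K + 1))) h
    have e1 : (1 * C b * liftS f ^ (K + 1)).IsHomogeneous (d * (K + 1)) := by
      have := (isHomogeneous_C (Fin 3) b).mul (hF.pow (K + 1))
      rwa [zero_add, ← one_mul (C b)] at this
    rw [homogeneousComponent_of_mem e1, if_pos rfl, map_add, map_sum, mul_comm p,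
      homogeneousComponent_mul_left_lt (hF.pow (1 + K + 1)) (by nlinarith), zero_add,
      one_mul] at h1
    rw [h1]
    refine Finset.sum_congr rfl fun i _ => ?_
    have e2 : (Polynomial.X + 1 - ((1 + K : ℕ) : Polynomial ℂ)) =
        Polynomial.X - (K : Polynomial ℂ) := by
      push_cast
      ring
    have e3 : (C (Polynomial.X - (K : Polynomial ℂ)) *
        liftS (pderiv i f)).IsHomogeneous (d - 1) := by
      have := (isHomogeneous_C (Fin 3) (Polynomial.X - (K : Polynomial ℂ))).mul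
        (liftS_isHomogeneous hf.pderiv : (liftS (pderiv i f)).IsHomogeneous (d - 1))
      rwa [zero_add] at this
    rw [e2, map_add]
    congr 1
    · rw [show d * (K + 1) = d + d * K by ring, homogeneousComponent_mul_left hF,
        homogeneousComponent_pderiv]
    · rw [show d * (K + 1) = (d - 1) + (d * K + 1) by
        obtain ⟨e, rfl⟩ := Nat.exists_eq_add_of_lt hd
        simp only [zero_add, Nat.add_sub_cancel]
        ring, homogeneousComponent_mul_left e3]

end MPb07157.TL
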