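import Pool.Agent.Lib.MP_b07157_agL3.Defs2

/-!
# Algebraic functions without poles are constant
-/

noncomputable section

namespace MPb07157.TL

open MvPolynomial

variable {K' : Type} [Field K'] [Algebra (RatFunc ℂ) K']

/-- A place of `K'` above `t = t0`, with its Puiseux expansion. -/
def IsPl (t0 : ℂ) (φ : K' →+* L0) : Prop :=
  (∀ z : ℂ, φ (algebraMap (RatFunc ℂ) K' (RatFunc.C z)) = HahnSeries.C z) ∧
    φ (algebraMap (RatFunc ℂ) K' RatFunc.X) = HahnSeries.C t0 + tau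

/-- A place of `K'` above `t = ∞`, with its Puiseux expansion. -/
def IsPlInf (φ : K' →+* L0) : Prop :=
  (∀ z : ℂ, φ (algebraMap (RatFunc ℂ) K' (RatFunc.C z)) = HahnSeries.C z) ∧
    φ (algebraMap (RatFunc ℂ) K' RatFunc.X) = tau⁻¹

namespace Gaux

/-- The series of nonnegative order. -/
def RG : Subring L0 where
  carrier := {x | 0 ≤ x.orderTop}
  mul_mem' := by
    intro a b ha hb
    have ha' : 0 ≤ a.orderTop := ha
    have hb' : 0 ≤ b.orderTop := hb
    change 0 ≤ (a * b).orderTop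
    rw [HahnSeries.orderTop_mul]
    exact add_nonneg ha' hb'
  one_mem' := by
    change 0 ≤ (1 : L0).orderTop
    rw [HahnSeries.orderTop_one]
  add_mem' := by
    intro a b ha hb
    have ha' : 0 ≤ a.orderTop := ha
    have hb' : 0 ≤ b.orderTop := hb
    change 0 ≤ (a + b).orderTop
    exact le_trans (le_min ha' hb') HahnSeries.min_orderTop_le_orderTop_add
  zero_mem' := by
    change 0 ≤ (0 : L0).orderTop
    rw [HahnSeries.orderTop_zero]
    exact le_top
  neg_mem' := by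
    intro a ha
    change 0 ≤ (-a).orderTop
    rw [HahnSeries.orderTop_neg]
    exact ha

theorem mem_RG {x : L0} : x ∈ RG ↔ 0 ≤ x.orderTop := Iff.rfl

theorem add_pos' {a b : WithTop ℚ} (ha : 0 ≤ a) (hb : 0 < b) : 0 < a + b := by
  rw [add_comm]
  exact add_pos_of_pos_of_nonneg hb ha

theorem C_mem (a : ℂ) : HahnSeries.C a ∈ RG := by
  rw [mem_RG]
  exact HahnSeries.orderTop_single_le

theorem orderTop_C {a : ℂ} (ha : a ≠ 0) : (HahnSeries.C a : L0).orderTop = 0 :=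
  HahnSeries.orderTop_single ha

theorem eval2_mem (f : Polynomial ℂ) {x : L0} (hx : x ∈ RG) :
    f.eval₂ (HahnSeries.C : ℂ →+* L0) x ∈ RG := by
  rw [Polynomial.eval₂_eq_sum_range]
  exact sum_mem fun i _ => mul_mem (C_mem _) (pow_mem hx i)

theorem exists_rem (f : Polynomial ℂ) (t0 : ℂ) {g : L0} (hg : 0 < g.orderTop) :
    ∃ h : L0, 0 < h.orderTop ∧
      f.eval₂ (HahnSeries.C : ℂ →+* L0) (HahnSeries.C t0 + g) = HahnSeries.C (f.eval t0) + h := by
  obtain ⟨q, hq⟩ := Polynomial.X_sub_C_dvd_sub_C_eval (a := t0) (p := f)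
  have hm : q.eval₂ (HahnSeries.C : ℂ →+* L0) (HahnSeries.C t0 + g) ∈ RG :=
    eval2_mem q (add_mem (C_mem t0) (mem_RG.2 hg.le))
  refine ⟨g * q.eval₂ (HahnSeries.C : ℂ →+* L0) (HahnSeries.C t0 + g), ?_, ?_⟩
  · rw [HahnSeries.orderTop_mul]
    exact add_pos_of_pos_of_nonneg hg hm
  · have h1 := congrArg (fun p : Polynomial ℂ =>
      p.eval₂ (HahnSeries.C : ℂ →+* L0) (HahnSeries.C t0 + g)) hq
    simp only [Polynomial.eval₂_sub, Polynomial.eval₂_mul, Polynomial.eval₂_X,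
      Polynomial.eval₂_C, add_sub_cancel_left] at h1
    rw [← h1]
    ring

theorem orderTop_eval2 {f : Polynomial ℂ} {t0 : ℂ} (hf : f.eval t0 ≠ 0) {g : L0}
    (hg : 0 < g.orderTop) :
    (f.eval₂ (HahnSeries.C : ℂ →+* L0) (HahnSeries.C t0 + g)).orderTop = 0 := by
  obtain ⟨h, h1, h2⟩ := exists_rem f t0 hg
  rw [h2, HahnSeries.orderTop_add_eq_left (by rw [orderTop_C hf]; exact h1), orderTop_C hf]

theorem orderTop_eval2_pos {f : Polynomial ℂ} {t0 : ℂ} (hf : f.eval t0 = 0) {g : L0}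
    (hg : 0 < g.orderTop) :
    0 < (f.eval₂ (HahnSeries.C : ℂ →+* L0) (HahnSeries.C t0 + g)).orderTop := by
  obtain ⟨h, h1, h2⟩ := exists_rem f t0 hg
  rw [h2, hf, map_zero, zero_add]
  exact h1

theorem orderTop_tau : (tau : L0).orderTop = ((1 : ℚ) : WithTop ℚ) :=
  HahnSeries.orderTop_single one_ne_zero

theorem tau_pos : 0 < (tau : L0).orderTop := by
  rw [orderTop_tau]
  exact_mod_cast (one_pos : (0 : ℚ) < 1)

theorem tau_ne : (tau : L0) ≠ 0 := by
  intro h
  have h1 := orderTop_tau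
  rw [h, HahnSeries.orderTop_zero] at h1
  exact absurd h1 (WithTop.top_ne_coe)

theorem hom_poly (ψ : RatFunc ℂ →+* L0) (hC : ∀ z : ℂ, ψ (RatFunc.C z) = HahnSeries.C z)
    (p : Polynomial ℂ) :
    ψ (algebraMap (Polynomial ℂ) (RatFunc ℂ) p) =
      p.eval₂ (HahnSeries.C : ℂ →+* L0) (ψ RatFunc.X) := by
  have h : ψ.comp (algebraMap (Polynomial ℂ) (RatFunc ℂ)) =
      Polynomial.eval₂RingHom (HahnSeries.C : ℂ →+* L0) (ψ RatFunc.X) := by
    refine Polynomial.ringHom_ext (fun z => ?_) ?_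
    · rw [RingHom.comp_apply, RatFunc.algebraMap_C, hC, Polynomial.coe_eval₂RingHom,
        Polynomial.eval₂_C]
    · rw [RingHom.comp_apply, RatFunc.algebraMap_X, Polynomial.coe_eval₂RingHom,
        Polynomial.eval₂_X]
  exact congrArg (fun r : Polynomial ℂ →+* L0 => r p) h

theorem const_ratfunc (N : RatFunc ℂ) (ψ : ℂ → RatFunc ℂ →+* L0) (ψi : RatFunc ℂ →+* L0)
    (hC : ∀ t0 z : ℂ, ψ t0 (RatFunc.C z) = HahnSeries.C z)
    (hX : ∀ t0 : ℂ, ψ t0 RatFunc.X = HahnSeries.C t0 + tau)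
    (hCi : ∀ z : ℂ, ψi (RatFunc.C z) = HahnSeries.C z) (hXi : ψi RatFunc.X = tau⁻¹)
    (h : ∀ t0, 0 ≤ (ψ t0 N).orderTop) (hi : 0 ≤ (ψi N).orderTop) :
    ∃ z : ℂ, N = RatFunc.C z := by
  have hd : N.denom.natDegree = 0 := by
    by_contra hne
    obtain ⟨t0, ht0⟩ := IsAlgClosed.exists_root N.denom (by
      intro h1
      exact hne (Polynomial.natDegree_eq_of_degree_eq_some (by rw [h1]; rfl)))
    have hn : N.num.eval t0 ≠ 0 := by
      intro h1
      obtain ⟨u, v, huv⟩ := RatFunc.isCoprime_num_denom N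
      have h2 := congrArg (Polynomial.eval t0) huv
      rw [Polynomial.eval_add, Polynomial.eval_mul, Polynomial.eval_mul, h1, ht0.eq_zero,
        mul_zero, mul_zero, add_zero, Polynomial.eval_one] at h2
      exact zero_ne_one h2
    have h3 : N * algebraMap (Polynomial ℂ) (RatFunc ℂ) N.denom =
        algebraMap (Polynomial ℂ) (RatFunc ℂ) N.num := by
      have h4 := RatFunc.num_div_denom N
      have h5 : algebraMap (Polynomial ℂ) (RatFunc ℂ) N.denom ≠ 0 :=
        RatFunc.algebraMap_ne_zero (RatFunc.denom_ne_zero N)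
      exact ((div_eq_iff h5).1 h4).symm
    have h6 := congrArg (fun x => (ψ t0 x).orderTop) h3
    simp only [map_mul, HahnSeries.orderTop_mul] at h6
    rw [hom_poly _ (hC t0), hom_poly _ (hC t0), hX, orderTop_eval2 hn tau_pos] at h6
    have h7 := orderTop_eval2_pos (f := N.denom) (t0 := t0) ht0 tau_pos
    have h8 := Gaux.add_pos' (h t0) h7
    rw [h6] at h8
    exact lt_irrefl _ h8
  have hd1 : N.denom = 1 := by
    have h1 := RatFunc.monic_denom N
    exact Polynomial.eq_one_of_monic_natDegree_zero h1 hd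
  have hN : N = algebraMap (Polynomial ℂ) (RatFunc ℂ) N.num := by
    have h4 := RatFunc.num_div_denom N
    rw [hd1, map_one, div_one] at h4
    exact h4.symm
  set p := N.num with hp
  have hpd : p.natDegree = 0 := by
    by_contra hne
    have hp0 : p ≠ 0 := by
      intro h1
      rw [h1, Polynomial.natDegree_zero] at hne
      exact hne rfl
    have h1 : ψi N = p.eval₂ (HahnSeries.C : ℂ →+* L0) (tau⁻¹) := by
      rw [hN, hom_poly _ hCi, hXi]
    let _ : Invertible (tau⁻¹ : L0) := ⟨tau, mul_inv_cancel₀ tau_ne, inv_mul_cancel₀ tau_ne⟩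
    have h2 := Polynomial.eval₂_reverse_mul_pow (HahnSeries.C : ℂ →+* L0) (tau⁻¹ : L0) p
    have h3 : (⅟(tau⁻¹ : L0)) = HahnSeries.C (0 : ℂ) + tau := by
      rw [map_zero, zero_add]
      rfl
    rw [h3, ← h1] at h2
    have h4 : p.reverse.eval 0 ≠ 0 := by
      rw [← Polynomial.coeff_zero_eq_eval_zero, Polynomial.coeff_zero_reverse]
      exact Polynomial.leadingCoeff_ne_zero.2 hp0
    have h5 := congrArg (fun x : L0 => (x * tau ^ p.natDegree).orderTop) h2
    simp only [mul_assoc, ← mul_pow, inv_mul_cancel₀ tau_ne, one_pow, mul_one] at h5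
    rw [orderTop_eval2 h4 tau_pos, HahnSeries.orderTop_mul] at h5
    have h6 : 0 < ((tau : L0) ^ p.natDegree).orderTop := by
      obtain ⟨m, hm⟩ := Nat.exists_eq_succ_of_ne_zero hne
      rw [hm, pow_succ, HahnSeries.orderTop_mul]
      exact Gaux.add_pos' (pow_mem (mem_RG.2 tau_pos.le) m) tau_pos
    have h7 := Gaux.add_pos' hi h6
    rw [← h5] at h7
    exact lt_irrefl _ h7
  refine ⟨p.coeff 0, ?_⟩
  rw [hN, Polynomial.eq_C_of_natDegree_eq_zero hpd, RatFunc.algebraMap_C, Polynomial.coeff_C_zero]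

end Gaux

open Gaux in
/-- A function which is regular at all places is constant. -/
theorem const_of_regular [FiniteDimensional (RatFunc ℂ) K'] [IsGalois (RatFunc ℂ) K'] (x : K')
    (h0 : ∀ (t0 : ℂ) (φ : K' →+* L0), IsPl t0 φ → 0 ≤ (φ x).orderTop)
    (hi : ∀ φ : K' →+* L0, IsPlInf φ → 0 ≤ (φ x).orderTop)
    (he0 : ∀ t0 : ℂ, ∃ φ : K' →+* L0, IsPl t0 φ) (hei : ∃ φ : K' →+* L0, IsPlInf φ) :
    ∃ z : ℂ, x = algebraMap (RatFunc ℂ) K' (RatFunc.C z) := by
  classical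
  choose φ hφ using he0
  obtain ⟨φi, hφi⟩ := hei
  set z : ℂ := (φ 0 x).coeff 0 with hz
  refine ⟨z, ?_⟩
  set y : K' := x - algebraMap (RatFunc ℂ) K' (RatFunc.C z) with hy
  have hy0 : ∀ (t0 : ℂ) (ρ : K' →+* L0), IsPl t0 ρ → 0 ≤ (ρ y).orderTop := by
    intro t0 ρ hρ
    rw [hy, map_sub, hρ.1]
    exact RG.sub_mem (h0 t0 ρ hρ) (C_mem z)
  have hyi : ∀ ρ : K' →+* L0, IsPlInf ρ → 0 ≤ (ρ y).orderTop := by
    intro ρ hρ
    rw [hy, map_sub, hρ.1]
    exact RG.sub_mem (hi ρ hρ) (C_mem z)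
  have hcomp0 : ∀ (t0 : ℂ) (ρ : K' →+* L0), IsPl t0 ρ → ∀ σ : K' ≃ₐ[RatFunc ℂ] K',
      IsPl t0 (ρ.comp (σ : K' →+* K')) := by
    intro t0 ρ hρ σ
    constructor
    · intro w
      rw [RingHom.comp_apply, ← hρ.1 w]
      congr 1
      exact σ.commutes _
    · rw [RingHom.comp_apply, ← hρ.2]
      congr 1
      exact σ.commutes _
  have hcompi : ∀ (ρ : K' →+* L0), IsPlInf ρ → ∀ σ : K' ≃ₐ[RatFunc ℂ] K',
      IsPlInf (ρ.comp (σ : K' →+* K')) := by
    intro ρ hρ σ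
    constructor
    · intro w
      rw [RingHom.comp_apply, ← hρ.1 w]
      congr 1
      exact σ.commutes _
    · rw [RingHom.comp_apply, ← hρ.2]
      congr 1
      exact σ.commutes _
  have hnorm : algebraMap (RatFunc ℂ) K' (Algebra.norm (RatFunc ℂ) y) =
      ∏ σ : K' ≃ₐ[RatFunc ℂ] K', σ y := Algebra.norm_eq_prod_automorphisms _ _
  have hN0 : ∀ t0, 0 ≤ (((φ t0).comp (algebraMap (RatFunc ℂ) K'))
      (Algebra.norm (RatFunc ℂ) y)).orderTop := by
    intro t0
    rw [RingHom.comp_apply, hnorm, map_prod]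
    exact prod_mem (S := RG) fun σ _ => hy0 t0 _ (hcomp0 t0 _ (hφ t0) σ)
  have hNi : 0 ≤ ((φi.comp (algebraMap (RatFunc ℂ) K'))
      (Algebra.norm (RatFunc ℂ) y)).orderTop := by
    rw [RingHom.comp_apply, hnorm, map_prod]
    exact prod_mem (S := RG) fun σ _ => hyi _ (hcompi _ hφi σ)
  obtain ⟨c, hc⟩ := const_ratfunc (Algebra.norm (RatFunc ℂ) y)
    (fun t0 => (φ t0).comp (algebraMap (RatFunc ℂ) K')) (φi.comp (algebraMap (RatFunc ℂ) K'))
    (fun t0 w => (hφ t0).1 w) (fun t0 => (hφ t0).2) (fun w => hφi.1 w) hφi.2 hN0 hNi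
  have hpos : 0 < (φ 0 y).orderTop := by
    have h1 : (φ 0 y).orderTop ≠ 0 := by
      refine HahnSeries.orderTop_ne_of_coeff_eq_zero ?_
      rw [hy, map_sub, (hφ 0).1, HahnSeries.coeff_sub, ← hz]
      have h2 : (HahnSeries.C z : L0).coeff 0 = z := HahnSeries.coeff_single_same 0 z
      rw [h2, sub_self]
    exact lt_of_le_of_ne (hy0 0 _ (hφ 0)) h1.symm
  have hpN : 0 < (φ 0 (algebraMap (RatFunc ℂ) K' (Algebra.norm (RatFunc ℂ) y))).orderTop := by
    rw [hnorm, map_prod, ← Finset.mul_prod_erase Finset.univ _ (Finset.mem_univ AlgEquiv.refl),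
      HahnSeries.orderTop_mul]
    refine add_pos_of_pos_of_nonneg hpos ?_
    exact prod_mem (S := RG) fun σ _ => hy0 0 _ (hcomp0 0 _ (hφ 0) σ)
  have hc0 : c = 0 := by
    by_contra hne
    rw [hc, (hφ 0).1, orderTop_C hne] at hpN
    exact lt_irrefl _ hpN
  rw [hc0, map_zero] at hc
  have hy00 : y = 0 := Algebra.norm_eq_zero_iff.1 hc
  exact sub_eq_zero.1 hy00

end MPb07157.TL
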