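import Pool.Agent.Lib.MP_b07157_agL3.NN

/-!
# The reduction of the regular part
-/

noncomputable section

namespace MPb07157.TL

open MvPolynomial

namespace GQaux

/-- The series of nonnegative order. -/
def RR : Subring L0 where
  carrier := {x | 0 ≤ x.orderTop}
  mul_mem' := by
    intro a b ha hb
    have ha' : 0 ≤ a.orderTop := ha
    have hb' : 0 ≤ b.orderTop := hb
    change 0 ≤ (a * b).orderTop
    rw [HahnSeries.orderTop_mul]
    exact add_nonneg ha' hb'
  one_mem' := by
    change 0 ≤ (1 : L0).orderTop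
    rw [HahnSeries.orderTop_one]
  add_mem' := by
    intro a b ha hb
    have ha' : 0 ≤ a.orderTop := ha
    have hb' : 0 ≤ b.orderTop := hb
    exact le_trans (le_min ha' hb') HahnSeries.min_orderTop_le_orderTop_add
  zero_mem' := by
    change 0 ≤ (0 : L0).orderTop
    rw [HahnSeries.orderTop_zero]
    exact le_top
  neg_mem' := by
    intro a ha
    have ha' : 0 ≤ a.orderTop := ha
    change 0 ≤ (-a).orderTop
    rw [HahnSeries.orderTop_neg]
    exact ha'

theorem mem_RR {x : L0} : x ∈ RR ↔ 0 ≤ x.orderTop := Iff.rfl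

theorem C_mem (z : ℂ) : (HahnSeries.C z : L0) ∈ RR := by
  rw [mem_RR, HahnSeries.C_apply]
  by_cases hz : z = 0
  · subst hz
    simp
  · rw [HahnSeries.orderTop_single hz]
    rfl

theorem inv_mem {x : L0} (hx : x ≠ 0) (ho : x.order ≤ 0) : x⁻¹ ∈ RR := by
  have hx' : x⁻¹ ≠ 0 := inv_ne_zero hx
  have h2 : (x * x⁻¹).order = x.order + (x⁻¹).order := HahnSeries.order_mul hx hx'
  rw [mul_inv_cancel₀ hx, HahnSeries.order_one] at h2
  rw [mem_RR, HahnSeries.zero_le_orderTop_iff]
  linarith

section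

variable {L F : Type} [Field L] [Field F] [Algebra L F] {κ : Type} [Fintype κ]

theorem sub_ne (W : WF L F) (c : L) : W.w - algebraMap L F c ≠ 0 := by
  intro h
  have h1 : Polynomial.aeval W.w (Polynomial.X - Polynomial.C c : Polynomial L) = 0 := by
    rw [map_sub, Polynomial.aeval_X, Polynomial.aeval_C, h]
  have h2 := W.inj (h1.trans (map_zero _).symm)
  exact Polynomial.X_sub_C_ne_zero c h2

theorem dw_alg (W : WF L F) (a : L) : W.dw (algebraMap L F a) = 0 :=
  Derivation.map_algebraMap W.dw a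

theorem dw_mul_alg (W : WF L F) (a : L) (x : F) :
    W.dw (algebraMap L F a * x) = algebraMap L F a * W.dw x := by
  rw [Derivation.leibniz, dw_alg, smul_zero, add_zero, smul_eq_mul]

theorem dw_inv (W : WF L F) (c : L) :
    W.dw ((W.w - algebraMap L F c)⁻¹) = -((W.w - algebraMap L F c)⁻¹) ^ 2 := by
  have h0 := sub_ne W c
  have h1 : W.dw ((W.w - algebraMap L F c) * (W.w - algebraMap L F c)⁻¹) = 0 := by
    rw [mul_inv_cancel₀ h0]
    exact Derivation.map_one_eq_zero W.dw
  rw [Derivation.leibniz, map_sub, W.dw_w, dw_alg, sub_zero, smul_eq_mul, smul_eq_mul,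
    mul_one] at h1
  have h2 : W.dw ((W.w - algebraMap L F c)⁻¹) =
      (W.w - algebraMap L F c)⁻¹ *
        ((W.w - algebraMap L F c) * W.dw ((W.w - algebraMap L F c)⁻¹)) := by
    rw [← mul_assoc, inv_mul_cancel₀ h0, one_mul]
  rw [h2, eq_neg_of_add_eq_zero_left h1]
  ring

theorem dw_pow (W : WF L F) (c : L) (k : ℕ) :
    W.dw ((W.w - algebraMap L F c)⁻¹ ^ k) =
      -(k : F) * ((W.w - algebraMap L F c)⁻¹) ^ (k + 1) := by
  rw [Derivation.leibniz_pow, dw_inv]
  rcases k with _ | k
  · simp
  · simp only [Nat.add_sub_cancel, smul_eq_mul, nsmul_eq_mul]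
    ring

theorem lg_add (W : WF L F) (c a b : κ → L) :
    lg W c (fun i => a i + b i) = lg W c a + lg W c b := by
  unfold lg
  rw [← Finset.sum_add_distrib]
  refine Finset.sum_congr rfl fun i _ => ?_
  rw [map_add]
  ring

theorem lg_smul (W : WF L F) (c a : κ → L) (x : L) :
    lg W c (fun i => x * a i) = algebraMap L F x * lg W c a := by
  unfold lg
  rw [Finset.mul_sum]
  refine Finset.sum_congr rfl fun i _ => ?_
  rw [map_mul]
  ring

end

section

variable {F : Type} [Field F] [Algebra L0 F] {κ : Type} [Fintype κ]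

/-- The functions with a good reduction. -/
def Good (W : WF L0 F) (c σ : κ → L0) (q : F) : Prop :=
  ∃ (β : κ → L0) (ρ : F), ρ ∈ SS W c ∧
    q = -lg W c (fun i => σ i * β i) + nb W.dw (lg W c σ) ρ ∧
    ∀ i j, i ≠ j → xi c β i j ∈ RR

variable {W : WF L0 F} {c σ : κ → L0}

theorem Good.add {p q : F} (hp : Good W c σ p) (hq : Good W c σ q) : Good W c σ (p + q) := by
  obtain ⟨β, ρ, h1, h2, h3⟩ := hp
  obtain ⟨β', ρ', h1', h2', h3'⟩ := hq
  refine ⟨fun i => β i + β' i, ρ + ρ', add_mem h1 h1', ?_, ?_⟩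
  · have e1 : lg W c (fun i => σ i * (β i + β' i)) =
        lg W c (fun i => σ i * β i) + lg W c (fun i => σ i * β' i) := by
      rw [← lg_add]
      congr 1
      funext i
      ring
    rw [e1, h2, h2']
    unfold nb
    rw [map_add]
    ring
  · intro i j hij
    have e2 : xi c (fun i => β i + β' i) i j = xi c β i j + xi c β' i j := by
      unfold xi
      rw [← add_div]
      congr 1
      ring
    rw [e2]
    exact add_mem (h3 i j hij) (h3' i j hij)

theorem Good.zero : Good W c σ 0 := by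
  refine ⟨fun _ => 0, 0, zero_mem _, ?_, ?_⟩
  · unfold nb lg
    simp
  · intro i j _
    unfold xi
    rw [sub_self, zero_div]
    exact zero_mem _

theorem Good.smul {p : F} (hp : Good W c σ p) {a : L0} (ha : a ∈ RR) :
    Good W c σ (algebraMap L0 F a * p) := by
  obtain ⟨β, ρ, h1, h2, h3⟩ := hp
  refine ⟨fun i => a * β i, algebraMap L0 F a * ρ,
    mul_mem (Subalgebra.algebraMap_mem _ a) h1, ?_, ?_⟩
  · have e1 : lg W c (fun i => σ i * (a * β i)) =
        algebraMap L0 F a * lg W c (fun i => σ i * β i) := by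
      rw [← lg_smul]
      congr 1
      funext i
      ring
    rw [e1, h2]
    unfold nb
    rw [dw_mul_alg]
    ring
  · intro i j hij
    have e2 : xi c (fun i => a * β i) i j = a * xi c β i j := by
      unfold xi
      rw [← mul_sub, mul_div_assoc]
    rw [e2]
    exact mul_mem ha (h3 i j hij)

theorem Good.sum {ν : Type} (s : Finset ν) {f : ν → F} (h : ∀ i ∈ s, Good W c σ (f i)) :
    Good W c σ (∑ i ∈ s, f i) := by
  classical
  induction s using Finset.induction_on with
  | empty => exact Good.zero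
  | insert a s ha ih =>
    rw [Finset.sum_insert ha]
    exact (h a (Finset.mem_insert_self a s)).add
      (ih fun i hi => h i (Finset.mem_insert_of_mem hi))

end

section

variable {F : Type} [Field F] [Algebra L0 F] {ι : Type} [Fintype ι]

/-- The constant function. -/
theorem good_one (W : WF L0 F) {c σ : Option ι → L0} (hc : Function.Injective c)
    {S1 : ℂ} (hS : 1 + ∑ i, σ i = HahnSeries.C S1) (hS1 : S1 ≠ 0) : Good W c σ 1 := by
  have hCC : (HahnSeries.C S1⁻¹ : L0) * HahnSeries.C S1 = 1 := by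
    rw [← map_mul, inv_mul_cancel₀ hS1, map_one]
  refine ⟨fun i => HahnSeries.C S1⁻¹ * c i, algebraMap L0 F (HahnSeries.C S1⁻¹) * W.w,
    mul_mem (Subalgebra.algebraMap_mem _ _)
      (Algebra.subset_adjoin (Set.mem_insert _ _)), ?_, ?_⟩
  · have e1 : lg W c (fun i => σ i * (HahnSeries.C S1⁻¹ * c i)) =
        algebraMap L0 F (HahnSeries.C S1⁻¹) * lg W c (fun i => σ i * c i) := by
      rw [← lg_smul]
      congr 1
      funext i
      ring
    have e2 : lg W c σ * W.w = algebraMap L0 F (∑ i, σ i) + lg W c (fun i => σ i * c i) := by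
      unfold lg
      rw [map_sum, Finset.sum_mul, ← Finset.sum_add_distrib]
      refine Finset.sum_congr rfl fun i _ => ?_
      have h0 := sub_ne W (c i)
      rw [map_mul]
      field_simp
      ring
    have e3 : algebraMap L0 F (HahnSeries.C S1⁻¹) * algebraMap L0 F (1 + ∑ i, σ i) = 1 := by
      rw [hS, ← map_mul, hCC, map_one]
    rw [e1]
    unfold nb
    rw [dw_mul_alg, W.dw_w, mul_left_comm (lg W c σ), e2]
    rw [map_add, map_one] at e3
    linear_combination -e3
  · intro i j hij
    have e2 : xi c (fun i => HahnSeries.C S1⁻¹ * c i) i j = HahnSeries.C S1⁻¹ := by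
      unfold xi
      rw [← mul_sub, mul_div_assoc, div_self (sub_ne_zero.2 (hc.ne hij)), mul_one]
    rw [e2]
    exact C_mem _

end

section

theorem rec_pow {F : Type} [Field F] (z x g : F) (h : z * x = g * (x - z)) (k : ℕ) :
    z ^ k * x = g ^ k * x - ∑ j ∈ Finset.range k, z ^ (j + 1) * g ^ (k - j) := by
  induction k with
  | zero => simp
  | succ k ih =>
    have e1 : z ^ (k + 1) * x = g * (z ^ k * x) - g * z ^ (k + 1) := by
      have : z ^ (k + 1) * x = z ^ k * (z * x) := by ring
      rw [this, h]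
      ring
    rw [e1, ih, Finset.sum_range_succ]
    have e2 : ∑ j ∈ Finset.range k, z ^ (j + 1) * g ^ (k + 1 - j) =
        g * ∑ j ∈ Finset.range k, z ^ (j + 1) * g ^ (k - j) := by
      rw [Finset.mul_sum]
      refine Finset.sum_congr rfl fun j hj => ?_
      have hj' : k + 1 - j = (k - j) + 1 := by
        have := Finset.mem_range.1 hj
        omega
      rw [hj', pow_succ]
      ring
    rw [e2, show k + 1 - k = 1 by omega]
    ring

/-- The difference quotients of `g_i^k`, `g_i = 1/(c_i - lam)`. -/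
theorem quot_mem {a b l : L0} (ha : a - l ≠ 0) (hb : b - l ≠ 0) (hab : a - b ≠ 0)
    (ha' : (a - l)⁻¹ ∈ RR) (hb' : (b - l)⁻¹ ∈ RR) (k : ℕ) :
    (((a - l)⁻¹) ^ k - ((b - l)⁻¹) ^ k) / (a - b) ∈ RR := by
  have e1 : (((a - l)⁻¹) ^ k - ((b - l)⁻¹) ^ k) / (a - b) =
      -((a - l)⁻¹ * (b - l)⁻¹) *
        ∑ i ∈ Finset.range k, ((a - l)⁻¹) ^ i * ((b - l)⁻¹) ^ (k - 1 - i) := by
    rw [div_eq_iff hab]
    have e2 : -((a - l)⁻¹ * (b - l)⁻¹) * (a - b) = (a - l)⁻¹ - (b - l)⁻¹ := by
      field_simp
      ring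
    have e3 := (Commute.all ((a - l)⁻¹) ((b - l)⁻¹)).geom_sum₂_mul k
    rw [← e3, mul_right_comm, e2]
    ring
  rw [e1]
  refine mul_mem (neg_mem (mul_mem ha' hb')) (sum_mem fun i _ => ?_)
  exact mul_mem (pow_mem ha' _) (pow_mem hb' _)

variable {F : Type} [Field F] [Algebra L0 F] {ι : Type} [Fintype ι]

theorem fld1 {K : Type} [Field K] (x a l : K) : (-x - 0) / (l - a) = x * (a - l)⁻¹ := by
  rw [sub_zero, ← neg_sub a, neg_div_neg_eq, div_eq_mul_inv]

theorem fld2 {K : Type} [Field K] (x a l : K) : (0 - -x) / (a - l) = x * (a - l)⁻¹ := by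
  rw [sub_neg_eq_add, zero_add, div_eq_mul_inv]

theorem fld3 {K : Type} [Field K] (x a l : K) : (0 - x) / (l - a) = x * (a - l)⁻¹ := by
  rw [zero_sub, ← neg_sub a, neg_div_neg_eq, div_eq_mul_inv]

theorem fld4 {K : Type} [Field K] (x y : K) (h : x * y = 1) : x * -y = -1 := by
  rw [mul_neg, h]

theorem lg_option (W : WF L0 F) (c a : Option ι → L0) :
    lg W c a = algebraMap L0 F (a none) * (W.w - algebraMap L0 F (c none))⁻¹ +
      ∑ i, algebraMap L0 F (a (some i)) * (W.w - algebraMap L0 F (c (some i)))⁻¹ := by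
  unfold lg
  rw [Fintype.sum_option]

/-- The function `1/(w - lam)`. -/
theorem good_z (W : WF L0 F) {c : ι → L0} {lam : ℂ}
    (hlam : ∀ i, c i ≠ HahnSeries.C lam ∧ (c i - HahnSeries.C lam).order ≤ 0)
    {σ : Option ι → L0} {σ0 : ℂ} (h0 : σ none = HahnSeries.C σ0) (hσ0 : σ0 ≠ 0) :
    Good W (cO c lam) σ ((W.w - algebraMap L0 F (HahnSeries.C lam))⁻¹) := by
  classical
  have hCC : (HahnSeries.C σ0 : L0) * HahnSeries.C σ0⁻¹ = 1 := by
    rw [← map_mul, mul_inv_cancel₀ hσ0, map_one]
  have hg : ∀ i, (c i - HahnSeries.C lam)⁻¹ ∈ RR := fun i =>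
    inv_mem (sub_ne_zero.2 (hlam i).1) (hlam i).2
  refine ⟨fun i => Option.elim i (-HahnSeries.C σ0⁻¹) (fun _ => 0), 0, zero_mem _, ?_, ?_⟩
  · have e0 : σ none * -HahnSeries.C σ0⁻¹ = -1 := by
      rw [h0]
      exact fld4 _ _ hCC
    rw [lg_option]
    unfold nb
    simp only [Option.elim, mul_zero, map_zero, zero_mul, Finset.sum_const_zero, add_zero,
      cO]
    rw [e0, map_neg, map_one]
    ring
  · rintro (_ | i) (_ | j) hij
    · exact absurd rfl hij
    · have e1 : xi (cO c lam) (fun i => Option.elim i (-HahnSeries.C σ0⁻¹) (fun _ => 0))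
          none (some j) = HahnSeries.C σ0⁻¹ * (c j - HahnSeries.C lam)⁻¹ := by
        exact fld1 (HahnSeries.C σ0⁻¹) (c j) (HahnSeries.C lam)
      rw [e1]
      exact mul_mem (C_mem _) (hg j)
    · have e1 : xi (cO c lam) (fun i => Option.elim i (-HahnSeries.C σ0⁻¹) (fun _ => 0))
          (some i) none = HahnSeries.C σ0⁻¹ * (c i - HahnSeries.C lam)⁻¹ := by
        exact fld2 (HahnSeries.C σ0⁻¹) (c i) (HahnSeries.C lam)
      rw [e1]
      exact mul_mem (C_mem _) (hg i)
    · have e1 : xi (cO c lam) (fun i => Option.elim i (-HahnSeries.C σ0⁻¹) (fun _ => 0))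
          (some i) (some j) = 0 := by
        unfold xi
        simp only [Option.elim, sub_self, zero_div]
      rw [e1]
      exact zero_mem _

/-- The main part of the reduction of `1/(w - lam)^(k+1)`. -/
theorem good_main (W : WF L0 F) {c : ι → L0} (hc : Function.Injective c) {lam : ℂ}
    (hlam : ∀ i, c i ≠ HahnSeries.C lam ∧ (c i - HahnSeries.C lam).order ≤ 0)
    {σ : Option ι → L0} (k : ℕ) :
    Good W (cO c lam) σ
      (-(∑ l, algebraMap L0 F (σ (some l) * ((c l - HahnSeries.C lam)⁻¹) ^ k) *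
          (W.w - algebraMap L0 F (c l))⁻¹) +
        nb W.dw (lg W (cO c lam) σ) ((W.w - algebraMap L0 F (HahnSeries.C lam))⁻¹ ^ k)) := by
  classical
  have hg : ∀ i, (c i - HahnSeries.C lam)⁻¹ ∈ RR := fun i =>
    inv_mem (sub_ne_zero.2 (hlam i).1) (hlam i).2
  refine ⟨fun i => Option.elim i 0 (fun l => ((c l - HahnSeries.C lam)⁻¹) ^ k),
    (W.w - algebraMap L0 F (HahnSeries.C lam))⁻¹ ^ k, pow_mem ?_ k, ?_, ?_⟩
  · exact Algebra.subset_adjoin (Set.mem_insert_of_mem _ ⟨none, rfl⟩)
  · rw [lg_option W _ (fun i => σ i * _)]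
    simp only [Option.elim, mul_zero, map_zero, zero_mul, zero_add, cO]
  · rintro (_ | i) (_ | j) hij
    · exact absurd rfl hij
    · have e1 : xi (cO c lam)
          (fun i => Option.elim i 0 (fun l => ((c l - HahnSeries.C lam)⁻¹) ^ k))
          none (some j) = ((c j - HahnSeries.C lam)⁻¹) ^ (k + 1) := by
        rw [pow_succ]
        exact fld3 (((c j - HahnSeries.C lam)⁻¹) ^ k) (c j) (HahnSeries.C lam)
      rw [e1]
      exact pow_mem (hg j) _
    · have e1 : xi (cO c lam)
          (fun i => Option.elim i 0 (fun l => ((c l - HahnSeries.C lam)⁻¹) ^ k))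
          (some i) none = ((c i - HahnSeries.C lam)⁻¹) ^ (k + 1) := by
        unfold xi
        simp only [Option.elim, cO]
        rw [sub_zero, div_eq_mul_inv, pow_succ]
      rw [e1]
      exact pow_mem (hg i) _
    · have hij' : i ≠ j := fun h => hij (h ▸ rfl)
      have e1 : xi (cO c lam)
          (fun i => Option.elim i 0 (fun l => ((c l - HahnSeries.C lam)⁻¹) ^ k))
          (some i) (some j) =
          (((c i - HahnSeries.C lam)⁻¹) ^ k - ((c j - HahnSeries.C lam)⁻¹) ^ k) /
            (c i - c j) := rfl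
      rw [e1]
      exact quot_mem (sub_ne_zero.2 (hlam i).1) (sub_ne_zero.2 (hlam j).1)
        (sub_ne_zero.2 (hc.ne hij')) (hg i) (hg j) k

theorem good_pow (W : WF L0 F) {c : ι → L0} (hc : Function.Injective c) {lam : ℂ}
    (hlam : ∀ i, c i ≠ HahnSeries.C lam ∧ (c i - HahnSeries.C lam).order ≤ 0)
    {σ : Option ι → L0} {σ' : Option ι → ℂ} (hσ : ∀ i, σ i = HahnSeries.C (σ' i))
    (hne : ∀ k : ℕ, σ' none ≠ k) (k : ℕ) :
    Good W (cO c lam) σ ((W.w - algebraMap L0 F (HahnSeries.C lam))⁻¹ ^ (k + 1)) := by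
  classical
  have hg : ∀ i, (c i - HahnSeries.C lam)⁻¹ ∈ RR := fun i =>
    inv_mem (sub_ne_zero.2 (hlam i).1) (hlam i).2
  induction k using Nat.strong_induction_on with
  | _ k ih =>
    rcases k with _ | k
    · rw [zero_add, pow_one]
      refine good_z W hlam (hσ none) ?_
      have := hne 0
      rwa [Nat.cast_zero] at this
    · set z : F := (W.w - algebraMap L0 F (HahnSeries.C lam))⁻¹ with hz
      have hτ : σ' none - ((k + 1 : ℕ) : ℂ) ≠ 0 := sub_ne_zero.2 (hne (k + 1))
      have hCC : (HahnSeries.C (σ' none - ((k + 1 : ℕ) : ℂ))⁻¹ : L0) *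
          (σ none - ((k + 1 : ℕ) : L0)) = 1 := by
        have e0 : σ none - ((k + 1 : ℕ) : L0) =
            HahnSeries.C (σ' none - ((k + 1 : ℕ) : ℂ)) := by
          rw [map_sub, hσ none, map_natCast]
        rw [e0, ← map_mul, inv_mul_cancel₀ hτ, map_one]
      have e1 : z ^ (k + 1 + 1) = algebraMap L0 F (HahnSeries.C (σ' none - ((k + 1 : ℕ) : ℂ))⁻¹) *
          ((-(∑ l, algebraMap L0 F (σ (some l) * ((c l - HahnSeries.C lam)⁻¹) ^ (k + 1)) *
              (W.w - algebraMap L0 F (c l))⁻¹) +
            nb W.dw (lg W (cO c lam) σ) (z ^ (k + 1))) +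
          ∑ l, ∑ j ∈ Finset.range (k + 1),
            algebraMap L0 F (σ (some l) * ((c l - HahnSeries.C lam)⁻¹) ^ (k + 1 - j)) *
              z ^ (j + 1)) := by
        have e2 : ∀ l, (W.w - algebraMap L0 F (c l))⁻¹ * z ^ (k + 1) =
            algebraMap L0 F (((c l - HahnSeries.C lam)⁻¹) ^ (k + 1)) *
              (W.w - algebraMap L0 F (c l))⁻¹ -
            ∑ j ∈ Finset.range (k + 1), z ^ (j + 1) *
              algebraMap L0 F (((c l - HahnSeries.C lam)⁻¹) ^ (k + 1 - j)) := by
          intro l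
          have hr := rec_pow z ((W.w - algebraMap L0 F (c l))⁻¹)
            (algebraMap L0 F ((c l - HahnSeries.C lam)⁻¹)) (by
              have h1 := sub_ne W (c l)
              have h2 := sub_ne W (HahnSeries.C lam)
              have h3 : algebraMap L0 F (c l) - algebraMap L0 F (HahnSeries.C lam) ≠ 0 := by
                rw [← map_sub]
                exact (map_ne_zero _).2 (sub_ne_zero.2 (hlam l).1)
              rw [hz, map_inv₀, map_sub]
              field_simp
              ring) (k + 1)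
          rw [mul_comm, hr, map_pow]
          simp only [map_pow]
        have e3 : lg W (cO c lam) σ * z ^ (k + 1) = algebraMap L0 F (σ none) * z ^ (k + 1 + 1) +
            ∑ l, (algebraMap L0 F (σ (some l) * ((c l - HahnSeries.C lam)⁻¹) ^ (k + 1)) *
              (W.w - algebraMap L0 F (c l))⁻¹ - ∑ j ∈ Finset.range (k + 1),
            algebraMap L0 F (σ (some l) * ((c l - HahnSeries.C lam)⁻¹) ^ (k + 1 - j)) *
              z ^ (j + 1)) := by
          rw [lg_option, add_mul, Finset.sum_mul]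
          congr 1
          · rw [mul_assoc]
            congr 1
            change z * z ^ (k + 1) = _
            ring
          · refine Finset.sum_congr rfl fun l _ => ?_
            rw [mul_assoc]
            change algebraMap L0 F (σ (some l)) *
              ((W.w - algebraMap L0 F (c l))⁻¹ * z ^ (k + 1)) = _
            rw [e2 l, mul_sub, Finset.mul_sum]
            congr 1
            · rw [map_mul]
              ring
            · refine Finset.sum_congr rfl fun j _ => ?_
              rw [map_mul]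
              ring
        have e4 : algebraMap L0 F (HahnSeries.C (σ' none - ((k + 1 : ℕ) : ℂ))⁻¹) *
            (algebraMap L0 F (σ none) - ((k + 1 : ℕ) : F)) = 1 := by
          rw [← map_natCast (algebraMap L0 F), ← map_sub, ← map_mul, hCC, map_one]
        have e5 : W.dw (z ^ (k + 1)) = -((k + 1 : ℕ) : F) * z ^ (k + 1 + 1) :=
          dw_pow W (HahnSeries.C lam) (k + 1)
        unfold nb
        rw [e3, e5, Finset.sum_sub_distrib]
        linear_combination (-(z ^ (k + 1 + 1))) * e4
      rw [e1]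
      refine Good.smul ((good_main W hc hlam (k + 1)).add ?_) (C_mem _)
      refine Good.sum _ fun l _ => Good.sum _ fun j hj => ?_
      refine Good.smul (ih j (by have := Finset.mem_range.1 hj; omega)) ?_
      rw [hσ (some l)]
      exact mul_mem (C_mem _) (pow_mem (hg l) _)

end

end GQaux

variable {F : Type} [Field F] [Algebra L0 F] [Algebra ℂ F] [IsScalarTower ℂ L0 F]
  {ι : Type} [Fintype ι] [DecidableEq ι]

/-- The reduction of a polynomial in `X = 1/(w - lam)` and `Y = t/(w - lam)` has regular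
difference quotients. -/
theorem goodQ (W : WF L0 F) {c : ι → L0} (hc : Function.Injective c) {lam : ℂ}
    (hlam : ∀ i, c i ≠ HahnSeries.C lam ∧ (c i - HahnSeries.C lam).order ≤ 0)
    {m : ι → ℕ} (hm : ∀ i, 0 < m i) {d : ℕ} (hd : ∑ i, m i < d) {s : ℂ}
    (hs : ∀ q : ℚ, s ≠ (q : ℂ)) {T : L0} (hT : 0 ≤ T.orderTop) (Φ : MvPolynomial (Fin 2) ℂ) :
    ∃ (β : Option ι → L0) (ρ : F), ρ ∈ SS W (cO c lam) ∧
      aeval (pq lam W.w (algebraMap L0 F T)) Φ =
        -lg W (cO c lam) (fun i => sg d m s i * β i) +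
          nb W.dw (lg W (cO c lam) (sg d m s)) ρ ∧
      ∀ i j, i ≠ j → 0 ≤ (xi (cO c lam) β i j).orderTop := by
  obtain ⟨⟨hr1, hr2⟩, hr3⟩ := nonRes_sg hm hd hs
  have hinj : Function.Injective (HahnSeries.C : ℂ →+* L0) := RingHom.injective _
  -- the exponents
  set σ' : Option ι → ℂ := fun i => (aO d m i : ℂ) * s + (bO i : ℂ) with hσ'
  have hσ : ∀ i, sg d m s i = HahnSeries.C (σ' i) := fun i => rfl
  have hne : ∀ k : ℕ, σ' none ≠ k := by
    intro k hk
    rcases Nat.eq_zero_or_pos k with h0 | hpos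
    · subst h0
      apply hr3 none
      rw [hσ, hk, Nat.cast_zero, map_zero]
    · apply hr1 none k hpos
      rw [hσ, hk, map_natCast]
  have hS : 1 + ∑ i, sg d m s i = HahnSeries.C (1 + ∑ i, σ' i) := by
    rw [map_add, map_one, map_sum]
    rfl
  have hS1 : 1 + ∑ i, σ' i ≠ 0 := by
    intro h
    apply hr2 1 one_pos
    rw [Nat.cast_one, add_comm, hS, h, map_zero]
  have hcO : Function.Injective (cO c lam) := by
    rintro (_ | i) (_ | j) h
    · rfl
    · exact absurd h.symm (hlam j).1
    · exact absurd h (hlam i).1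
    · exact congrArg some (hc h)
  suffices h : GQaux.Good W (cO c lam) (sg d m s)
      (aeval (pq lam W.w (algebraMap L0 F T)) Φ) from h
  have hpow : ∀ k, GQaux.Good W (cO c lam) (sg d m s)
      ((W.w - algebraMap L0 F (HahnSeries.C lam))⁻¹ ^ k) := by
    intro k
    rcases k with _ | k
    · rw [pow_zero]
      exact GQaux.good_one W hcO hS hS1
    · exact GQaux.good_pow W hc hlam hσ hne k
  induction Φ using MvPolynomial.induction_on' with
  | monomial u a =>
    have e1 : aeval (pq lam W.w (algebraMap L0 F T)) (monomial u a) =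
        algebraMap L0 F (HahnSeries.C a * T ^ u 1) *
          (W.w - algebraMap L0 F (HahnSeries.C lam))⁻¹ ^ (u 0 + u 1) := by
      rw [aeval_monomial, Finsupp.prod_fintype _ _ (fun i => pow_zero _), Fin.prod_univ_two]
      have ez : algebraMap ℂ F lam = algebraMap L0 F (HahnSeries.C lam) := by
        rw [IsScalarTower.algebraMap_apply ℂ L0 F, algebraMap_L0]
      have ea : algebraMap ℂ F a = algebraMap L0 F (HahnSeries.C a) := by
        rw [IsScalarTower.algebraMap_apply ℂ L0 F, algebraMap_L0]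
      rw [ea]
      change algebraMap L0 F (HahnSeries.C a) * ((W.w - algebraMap ℂ F lam)⁻¹ ^ u 0 *
        (algebraMap L0 F T * (W.w - algebraMap ℂ F lam)⁻¹) ^ u 1) = _
      rw [ez, map_mul, map_pow]
      ring
    rw [e1]
    exact (hpow _).smul (mul_mem (GQaux.C_mem a) (pow_mem (GQaux.mem_RR.2 hT) _))
  | add p q hp hq =>
    rw [map_add]
    exact hp.add hq

end MPb07157.TL
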