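import Pool.Agent.Lib.MP_b07157_agL3.Z
import Pool.Agent.Lib.MP_b07157_agL3.GQ

/-!
# The reduction of the regular part: the chart `x_1 = 1`
-/

noncomputable section

namespace MPb07157.TL

open MvPolynomial

namespace GQ1aux

open GQaux

section

variable {F : Type} [Field F] [Algebra L0 F] {ι : Type} [Fintype ι]

theorem quot_pow_mem {a b : L0} (hab : a - b ≠ 0) (ha : a ∈ RR) (hb : b ∈ RR) (k : ℕ) :
    (a ^ k - b ^ k) / (a - b) ∈ RR := by
  rw [← (Commute.all a b).geom_sum₂_mul k, mul_div_assoc, div_self hab, mul_one]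
  exact sum_mem fun i _ => mul_mem (pow_mem ha _) (pow_mem hb _)

theorem good_main (W : WF L0 F) {c : ι → L0} (hc : Function.Injective c)
    (hc0 : ∀ i, c i ∈ RR) (σ : ι → L0) (k : ℕ) :
    Good W c σ (-lg W c (fun i => σ i * c i ^ (k + 1)) + nb W.dw (lg W c σ) (W.w ^ (k + 1))) := by
  refine ⟨fun i => c i ^ (k + 1), W.w ^ (k + 1),
    pow_mem (Algebra.subset_adjoin (Set.mem_insert _ _)) _, rfl, ?_⟩
  intro i j hij
  exact quot_pow_mem (sub_ne_zero.2 (hc.ne hij)) (hc0 i) (hc0 j) (k + 1)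

theorem pow_quot {K : Type} [Field K] (w c : K) (h : w - c ≠ 0) (k : ℕ) :
    w ^ (k + 1) * (w - c)⁻¹ = c ^ (k + 1) * (w - c)⁻¹ + w ^ k +
      ∑ j ∈ Finset.range k, c ^ (k - j) * w ^ j := by
  have h1 := (Commute.all w c).geom_sum₂_mul (k + 1)
  have h2 : (∑ i ∈ Finset.range (k + 1), w ^ i * c ^ (k + 1 - 1 - i)) =
      w ^ k + ∑ j ∈ Finset.range k, c ^ (k - j) * w ^ j := by
    rw [Finset.sum_range_succ, add_comm]
    congr 1
    · rw [show k + 1 - 1 - k = 0 by omega, pow_zero, mul_one]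
    · refine Finset.sum_congr rfl fun j _ => ?_
      rw [show k + 1 - 1 - j = k - j by omega, mul_comm]
  rw [h2] at h1
  rw [add_assoc, ← sub_eq_iff_eq_add', ← sub_mul, ← h1, mul_assoc, mul_inv_cancel₀ h, mul_one]

theorem good_pow (W : WF L0 F) {c : ι → L0} (hc : Function.Injective c)
    (hc0 : ∀ i, c i ∈ RR) {σ : ι → L0} {σ' : ι → ℂ} (hσ : ∀ i, σ i = HahnSeries.C (σ' i))
    (hS : ∀ k : ℕ, ((k + 1 : ℕ) : ℂ) + ∑ i, σ' i ≠ 0) (k : ℕ) :
    Good W c σ (W.w ^ k) := by
  classical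
  induction k using Nat.strong_induction_on with
  | _ k ih =>
    set u : ℂ := ((k + 1 : ℕ) : ℂ) + ∑ i, σ' i with hu
    have hu0 : u ≠ 0 := hS k
    have hCC : (HahnSeries.C u⁻¹ : L0) * (((k + 1 : ℕ) : L0) + ∑ i, σ i) = 1 := by
      have e0 : ((k + 1 : ℕ) : L0) + ∑ i, σ i = HahnSeries.C u := by
        rw [hu, map_add, map_natCast, map_sum]
        refine congrArg _ (Finset.sum_congr rfl fun i _ => hσ i)
      rw [e0, ← map_mul, inv_mul_cancel₀ hu0, map_one]
    have e1 : W.w ^ k = algebraMap L0 F (HahnSeries.C u⁻¹) *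
        ((-lg W c (fun i => σ i * c i ^ (k + 1)) + nb W.dw (lg W c σ) (W.w ^ (k + 1))) +
          ∑ l, ∑ j ∈ Finset.range k, algebraMap L0 F (-(σ l * c l ^ (k - j))) * W.w ^ j) := by
      have e3 : lg W c σ * W.w ^ (k + 1) = lg W c (fun i => σ i * c i ^ (k + 1)) +
          algebraMap L0 F (∑ i, σ i) * W.w ^ k +
          ∑ l, ∑ j ∈ Finset.range k, algebraMap L0 F (σ l * c l ^ (k - j)) * W.w ^ j := by
        unfold lg
        rw [Finset.sum_mul, map_sum, Finset.sum_mul, ← Finset.sum_add_distrib,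
          ← Finset.sum_add_distrib]
        refine Finset.sum_congr rfl fun l _ => ?_
        have h1 := pow_quot W.w (algebraMap L0 F (c l)) (sub_ne W (c l)) k
        rw [mul_assoc, mul_comm ((W.w - algebraMap L0 F (c l))⁻¹), h1, mul_add, mul_add,
          Finset.mul_sum]
        congr 1
        · congr 1
          rw [map_mul, map_pow]
          ring
        · refine Finset.sum_congr rfl fun j _ => ?_
          rw [map_mul, map_pow]
          ring
      have e4 : algebraMap L0 F (HahnSeries.C u⁻¹) *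
          (((k + 1 : ℕ) : F) + algebraMap L0 F (∑ i, σ i)) = 1 := by
        rw [← map_natCast (algebraMap L0 F), ← map_add, ← map_mul, hCC, map_one]
      have e5 : W.dw (W.w ^ (k + 1)) = ((k + 1 : ℕ) : F) * W.w ^ k := by
        rw [Derivation.leibniz_pow, W.dw_w, smul_eq_mul, mul_one, nsmul_eq_mul,
          Nat.add_sub_cancel]
      have e6 : ∑ l, ∑ j ∈ Finset.range k, algebraMap L0 F (-(σ l * c l ^ (k - j))) * W.w ^ j =
          -∑ l, ∑ j ∈ Finset.range k, algebraMap L0 F (σ l * c l ^ (k - j)) * W.w ^ j := by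
        rw [← Finset.sum_neg_distrib]
        refine Finset.sum_congr rfl fun l _ => ?_
        rw [← Finset.sum_neg_distrib]
        refine Finset.sum_congr rfl fun j _ => ?_
        rw [map_neg, neg_mul]
      unfold nb
      rw [e3, e5, e6]
      linear_combination (-(W.w ^ k)) * e4
    rw [e1]
    refine Good.smul ((good_main W hc hc0 σ k).add ?_) (C_mem _)
    refine Good.sum _ fun l _ => Good.sum _ fun j hj => ?_
    refine Good.smul (ih j (Finset.mem_range.1 hj)) (neg_mem (mul_mem ?_ (pow_mem (hc0 l) _)))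
    rw [hσ l]
    exact C_mem _

end

end GQ1aux

section

variable {F : Type} [Field F] [Algebra L0 F] [Algebra ℂ F] [IsScalarTower ℂ L0 F]
  {ι : Type} [Fintype ι] [DecidableEq ι]

/-- The reduction of a polynomial in `w` and `t` has regular difference quotients. -/
theorem goodQ1 (W : WF L0 F) {c : ι → L0} (hc : Function.Injective c)
    (hc0 : ∀ i, 0 ≤ (c i).orderTop) {m : ι → ℕ} {s : ℂ} (hs : ∀ q : ℚ, s ≠ (q : ℂ)) {T : L0}
    (hT : 0 ≤ T.orderTop) (Φ : MvPolynomial (Fin 2) ℂ) :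
    ∃ (β : ι → L0) (ρ : F), ρ ∈ SS W c ∧
      aeval ![W.w, algebraMap L0 F T] Φ =
        -lg W c (fun i => algebraMap ℂ L0 (s * (m i : ℂ)) * β i) +
          nb W.dw (lg W c (fun i => algebraMap ℂ L0 (s * (m i : ℂ)))) ρ ∧
      ∀ i j, i ≠ j → 0 ≤ (xi c β i j).orderTop := by
  have hS : ∀ k : ℕ, ((k + 1 : ℕ) : ℂ) + ∑ i, s * (m i : ℂ) ≠ 0 := by
    intro k hk
    rw [← Finset.mul_sum, ← Nat.cast_sum] at hk
    rcases Nat.eq_zero_or_pos (∑ i, m i) with h0 | hpos
    · rw [h0, Nat.cast_zero, mul_zero, add_zero] at hk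
      exact absurd hk (Nat.cast_ne_zero.2 (Nat.succ_ne_zero k))
    · have hM : ((∑ i, m i : ℕ) : ℂ) ≠ 0 := Nat.cast_ne_zero.2 hpos.ne'
      apply hs (-((k + 1 : ℕ) : ℚ) / ((∑ i, m i : ℕ) : ℚ))
      push_cast at hk hM ⊢
      rw [eq_div_iff hM]
      linear_combination hk
  suffices h : GQaux.Good W c (fun i => algebraMap ℂ L0 (s * (m i : ℂ)))
      (aeval ![W.w, algebraMap L0 F T] Φ) from h
  have hpow : ∀ k, GQaux.Good W c (fun i => algebraMap ℂ L0 (s * (m i : ℂ))) (W.w ^ k) :=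
    GQ1aux.good_pow W hc (fun i => GQaux.mem_RR.2 (hc0 i)) (σ' := fun i => s * (m i : ℂ))
      (fun i => rfl) hS
  induction Φ using MvPolynomial.induction_on' with
  | monomial u a =>
    have e1 : aeval ![W.w, algebraMap L0 F T] (monomial u a) =
        algebraMap L0 F (HahnSeries.C a * T ^ u 1) * W.w ^ u 0 := by
      rw [aeval_monomial, Finsupp.prod_fintype _ _ (fun i => pow_zero _), Fin.prod_univ_two]
      have ea : algebraMap ℂ F a = algebraMap L0 F (HahnSeries.C a) := by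
        rw [IsScalarTower.algebraMap_apply ℂ L0 F, algebraMap_L0]
      rw [ea]
      change algebraMap L0 F (HahnSeries.C a) * (W.w ^ u 0 * (algebraMap L0 F T) ^ u 1) = _
      rw [map_mul, map_pow]
      ring
    rw [e1]
    exact (hpow _).smul (mul_mem (GQaux.C_mem a) (pow_mem (GQaux.mem_RR.2 hT) _))
  | add p q hp hq =>
    rw [map_add]
    exact hp.add hq

end

variable {ι : Type} [Fintype ι] [DecidableEq ι] {f : MvPolynomial (Fin 3) ℂ} {t0 : ℂ}
  {c : ι → L0} {m : ι → ℕ} {A0 : L0}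

/-- If `f(X, 1, t0)` has full degree, the roots are regular. -/
theorem orderTop_root (h : Fac f (HahnSeries.C t0 + tau) c m A0) (hm : 0 < ∑ i, m i)
    (hU : (Uf f 1 t0).natDegree = ∑ i, m i) (i : ι) : 0 ≤ (c i).orderTop := by
  exact Zb.nonneg_root h (Zb.order_A0_zero h hm hU) i

/-- If moreover `f(X, 1, t0)` has only one root, the roots collide. -/
theorem order_collide (h : Fac f (HahnSeries.C t0 + tau) c m A0) (hm : 0 < ∑ i, m i)
    (hU : (Uf f 1 t0).natDegree = ∑ i, m i) (h1 : (Uf f 1 t0).roots.toFinset.card = 1)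
    {i j : ι} (hij : i ≠ j) : 0 < (c i - c j).order := by
  have hr : ∀ i, Zb.Rd (c i) ((c i).coeff 0) := fun i => Zb.rd_coeff (orderTop_root h hm hU i)
  have hU0 : Uf f 1 t0 ≠ 0 := by
    intro h3
    rw [h3, Polynomial.natDegree_zero] at hU
    omega
  have hmem : ∀ i, (c i).coeff 0 ∈ (Uf f 1 t0).roots.toFinset := by
    intro i
    refine Multiset.mem_toFinset.2 ((Polynomial.mem_roots hU0).2 ?_)
    have h2 := Zb.Rd.eval (Zb.rd_PL f t0) (hr i)
    rw [Zb.eval_PL h, Finset.prod_eq_zero (Finset.mem_univ i), mul_zero] at h2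
    · have h3 := Zb.rd_C 0
      rw [map_zero] at h3
      exact h2.uniq h3
    · rw [sub_self, zero_pow (h.pos i).ne']
  obtain ⟨z, hz⟩ := Finset.card_eq_one.1 h1
  have h2 : ∀ i, (c i).coeff 0 = z := by
    intro i
    have h3 := hmem i
    rw [hz] at h3
    exact Finset.mem_singleton.1 h3
  have h4 := (hr i).sub (hr j)
  rw [h2 i, h2 j, sub_self, Zb.rd_zero_iff] at h4
  have h5 : c i - c j ≠ 0 := sub_ne_zero.2 (h.inj.ne hij)
  have h6 := HahnSeries.order_eq_orderTop_of_ne_zero h5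
  rw [← h6] at h4
  exact WithTop.coe_lt_coe.1 h4

/-- The exponents do not vanish. -/
theorem Nn_pos (hc : Function.Injective c) (hm : ∀ i, 0 < m i) (h0 : A0.order = 0)
    (hpos : ∀ i j, i ≠ j → 0 < (c i - c j).order) {i j : ι} (hij : i ≠ j) :
    Nn A0 c (fun i => (m i : ℤ)) i j ≠ 0 := by
  have h1 := hpos i j hij
  have h2 : 0 < ((m i : ℚ) + (m j : ℚ)) * (c i - c j).order :=
    mul_pos (add_pos (Nat.cast_pos.2 (hm i)) (Nat.cast_pos.2 (hm j))) h1
  have h3 : 0 ≤ ∑ l ∈ (Finset.univ.erase i).erase j,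
      (((m l : ℤ)) : ℚ) * min (c i - c l).order (c i - c j).order := by
    refine Finset.sum_nonneg fun l hl => mul_nonneg (by positivity) (le_min ?_ h1.le)
    have h4 : l ≠ i := Finset.ne_of_mem_erase (Finset.mem_of_mem_erase hl)
    exact (hpos i l h4.symm).le
  have h5 : Nn A0 c (fun i => (m i : ℤ)) i j = A0.order +
      ((m i : ℚ) + (m j : ℚ)) * (c i - c j).order +
      ∑ l ∈ (Finset.univ.erase i).erase j,
        (((m l : ℤ)) : ℚ) * min (c i - c l).order (c i - c j).order := by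
    unfold Nn
    push_cast
    rfl
  rw [h5, h0]
  exact ne_of_gt (by linarith)

end MPb07157.TL
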