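import Pool.Agent.Lib.MP_b07157_agL3.F4
import Pool.Agent.Lib.MP_b07157_agL3.J

/-!
# The identity on the plane `(w, t)`: the chart `x_1 = 1`
-/

noncomputable section

namespace MPb07157.TL

open MvPolynomial

variable {F : Type} [Field F] [Algebra ℂ F]

/-- `u_t / f^N` at the point `(w, 1, t)`, as a polynomial in `s`. -/
def UB (f : MvPolynomial (Fin 3) ℂ) (N : ℕ)
    (u : Fin 2 → MvPolynomial (Fin 2) (Polynomial ℂ)) (w t : F) : Polynomial F :=
  Polynomial.C ((aeval (pt w t) f)⁻¹ ^ N) * EV ![w, t] (u 1)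

open J1aux in
/-- Euler's formula in the chart `x_1 = 1`. -/
theorem euler_part1 {f : MvPolynomial (Fin 3) ℂ} {d : ℕ} (hf : f.IsHomogeneous d)
    {b : Polynomial ℂ} {K : ℕ} {θ : Fin 3 → MvPolynomial (Fin 3) (Polynomial ℂ)}
    (h : Thet f d b K θ) {dt dw : Derivation ℂ F F} {w t : F} (hww : dw w = 1) (hwt : dw t = 0)
    (htw : dt w = 0) (htt : dt t = 1) (hg : aeval (pt w t) f ≠ 0) (s : ℂ) :
    algebraMap ℂ F (b.eval s) =
      nb dt (algebraMap ℂ F s * (dt (aeval (pt w t) f) / aeval (pt w t) f))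
          ((B1 f K θ w t).eval (algebraMap ℂ F s)) +
        nb dw (algebraMap ℂ F s * (dw (aeval (pt w t) f) / aeval (pt w t) f))
          ((aeval (pt w t) f)⁻¹ ^ K *
            (aeval (pt w t) (spec s (θ 0)) - w * aeval (pt w t) (spec s (θ 1)))) +
        algebraMap ℂ F (d * s + 3) *
          ((aeval (pt w t) f)⁻¹ ^ K * aeval (pt w t) (spec s (θ 1))) := by
  have hB : (B1 f K θ w t).eval (algebraMap ℂ F s) = (aeval (pt w t) f)⁻¹ ^ K *
      (aeval (pt w t) (spec s (θ 2)) - t * aeval (pt w t) (spec s (θ 1))) := by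
    unfold B1
    rw [Polynomial.eval_mul, Polynomial.eval_sub, Polynomial.eval_mul, Polynomial.eval_C,
      Polynomial.eval_C, EV_eval, EV_eval]
  have h1 := eqn_aeval h (pt w t) s
  rw [Fin.sum_univ_three] at h1
  have E1 := euler_aeval (w := w) (t := t) hf
  have E2 := euler_aeval (w := w) (t := t) (spec_homog s (h.hom 1))
  have hds : algebraMap ℂ F (d * s + 3) = d * algebraMap ℂ F s + 3 := by
    rw [map_add, map_mul, map_natCast, map_ofNat]
  have hG : (aeval (pt w t) f)⁻¹ * aeval (pt w t) f = 1 := inv_mul_cancel₀ hg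
  have hQ : (aeval (pt w t) f)⁻¹ ^ K * (aeval (pt w t) f)⁻¹ * aeval (pt w t) f ^ (K + 1) = 1 := by
    rw [← pow_succ, ← mul_pow, hG, one_pow]
  rw [hB, hds]
  unfold nb
  rw [Derivation.leibniz, Derivation.leibniz, deriv_inv_pow, deriv_inv_pow]
  simp only [smul_eq_mul, map_sub, Derivation.leibniz]
  rw [dt_aeval htw htt, dt_aeval htw htt, dt_aeval htw htt, dw_aeval hww hwt, dw_aeval hww hwt,
    dw_aeval hww hwt, htt, hww, div_eq_mul_inv, div_eq_mul_inv]
  push_cast at E2
  set P : F := (aeval (pt w t) f)⁻¹ ^ K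
  set G : F := (aeval (pt w t) f)⁻¹
  set gK : F := aeval (pt w t) f ^ (K + 1)
  set g : F := aeval (pt w t) f
  set S : F := algebraMap ℂ F s
  set B : F := algebraMap ℂ F (b.eval s)
  set g0 : F := aeval (pt w t) (pderiv 0 f)
  set g1 : F := aeval (pt w t) (pderiv 1 f)
  set g2 : F := aeval (pt w t) (pderiv 2 f)
  set a0 : F := aeval (pt w t) (spec s (θ 0))
  set a1 : F := aeval (pt w t) (spec s (θ 1))
  set a2 : F := aeval (pt w t) (spec s (θ 2))
  set a00 : F := aeval (pt w t) (pderiv 0 (spec s (θ 0)))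
  set a11 : F := aeval (pt w t) (pderiv 1 (spec s (θ 1)))
  set a22 : F := aeval (pt w t) (pderiv 2 (spec s (θ 2)))
  linear_combination (-B) * hQ + P * G * h1 +
    (P * (a00 + a11 + a22) + (S - K) * d * P * a1) * hG +
    P * E2 + (S - K) * P * G * a1 * E1

namespace J3aux

open J1aux

theorem aeval_resq (w t : F) (P : MvPolynomial (Fin 3) ℂ) :
    aeval ![w, t] (resq P) = aeval (pt w t) P := by
  unfold resq
  rw [← AlgHom.comp_apply]
  refine congrArg (fun φ : MvPolynomial (Fin 3) ℂ →ₐ[ℂ] F => φ P) ?_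
  refine MvPolynomial.algHom_ext fun i => ?_
  rw [AlgHom.comp_apply, aeval_X, aeval_X]
  fin_cases i
  · simp [rq, pt]
  · simp [rq, pt]
  · simp [rq, pt]

theorem spec_resqP (s : ℂ) (q : MvPolynomial (Fin 3) (Polynomial ℂ)) :
    spec s (resqP q) = resq (spec s q) := by
  have h : (spec s).comp resqP.toRingHom = resq.toRingHom.comp (spec s) := by
    refine MvPolynomial.ringHom_ext (fun q => ?_) (fun i => ?_)
    · simp only [RingHom.comp_apply, AlgHom.toRingHom_eq_coe, RingHom.coe_coe, resqP, resq, spec,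
        aeval_C, map_C]
      rw [algebraMap_eq, map_C, algebraMap_eq]
    · simp only [RingHom.comp_apply, AlgHom.toRingHom_eq_coe, RingHom.coe_coe, resqP, resq,
        aeval_X]
      rw [spec_liftS, spec, map_X, aeval_X]
  exact congrArg (fun φ => φ q) h

/-- The identity in the chart, specialised. -/
theorem ch_aeval {f : MvPolynomial (Fin 3) ℂ} {K : ℕ}
    {g : MvPolynomial (Fin 3) (Polynomial ℂ)} {j : ℕ}
    {p : MvPolynomial (Fin 2) (Polynomial ℂ)} {u : Fin 2 → MvPolynomial (Fin 2) (Polynomial ℂ)}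
    (h : resqP g * liftS (resq f) ^ (j + 1) =
      p * liftS (resq f) ^ (K + j + 2) + ∑ i, (liftS (resq f) * pderiv i (u i) +
        C (Polynomial.X - ((K + j : ℕ) : Polynomial ℂ)) * liftS (pderiv i (resq f)) * u i))
    (x : Fin 2 → F) (s : ℂ) :
    aeval x (resq (spec s g)) * aeval x (resq f) ^ (j + 1) =
      aeval x (spec s p) * aeval x (resq f) ^ (K + j + 2) +
        ∑ i, (aeval x (resq f) * aeval x (pderiv i (spec s (u i))) +
          (algebraMap ℂ F s - ((K + j : ℕ) : F)) * aeval x (pderiv i (resq f)) *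
            aeval x (spec s (u i))) := by
  have h1 := congrArg (fun p => aeval x (spec s p)) h
  simp only [map_mul, map_pow, map_sum, map_add, map_sub, spec_liftS, spec_C, spec_pderiv,
    spec_resqP, aeval_C] at h1
  simp only [Polynomial.eval_X, Polynomial.eval_natCast, map_natCast] at h1
  exact h1

end J3aux

open J1aux J2aux J3aux in
/-- The divergences in the chart `x_1 = 1`. -/
theorem chart_part1 {f : MvPolynomial (Fin 3) ℂ} {K : ℕ}
    {g : MvPolynomial (Fin 3) (Polynomial ℂ)} (h : Ch f K g) {dt dw : Derivation ℂ F F}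
    {w t : F} (hww : dw w = 1) (hwt : dw t = 0) (htw : dt w = 0) (htt : dt t = 1)
    (hg : aeval (pt w t) f ≠ 0) :
    ∃ (j : ℕ) (p : MvPolynomial (Fin 2) (Polynomial ℂ))
      (u : Fin 2 → MvPolynomial (Fin 2) (Polynomial ℂ)), ∀ s : ℂ,
      (aeval (pt w t) f)⁻¹ ^ K * aeval (pt w t) (spec s g) =
        aeval ![w, t] (spec s p * resq f) +
          nb dt (algebraMap ℂ F s * (dt (aeval (pt w t) f) / aeval (pt w t) f))
            ((UB f (K + j) u w t).eval (algebraMap ℂ F s)) +
          nb dw (algebraMap ℂ F s * (dw (aeval (pt w t) f) / aeval (pt w t) f))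
            ((aeval (pt w t) f)⁻¹ ^ (K + j) * aeval ![w, t] (spec s (u 0))) := by
  obtain ⟨j, p, u, hu⟩ := h
  refine ⟨j, p, u, fun s => ?_⟩
  have h1 := ch_aeval hu ![w, t] s
  rw [Fin.sum_univ_two] at h1
  have hU : (UB f (K + j) u w t).eval (algebraMap ℂ F s) =
      (aeval (pt w t) f)⁻¹ ^ (K + j) * aeval ![w, t] (spec s (u 1)) := by
    unfold UB
    rw [Polynomial.eval_mul, Polynomial.eval_C, EV_eval]
  have Dt : ∀ P : MvPolynomial (Fin 2) ℂ, dt (aeval ![w, t] P) =
      aeval ![w, t] (pderiv 1 P) := fun P => by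
    rw [deriv_aeval2]
    simp [htw, htt]
  have Dw : ∀ P : MvPolynomial (Fin 2) ℂ, dw (aeval ![w, t] P) =
      aeval ![w, t] (pderiv 0 P) := fun P => by
    rw [deriv_aeval2]
    simp [hww, hwt]
  rw [hU, ← aeval_resq w t (spec s g), map_mul]
  rw [← aeval_resq w t f] at hg ⊢
  have hG : (aeval ![w, t] (resq f))⁻¹ * aeval ![w, t] (resq f) = 1 := inv_mul_cancel₀ hg
  have q1 : (aeval ![w, t] (resq f))⁻¹ ^ (K + j) *
      (aeval ![w, t] (resq f))⁻¹ * aeval ![w, t] (resq f) ^ (j + 1) =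
      (aeval ![w, t] (resq f))⁻¹ ^ K := by
    rw [← pow_succ, add_assoc, pow_add, mul_assoc, ← mul_pow, hG, one_pow, mul_one]
  have q2 : (aeval ![w, t] (resq f))⁻¹ ^ (K + j) *
      (aeval ![w, t] (resq f))⁻¹ * aeval ![w, t] (resq f) ^ (K + j + 2) =
      aeval ![w, t] (resq f) := by
    rw [← pow_succ, pow_succ (aeval ![w, t] (resq f)) (K + j + 1), ← mul_assoc,
      ← mul_pow, hG, one_pow, one_mul]
  unfold nb
  rw [Derivation.leibniz, Derivation.leibniz, deriv_inv_pow, deriv_inv_pow, Dt, Dt, Dw, Dw,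
    div_eq_mul_inv, div_eq_mul_inv]
  simp only [smul_eq_mul]
  set gg : F := aeval ![w, t] (resq (spec s g))
  set G : F := (aeval ![w, t] (resq f))⁻¹
  set ff : F := aeval ![w, t] (resq f)
  set GN : F := G ^ (K + j)
  set GK : F := G ^ K
  set N : F := ((K + j : ℕ) : F)
  set S : F := algebraMap ℂ F s
  set u0 : F := aeval ![w, t] (spec s (u 0))
  set u1 : F := aeval ![w, t] (spec s (u 1))
  set u00 : F := aeval ![w, t] (pderiv 0 (spec s (u 0)))
  set u11 : F := aeval ![w, t] (pderiv 1 (spec s (u 1)))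
  set p0 : F := aeval ![w, t] (pderiv 0 (resq f))
  set p1 : F := aeval ![w, t] (pderiv 1 (resq f))
  linear_combination GN * G * h1 - gg * q1 +
    aeval ![w, t] (spec s p) * q2 + GN * (u00 + u11) * hG

end MPb07157.TL
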