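import Pool.Agent.Lib.MP_b07157_agL3.Defs

/-!
# Bounds for orders, from irrational `s` to all `s`
-/

noncomputable section

namespace MPb07157.TL

namespace PLsaux

/-- The coefficient of `τ^q` of `P(s)` as a polynomial in `s`. -/
def cf (P : Polynomial L0) (q : ℚ) : Polynomial ℂ :=
  ∑ k ∈ P.support, Polynomial.C ((P.coeff k).coeff q) * Polynomial.X ^ k

theorem eval_cf (P : Polynomial L0) (q : ℚ) (s : ℂ) :
    (cf P q).eval s = (P.eval (HahnSeries.C s)).coeff q := by
  rw [cf, Polynomial.eval_finsetSum, Polynomial.eval_eq_sum (p := P), Polynomial.sum_def,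
    HahnSeries.coeff_sum]
  refine Finset.sum_congr rfl fun k _ => ?_
  rw [Polynomial.eval_mul, Polynomial.eval_C, Polynomial.eval_pow, Polynomial.eval_X, ← map_pow,
    mul_comm (P.coeff k), HahnSeries.C_mul_eq_smul, HahnSeries.coeff_smul, smul_eq_mul, mul_comm]

theorem infinite_irr : {s : ℂ | ∀ q : ℚ, s ≠ (q : ℂ)}.Infinite := by
  have h1 : Function.Injective fun n : ℕ => ((n : ℂ) + Complex.I) := by
    intro a b hab
    have h2 : (a : ℂ) = b := add_right_cancel hab
    exact_mod_cast h2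
  refine (Set.infinite_range_of_injective h1).mono ?_
  rintro _ ⟨n, rfl⟩ q h
  have h2 := congrArg Complex.im h
  simp at h2

end PLsaux

open PLsaux

/-- A bound for the order of `P(s)` for all irrational `s` holds for all `s`. -/
theorem poly_bound (P : Polynomial L0) (ν : WithTop ℚ)
    (h : ∀ s : ℂ, (∀ q : ℚ, s ≠ (q : ℂ)) → ν ≤ (P.eval (HahnSeries.C s)).orderTop) (s : ℂ) :
    ν ≤ (P.eval (HahnSeries.C s)).orderTop := by
  rw [HahnSeries.le_orderTop_iff_forall]
  intro q hq
  rw [← eval_cf]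
  have h0 : cf P q = 0 := by
    refine Polynomial.eq_zero_of_infinite_isRoot _ (infinite_irr.mono fun z hz => ?_)
    show (cf P q).IsRoot z
    rw [Polynomial.IsRoot, eval_cf]
    exact HahnSeries.coeff_eq_zero_of_lt_orderTop (lt_of_lt_of_le hq (h z hz))
  rw [h0, Polynomial.eval_zero]

/-- `P(s0) = 0` implies that `s - s0` divides `P`. -/
theorem poly_dvd {L : Type} [Field L] [Algebra ℂ L] (P : Polynomial L) (s0 : ℂ)
    (h : P.eval (algebraMap ℂ L s0) = 0) :
    ∃ Q : Polynomial L, ∀ s : ℂ, P.eval (algebraMap ℂ L s) =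
      algebraMap ℂ L (s - s0) * Q.eval (algebraMap ℂ L s) := by
  obtain ⟨Q, rfl⟩ := Polynomial.dvd_iff_isRoot.2 h
  refine ⟨Q, fun s => ?_⟩
  rw [Polynomial.eval_mul, Polynomial.eval_sub, Polynomial.eval_X, Polynomial.eval_C, map_sub]

end MPb07157.TL
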