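import Pool.Agent.Lib.MP_b07157_agL3.Defs2

/-!
# The order of the leading coefficient: auxiliary results
-/

noncomputable section

namespace MPb07157.TL

open MvPolynomial

namespace Zaaux

/-- The series of nonnegative order. -/
def O : Subring L0 where
  carrier := {x | 0 ≤ x.orderTop}
  mul_mem' := by
    intro a b ha hb
    have ha' : 0 ≤ a.orderTop := ha
    have hb' : 0 ≤ b.orderTop := hb
    change 0 ≤ (a * b).orderTop
    rw [HahnSeries.orderTop_mul]
    exact add_nonneg ha' hb'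
  one_mem' := by
    change 0 ≤ (1 : L0).orderTop
    rw [HahnSeries.orderTop_one]
  add_mem' := by
    intro a b ha hb
    have ha' : 0 ≤ a.orderTop := ha
    have hb' : 0 ≤ b.orderTop := hb
    exact le_trans (le_min ha' hb') HahnSeries.min_orderTop_le_orderTop_add
  zero_mem' := by
    change 0 ≤ (0 : L0).orderTop
    rw [HahnSeries.orderTop_zero]
    exact le_top
  neg_mem' := by
    intro a ha
    have ha' : 0 ≤ a.orderTop := ha
    change 0 ≤ (-a).orderTop
    rw [HahnSeries.orderTop_neg]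
    exact ha'

theorem mem_O {x : L0} : x ∈ O ↔ 0 ≤ x.orderTop := Iff.rfl

theorem C_mem (z : ℂ) : (HahnSeries.C z : L0) ∈ O := by
  rw [mem_O, HahnSeries.C_apply]
  by_cases hz : z = 0
  · subst hz
    simp
  · rw [HahnSeries.orderTop_single hz]
    rfl

theorem tau_mem : (tau : L0) ∈ O := by
  rw [mem_O, tau, HahnSeries.orderTop_single one_ne_zero]
  exact_mod_cast zero_le_one

theorem mem_of_order {x : L0} (ho : 0 ≤ x.order) : x ∈ O := by
  rw [mem_O, HahnSeries.zero_le_orderTop_iff]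
  exact ho

theorem coeff_of_neg {x : L0} (hx : x ∈ O) {q : ℚ} (hq : q < 0) : x.coeff q = 0 :=
  HahnSeries.coeff_eq_zero_of_lt_orderTop
    (lt_of_lt_of_le (by exact_mod_cast hq) (mem_O.1 hx))

theorem nonneg_of_mem_support {x : L0} (hx : x ∈ O) {q : ℚ} (hq : q ∈ x.support) : 0 ≤ q := by
  by_contra h
  exact hq (coeff_of_neg hx (not_le.1 h))

theorem coeff_zero_mul {x y : L0} (hx : x ∈ O) (hy : y ∈ O) :
    (x * y).coeff 0 = x.coeff 0 * y.coeff 0 := by
  rw [HahnSeries.coeff_mul]
  refine Finset.sum_eq_single ((0 : ℚ), (0 : ℚ)) ?_ ?_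
  · rintro ⟨i, j⟩ hij hne
    exfalso
    obtain ⟨hi, hj, hs⟩ := Finset.mem_antidiagonal.1 hij
    have h1 := nonneg_of_mem_support hx hi
    have h2 := nonneg_of_mem_support hy hj
    have hs' : i + j = 0 := hs
    apply hne
    have h3 : i = 0 := by linarith
    have h4 : j = 0 := by linarith
    rw [h3, h4]
  · intro h
    by_contra h0
    apply h
    refine Finset.mem_antidiagonal.2 ⟨?_, ?_, add_zero _⟩
    · intro h1
      exact h0 (by rw [show x.coeff 0 = 0 from h1, zero_mul])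
    · intro h1
      exact h0 (by rw [show y.coeff 0 = 0 from h1, mul_zero])

theorem coeff_C_zero (z : ℂ) : (HahnSeries.C z : L0).coeff 0 = z := by
  rw [HahnSeries.C_apply, HahnSeries.coeff_single_same]

theorem coeff_tau_zero : (tau : L0).coeff 0 = 0 := by
  rw [tau, HahnSeries.coeff_single_of_ne]
  exact zero_ne_one

theorem T_mem (t0 : ℂ) : (HahnSeries.C t0 + tau : L0) ∈ O := add_mem (C_mem t0) tau_mem

theorem coeff_T (t0 : ℂ) : (HahnSeries.C t0 + tau : L0).coeff 0 = t0 := by
  rw [HahnSeries.coeff_add, coeff_C_zero, coeff_tau_zero, add_zero]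

/-- The reduction of the values. -/
theorem aeval_red {a : L0} (ha : a ∈ O) (t0 : ℂ) (f : MvPolynomial (Fin 3) ℂ) :
    aeval (![a, 1, HahnSeries.C t0 + tau] : Fin 3 → L0) f ∈ O ∧
      (aeval (![a, 1, HahnSeries.C t0 + tau] : Fin 3 → L0) f).coeff 0 =
        eval ![a.coeff 0, 1, t0] f := by
  induction f using MvPolynomial.induction_on with
  | C z =>
    rw [aeval_C, algebraMap_L0, eval_C]
    exact ⟨C_mem z, coeff_C_zero z⟩
  | add p q hp hq =>
    rw [map_add, map_add, HahnSeries.coeff_add, hp.2, hq.2]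
    exact ⟨add_mem hp.1 hq.1, rfl⟩
  | mul_X p i hp =>
    have key : (![a, 1, HahnSeries.C t0 + tau] : Fin 3 → L0) i ∈ O ∧
        ((![a, 1, HahnSeries.C t0 + tau] : Fin 3 → L0) i).coeff 0 =
          (![a.coeff 0, 1, t0] : Fin 3 → ℂ) i := by
      fin_cases i
      · exact ⟨ha, rfl⟩
      · refine ⟨one_mem _, ?_⟩
        change (1 : L0).coeff 0 = 1
        rw [HahnSeries.coeff_one, if_pos rfl]
      · exact ⟨T_mem t0, coeff_T t0⟩
    rw [map_mul, map_mul, aeval_X, eval_X, coeff_zero_mul hp.1 key.1, hp.2, key.2]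
    exact ⟨mul_mem hp.1 key.1, rfl⟩

/-- The values of `f(X, 1, t)`. -/
theorem eval_PL {L : Type} [Field L] [Algebra ℂ L] (f : MvPolynomial (Fin 3) ℂ) (t x : L) :
    (PL f t).eval x = aeval (![x, 1, t] : Fin 3 → L) f := by
  rw [PL]
  induction f using MvPolynomial.induction_on with
  | C z =>
    rw [aeval_C, aeval_C, Polynomial.algebraMap_apply, Polynomial.eval_C]
  | add p q hp hq =>
    rw [map_add, map_add, Polynomial.eval_add, hp, hq]
  | mul_X p i hp =>
    rw [map_mul, map_mul, Polynomial.eval_mul, hp, aeval_X, aeval_X]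
    congr 1
    fin_cases i
    · change Polynomial.eval x Polynomial.X = x
      rw [Polynomial.eval_X]
    · change Polynomial.eval x 1 = 1
      rw [Polynomial.eval_one]
    · change Polynomial.eval x (Polynomial.C t) = t
      rw [Polynomial.eval_C]

theorem order_pow' {x : L0} (hx : x ≠ 0) (n : ℕ) : (x ^ n).order = (n : ℚ) * x.order := by
  induction n with
  | zero => rw [pow_zero, HahnSeries.order_one, Nat.cast_zero, zero_mul]
  | succ n ih =>
    rw [pow_succ, HahnSeries.order_mul (pow_ne_zero n hx) hx, ih]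
    push_cast
    ring

theorem order_prod {ι : Type} (s : Finset ι) (x : ι → L0) (hx : ∀ i, x i ≠ 0) (m : ι → ℕ) :
    (∏ i ∈ s, x i ^ m i).order = ∑ i ∈ s, (m i : ℚ) * (x i).order := by
  classical
  induction s using Finset.induction_on with
  | empty => rw [Finset.prod_empty, Finset.sum_empty, HahnSeries.order_one]
  | insert i s hi ih =>
    rw [Finset.prod_insert hi, Finset.sum_insert hi,
      HahnSeries.order_mul (pow_ne_zero _ (hx i))
        (Finset.prod_ne_zero_iff.2 fun j _ => pow_ne_zero _ (hx j)), ih, order_pow' (hx i)]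

variable {ι : Type} [Fintype ι] {f : MvPolynomial (Fin 3) ℂ} {t0 : ℂ} {c : ι → L0} {m : ι → ℕ}
  {A0 : L0}

theorem value (h : Fac f (HahnSeries.C t0 + tau) c m A0) (x : L0) :
    aeval (![x, 1, HahnSeries.C t0 + tau] : Fin 3 → L0) f = A0 * ∏ i, (x - c i) ^ m i := by
  rw [← eval_PL, h.eq, Polynomial.eval_mul, Polynomial.eval_C, Polynomial.eval_prod]
  congr 1
  refine Finset.prod_congr rfl fun i _ => ?_
  rw [Polynomial.eval_pow, Polynomial.eval_sub, Polynomial.eval_X, Polynomial.eval_C]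

theorem value_lam (h : Fac f (HahnSeries.C t0 + tau) c m A0) {lam : ℂ}
    (hlam : ∀ i, c i ≠ HahnSeries.C lam ∧ (c i - HahnSeries.C lam).order ≤ 0) :
    aeval (![HahnSeries.C lam, 1, HahnSeries.C t0 + tau] : Fin 3 → L0) f ≠ 0 ∧
      (aeval (![HahnSeries.C lam, 1, HahnSeries.C t0 + tau] : Fin 3 → L0) f).order =
        A0.order + ∑ i, (m i : ℚ) * (c i - HahnSeries.C lam).order := by
  have hne : ∀ i, (HahnSeries.C lam - c i : L0) ≠ 0 := fun i h0 =>
    (hlam i).1 (sub_eq_zero.1 h0).symm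
  have hp : ∏ i, (HahnSeries.C lam - c i : L0) ^ m i ≠ 0 :=
    Finset.prod_ne_zero_iff.2 fun i _ => pow_ne_zero _ (hne i)
  rw [value h]
  refine ⟨mul_ne_zero h.ne hp, ?_⟩
  rw [HahnSeries.order_mul h.ne hp, order_prod Finset.univ _ hne]
  congr 1
  refine Finset.sum_congr rfl fun i _ => ?_
  rw [← HahnSeries.order_neg (f := c i - HahnSeries.C lam), neg_sub]

end Zaaux

open Zaaux

variable {ι : Type} [Fintype ι]

/-- A good choice of `lam`. -/
theorem exists_lam' (c : ι → L0) (S : Finset ℂ) : ∃ lam : ℂ, lam ∉ S ∧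
    ∀ i, c i ≠ HahnSeries.C lam ∧ (c i - HahnSeries.C lam).order ≤ 0 := by
  obtain ⟨lam, hl⟩ := Infinite.exists_notMem_finset
    (S ∪ Finset.univ.image fun i => (c i).coeff 0)
  rw [Finset.mem_union, not_or] at hl
  refine ⟨lam, hl.1, fun i => ?_⟩
  have h1 : (c i - HahnSeries.C lam).coeff 0 ≠ 0 := by
    rw [HahnSeries.coeff_sub, coeff_C_zero]
    intro h0
    exact hl.2 (Finset.mem_image.2 ⟨i, Finset.mem_univ i, sub_eq_zero.1 h0⟩)
  refine ⟨fun h0 => h1 (by rw [h0, sub_self, HahnSeries.coeff_zero]), ?_⟩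
  exact HahnSeries.order_le_of_coeff_ne_zero h1

variable {f : MvPolynomial (Fin 3) ℂ} {t0 : ℂ} {c : ι → L0} {m : ι → ℕ} {A0 : L0}

theorem order_A0' (h : Fac f (HahnSeries.C t0 + tau) c m A0) {lam : ℂ}
    (hlam : ∀ i, c i ≠ HahnSeries.C lam ∧ (c i - HahnSeries.C lam).order ≤ 0) :
    0 ≤ A0.order + ∑ i, (m i : ℚ) * (c i - HahnSeries.C lam).order := by
  have h1 := value_lam h hlam
  have h2 := (aeval_red (C_mem lam) t0 f).1
  rw [mem_O, HahnSeries.zero_le_orderTop_iff] at h2
  rw [← h1.2]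
  exact h2

/-- The case of a special line. -/
theorem order_A0_spec' (h : Fac f (HahnSeries.C t0 + tau) c m A0) {lam : ℂ}
    (hlam : ∀ i, c i ≠ HahnSeries.C lam ∧ (c i - HahnSeries.C lam).order ≤ 0)
    (hs : Spec f 1 t0)
    (h0 : A0.order + ∑ i, (m i : ℚ) * (c i - HahnSeries.C lam).order = 0) (k : ι) :
    (c k - HahnSeries.C lam).order ≠ 0 := by
  intro hk
  have hck : c k ∈ O := by
    have h1 : c k - HahnSeries.C lam ∈ O := mem_of_order hk.ge
    have h2 := add_mem h1 (C_mem lam)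
    rwa [sub_add_cancel] at h2
  have h1 : aeval (![c k, 1, HahnSeries.C t0 + tau] : Fin 3 → L0) f = 0 := by
    rw [value h, Finset.prod_eq_zero (Finset.mem_univ k), mul_zero]
    rw [sub_self, zero_pow (h.pos k).ne']
  have h2 := (aeval_red hck t0 f).2
  rw [h1, HahnSeries.coeff_zero, hs] at h2
  have h3 := value_lam h hlam
  rw [h0] at h3
  have h4 := (aeval_red (C_mem lam) t0 f).2
  rw [coeff_C_zero, hs, ← h2] at h4
  apply h3.1
  rw [← HahnSeries.coeff_order_eq_zero, h3.2]
  exact h4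

end MPb07157.TL
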