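import Pool.Agent.Lib.MP_b07157_agL3.Defs2

/-!
# Roots and their reductions: proofs, second part
-/

noncomputable section

namespace MPb07157.TL.Zb

open MvPolynomial

/-- `x` is integral and reduces to `z`. -/
def Rd (x : L0) (z : ℂ) : Prop := 0 < (x - HahnSeries.C z).orderTop

theorem orderTop_C_nonneg (z : ℂ) : (0 : WithTop ℚ) ≤ (HahnSeries.C z : L0).orderTop :=
  HahnSeries.orderTop_single_le

theorem orderTop_C {z : ℂ} (hz : z ≠ 0) : (HahnSeries.C z : L0).orderTop = 0 :=
  HahnSeries.orderTop_single hz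

theorem zero_lt_top' : (0 : WithTop ℚ) < ⊤ := WithTop.coe_lt_top (0 : ℚ)

theorem rd_C (z : ℂ) : Rd (HahnSeries.C z) z := by
  unfold Rd
  rw [sub_self, HahnSeries.orderTop_zero]
  exact zero_lt_top'

theorem Rd.nonneg {x : L0} {z : ℂ} (h : Rd x z) : 0 ≤ x.orderTop := by
  have h1 : x = (x - HahnSeries.C z) + HahnSeries.C z := by ring
  rw [h1]
  exact le_trans (le_min h.le (orderTop_C_nonneg z)) HahnSeries.min_orderTop_le_orderTop_add

theorem Rd.orderTop_eq {x : L0} {z : ℂ} (h : Rd x z) (hz : z ≠ 0) : x.orderTop = 0 := by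
  have h1 : x = (x - HahnSeries.C z) + HahnSeries.C z := by ring
  have h2 : (HahnSeries.C z : L0).orderTop < (x - HahnSeries.C z).orderTop := by
    rw [orderTop_C hz]
    exact h
  rw [h1, HahnSeries.orderTop_add_eq_right h2, orderTop_C hz]

theorem rd_zero_iff {x : L0} : Rd x 0 ↔ 0 < x.orderTop := by
  unfold Rd
  rw [map_zero, sub_zero]

theorem Rd.uniq {x : L0} {z w : ℂ} (h : Rd x z) (h' : Rd x w) : z = w := by
  by_contra hzw
  have h1 : (HahnSeries.C (z - w) : L0) = (x - HahnSeries.C w) - (x - HahnSeries.C z) := by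
    rw [map_sub]
    ring
  have h2 : 0 < (HahnSeries.C (z - w) : L0).orderTop := by
    rw [h1]
    exact lt_of_lt_of_le (lt_min h' h) HahnSeries.min_orderTop_le_orderTop_sub
  rw [orderTop_C (sub_ne_zero.2 hzw)] at h2
  exact lt_irrefl _ h2

theorem Rd.add {x y : L0} {z w : ℂ} (h : Rd x z) (h' : Rd y w) : Rd (x + y) (z + w) := by
  unfold Rd
  have h1 : x + y - HahnSeries.C (z + w) = (x - HahnSeries.C z) + (y - HahnSeries.C w) := by
    rw [map_add]
    ring
  rw [h1]
  exact lt_of_lt_of_le (lt_min h h') HahnSeries.min_orderTop_le_orderTop_add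

theorem Rd.neg {x : L0} {z : ℂ} (h : Rd x z) : Rd (-x) (-z) := by
  unfold Rd
  have h1 : -x - HahnSeries.C (-z) = -(x - HahnSeries.C z) := by
    rw [map_neg]
    ring
  rw [h1, HahnSeries.orderTop_neg]
  exact h

theorem Rd.sub {x y : L0} {z w : ℂ} (h : Rd x z) (h' : Rd y w) : Rd (x - y) (z - w) := by
  rw [sub_eq_add_neg, sub_eq_add_neg]
  exact h.add h'.neg

theorem Rd.mul {x y : L0} {z w : ℂ} (h : Rd x z) (h' : Rd y w) : Rd (x * y) (z * w) := by
  unfold Rd
  have h1 : x * y - HahnSeries.C (z * w) =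
      (x - HahnSeries.C z) * y + HahnSeries.C z * (y - HahnSeries.C w) := by
    rw [map_mul]
    ring
  rw [h1]
  refine lt_of_lt_of_le (lt_min ?_ ?_) HahnSeries.min_orderTop_le_orderTop_add
  · rw [HahnSeries.orderTop_mul]
    exact lt_of_lt_of_le h (le_add_of_nonneg_right h'.nonneg)
  · rw [HahnSeries.orderTop_mul]
    exact lt_of_lt_of_le h' (le_add_of_nonneg_left (orderTop_C_nonneg z))

theorem Rd.pow {x : L0} {z : ℂ} (h : Rd x z) (n : ℕ) : Rd (x ^ n) (z ^ n) := by
  induction n with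
  | zero =>
    rw [pow_zero, pow_zero]
    have h1 := rd_C 1
    rwa [map_one] at h1
  | succ n ih =>
    rw [pow_succ, pow_succ]
    exact ih.mul h

theorem rd_sum {κ : Type} (s : Finset κ) {x : κ → L0} {z : κ → ℂ} (h : ∀ i ∈ s, Rd (x i) (z i)) :
    Rd (∑ i ∈ s, x i) (∑ i ∈ s, z i) := by
  classical
  induction s using Finset.induction_on with
  | empty =>
    rw [Finset.sum_empty, Finset.sum_empty]
    have h1 := rd_C 0
    rwa [map_zero] at h1
  | insert a s ha ih =>
    rw [Finset.sum_insert ha, Finset.sum_insert ha]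
    exact (h a (Finset.mem_insert_self a s)).add
      (ih fun i hi => h i (Finset.mem_insert_of_mem hi))

theorem rd_coeff {x : L0} (h : 0 ≤ x.orderTop) : Rd x (x.coeff 0) := by
  unfold Rd
  by_cases h0 : x - HahnSeries.C (x.coeff 0) = 0
  · rw [h0, HahnSeries.orderTop_zero]
    exact zero_lt_top'
  have h1 : (0 : WithTop ℚ) ≤ (x - HahnSeries.C (x.coeff 0)).orderTop :=
    le_trans (le_min h (orderTop_C_nonneg _)) HahnSeries.min_orderTop_le_orderTop_sub
  refine lt_of_le_of_ne h1 fun h2 => ?_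
  have h3 : (x - HahnSeries.C (x.coeff 0)).coeff 0 ≠ 0 :=
    HahnSeries.coeff_orderTop_ne h2.symm
  apply h3
  rw [HahnSeries.coeff_sub, HahnSeries.C_apply, HahnSeries.coeff_single_same, sub_self]

theorem Rd.eval {P : Polynomial L0} {p : Polynomial ℂ} (h : ∀ n, Rd (P.coeff n) (p.coeff n))
    {x : L0} {z : ℂ} (hx : Rd x z) : Rd (P.eval x) (p.eval z) := by
  have h1 : P.natDegree < max P.natDegree p.natDegree + 1 :=
    Nat.lt_succ_of_le (le_max_left _ _)
  have h2 : p.natDegree < max P.natDegree p.natDegree + 1 :=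
    Nat.lt_succ_of_le (le_max_right _ _)
  rw [Polynomial.eval_eq_sum_range' h1, Polynomial.eval_eq_sum_range' h2]
  exact rd_sum _ fun i _ => (h i).mul (hx.pow i)

/-- The coefficients of `f(X, 1, t0 + τ)` reduce to those of `f(X, 1, t0)`. -/
theorem rd_PL (f : MvPolynomial (Fin 3) ℂ) (t0 : ℂ) (n : ℕ) :
    Rd ((PL f (HahnSeries.C t0 + tau)).coeff n) ((Uf f 1 t0).coeff n) := by
  unfold PL Uf
  induction f using MvPolynomial.induction_on generalizing n with
  | C a =>
    rw [MvPolynomial.aeval_C, MvPolynomial.aeval_C, Polynomial.algebraMap_apply,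
      Polynomial.algebraMap_apply, Polynomial.coeff_C, Polynomial.coeff_C, algebraMap_L0]
    split_ifs
    · exact rd_C a
    · have h1 := rd_C 0
      rwa [map_zero] at h1
  | add p q hp hq =>
    rw [map_add (aeval ![(Polynomial.X : Polynomial L0), 1, Polynomial.C (HahnSeries.C t0 + tau)])
      p q, map_add (aeval ![(Polynomial.X : Polynomial ℂ), Polynomial.C 1, Polynomial.C t0]) p q,
      Polynomial.coeff_add, Polynomial.coeff_add]
    exact (hp n).add (hq n)
  | mul_X p i hp =>
    rw [map_mul, map_mul, MvPolynomial.aeval_X, MvPolynomial.aeval_X, Polynomial.coeff_mul,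
      Polynomial.coeff_mul]
    refine rd_sum _ fun k _ => (hp k.1).mul ?_
    have h0 : Rd 0 0 := by
      have h1 := rd_C 0
      rwa [map_zero] at h1
    have h1 : Rd 1 1 := by
      have h1 := rd_C 1
      rwa [map_one] at h1
    fin_cases i
    · show Rd ((Polynomial.X : Polynomial L0).coeff k.2) ((Polynomial.X : Polynomial ℂ).coeff k.2)
      rw [Polynomial.coeff_X, Polynomial.coeff_X]
      split_ifs
      · exact h1
      · exact h0
    · show Rd ((1 : Polynomial L0).coeff k.2) ((Polynomial.C (1 : ℂ) : Polynomial ℂ).coeff k.2)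
      rw [Polynomial.coeff_one, Polynomial.coeff_C]
      split_ifs
      · exact h1
      · exact h0
    · show Rd ((Polynomial.C (HahnSeries.C t0 + tau) : Polynomial L0).coeff k.2)
        ((Polynomial.C t0 : Polynomial ℂ).coeff k.2)
      rw [Polynomial.coeff_C, Polynomial.coeff_C]
      split_ifs
      · unfold Rd
        rw [add_sub_cancel_left]
        unfold tau
        rw [HahnSeries.orderTop_single one_ne_zero]
        exact WithTop.coe_lt_coe.2 zero_lt_one
      · exact h0

section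

variable {ι : Type} [Fintype ι]
variable {f : MvPolynomial (Fin 3) ℂ} {t0 : ℂ} {c : ι → L0} {m : ι → ℕ} {A0 : L0}

theorem coeff_top (h : Fac f (HahnSeries.C t0 + tau) c m A0) :
    (PL f (HahnSeries.C t0 + tau)).coeff (∑ i, m i) = A0 ∧
      (PL f (HahnSeries.C t0 + tau)).natDegree = ∑ i, m i := by
  have hmon : (∏ i, (Polynomial.X - Polynomial.C (c i)) ^ m i).Monic :=
    Polynomial.monic_prod_of_monic _ _ fun i _ => (Polynomial.monic_X_sub_C (c i)).pow (m i)
  have hdeg : (∏ i, (Polynomial.X - Polynomial.C (c i)) ^ m i).natDegree = ∑ i, m i := by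
    rw [Polynomial.natDegree_prod_of_monic _ _ fun i _ =>
      (Polynomial.monic_X_sub_C (c i)).pow (m i)]
    refine Finset.sum_congr rfl fun i _ => ?_
    rw [(Polynomial.monic_X_sub_C (c i)).natDegree_pow, Polynomial.natDegree_X_sub_C, mul_one]
  constructor
  · rw [h.eq, Polynomial.coeff_C_mul, ← hdeg, hmon.coeff_natDegree, mul_one]
  · rw [h.eq, Polynomial.natDegree_C_mul h.ne, hdeg]

theorem order_eq_zero {x : L0} (h : x.orderTop = 0) : x.order = 0 := by
  have hx : x ≠ 0 := by
    rintro rfl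
    rw [HahnSeries.orderTop_zero] at h
    exact zero_lt_top'.ne' h
  have h1 := HahnSeries.order_eq_orderTop_of_ne_zero hx
  rw [h] at h1
  exact WithTop.coe_eq_coe.1 h1

theorem orderTop_eq_zero {x : L0} (hx : x ≠ 0) (h : x.order = 0) : x.orderTop = 0 := by
  have h1 := HahnSeries.order_eq_orderTop_of_ne_zero hx
  rw [← h1, h]
  rfl

theorem order_A0_zero (h : Fac f (HahnSeries.C t0 + tau) c m A0) (hm : 0 < ∑ i, m i)
    (hU : (Uf f 1 t0).natDegree = ∑ i, m i) : A0.order = 0 := by
  have h1 := rd_PL f t0 (∑ i, m i)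
  rw [(coeff_top h).1] at h1
  refine order_eq_zero (h1.orderTop_eq ?_)
  rw [← hU]
  have h2 : Uf f 1 t0 ≠ 0 := by
    intro h3
    rw [h3, Polynomial.natDegree_zero] at hU
    omega
  rw [Polynomial.coeff_natDegree]
  exact Polynomial.leadingCoeff_ne_zero.2 h2

theorem eval_PL (h : Fac f (HahnSeries.C t0 + tau) c m A0) (x : L0) :
    (PL f (HahnSeries.C t0 + tau)).eval x = A0 * ∏ i, (x - c i) ^ m i := by
  rw [h.eq, Polynomial.eval_mul, Polynomial.eval_C, Polynomial.eval_prod]
  refine congrArg (fun y => A0 * y) (Finset.prod_congr rfl fun i _ => ?_)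
  rw [Polynomial.eval_pow, Polynomial.eval_sub, Polynomial.eval_X, Polynomial.eval_C]

theorem orderTop_pow_le {x y : L0} (h : x.orderTop ≤ y.orderTop) (n : ℕ) :
    (x ^ n).orderTop ≤ (y ^ n).orderTop := by
  induction n with
  | zero => rw [pow_zero, pow_zero]
  | succ n ih =>
    rw [pow_succ, pow_succ, HahnSeries.orderTop_mul, HahnSeries.orderTop_mul]
    exact add_le_add ih h

theorem orderTop_prod_le {κ : Type} (s : Finset κ) {x y : κ → L0}
    (h : ∀ i ∈ s, (x i).orderTop ≤ (y i).orderTop) :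
    (∏ i ∈ s, x i).orderTop ≤ (∏ i ∈ s, y i).orderTop := by
  classical
  induction s using Finset.induction_on with
  | empty => rw [Finset.prod_empty, Finset.prod_empty]
  | insert a s ha ih =>
    rw [Finset.prod_insert ha, Finset.prod_insert ha, HahnSeries.orderTop_mul,
      HahnSeries.orderTop_mul]
    exact add_le_add (h a (Finset.mem_insert_self a s))
      (ih fun i hi => h i (Finset.mem_insert_of_mem hi))

/-- Each root of `f(X, 1, t0)` is the reduction of a root. -/
theorem exists_red (h : Fac f (HahnSeries.C t0 + tau) c m A0) (hU : Uf f 1 t0 ≠ 0) {z : ℂ}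
    (hz : (Uf f 1 t0).eval z = 0) : ∃ i, Rd (c i) z := by
  by_contra hc
  have hc' : ∀ i, (HahnSeries.C z - c i).orderTop ≤ 0 := by
    intro i
    by_contra h1
    refine hc ⟨i, ?_⟩
    unfold Rd
    rw [← HahnSeries.orderTop_neg, neg_sub]
    exact not_le.1 h1
  obtain ⟨lam, hlam⟩ := Infinite.exists_notMem_finset (Uf f 1 t0).roots.toFinset
  have h1 : (Uf f 1 t0).eval lam ≠ 0 := by
    intro h2
    refine hlam (Multiset.mem_toFinset.2 ?_)
    exact (Polynomial.mem_roots hU).2 h2
  have h2 := (Rd.eval (rd_PL f t0) (rd_C lam)).orderTop_eq h1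
  have h3 := Rd.eval (rd_PL f t0) (rd_C z)
  rw [hz, rd_zero_iff, eval_PL h, HahnSeries.orderTop_mul] at h3
  rw [eval_PL h, HahnSeries.orderTop_mul] at h2
  rw [← h2] at h3
  refine absurd h3 (not_lt.2 (add_le_add le_rfl (orderTop_prod_le _ fun i _ =>
    orderTop_pow_le ?_ (m i))))
  have h4 : HahnSeries.C lam - c i = (HahnSeries.C z - c i) + HahnSeries.C (lam - z) := by
    rw [map_sub]
    ring
  rw [h4]
  exact le_trans (le_min le_rfl (le_trans (hc' i) (orderTop_C_nonneg _)))
    HahnSeries.min_orderTop_le_orderTop_add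

theorem card_roots_le (h : Fac f (HahnSeries.C t0 + tau) c m A0) (hm : 0 < ∑ i, m i)
    (hU : (Uf f 1 t0).natDegree = ∑ i, m i) :
    (Uf f 1 t0).roots.toFinset.card ≤ Fintype.card ι := by
  have h2 : Uf f 1 t0 ≠ 0 := by
    intro h3
    rw [h3, Polynomial.natDegree_zero] at hU
    omega
  have h3 : ∀ z : ℂ, ∃ i : Option ι, z ∈ (Uf f 1 t0).roots.toFinset →
      ∃ j, i = some j ∧ Rd (c j) z := by
    intro z
    by_cases hz : z ∈ (Uf f 1 t0).roots.toFinset
    · obtain ⟨i, hi⟩ := exists_red h h2 ((Polynomial.mem_roots h2).1 (Multiset.mem_toFinset.1 hz))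
      exact ⟨some i, fun _ => ⟨i, rfl, hi⟩⟩
    · exact ⟨none, fun h4 => absurd h4 hz⟩
  choose g hg using h3
  have h4 : (Uf f 1 t0).roots.toFinset.card ≤
      ((Finset.univ : Finset ι).map Function.Embedding.some).card := by
    refine Finset.card_le_card_of_injOn g (fun z hz => ?_) fun z hz w hw hzw => ?_
    · obtain ⟨j, hj, -⟩ := hg z hz
      rw [hj]
      exact Finset.mem_map.2 ⟨j, Finset.mem_univ j, rfl⟩
    · obtain ⟨j, hj, hj'⟩ := hg z hz
      obtain ⟨l, hl, hl'⟩ := hg w hw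
      have h5 : j = l := by
        rw [hj, hl] at hzw
        exact Option.some.inj hzw
      rw [← h5] at hl'
      exact hj'.uniq hl'
  rwa [Finset.card_map, Finset.card_univ] at h4

/-- The roots are integral. -/
theorem nonneg_root (h : Fac f (HahnSeries.C t0 + tau) c m A0) (h0 : A0.order = 0) (i : ι) :
    0 ≤ (c i).orderTop := by
  by_contra hi
  have hi' : (c i).orderTop < 0 := not_le.1 hi
  have hne : c i ≠ 0 := by
    intro h1
    rw [h1, HahnSeries.orderTop_zero] at hi'
    exact absurd hi' (not_lt.2 zero_lt_top'.le)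
  have hy : 0 < ((c i)⁻¹).orderTop := by
    by_contra h1
    have h2 : (c i * (c i)⁻¹).orderTop = 0 := by
      rw [mul_inv_cancel₀ hne, HahnSeries.orderTop_one]
    rw [HahnSeries.orderTop_mul] at h2
    have h3 : (c i).orderTop + ((c i)⁻¹).orderTop ≤ (c i).orderTop + 0 :=
      add_le_add le_rfl (not_lt.1 h1)
    rw [h2, add_zero] at h3
    exact hi h3
  have hy0 : Rd ((c i)⁻¹) 0 := rd_zero_iff.2 hy
  have hP : (PL f (HahnSeries.C t0 + tau)).eval (c i) = 0 := by
    rw [eval_PL h, Finset.prod_eq_zero (Finset.mem_univ i), mul_zero]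
    rw [sub_self, zero_pow (h.pos i).ne']
  obtain ⟨hA, hD⟩ := coeff_top h
  rw [Polynomial.eval_eq_sum_range, hD, Finset.sum_range_succ, hA] at hP
  set M := ∑ i, m i with hM
  have h1 : A0 = -∑ n ∈ Finset.range M,
      (PL f (HahnSeries.C t0 + tau)).coeff n * (c i)⁻¹ ^ (M - n) := by
    have h2 : A0 = (A0 * c i ^ M) * (c i)⁻¹ ^ M := by
      rw [mul_assoc, ← mul_pow, mul_inv_cancel₀ hne, one_pow, mul_one]
    suffices h5 : (∑ n ∈ Finset.range M, (PL f (HahnSeries.C t0 + tau)).coeff n * c i ^ n) *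
        (c i)⁻¹ ^ M = ∑ n ∈ Finset.range M,
          (PL f (HahnSeries.C t0 + tau)).coeff n * (c i)⁻¹ ^ (M - n) by
      rw [← h5]
      linear_combination h2 + (c i)⁻¹ ^ M * hP
    rw [Finset.sum_mul]
    refine Finset.sum_congr rfl fun n hn => ?_
    have h3 : M = n + (M - n) := by
      have := Finset.mem_range.1 hn
      omega
    rw [mul_assoc]
    refine congrArg (fun y => (PL f (HahnSeries.C t0 + tau)).coeff n * y) ?_
    have h4 : (c i)⁻¹ ^ M = (c i)⁻¹ ^ n * (c i)⁻¹ ^ (M - n) := by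
      rw [← pow_add, ← h3]
    rw [h4, ← mul_assoc, ← mul_pow, mul_inv_cancel₀ hne, one_pow, one_mul]
  have h2 : Rd A0 0 := by
    rw [h1]
    have h3 : Rd (∑ n ∈ Finset.range M,
        (PL f (HahnSeries.C t0 + tau)).coeff n * (c i)⁻¹ ^ (M - n))
        (∑ n ∈ Finset.range M, (Uf f 1 t0).coeff n * 0 ^ (M - n)) :=
      rd_sum _ fun n _ => (rd_PL f t0 n).mul (hy0.pow _)
    have h4 : ∑ n ∈ Finset.range M, (Uf f 1 t0).coeff n * (0 : ℂ) ^ (M - n) = 0 := by
      refine Finset.sum_eq_zero fun n hn => ?_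
      have := Finset.mem_range.1 hn
      rw [zero_pow (by omega), mul_zero]
    rw [h4] at h3
    have h5 := h3.neg
    rwa [neg_zero] at h5
  have h3 := rd_zero_iff.1 h2
  rw [orderTop_eq_zero h.ne h0] at h3
  exact lt_irrefl _ h3

theorem le_card_roots (h : Fac f (HahnSeries.C t0 + tau) c m A0) (h0 : A0.order = 0)
    (hc : ∀ i j, i ≠ j → (c i - c j).order = 0) :
    Fintype.card ι ≤ (Uf f 1 t0).roots.toFinset.card := by
  have hU : Uf f 1 t0 ≠ 0 := by
    intro h1
    have h2 := rd_PL f t0 (∑ i, m i)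
    rw [(coeff_top h).1, h1, Polynomial.coeff_zero, rd_zero_iff,
      orderTop_eq_zero h.ne h0] at h2
    exact lt_irrefl _ h2
  have hr : ∀ i, Rd (c i) ((c i).coeff 0) := fun i => rd_coeff (nonneg_root h h0 i)
  rw [← Finset.card_univ]
  refine Finset.card_le_card_of_injOn (fun i => (c i).coeff 0) (fun i _ => ?_)
    fun i _ j _ hij => ?_
  · refine Multiset.mem_toFinset.2 ((Polynomial.mem_roots hU).2 ?_)
    have h1 := Rd.eval (rd_PL f t0) (hr i)
    rw [eval_PL h, Finset.prod_eq_zero (Finset.mem_univ i), mul_zero] at h1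
    · have h2 := rd_C 0
      rw [map_zero] at h2
      exact h1.uniq h2
    · rw [sub_self, zero_pow (h.pos i).ne']
  · by_contra hne
    have hij' : (c i).coeff 0 = (c j).coeff 0 := hij
    have h1 : Rd (c j) ((c i).coeff 0) := by
      rw [hij']
      exact hr j
    have h2 := (hr i).sub h1
    rw [sub_self, rd_zero_iff] at h2
    rw [orderTop_eq_zero (sub_ne_zero.2 fun h3 => hne (h.inj h3)) (hc i j hne)] at h2
    exact lt_irrefl _ h2

theorem exists_pair (h : Fac f (HahnSeries.C t0 + tau) c m A0)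
    (h2 : 2 ≤ (Uf f 1 t0).roots.toFinset.card) : ∃ i j, i ≠ j ∧ (c i - c j).order = 0 := by
  obtain ⟨z, hz, w, hw, hzw⟩ := Finset.one_lt_card.1 (show 1 < _ from h2)
  have hU : Uf f 1 t0 ≠ 0 := by
    intro h1
    rw [h1, Polynomial.roots_zero] at hz
    exact absurd hz (by rw [Multiset.mem_toFinset]; exact Multiset.notMem_zero z)
  obtain ⟨i, hi⟩ := exists_red h hU ((Polynomial.mem_roots hU).1 (Multiset.mem_toFinset.1 hz))
  obtain ⟨j, hj⟩ := exists_red h hU ((Polynomial.mem_roots hU).1 (Multiset.mem_toFinset.1 hw))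
  refine ⟨i, j, ?_, order_eq_zero ((hi.sub hj).orderTop_eq (sub_ne_zero.2 hzw))⟩
  rintro rfl
  exact hzw (hi.uniq hj)

end

end MPb07157.TL.Zb
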