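import Pool.Agent.Lib.MP_b07157_agL3.Defs2
import Pool.Agent.Lib.MP_b07157_agL3.Zb
import Pool.Agent.Lib.MP_b07157_agL3.Za

/-!
# Roots and their reductions
-/

noncomputable section

namespace MPb07157.TL

open MvPolynomial

variable {ι : Type} [Fintype ι] [DecidableEq ι]

/-- A good choice of `lam`. -/
theorem exists_lam (c : ι → L0) (S : Finset ℂ) : ∃ lam : ℂ, lam ∉ S ∧
    ∀ i, c i ≠ HahnSeries.C lam ∧ (c i - HahnSeries.C lam).order ≤ 0 :=
  exists_lam' c S

variable {f : MvPolynomial (Fin 3) ℂ} {t0 : ℂ} {c : ι → L0} {m : ι → ℕ} {A0 : L0}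

theorem order_A0 (h : Fac f (HahnSeries.C t0 + tau) c m A0) {lam : ℂ}
    (hlam : ∀ i, c i ≠ HahnSeries.C lam ∧ (c i - HahnSeries.C lam).order ≤ 0) :
    0 ≤ A0.order + ∑ i, (m i : ℚ) * (c i - HahnSeries.C lam).order :=
  order_A0' h hlam

/-- The case of a special line. -/
theorem order_A0_spec (h : Fac f (HahnSeries.C t0 + tau) c m A0) {lam : ℂ}
    (hlam : ∀ i, c i ≠ HahnSeries.C lam ∧ (c i - HahnSeries.C lam).order ≤ 0)
    (hs : Spec f 1 t0)
    (h0 : A0.order + ∑ i, (m i : ℚ) * (c i - HahnSeries.C lam).order = 0) (k : ι) :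
    (c k - HahnSeries.C lam).order ≠ 0 :=
  order_A0_spec' h hlam hs h0 k

/-- If `f(X, 1, t0)` has full degree, the leading coefficient is a unit. -/
theorem order_A0_zero (h : Fac f (HahnSeries.C t0 + tau) c m A0) (hm : 0 < ∑ i, m i)
    (hU : (Uf f 1 t0).natDegree = ∑ i, m i) : A0.order = 0 :=
  Zb.order_A0_zero h hm hU

/-- The number of the roots of `f(X, 1, t0)` is at most the number of the roots of
`f(X, 1, t0 + τ)`. -/
theorem card_roots_le (h : Fac f (HahnSeries.C t0 + tau) c m A0) (hm : 0 < ∑ i, m i)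
    (hU : (Uf f 1 t0).natDegree = ∑ i, m i) :
    (Uf f 1 t0).roots.toFinset.card ≤ Fintype.card ι :=
  Zb.card_roots_le h hm hU

/-- If the roots do not collide, the numbers are equal. -/
theorem le_card_roots (h : Fac f (HahnSeries.C t0 + tau) c m A0) (h0 : A0.order = 0)
    (hc : ∀ i j, i ≠ j → (c i - c j).order = 0) :
    Fintype.card ι ≤ (Uf f 1 t0).roots.toFinset.card :=
  Zb.le_card_roots h h0 hc

/-- Two different roots of `f(X, 1, t0)` give two roots which do not collide. -/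
theorem exists_pair (h : Fac f (HahnSeries.C t0 + tau) c m A0)
    (h2 : 2 ≤ (Uf f 1 t0).roots.toFinset.card) : ∃ i j, i ≠ j ∧ (c i - c j).order = 0 :=
  Zb.exists_pair h h2

end MPb07157.TL
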