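import Pool.Agent.Lib.MP_b07157_agL3.LTa
import Pool.Agent.Lib.MP_b07157_agL3.E
import Pool.Agent.Lib.MP_b07157_agL3.H
import Pool.Agent.Lib.MP_b07157_agL3.LL
import Pool.Agent.Lib.MP_b07157_agL3.GQ
import Pool.Agent.Lib.MP_b07157_agL3.PLs
import Pool.Agent.Lib.MP_b07157_agL3.J
import Pool.Agent.Lib.MP_b07157_agL3.RF
import Pool.Agent.Lib.MP_b07157_agL3.Z

/-!
# The vector field is regular at the finite places
-/

noncomputable section

namespace MPb07157.TL

open MvPolynomial

variable {F : Type} [Field F] [Algebra L0 F] [Algebra ℂ F] [IsScalarTower ℂ L0 F]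
  {ι : Type} [Fintype ι] [DecidableEq ι]
  {f : MvPolynomial (Fin 3) ℂ} {d : ℕ} {b : Polynomial ℂ} {K : ℕ}
  {θ : Fin 3 → MvPolynomial (Fin 3) (Polynomial ℂ)}
  {t0 : ℂ} {c : ι → L0} {m : ι → ℕ} {A0 : L0} {α : ι → L0}

namespace LTaux

theorem algF (z : ℂ) : algebraMap ℂ F z = algebraMap L0 F (HahnSeries.C z) := by
  rw [IsScalarTower.algebraMap_apply ℂ L0 F, algebraMap_L0]

theorem cO_inj (hc : Function.Injective c) {lam : ℂ} (hl : ∀ i, c i ≠ HahnSeries.C lam) :
    Function.Injective (cO c lam) := by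
  intro i j hij
  cases i with
  | none =>
    cases j with
    | none => rfl
    | some j => exact absurd hij.symm (hl j)
  | some i =>
    cases j with
    | none => exact absurd hij (hl i)
    | some j => exact congrArg some (hc hij)

theorem lg_option (W : WF L0 F) (c : ι → L0) (lam : ℂ) (a : Option ι → L0) :
    lg W (cO c lam) a = lg W c (fun i => a (some i)) +
      algebraMap L0 F (a none) * (W.w - algebraMap L0 F (HahnSeries.C lam))⁻¹ := by
  unfold lg
  rw [Fintype.sum_option, add_comm]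
  rfl

theorem lg_add (W : WF L0 F) (c a a' : ι → L0) :
    lg W c (fun i => a i + a' i) = lg W c a + lg W c a' := by
  unfold lg
  rw [← Finset.sum_add_distrib]
  refine Finset.sum_congr rfl fun i _ => ?_
  rw [map_add, add_mul]

theorem lg_smul (W : WF L0 F) (c a : ι → L0) (z : L0) :
    lg W c (fun i => z * a i) = algebraMap L0 F z * lg W c a := by
  unfold lg
  rw [Finset.mul_sum]
  refine Finset.sum_congr rfl fun i _ => ?_
  rw [map_mul, mul_assoc]

theorem nb_add {D : Derivation L0 F F} {ω x y : F} :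
    nb D ω (x + y) = nb D ω x + nb D ω y := by
  unfold nb
  rw [map_add]
  ring

theorem nb_smul {D : Derivation L0 F F} {ω x : F} {z : L0} :
    nb D ω (algebraMap L0 F z * x) = algebraMap L0 F z * nb D ω x := by
  unfold nb
  rw [Derivation.leibniz, Derivation.map_algebraMap, smul_zero, add_zero, smul_eq_mul]
  ring

theorem nbt_smul {D : Derivation ℂ F F} {ω x : F} {z : ℂ} :
    nb D ω (algebraMap ℂ F z * x) = algebraMap ℂ F z * nb D ω x := by
  unfold nb
  rw [Derivation.leibniz, Derivation.map_algebraMap, smul_zero, add_zero, smul_eq_mul]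
  ring

theorem nbt_add {D : Derivation ℂ F F} {ω x y : F} :
    nb D ω (x + y) = nb D ω x + nb D ω y := by
  unfold nb
  rw [map_add]
  ring

theorem dtau_tau : dtau tau = 1 := by
  ext q
  rw [coeff_dtau]
  unfold tau
  rw [HahnSeries.coeff_single, HahnSeries.coeff_one]
  by_cases hq : q = 0
  · subst hq
    simp
  · rw [if_neg (by intro h; exact hq (by linarith)), if_neg hq, mul_zero]

theorem dtau_T (t0 : ℂ) : dtau (HahnSeries.C t0 + tau) = 1 := by
  rw [map_add, dtau_tau, ← algebraMap_L0, Derivation.map_algebraMap, zero_add]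

/-- The chart identity. -/
def ChartEq (f : MvPolynomial (Fin 3) ℂ) (d K : ℕ)
    (θ : Fin 3 → MvPolynomial (Fin 3) (Polynomial ℂ)) (lam : ℂ) (j : ℕ)
    (p : MvPolynomial (Fin 2) (Polynomial ℂ)) (u : Fin 2 → MvPolynomial (Fin 2) (Polynomial ℂ))
    (dt dw : F → F) (w t : F) (s : ℂ) : Prop :=
  (w - algebraMap ℂ F lam)⁻¹ *
      ((aeval (pt w t) f)⁻¹ ^ K *
        (aeval (pt w t) (spec s (θ 0)) -
          algebraMap ℂ F lam * aeval (pt w t) (spec s (θ 1)))) =
    aeval (pq lam w t) (spec s p * res lam 0 f) +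
      nb dt (algebraMap ℂ F s * (dt (aeval (pt w t) f) / aeval (pt w t) f))
        ((U1 f lam (K + j) u w t).eval (algebraMap ℂ F s)) +
      nb dw (algebraMap ℂ F s * (dw (aeval (pt w t) f) / aeval (pt w t) f) -
          algebraMap ℂ F (d * s + 3) * (w - algebraMap ℂ F lam)⁻¹)
        (-((w - algebraMap ℂ F lam) ^ 2 *
          (aeval (pq lam w t) (res lam 0 f))⁻¹ ^ (K + j) *
          aeval (pq lam w t) (spec s (u 0))))

theorem orderTop_T (t0 : ℂ) : 0 ≤ (HahnSeries.C t0 + tau : L0).orderTop := by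
  refine le_trans ?_ HahnSeries.min_orderTop_le_orderTop_add
  rw [le_min_iff]
  constructor
  · by_cases h : t0 = 0
    · rw [h, map_zero, HahnSeries.orderTop_zero]
      exact le_top
    · have h1 : (HahnSeries.C t0 : L0) = HahnSeries.single 0 t0 := rfl
      rw [h1, HahnSeries.orderTop_single h]
      rfl
  · unfold tau
    rw [HahnSeries.orderTop_single one_ne_zero]
    exact_mod_cast zero_le_one

theorem irr_bound (hf : f.IsHomogeneous d) (h : Thet f d b K θ) (W : WF L0 F) (T : TF W)
    (hT : T.δ = dtau) (hF : Fac f (HahnSeries.C t0 + tau) c m A0) (hd : ∑ i, m i < d) {lam : ℂ}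
    (hlam : ∀ i, c i ≠ HahnSeries.C lam ∧ (c i - HahnSeries.C lam).order ≤ 0) {j' : ℕ}
    {p : MvPolynomial (Fin 2) (Polynomial ℂ)} {u : Fin 2 → MvPolynomial (Fin 2) (Polynomial ℂ)}
    {s : ℂ} (hch : ChartEq f d K θ lam j' p u T.dt W.dw W.w
      (algebraMap L0 F (HahnSeries.C t0 + tau)) s) (hs : ∀ q : ℚ, s ≠ (q : ℂ))
    {a : Option ι → L0} {r : F} (hr : r ∈ SS W (cO c lam))
    (h1 : (B1 f K θ W.w (algebraMap L0 F (HahnSeries.C t0 + tau))).eval (algebraMap ℂ F s) +
      algebraMap ℂ F (d * s + 3) *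
        (U1 f lam (K + j') u W.w (algebraMap L0 F (HahnSeries.C t0 + tau))).eval
          (algebraMap ℂ F s) =
      lg W (cO c lam) (fun i => sg d m s i * a i) + nb W.dw (lg W (cO c lam) (sg d m s)) r)
    {i j : ι} (hij : i ≠ j) :
    0 ≤ (xi c (fun i => a (some i)) i j).orderTop ∧
      (Spec f 1 t0 → ((1 : ℚ) : WithTop ℚ) ≤ (xi c (fun i => a (some i)) i j).orderTop) := by
  have hinj := cO_inj hF.inj (fun i => (hlam i).1)
  have hNR := nonRes_sg (m := m) hF.pos hd hs
  set t : F := algebraMap L0 F (HahnSeries.C t0 + tau) with ht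
  set w : F := W.w with hw
  have hg : aeval (pt w t) f ≠ 0 := g_ne W hF
  have hl : w ≠ algebraMap ℂ F lam := by
    rw [algF]
    exact w_ne W _
  have hE := euler_part hf h (dt := T.dt) (dw := W.dw.restrictScalars ℂ) (w := w) (t := t)
    W.dw_w (W.dw.map_algebraMap _) T.dt_w
    (by rw [ht, T.dt_alg, hT, dtau_T, map_one]) hg hl s
  have hE' : algebraMap ℂ F (b.eval s) =
      nb T.dt (algebraMap ℂ F s * (T.dt (aeval (pt w t) f) / aeval (pt w t) f))
          ((B1 f K θ w t).eval (algebraMap ℂ F s)) +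
        nb W.dw (algebraMap ℂ F s * (W.dw (aeval (pt w t) f) / aeval (pt w t) f) -
            algebraMap ℂ F (d * s + 3) * (w - algebraMap ℂ F lam)⁻¹)
          ((aeval (pt w t) f)⁻¹ ^ K *
            (aeval (pt w t) (spec s (θ 0)) - w * aeval (pt w t) (spec s (θ 1)))) +
        algebraMap ℂ F (d * s + 3) * (w - algebraMap ℂ F lam)⁻¹ *
          ((aeval (pt w t) f)⁻¹ ^ K *
            (aeval (pt w t) (spec s (θ 0)) -
              algebraMap ℂ F lam * aeval (pt w t) (spec s (θ 1)))) := hE
  have hωt := omega_t T hF d lam s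
  have hωw := omega_w W hF d lam s
  unfold ChartEq at hch
  rw [hωt, hωw] at hch hE'
  rw [mul_assoc, hch] at hE'
  obtain ⟨β, ρ, hρ, hq, hβ⟩ := goodQ W hF.inj hlam hF.pos hd hs (orderTop_T t0)
    (C (b.eval s) - C ((d : ℂ) * s + 3) * (spec s p * res lam 0 f))
  have hlamS : algebraMap ℂ F lam ∈ SS W (cO c lam) := by
    rw [algF]
    exact Subalgebra.algebraMap_mem _ _
  have hwS : W.w ∈ SS W (cO c lam) := Algebra.subset_adjoin (Set.mem_insert _ _)
  have hdsS : algebraMap ℂ F ((d : ℂ) * s + 3) ∈ SS W (cO c lam) := by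
    rw [algF]
    exact Subalgebra.algebraMap_mem _ _
  have hgS : (aeval (pt w t) f)⁻¹ ∈ SS W (cO c lam) := SS_le W c lam (g_inv_mem W hF)
  have hV2 : (aeval (pt w t) f)⁻¹ ^ K *
      (aeval (pt w t) (spec s (θ 0)) - w * aeval (pt w t) (spec s (θ 1))) +
      algebraMap ℂ F ((d : ℂ) * s + 3) * (-((w - algebraMap ℂ F lam) ^ 2 *
          (aeval (pq lam w t) (res lam 0 f))⁻¹ ^ (K + j') *
          aeval (pq lam w t) (spec s (u 0)))) ∈ SS W (cO c lam) := by
    refine add_mem (mul_mem (pow_mem hgS _) (sub_mem (pt_mem W _) (mul_mem hwS (pt_mem W _))))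
      (mul_mem hdsS (neg_mem (mul_mem (mul_mem (pow_mem (sub_mem hwS hlamS) _)
        (pow_mem (fl_inv_mem W hf hF lam) _)) (pq_mem W c _ lam _))))
  have h3 : aeval (pq lam w t) (C (b.eval s) - C ((d : ℂ) * s + 3) * (spec s p * res lam 0 f)) =
      nb T.dt (wt T (cO c lam) (sg d m s) (HahnSeries.C s * (T.δ A0 / A0)))
        ((B1 f K θ w t).eval (algebraMap ℂ F s) +
          algebraMap ℂ F ((d : ℂ) * s + 3) * (U1 f lam (K + j') u w t).eval (algebraMap ℂ F s)) +
      nb W.dw (lg W (cO c lam) (sg d m s)) ((aeval (pt w t) f)⁻¹ ^ K *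
      (aeval (pt w t) (spec s (θ 0)) - w * aeval (pt w t) (spec s (θ 1))) +
      algebraMap ℂ F ((d : ℂ) * s + 3) * (-((w - algebraMap ℂ F lam) ^ 2 *
          (aeval (pq lam w t) (res lam 0 f))⁻¹ ^ (K + j') *
          aeval (pq lam w t) (spec s (u 0))))) := by
    rw [nbt_add, nb_add, nbt_smul, algF ((d : ℂ) * s + 3), nb_smul, ← algF, map_sub, map_mul,
      aeval_C, aeval_C, hE']
    ring
  obtain ⟨κ, hκ⟩ := eqE T hinj hNR.1 (fun i => by
    unfold sg
    rw [← algebraMap_L0]
    exact Derivation.map_algebraMap _ _) hV2 hr hρ h1 hq h3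
  have hκ' : ∀ i, eps dtau (cO c lam) (fun i => HahnSeries.C ((aO d m i : ℂ) * s + (bO i : ℂ))) a
      (HahnSeries.C s * (dtau A0 / A0)) i + β i = κ := by
    intro i
    have h5 := (mul_eq_zero.1 (hκ i)).resolve_left (hNR.2 i)
    rw [hT] at h5
    exact sub_eq_zero.1 h5
  have hA := order_A0 hF hlam
  rcases local_lemma hinj hF.ne hs (aO d m) bO hκ' hβ with h6 | ⟨k, l, hkl, hN, h6⟩
  · have h7 := h6 (some i) (some j) (fun h => hij (Option.some_injective _ h))
    refine ⟨le_trans ?_ h7, fun _ => h7⟩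
    exact_mod_cast zero_le_one
  · obtain ⟨h7, h8, k', h9⟩ := Nn_zero hF.inj hlam hF.pos hd hA hkl hN
    have h10 := h6 (some i) (some j) (fun h => hij (Option.some_injective _ h))
    rw [h7, neg_zero] at h10
    exact ⟨h10, fun hsp => absurd h9 (order_A0_spec hF hlam hsp h8 k')⟩

theorem coeff_lin_mul {S : Subalgebra L0 F} {U : Polynomial F} (hU : ∀ k, U.coeff k ∈ S)
    {x y : F} (hx : x ∈ S) (hy : y ∈ S) (k : ℕ) :
    ((Polynomial.C x * Polynomial.X + Polynomial.C y) * U).coeff k ∈ S := by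
  rw [add_mul, Polynomial.coeff_add, Polynomial.coeff_C_mul, mul_assoc, Polynomial.coeff_C_mul]
  refine add_mem (mul_mem hx ?_) (mul_mem hy (hU k))
  cases k with
  | zero =>
    rw [mul_comm, Polynomial.coeff_mul_X_zero]
    exact zero_mem _
  | succ k =>
    rw [mul_comm, Polynomial.coeff_mul_X]
    exact hU k

theorem C_mul_orderTop {z : ℂ} (hz : z ≠ 0) (x : L0) :
    (HahnSeries.C z * x).orderTop = x.orderTop := by
  refine le_antisymm ?_ ?_
  · have h1 : x = (z⁻¹ : ℂ) • (HahnSeries.C z * x) := by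
      rw [← HahnSeries.C_mul_eq_smul, ← mul_assoc, ← map_mul, inv_mul_cancel₀ hz, map_one, one_mul]
    conv_rhs => rw [h1]
    exact HahnSeries.orderTop_le_orderTop_smul _ _
  · rw [HahnSeries.C_mul_eq_smul]
    exact HahnSeries.orderTop_le_orderTop_smul _ _

theorem d_mul_s0 (hd : 0 < d) : (d : ℂ) * s0 d + 3 = 0 := by
  have h1 : (d : ℂ) ≠ 0 := by exact_mod_cast hd.ne'
  unfold s0
  field_simp
  ring

theorem s0_ne (hd : 0 < d) : s0 d ≠ 0 := by
  intro h
  have h1 := d_mul_s0 hd
  rw [h, mul_zero, zero_add] at h1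
  norm_num at h1

theorem nonRes_sg_s0 (hm : ∀ i, 0 < m i) (hd : ∑ i, m i < d)
    (h1 : 3 * ∑ i, m i ≠ d) (h2 : 3 * ∑ i, m i ≠ 2 * d) :
    NonRes (sg d m (s0 d)) := by
  have hd0 : 0 < d := lt_of_le_of_lt (Nat.zero_le _) hd
  have hdC : (d : ℂ) ≠ 0 := by exact_mod_cast hd0.ne'
  have hn : sg d m (s0 d) none = 0 := by
    unfold sg aO bO
    push_cast
    have h3 := d_mul_s0 hd0
    have h4 : -(d : ℂ) * s0 d + -3 = 0 := by linear_combination -h3
    rw [h4, map_zero]
  constructor
  · intro i k hk h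
    cases i with
    | none =>
      rw [hn] at h
      have h3 : ((k : ℕ) : L0) = HahnSeries.C (k : ℂ) := by rw [map_natCast]
      rw [h3, ← map_zero (HahnSeries.C : ℂ →+* L0)] at h
      have h4 := HahnSeries.C_injective h
      exact (Nat.cast_ne_zero.2 hk.ne') h4.symm
    | some i =>
      unfold sg aO bO s0 at h
      have h3 : ((k : ℕ) : L0) = HahnSeries.C (k : ℂ) := by rw [map_natCast]
      rw [h3] at h
      have h4 := HahnSeries.C_injective h
      push_cast at h4
      have h5 : -(3 * (m i : ℂ)) = k * d := by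
        field_simp at h4
        linear_combination h4
      have h6 : -(3 * (m i : ℤ)) = k * d := by exact_mod_cast h5
      have h7 : (0 : ℤ) ≤ k * d := by positivity
      have h8 : (0 : ℤ) ≤ m i := by positivity
      have h9 := hm i
      omega
  · intro k hk h
    rw [Fintype.sum_option, hn, zero_add] at h
    have h3 : ∑ i, sg d m (s0 d) (some i) + (k : L0) =
        HahnSeries.C (s0 d * ((∑ i, m i : ℕ) : ℂ) + k) := by
      rw [map_add, map_natCast, Nat.cast_sum, Finset.mul_sum, map_sum]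
      congr 1
      refine Finset.sum_congr rfl fun i _ => ?_
      unfold sg aO bO
      push_cast
      rw [add_zero, mul_comm]
    rw [h3, ← map_zero (HahnSeries.C : ℂ →+* L0)] at h
    have h4 := HahnSeries.C_injective h
    have h5 : (k : ℂ) * d = 3 * ((∑ i, m i : ℕ) : ℂ) := by
      unfold s0 at h4
      field_simp at h4
      linear_combination h4
    have h6 : k * d = 3 * ∑ i, m i := by exact_mod_cast h5
    have h7 : k = 1 ∨ k = 2 ∨ 3 ≤ k := by omega
    rcases h7 with rfl | rfl | h7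
    · exact h1 (by omega)
    · exact h2 (by omega)
    · have h8 : 3 * d ≤ k * d := Nat.mul_le_mul_right d h7
      omega

end LTaux

open LTaux

/-- The vector field is regular, and it vanishes at the special lines. -/
theorem regular (hf : f.IsHomogeneous d) (h : Thet f d b K θ) (W : WF L0 F)
    (hF : Fac f (HahnSeries.C t0 + tau) c m A0) (hd : ∑ i, m i < d) (h1 : 3 * ∑ i, m i ≠ d)
    (h2 : 3 * ∑ i, m i ≠ 2 * d) (hα : Cl f d K θ W (HahnSeries.C t0 + tau) c m α) {i j : ι}
    (hij : i ≠ j) :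
    0 ≤ (xi c α i j).orderTop ∧
      (Spec f 1 t0 → ((1 : ℚ) : WithTop ℚ) ≤ (xi c α i j).orderTop) := by
  have hd0 : 0 < d := lt_of_le_of_lt (Nat.zero_le _) hd
  have hs0 := s0_ne hd0
  obtain ⟨lam, -, hlam⟩ := exists_lam c ∅
  have hinj := cO_inj hF.inj (fun i => (hlam i).1)
  obtain ⟨T, hT⟩ := exists_TF W dtau
  set t : F := algebraMap L0 F (HahnSeries.C t0 + tau) with ht
  set w : F := W.w with hw
  have hg : aeval (pt w t) f ≠ 0 := g_ne W hF
  have hl : w ≠ algebraMap ℂ F lam := by
    rw [algF]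
    exact w_ne W _
  obtain ⟨j', p, u, hch⟩ := chart_part hf h (dt := T.dt) (dw := W.dw.restrictScalars ℂ)
    (w := w) (t := t) W.dw_w (W.dw.map_algebraMap _) T.dt_w
    (by rw [ht, T.dt_alg, hT, dtau_T, map_one]) hg hl
  have hch' : ∀ s, ChartEq f d K θ lam j' p u T.dt W.dw w t s := hch
  -- Hermite reduction
  set A : Polynomial F := B1 f K θ w t +
    (Polynomial.C (d : F) * Polynomial.X + Polynomial.C 3) * U1 f lam (K + j') u w t with hA
  have hAS : ∀ k, A.coeff k ∈ SS W (cO c lam) := by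
    intro k
    rw [hA, Polynomial.coeff_add]
    refine add_mem (SS_le W c lam (B1_mem W hF K θ k)) (coeff_lin_mul
      (fun k => U1_mem W hf hF lam _ u k) (natCast_mem _ d) ?_ k)
    exact_mod_cast natCast_mem (SS W (cO c lam)) 3
  have hAev : ∀ s : ℂ, A.eval (algebraMap ℂ F s) = (B1 f K θ w t).eval (algebraMap ℂ F s) +
      algebraMap ℂ F (d * s + 3) * (U1 f lam (K + j') u w t).eval (algebraMap ℂ F s) := by
    intro s
    rw [hA, Polynomial.eval_add, Polynomial.eval_mul, Polynomial.eval_add, Polynomial.eval_mul,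
      Polynomial.eval_C, Polynomial.eval_C, Polynomial.eval_X, map_add, map_mul, map_natCast,
      map_ofNat]
  obtain ⟨D, a, hD, hred⟩ := hermite W hinj (sgP d m) A hAS
  have hsgP : ∀ s : ℂ, (fun i => algebraMap ℂ L0 ((sgP d m i).eval s)) = sg d m s := by
    intro s
    funext i
    unfold sgP sg
    rw [Polynomial.eval_add, Polynomial.eval_mul, Polynomial.eval_C, Polynomial.eval_C,
      Polynomial.eval_X, algebraMap_L0]
  -- the value at `s0`
  have hds0 := d_mul_s0 hd0
  have hNR0 := nonRes_sg_s0 (m := m) hF.pos hd h1 h2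
  have hDs0 : D.eval (s0 d) ≠ 0 := hD _ (by rw [hsgP]; exact hNR0)
  obtain ⟨r, hr, hB⟩ := hα
  obtain ⟨r0, hr0, hr0'⟩ := hred (s0 d)
  rw [hsgP, ← IsScalarTower.algebraMap_apply ℂ L0 F (s0 d), hAev, hds0, map_zero, zero_mul,
    add_zero] at hr0'
  set ext : Option ι → L0 := fun i => Option.elim i 0 (fun i => s0m d m i * α i) with hext
  have hlgσ : lg W (cO c lam) (sg d m (s0 d)) = lg W c (s0m d m) := by
    rw [lg_option]
    have h5 : sg d m (s0 d) none = 0 := by
      unfold sg aO bO
      push_cast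
      have h4 : -(d : ℂ) * s0 d + -3 = 0 := by linear_combination -hds0
      rw [h4, map_zero]
    rw [h5, map_zero, zero_mul, add_zero]
    congr 1
    funext i
    unfold sg aO bO s0m
    rw [algebraMap_L0]
    push_cast
    rw [add_zero, mul_comm]
  have hlge : lg W (cO c lam) ext = lg W c (fun i => s0m d m i * α i) := by
    rw [lg_option, hext]
    simp only [Option.elim_none, Option.elim_some, map_zero, zero_mul, add_zero]
  have : CharZero L0 := charZero_of_injective_algebraMap (algebraMap ℂ L0).injective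
  have hu := uniq W hinj hNR0
    (a := fun i => (a i).eval (algebraMap ℂ L0 (s0 d)) + (-HahnSeries.C (D.eval (s0 d))) * ext i)
    (R := algebraMap L0 F (HahnSeries.C (D.eval (s0 d))) * r + algebraMap L0 F (-1) * r0)
    (add_mem (mul_mem (Subalgebra.algebraMap_mem _ _) (SS_le W c lam hr))
      (mul_mem (Subalgebra.algebraMap_mem _ _) hr0)) (by
      rw [LTaux.lg_add, LTaux.lg_smul, hlge, LTaux.nb_add, LTaux.nb_smul, LTaux.nb_smul, map_neg, map_neg,
        map_one]
      rw [hB, algebraMap_L0] at hr0'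
      have h6 : lg W (cO c lam) (fun i => (a i).eval (algebraMap ℂ L0 (s0 d))) =
          algebraMap L0 F (HahnSeries.C (D.eval (s0 d))) *
            (lg W c (fun i => s0m d m i * α i) + nb W.dw (lg W c (s0m d m)) r) -
            nb W.dw (lg W (cO c lam) (sg d m (s0 d))) r0 := by
        rw [hr0']
        ring
      rw [h6, hlgσ]
      ring)
  obtain ⟨κ, -, hκ⟩ := hu
  have ha0 : (a none).eval (algebraMap ℂ L0 (s0 d)) = 0 := by
    have h5 := hκ none
    have h6 : sg d m (s0 d) none = 0 := by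
      unfold sg aO bO
      push_cast
      have h4 : -(d : ℂ) * s0 d + -3 = 0 := by linear_combination -hds0
      rw [h4, map_zero]
    rw [h6, zero_mul, hext] at h5
    simpa using h5
  obtain ⟨Q, hQ⟩ := poly_dvd (a none) (s0 d) ha0
  have hdC : (d : ℂ) ≠ 0 := by exact_mod_cast hd0.ne'
  have hmC : ∀ i, (m i : ℂ) ≠ 0 := fun i => by exact_mod_cast (hF.pos i).ne'
  -- the bound for irrational `s`
  set R : Polynomial L0 := Polynomial.C (c i - c j)⁻¹ *
    (Polynomial.C (HahnSeries.C ((m i : ℂ)⁻¹)) * a (some i) -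
      Polynomial.C (HahnSeries.C ((m j : ℂ)⁻¹)) * a (some j)) with hR
  have hbound : ∀ s : ℂ, (∀ q : ℚ, s ≠ (q : ℂ)) →
      0 ≤ (R.eval (HahnSeries.C s)).orderTop ∧
        (Spec f 1 t0 → ((1 : ℚ) : WithTop ℚ) ≤ (R.eval (HahnSeries.C s)).orderTop) := by
    intro s hs
    have hsne : s ≠ 0 := by
      intro h0
      exact hs 0 (by rw [h0]; norm_num)
    have hNR := nonRes_sg (m := m) hF.pos hd hs
    have hDs : D.eval s ≠ 0 := hD s (by rw [hsgP]; exact hNR.1)
    obtain ⟨rs, hrs, hrs'⟩ := hred s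
    rw [hsgP, ← IsScalarTower.algebraMap_apply ℂ L0 F s, hAev] at hrs'
    set as : Option ι → L0 := fun i => Option.elim i
      (HahnSeries.C (-(d : ℂ)⁻¹ * (D.eval s)⁻¹) * Q.eval (algebraMap ℂ L0 s))
      (fun i => HahnSeries.C ((m i : ℂ)⁻¹ * s⁻¹ * (D.eval s)⁻¹) *
        (a (some i)).eval (algebraMap ℂ L0 s)) with has
    have h7 : ∀ i, sg d m s i * as i =
        HahnSeries.C ((D.eval s)⁻¹) * (a i).eval (algebraMap ℂ L0 s) := by
      intro i
      cases i with
      | none =>
        rw [hQ s, algebraMap_L0, has]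
        unfold sg aO bO
        simp only [Option.elim_none]
        rw [← mul_assoc, ← mul_assoc, ← map_mul, ← map_mul]
        congr 2
        push_cast
        field_simp
        linear_combination hds0
      | some i =>
        rw [has]
        unfold sg aO bO
        simp only [Option.elim_some]
        rw [← mul_assoc, ← map_mul]
        congr 2
        have := hmC i
        push_cast
        field_simp
        ring
    have h8 : (B1 f K θ w t).eval (algebraMap ℂ F s) + algebraMap ℂ F (d * s + 3) *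
        (U1 f lam (K + j') u w t).eval (algebraMap ℂ F s) =
        lg W (cO c lam) (fun i => sg d m s i * as i) +
          nb W.dw (lg W (cO c lam) (sg d m s))
            (algebraMap L0 F (HahnSeries.C ((D.eval s)⁻¹)) * rs) := by
      rw [LTaux.nb_smul]
      have h9 : (fun i => sg d m s i * as i) =
          fun i => HahnSeries.C ((D.eval s)⁻¹) * (a i).eval (algebraMap ℂ L0 s) := funext h7
      rw [h9, LTaux.lg_smul, ← mul_add, ← hrs', algebraMap_L0, ← mul_assoc, ← map_mul, ← map_mul,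
        inv_mul_cancel₀ hDs, map_one, map_one, one_mul]
    have h9 := irr_bound hf h W T hT hF hd hlam (hch' s) hs (mul_mem
      (Subalgebra.algebraMap_mem _ _) hrs) h8 hij
    have h10 : R.eval (HahnSeries.C s) =
        HahnSeries.C (s * D.eval s) * xi c (fun i => as (some i)) i j := by
      rw [hR, has]
      unfold xi
      simp only [Option.elim_some, Polynomial.eval_mul, Polynomial.eval_C, Polynomial.eval_sub]
      have e1 : ∀ i, HahnSeries.C (s * D.eval s) *
          HahnSeries.C ((m i : ℂ)⁻¹ * s⁻¹ * (D.eval s)⁻¹) = (HahnSeries.C ((m i : ℂ)⁻¹) : L0) := by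
        intro i
        have := hmC i
        rw [← map_mul]
        congr 1
        field_simp
      rw [algebraMap_L0, ← e1 i, ← e1 j, div_eq_mul_inv]
      ring
    rw [h10, C_mul_orderTop (mul_ne_zero hsne hDs)]
    exact h9
  -- the value at `s0`
  have hval : R.eval (HahnSeries.C (s0 d)) = HahnSeries.C (s0 d * D.eval (s0 d)) * xi c α i j := by
    have h5 : ∀ i, HahnSeries.C ((m i : ℂ)⁻¹) * (a (some i)).eval (HahnSeries.C (s0 d)) =
        HahnSeries.C (s0 d * D.eval (s0 d)) * α i + HahnSeries.C (s0 d) * κ := by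
      intro i
      have h6 := hκ (some i)
      have h7 : (a (some i)).eval (HahnSeries.C (s0 d)) =
          HahnSeries.C (D.eval (s0 d)) * (s0m d m i * α i) + sg d m (s0 d) (some i) * κ := by
        rw [← h6, hext, algebraMap_L0]
        simp only [Option.elim_some]
        ring
      rw [h7]
      unfold sg aO bO s0m
      rw [algebraMap_L0]
      have := hmC i
      have e1 : HahnSeries.C ((m i : ℂ)⁻¹) * (HahnSeries.C (D.eval (s0 d)) *
          (HahnSeries.C (s0 d * (m i : ℂ)) * α i) +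
          HahnSeries.C ((((m i : ℕ) : ℤ) : ℂ) * s0 d + ((0 : ℤ) : ℂ)) * κ) =
          HahnSeries.C ((m i : ℂ)⁻¹ * (D.eval (s0 d) * (s0 d * (m i : ℂ)))) * α i +
          HahnSeries.C ((m i : ℂ)⁻¹ * ((((m i : ℕ) : ℤ) : ℂ) * s0 d + ((0 : ℤ) : ℂ))) * κ := by
        simp only [map_mul, map_add]
        ring
      refine e1.trans ?_
      congr 3
      · field_simp
      · push_cast
        field_simp
        ring
    rw [hR]
    unfold xi
    simp only [Polynomial.eval_mul, Polynomial.eval_C, Polynomial.eval_sub]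
    rw [h5, h5]
    ring
  constructor
  · have h5 := poly_bound R 0 (fun s hs => (hbound s hs).1) (s0 d)
    rwa [hval, C_mul_orderTop (mul_ne_zero hs0 hDs0)] at h5
  · intro hsp
    have h5 := poly_bound R ((1 : ℚ) : WithTop ℚ) (fun s hs => (hbound s hs).2 hsp) (s0 d)
    rwa [hval, C_mul_orderTop (mul_ne_zero hs0 hDs0)] at h5

end MPb07157.TL
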