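import Pool.Agent.Lib.MP_b07157_agL3.LT
import Pool.Agent.Lib.MP_b07157_agL3.J3
import Pool.Agent.Lib.MP_b07157_agL3.GQ1
import Pool.Agent.Lib.MP_b07157_agL3.EQ0

/-!
# The vector field vanishes at the lines which meet the curve outside `p` in one point
-/

noncomputable section

namespace MPb07157.TL

open MvPolynomial

variable {F : Type} [Field F] [Algebra L0 F] [Algebra ℂ F] [IsScalarTower ℂ L0 F]
  {ι : Type} [Fintype ι] [DecidableEq ι]
  {f : MvPolynomial (Fin 3) ℂ} {d : ℕ} {b : Polynomial ℂ} {K : ℕ}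
  {θ : Fin 3 → MvPolynomial (Fin 3) (Polynomial ℂ)}
  {t0 : ℂ} {c : ι → L0} {m : ι → ℕ} {A0 : L0} {α : ι → L0}

namespace LTBaux

open LTaux

/-- The exponents `s m_i`. -/
def sm (m : ι → ℕ) (s : ℂ) (i : ι) : L0 := algebraMap ℂ L0 (s * (m i : ℂ))

theorem nonRes_sm (hm : ∀ i, 0 < m i) {s : ℂ} (hs : ∀ q : ℚ, s ≠ (q : ℂ)) :
    NonRes (sm m s) ∧ ∀ i, sm m s i ≠ 0 := by
  have hs0 : s ≠ 0 := by
    intro h
    exact hs 0 (by rw [h]; norm_num)
  refine ⟨⟨?_, ?_⟩, ?_⟩
  · intro i k hk h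
    unfold sm at h
    have h3 : ((k : ℕ) : L0) = algebraMap ℂ L0 (k : ℂ) := by rw [map_natCast]
    rw [h3] at h
    have h4 := (algebraMap ℂ L0).injective h
    have h5 : (m i : ℂ) ≠ 0 := by exact_mod_cast (hm i).ne'
    apply hs ((k : ℚ) / m i)
    push_cast
    rw [eq_div_iff h5, h4]
  · intro k hk h
    have h3 : ∑ i, sm m s i + (k : L0) = algebraMap ℂ L0 (s * ((∑ i, m i : ℕ) : ℂ) + k) := by
      unfold sm
      rw [map_add, map_natCast, Nat.cast_sum, Finset.mul_sum, map_sum]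
    rw [h3, ← map_zero (algebraMap ℂ L0)] at h
    have h4 := (algebraMap ℂ L0).injective h
    by_cases h5 : ((∑ i, m i : ℕ) : ℂ) = 0
    · rw [h5, mul_zero, zero_add] at h4
      exact (Nat.cast_ne_zero.2 hk.ne') h4
    · apply hs (-(k : ℚ) / ((∑ i, m i : ℕ) : ℚ))
      push_cast
      push_cast at h5 h4
      rw [eq_div_iff h5]
      linear_combination h4
  · intro i
    unfold sm
    rw [Ne, map_eq_zero_iff _ (algebraMap ℂ L0).injective]
    exact mul_ne_zero hs0 (by exact_mod_cast (hm i).ne')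

theorem irr_boundB (h : Thet f d b K θ) (hf : f.IsHomogeneous d) (W : WF L0 F) (T : TF W)
    (hT : T.δ = dtau) (hF : Fac f (HahnSeries.C t0 + tau) c m A0) (hm : 0 < ∑ i, m i)
    (hU : (Uf f 1 t0).natDegree = ∑ i, m i) (hr1 : (Uf f 1 t0).roots.toFinset.card = 1)
    {j' : ℕ} {p : MvPolynomial (Fin 2) (Polynomial ℂ)}
    {u : Fin 2 → MvPolynomial (Fin 2) (Polynomial ℂ)} {w t : F} (hw : w = W.w)
    (ht : t = algebraMap L0 F (HahnSeries.C t0 + tau)) {s : ℂ}
    (hch : (aeval (pt w t) f)⁻¹ ^ K * aeval (pt w t) (spec s (θ 1)) =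
        aeval ![w, t] (spec s p * resq f) +
          nb T.dt (algebraMap ℂ F s * (T.dt (aeval (pt w t) f) / aeval (pt w t) f))
            ((UB f (K + j') u w t).eval (algebraMap ℂ F s)) +
          nb W.dw (algebraMap ℂ F s * (W.dw (aeval (pt w t) f) / aeval (pt w t) f))
            ((aeval (pt w t) f)⁻¹ ^ (K + j') * aeval ![w, t] (spec s (u 0))))
    (hs : ∀ q : ℚ, s ≠ (q : ℂ)) {a : ι → L0} {r : F} (hr : r ∈ SS W c)
    (h1 : (B1 f K θ w t).eval (algebraMap ℂ F s) +
      algebraMap ℂ F (d * s + 3) * (UB f (K + j') u w t).eval (algebraMap ℂ F s) =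
      lg W c (fun i => sm m s i * a i) + nb W.dw (lg W c (sm m s)) r)
    {i j : ι} (hij : i ≠ j) :
    ((1 : ℚ) : WithTop ℚ) ≤ (xi c a i j).orderTop := by
  have hNR := nonRes_sm (m := m) hF.pos hs
  have hg : aeval (pt w t) f ≠ 0 := by
    rw [hw, ht]
    exact g_ne W hF
  have hE := euler_part1 hf h (dt := T.dt) (dw := W.dw.restrictScalars ℂ) (w := w) (t := t)
    (by rw [hw]; exact W.dw_w) (by rw [ht]; exact W.dw.map_algebraMap _)
    (by rw [hw]; exact T.dt_w) (by rw [ht, T.dt_alg, hT, dtau_T, map_one]) hg s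
  have hE' : algebraMap ℂ F (b.eval s) =
      nb T.dt (algebraMap ℂ F s * (T.dt (aeval (pt w t) f) / aeval (pt w t) f))
          ((B1 f K θ w t).eval (algebraMap ℂ F s)) +
        nb W.dw (algebraMap ℂ F s * (W.dw (aeval (pt w t) f) / aeval (pt w t) f))
          ((aeval (pt w t) f)⁻¹ ^ K *
            (aeval (pt w t) (spec s (θ 0)) - w * aeval (pt w t) (spec s (θ 1)))) +
        algebraMap ℂ F (d * s + 3) *
          ((aeval (pt w t) f)⁻¹ ^ K * aeval (pt w t) (spec s (θ 1))) := hE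
  have hωt : algebraMap ℂ F s * (T.dt (aeval (pt w t) f) / aeval (pt w t) f) =
      wt T c (sm m s) (HahnSeries.C s * (T.δ A0 / A0)) := by
    rw [hw, ht]
    exact omega_t0 T hF s
  have hωw : algebraMap ℂ F s * (W.dw (aeval (pt w t) f) / aeval (pt w t) f) =
      lg W c (sm m s) := by
    rw [hw, ht]
    exact omega_w0 W hF s
  rw [hωt, hωw] at hch hE'
  rw [hch] at hE'
  obtain ⟨β, ρ, hρ, hq, hβ⟩ := goodQ1 W hF.inj (orderTop_root hF hm hU) (m := m) hs
    (orderTop_T t0) (C (b.eval s) - C ((d : ℂ) * s + 3) * (spec s p * resq f))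
  rw [← hw, ← ht] at hq
  have hwS : w ∈ SS W c := by
    rw [hw]
    exact Algebra.subset_adjoin (Set.mem_insert _ _)
  have htS : t ∈ SS W c := by
    rw [ht]
    exact Subalgebra.algebraMap_mem _ _
  have hdsS : algebraMap ℂ F ((d : ℂ) * s + 3) ∈ SS W c := by
    rw [algF]
    exact Subalgebra.algebraMap_mem _ _
  have hgS : (aeval (pt w t) f)⁻¹ ∈ SS W c := by
    rw [hw, ht]
    exact g_inv_mem W hF
  have hpS : ∀ q : MvPolynomial (Fin 3) ℂ, aeval (pt w t) q ∈ SS W c := by
    intro q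
    rw [hw, ht]
    exact pt_mem W q
  have hwt : ∀ q : MvPolynomial (Fin 2) ℂ, aeval ![w, t] q ∈ SS W c := by
    intro q
    induction q using MvPolynomial.induction_on with
    | C z =>
      rw [aeval_C, algF]
      exact Subalgebra.algebraMap_mem _ _
    | add p q hp hq =>
      rw [map_add]
      exact add_mem hp hq
    | mul_X p i hp =>
      rw [map_mul, aeval_X]
      refine mul_mem hp ?_
      fin_cases i
      · exact hwS
      · exact htS
  have hV2 : (aeval (pt w t) f)⁻¹ ^ K *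
      (aeval (pt w t) (spec s (θ 0)) - w * aeval (pt w t) (spec s (θ 1))) +
      algebraMap ℂ F ((d : ℂ) * s + 3) *
        ((aeval (pt w t) f)⁻¹ ^ (K + j') * aeval ![w, t] (spec s (u 0))) ∈ SS W c :=
    add_mem (mul_mem (pow_mem hgS _) (sub_mem (hpS _) (mul_mem hwS (hpS _))))
      (mul_mem hdsS (mul_mem (pow_mem hgS _) (hwt _)))
  have h3 : aeval ![w, t] (C (b.eval s) - C ((d : ℂ) * s + 3) * (spec s p * resq f)) =
      nb T.dt (wt T c (sm m s) (HahnSeries.C s * (T.δ A0 / A0)))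
        ((B1 f K θ w t).eval (algebraMap ℂ F s) +
          algebraMap ℂ F ((d : ℂ) * s + 3) * (UB f (K + j') u w t).eval (algebraMap ℂ F s)) +
      nb W.dw (lg W c (sm m s)) ((aeval (pt w t) f)⁻¹ ^ K *
      (aeval (pt w t) (spec s (θ 0)) - w * aeval (pt w t) (spec s (θ 1))) +
      algebraMap ℂ F ((d : ℂ) * s + 3) *
        ((aeval (pt w t) f)⁻¹ ^ (K + j') * aeval ![w, t] (spec s (u 0)))) := by
    rw [nbt_add, nb_add, nbt_smul, algF ((d : ℂ) * s + 3), nb_smul, ← algF, map_sub, map_mul,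
      aeval_C, aeval_C, hE']
    ring
  obtain ⟨κ, hκ⟩ := eqE T hF.inj hNR.1 (fun i => by
    unfold sm
    exact Derivation.map_algebraMap _ _) hV2 hr hρ h1 hq h3
  have hsmf : (sm m s : ι → L0) =
      fun i => HahnSeries.C ((((m i : ℕ) : ℤ) : ℂ) * s + ((0 : ℤ) : ℂ)) := by
    funext i
    unfold sm
    rw [algebraMap_L0]
    push_cast
    rw [add_zero, mul_comm]
  have hκ' : ∀ i, eps dtau c
      (fun i => HahnSeries.C ((((m i : ℕ) : ℤ) : ℂ) * s + ((0 : ℤ) : ℂ))) a
      (HahnSeries.C s * (dtau A0 / A0)) i + β i = κ := by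
    intro i
    have h5 := (mul_eq_zero.1 (hκ i)).resolve_left (hNR.2 i)
    rw [hT, hsmf] at h5
    exact sub_eq_zero.1 h5
  have hA := order_A0_zero hF hm hU
  rcases local_lemma hF.inj hF.ne hs (fun i => (m i : ℤ)) (fun _ => 0) hκ' hβ with
    h6 | ⟨k, l, hkl, hN, h6⟩
  · exact h6 i j hij
  · exact absurd hN (Nn_pos hF.inj hF.pos hA
      (fun i j hij => order_collide hF hm hU hr1 hij) hkl)

end LTBaux

open LTaux LTBaux

/-- The vector field vanishes at the lines which are not tangent at `p` and meet the curve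
outside `p` in one point only. -/
theorem regularB (hf : f.IsHomogeneous d) (h : Thet f d b K θ) (hC : Ch f K (θ 1)) (W : WF L0 F)
    (hF : Fac f (HahnSeries.C t0 + tau) c m A0) (hd : ∑ i, m i < d) (h1 : 3 * ∑ i, m i ≠ d)
    (h2 : 3 * ∑ i, m i ≠ 2 * d) (hα : Cl f d K θ W (HahnSeries.C t0 + tau) c m α)
    (hm : 0 < ∑ i, m i) (hU : (Uf f 1 t0).natDegree = ∑ i, m i)
    (hr : (Uf f 1 t0).roots.toFinset.card = 1) {i j : ι} (hij : i ≠ j) :
    ((1 : ℚ) : WithTop ℚ) ≤ (xi c α i j).orderTop := by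
  have hd0 : 0 < d := lt_of_le_of_lt (Nat.zero_le _) hd
  have hs0 := s0_ne hd0
  obtain ⟨T, hT⟩ := exists_TF W dtau
  set t : F := algebraMap L0 F (HahnSeries.C t0 + tau) with ht
  set w : F := W.w with hw
  have hg : aeval (pt w t) f ≠ 0 := g_ne W hF
  obtain ⟨j', p, u, hch⟩ := chart_part1 hC (dt := T.dt) (dw := W.dw.restrictScalars ℂ)
    (w := w) (t := t) W.dw_w (W.dw.map_algebraMap _) T.dt_w
    (by rw [ht, T.dt_alg, hT, dtau_T, map_one]) hg
  have htS : t ∈ SS W c := Subalgebra.algebraMap_mem _ _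
  have hwS : w ∈ SS W c := Algebra.subset_adjoin (Set.mem_insert _ _)
  have hwt : ∀ q : MvPolynomial (Fin 2) (Polynomial ℂ), ∀ k,
      (EV ![w, t] q).coeff k ∈ SS W c := by
    intro q
    induction q using MvPolynomial.induction_on with
    | C z =>
      intro k
      unfold EV
      rw [coe_eval₂Hom, eval₂_C, Polynomial.coe_mapRingHom, Polynomial.coeff_map, algF]
      exact Subalgebra.algebraMap_mem _ _
    | add p q hp hq =>
      intro k
      rw [map_add, Polynomial.coeff_add]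
      exact add_mem (hp k) (hq k)
    | mul_X p i hp =>
      intro k
      rw [map_mul]
      have h5 : EV ![w, t] (X i) = Polynomial.C (![w, t] i) := by
        unfold EV
        rw [coe_eval₂Hom, eval₂_X]
      rw [h5, Polynomial.coeff_mul_C]
      refine mul_mem (hp k) ?_
      fin_cases i
      · exact hwS
      · exact htS
  -- Hermite reduction
  set A : Polynomial F := B1 f K θ w t +
    (Polynomial.C (d : F) * Polynomial.X + Polynomial.C 3) * UB f (K + j') u w t with hA
  have hAS : ∀ k, A.coeff k ∈ SS W c := by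
    intro k
    rw [hA, Polynomial.coeff_add]
    refine add_mem (B1_mem W hF K θ k) (coeff_lin_mul (fun k => ?_) (natCast_mem _ d) ?_ k)
    · unfold UB
      rw [Polynomial.coeff_C_mul]
      exact mul_mem (pow_mem (g_inv_mem W hF) _) (hwt _ _)
    · exact_mod_cast natCast_mem (SS W c) 3
  have hAev : ∀ s : ℂ, A.eval (algebraMap ℂ F s) = (B1 f K θ w t).eval (algebraMap ℂ F s) +
      algebraMap ℂ F (d * s + 3) * (UB f (K + j') u w t).eval (algebraMap ℂ F s) := by
    intro s
    rw [hA, Polynomial.eval_add, Polynomial.eval_mul, Polynomial.eval_add, Polynomial.eval_mul,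
      Polynomial.eval_C, Polynomial.eval_C, Polynomial.eval_X, map_add, map_mul, map_natCast,
      map_ofNat]
  obtain ⟨D, a, hD, hred⟩ := hermite W hF.inj
    (fun i => Polynomial.C (m i : ℂ) * Polynomial.X) A hAS
  have hsmP : ∀ s : ℂ, (fun i => algebraMap ℂ L0
      ((Polynomial.C (m i : ℂ) * Polynomial.X).eval s)) = sm m s := by
    intro s
    funext i
    unfold sm
    rw [Polynomial.eval_mul, Polynomial.eval_C, Polynomial.eval_X, mul_comm]
  have hsm0 : (sm m (s0 d) : ι → L0) = s0m d m := rfl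
  -- the value at `s0`
  have hds0 := d_mul_s0 hd0
  have hNR0 := nonRes_s0 (L := L0) hF.pos hd h1 h2
  have hDs0 : D.eval (s0 d) ≠ 0 := hD _ (by rw [hsmP, hsm0]; exact hNR0.1)
  obtain ⟨r, hr', hB⟩ := hα
  obtain ⟨r0, hr0, hr0'⟩ := hred (s0 d)
  rw [hsmP, ← IsScalarTower.algebraMap_apply ℂ L0 F (s0 d), hAev, hds0, map_zero, zero_mul,
    add_zero, hsm0] at hr0'
  have : CharZero L0 := charZero_of_injective_algebraMap (algebraMap ℂ L0).injective
  have hu := uniq W hF.inj hNR0.1
    (a := fun i => (a i).eval (algebraMap ℂ L0 (s0 d)) +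
      (-HahnSeries.C (D.eval (s0 d))) * (s0m d m i * α i))
    (R := algebraMap L0 F (HahnSeries.C (D.eval (s0 d))) * r + algebraMap L0 F (-1) * r0)
    (add_mem (mul_mem (Subalgebra.algebraMap_mem _ _) hr')
      (mul_mem (Subalgebra.algebraMap_mem _ _) hr0)) (by
      rw [LTaux.lg_add, LTaux.lg_smul, LTaux.nb_add, LTaux.nb_smul, LTaux.nb_smul, map_neg,
        map_neg, map_one]
      rw [hB, algebraMap_L0] at hr0'
      have h6 : lg W c (fun i => (a i).eval (algebraMap ℂ L0 (s0 d))) =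
          algebraMap L0 F (HahnSeries.C (D.eval (s0 d))) *
            (lg W c (fun i => s0m d m i * α i) + nb W.dw (lg W c (s0m d m)) r) -
            nb W.dw (lg W c (s0m d m)) r0 := by
        rw [hr0']
        ring
      rw [h6]
      ring)
  obtain ⟨κ, -, hκ⟩ := hu
  have hmC : ∀ i, (m i : ℂ) ≠ 0 := fun i => by exact_mod_cast (hF.pos i).ne'
  set R : Polynomial L0 := Polynomial.C (c i - c j)⁻¹ *
    (Polynomial.C (HahnSeries.C ((m i : ℂ)⁻¹)) * a i -
      Polynomial.C (HahnSeries.C ((m j : ℂ)⁻¹)) * a j) with hR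
  have hbound : ∀ s : ℂ, (∀ q : ℚ, s ≠ (q : ℂ)) →
      ((1 : ℚ) : WithTop ℚ) ≤ (R.eval (HahnSeries.C s)).orderTop := by
    intro s hs
    have hsne : s ≠ 0 := by
      intro h0
      exact hs 0 (by rw [h0]; norm_num)
    have hNR := nonRes_sm (m := m) hF.pos hs
    have hDs : D.eval s ≠ 0 := hD s (by rw [hsmP]; exact hNR.1)
    obtain ⟨rs, hrs, hrs'⟩ := hred s
    rw [hsmP, ← IsScalarTower.algebraMap_apply ℂ L0 F s, hAev] at hrs'
    set as : ι → L0 := fun i => HahnSeries.C ((m i : ℂ)⁻¹ * s⁻¹ * (D.eval s)⁻¹) *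
        (a i).eval (algebraMap ℂ L0 s) with has
    have h7 : ∀ i, sm m s i * as i =
        HahnSeries.C ((D.eval s)⁻¹) * (a i).eval (algebraMap ℂ L0 s) := by
      intro i
      rw [has]
      unfold sm
      simp only []
      rw [algebraMap_L0, ← mul_assoc, ← map_mul]
      congr 2
      have := hmC i
      field_simp
    have h8 : (B1 f K θ w t).eval (algebraMap ℂ F s) + algebraMap ℂ F (d * s + 3) *
        (UB f (K + j') u w t).eval (algebraMap ℂ F s) =
        lg W c (fun i => sm m s i * as i) +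
          nb W.dw (lg W c (sm m s)) (algebraMap L0 F (HahnSeries.C ((D.eval s)⁻¹)) * rs) := by
      rw [LTaux.nb_smul]
      have h9 : (fun i => sm m s i * as i) =
          fun i => HahnSeries.C ((D.eval s)⁻¹) * (a i).eval (algebraMap ℂ L0 s) := funext h7
      rw [h9, LTaux.lg_smul, ← mul_add, ← hrs', algebraMap_L0, ← mul_assoc, ← map_mul, ← map_mul,
        inv_mul_cancel₀ hDs, map_one, map_one, one_mul]
    have h9 := irr_boundB h hf W T hT hF hm hU hr hw ht (hch s) hs (mul_mem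
      (Subalgebra.algebraMap_mem _ _) hrs) h8 hij
    have h10 : R.eval (HahnSeries.C s) =
        HahnSeries.C (s * D.eval s) * xi c as i j := by
      rw [hR, has]
      unfold xi
      simp only [Polynomial.eval_mul, Polynomial.eval_C, Polynomial.eval_sub]
      have e1 : ∀ i, HahnSeries.C (s * D.eval s) *
          HahnSeries.C ((m i : ℂ)⁻¹ * s⁻¹ * (D.eval s)⁻¹) = (HahnSeries.C ((m i : ℂ)⁻¹) : L0) := by
        intro i
        have := hmC i
        rw [← map_mul]
        congr 1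
        field_simp
      rw [algebraMap_L0, ← e1 i, ← e1 j, div_eq_mul_inv]
      ring
    rw [h10, C_mul_orderTop (mul_ne_zero hsne hDs)]
    exact h9
  have hval : R.eval (HahnSeries.C (s0 d)) = HahnSeries.C (s0 d * D.eval (s0 d)) * xi c α i j := by
    have h5 : ∀ i, HahnSeries.C ((m i : ℂ)⁻¹) * (a i).eval (HahnSeries.C (s0 d)) =
        HahnSeries.C (s0 d * D.eval (s0 d)) * α i + HahnSeries.C (s0 d) * κ := by
      intro i
      have h6 := hκ i
      have h7 : (a i).eval (HahnSeries.C (s0 d)) =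
          HahnSeries.C (D.eval (s0 d)) * (s0m d m i * α i) + s0m d m i * κ := by
        rw [← h6, algebraMap_L0]
        ring
      rw [h7]
      unfold s0m
      rw [algebraMap_L0]
      have := hmC i
      have e1 : HahnSeries.C ((m i : ℂ)⁻¹) * (HahnSeries.C (D.eval (s0 d)) *
          (HahnSeries.C (s0 d * (m i : ℂ)) * α i) + HahnSeries.C (s0 d * (m i : ℂ)) * κ) =
          HahnSeries.C ((m i : ℂ)⁻¹ * (D.eval (s0 d) * (s0 d * (m i : ℂ)))) * α i +
          HahnSeries.C ((m i : ℂ)⁻¹ * (s0 d * (m i : ℂ))) * κ := by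
        simp only [map_mul]
        ring
      refine e1.trans ?_
      congr 3
      · field_simp
      · field_simp
    rw [hR]
    unfold xi
    simp only [Polynomial.eval_mul, Polynomial.eval_C, Polynomial.eval_sub]
    rw [h5, h5]
    ring
  have h5 := poly_bound R ((1 : ℚ) : WithTop ℚ) hbound (s0 d)
  rwa [hval, C_mul_orderTop (mul_ne_zero hs0 hDs0)] at h5

end MPb07157.TL
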