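import Pool.Agent.Lib.MP_b07157_agL3.Defs2

/-!
# Logarithmic derivatives and membership: auxiliary lemmas
-/

noncomputable section

namespace MPb07157.TL

open MvPolynomial

namespace LTaA

section ld

variable {R F : Type} [CommRing R] [Field F] [Algebra R F]

theorem ld_mul (D : Derivation R F F) {x y : F} (hx : x ≠ 0) (hy : y ≠ 0) :
    D (x * y) / (x * y) = D x / x + D y / y := by
  rw [D.leibniz, smul_eq_mul, smul_eq_mul]
  field_simp
  ring

theorem ld_pow (D : Derivation R F F) {x : F} (hx : x ≠ 0) (n : ℕ) :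
    D (x ^ n) / x ^ n = n * (D x / x) := by
  induction n with
  | zero => simp
  | succ n ih =>
    rw [pow_succ, ld_mul D (pow_ne_zero n hx) hx, ih]
    push_cast
    ring

theorem ld_prod (D : Derivation R F F) {ι : Type} (s : Finset ι) (x : ι → F)
    (hx : ∀ i, x i ≠ 0) : D (∏ i ∈ s, x i) / ∏ i ∈ s, x i = ∑ i ∈ s, D (x i) / x i := by
  classical
  induction s using Finset.induction_on with
  | empty => simp
  | insert i s hi ih =>
    rw [Finset.prod_insert hi, Finset.sum_insert hi,
      ld_mul D (hx i) (Finset.prod_ne_zero_iff.2 fun j _ => hx j), ih]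

end ld

section mem

variable {L F : Type} [Field L] [Field F] [Algebra L F] [Algebra ℂ L] [Algebra ℂ F]
  [IsScalarTower ℂ L F]

theorem const_mem (S : Subalgebra L F) (z : ℂ) : algebraMap ℂ F z ∈ S := by
  rw [IsScalarTower.algebraMap_apply ℂ L F]
  exact S.algebraMap_mem _

theorem aeval_mem (S : Subalgebra L F) {n : ℕ} {x : Fin n → F} (hx : ∀ i, x i ∈ S)
    (p : MvPolynomial (Fin n) ℂ) : aeval x p ∈ S := by
  induction p using MvPolynomial.induction_on with
  | C a =>
    rw [MvPolynomial.aeval_C]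
    exact const_mem S a
  | add p q hp hq =>
    rw [map_add]
    exact S.add_mem hp hq
  | mul_X p i hp =>
    rw [map_mul, MvPolynomial.aeval_X]
    exact S.mul_mem hp (hx i)

theorem EV_mem (S : Subalgebra L F) {n : ℕ} {x : Fin n → F} (hx : ∀ i, x i ∈ S)
    (p : MvPolynomial (Fin n) (Polynomial ℂ)) (k : ℕ) : (EV x p).coeff k ∈ S := by
  induction p using MvPolynomial.induction_on with
  | C a =>
    have h1 : EV x (C a) = Polynomial.map (algebraMap ℂ F) a := by
      unfold EV
      rw [coe_eval₂Hom, eval₂_C]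
      rfl
    rw [h1, Polynomial.coeff_map]
    exact const_mem S _
  | add p q hp hq =>
    rw [map_add, Polynomial.coeff_add]
    exact S.add_mem hp hq
  | mul_X p i hp =>
    have h1 : EV x (X i) = Polynomial.C (x i) := by
      unfold EV
      rw [coe_eval₂Hom, eval₂_X]
    rw [map_mul, h1, Polynomial.coeff_mul_C]
    exact S.mul_mem hp (hx i)

end mem

variable {L F : Type} [Field L] [Field F] [Algebra L F] {ι : Type}

theorem w_mem (W : WF L F) (c : ι → L) : W.w ∈ SS W c :=
  Algebra.subset_adjoin (Set.mem_insert _ _)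

theorem inv_mem (W : WF L F) (c : ι → L) (i : ι) :
    (W.w - algebraMap L F (c i))⁻¹ ∈ SS W c :=
  Algebra.subset_adjoin (Set.mem_insert_of_mem _ ⟨i, rfl⟩)

theorem pt_coord (W : WF L F) (c : ι → L) (t : L) (i : Fin 3) :
    pt W.w (algebraMap L F t) i ∈ SS W c := by
  fin_cases i
  · exact w_mem W c
  · exact (SS W c).one_mem
  · exact (SS W c).algebraMap_mem t

variable [Fintype ι] [Algebra ℂ L] [Algebra ℂ F] [IsScalarTower ℂ L F]
  {f : MvPolynomial (Fin 3) ℂ} {t : L} {c : ι → L} {m : ι → ℕ} {A0 : L}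

theorem aeval_PL (W : WF L F) : aeval (pt W.w (algebraMap L F t)) f =
    ((Polynomial.aeval W.w).restrictScalars ℂ : Polynomial L →ₐ[ℂ] F) (PL f t) := by
  unfold PL
  rw [← AlgHom.comp_apply, MvPolynomial.comp_aeval]
  have h1 : (pt W.w (algebraMap L F t)) = fun i =>
      ((Polynomial.aeval W.w).restrictScalars ℂ : Polynomial L →ₐ[ℂ] F)
        ((![Polynomial.X, 1, Polynomial.C t] : Fin 3 → Polynomial L) i) := by
    funext i
    fin_cases i
    · simp [pt]
    · simp [pt]
    · simp [pt]
  rw [h1]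

theorem g_eq (W : WF L F) (h : Fac f t c m A0) :
    aeval (pt W.w (algebraMap L F t)) f =
      algebraMap L F A0 * ∏ i, (W.w - algebraMap L F (c i)) ^ m i := by
  rw [aeval_PL, h.eq, AlgHom.restrictScalars_apply, map_mul, map_prod, Polynomial.aeval_C]
  refine congrArg _ (Finset.prod_congr rfl fun i _ => ?_)
  rw [map_pow, map_sub, Polynomial.aeval_X, Polynomial.aeval_C]

theorem g_inv (W : WF L F) (h : Fac f t c m A0) :
    (aeval (pt W.w (algebraMap L F t)) f)⁻¹ ∈ SS W c := by
  rw [g_eq W h, mul_inv, ← map_inv₀, ← Finset.prod_inv_distrib]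
  refine (SS W c).mul_mem ((SS W c).algebraMap_mem _) ((SS W c).prod_mem fun i _ => ?_)
  rw [← inv_pow]
  exact (SS W c).pow_mem (inv_mem W c i) _

end LTaA

end MPb07157.TL
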