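import Pool.Agent.Lib.MP_b07157_agL3.Defs2
import Pool.Agent.Lib.MP_b07157_agL3.LTaa

/-!
# Logarithmic derivatives and membership
-/

noncomputable section

namespace MPb07157.TL

open MvPolynomial

section

variable {L F : Type} [Field L] [Field F] [Algebra L F] [Algebra ℂ L] [Algebra ℂ F]
  [IsScalarTower ℂ L F] {ι : Type} [Fintype ι] [DecidableEq ι]
  {f : MvPolynomial (Fin 3) ℂ} {t : L} {c : ι → L} {m : ι → ℕ} {A0 : L}

theorem w_ne (W : WF L F) (a : L) : W.w ≠ algebraMap L F a := by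
  intro h
  have h1 : Polynomial.aeval W.w (Polynomial.X : Polynomial L) =
      Polynomial.aeval W.w (Polynomial.C a) := by
    rw [Polynomial.aeval_X, Polynomial.aeval_C]
    exact h
  exact Polynomial.X_ne_C a (W.inj h1)

theorem g_eq (W : WF L F) (h : Fac f t c m A0) :
    aeval (pt W.w (algebraMap L F t)) f =
      algebraMap L F A0 * ∏ i, (W.w - algebraMap L F (c i)) ^ m i := by
  exact LTaA.g_eq W h

theorem g_ne (W : WF L F) (h : Fac f t c m A0) : aeval (pt W.w (algebraMap L F t)) f ≠ 0 := by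
  rw [g_eq W h]
  exact mul_ne_zero ((map_ne_zero _).2 h.ne)
    (Finset.prod_ne_zero_iff.2 fun i _ => pow_ne_zero _ (sub_ne_zero.2 (w_ne W _)))

theorem omega_w0 (W : WF L F) (h : Fac f t c m A0) (a : ℂ) :
    algebraMap ℂ F a * (W.dw (aeval (pt W.w (algebraMap L F t)) f) /
        aeval (pt W.w (algebraMap L F t)) f) =
      lg W c (fun i => algebraMap ℂ L (a * (m i : ℂ))) := by
  have hw : ∀ i, W.w - algebraMap L F (c i) ≠ 0 := fun i => sub_ne_zero.2 (w_ne W _)
  rw [g_eq W h, LTaA.ld_mul W.dw ((map_ne_zero _).2 h.ne)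
    (Finset.prod_ne_zero_iff.2 fun i _ => pow_ne_zero _ (hw i)),
    LTaA.ld_prod W.dw _ _ (fun i => pow_ne_zero _ (hw i)), Derivation.map_algebraMap, zero_div,
    zero_add, Finset.mul_sum]
  unfold lg
  refine Finset.sum_congr rfl fun i _ => ?_
  rw [LTaA.ld_pow W.dw (hw i), map_sub, Derivation.map_algebraMap, sub_zero, W.dw_w, one_div,
    ← IsScalarTower.algebraMap_apply, map_mul, map_natCast, mul_assoc]

theorem omega_t0 {W : WF L F} (T : TF W) (h : Fac f t c m A0) (a : ℂ) :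
    algebraMap ℂ F a * (T.dt (aeval (pt W.w (algebraMap L F t)) f) /
        aeval (pt W.w (algebraMap L F t)) f) =
      wt T c (fun i => algebraMap ℂ L (a * (m i : ℂ))) (algebraMap ℂ L a * (T.δ A0 / A0)) := by
  have hw : ∀ i, W.w - algebraMap L F (c i) ≠ 0 := fun i => sub_ne_zero.2 (w_ne W _)
  rw [g_eq W h, LTaA.ld_mul T.dt ((map_ne_zero _).2 h.ne)
    (Finset.prod_ne_zero_iff.2 fun i _ => pow_ne_zero _ (hw i)),
    LTaA.ld_prod T.dt _ _ (fun i => pow_ne_zero _ (hw i)), T.dt_alg, mul_add, Finset.mul_sum]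
  unfold wt lg
  rw [sub_eq_add_neg, ← Finset.sum_neg_distrib, map_mul, map_div₀,
    ← IsScalarTower.algebraMap_apply]
  refine congrArg _ (Finset.sum_congr rfl fun i _ => ?_)
  have h2 : algebraMap L F (algebraMap ℂ L (a * (m i : ℂ))) = algebraMap ℂ F a * (m i : F) := by
    rw [← IsScalarTower.algebraMap_apply, map_mul, map_natCast]
  change _ = -(algebraMap L F (algebraMap ℂ L (a * (m i : ℂ)) * T.δ (c i)) *
    (W.w - algebraMap L F (c i))⁻¹)
  rw [LTaA.ld_pow T.dt (hw i), map_sub, T.dt_w, T.dt_alg, map_mul, h2, zero_sub, neg_div,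
    div_eq_mul_inv]
  ring

/-- The coefficients of `B1`. -/
theorem B1_mem (W : WF L F) (h : Fac f t c m A0) (K : ℕ)
    (θ : Fin 3 → MvPolynomial (Fin 3) (Polynomial ℂ)) (k : ℕ) :
    (B1 f K θ W.w (algebraMap L F t)).coeff k ∈ SS W c := by
  have hx := LTaA.pt_coord W c t
  have hg : (aeval (pt W.w (algebraMap L F t)) f)⁻¹ ∈ SS W c := LTaA.g_inv W h
  unfold B1
  rw [Polynomial.coeff_C_mul, Polynomial.coeff_sub, Polynomial.coeff_C_mul]
  exact (SS W c).mul_mem ((SS W c).pow_mem hg K) ((SS W c).sub_mem (LTaA.EV_mem _ hx _ _)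
    ((SS W c).mul_mem ((SS W c).algebraMap_mem t) (LTaA.EV_mem _ hx _ _)))

/-- Values of polynomials at the point `(w, 1, t)`. -/
theorem pt_mem (W : WF L F) (p : MvPolynomial (Fin 3) ℂ) :
    aeval (pt W.w (algebraMap L F t)) p ∈ SS W c := by
  exact LTaA.aeval_mem _ (LTaA.pt_coord W c t) p

theorem g_inv_mem (W : WF L F) (h : Fac f t c m A0) :
    (aeval (pt W.w (algebraMap L F t)) f)⁻¹ ∈ SS W c := by
  exact LTaA.g_inv W h

end

section

variable {F : Type} [Field F] [Algebra L0 F] [Algebra ℂ F] [IsScalarTower ℂ L0 F]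
  {ι : Type} [Fintype ι] [DecidableEq ι]
  {f : MvPolynomial (Fin 3) ℂ} {t : L0} {c : ι → L0} {m : ι → ℕ} {A0 : L0}

/-- With the additional point `lam`. -/
theorem omega_w (W : WF L0 F) (h : Fac f t c m A0) (d : ℕ) (lam s : ℂ) :
    algebraMap ℂ F s * (W.dw (aeval (pt W.w (algebraMap L0 F t)) f) /
          aeval (pt W.w (algebraMap L0 F t)) f) -
        algebraMap ℂ F (d * s + 3) * (W.w - algebraMap ℂ F lam)⁻¹ =
      lg W (cO c lam) (sg d m s) := by
  rw [omega_w0 W h s, lg, lg, Fintype.sum_option]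
  have e0 : ∀ z : ℂ, algebraMap L0 F (HahnSeries.C z) = algebraMap ℂ F z := fun z => by
    rw [← algebraMap_L0, ← IsScalarTower.algebraMap_apply]
  have e1 : algebraMap L0 F (sg d m s none) = - algebraMap ℂ F (d * s + 3) := by
    rw [sg, e0, ← map_neg]
    congr 1
    simp only [aO, bO]
    push_cast
    ring
  have e2 : ∀ i, sg d m s (some i) = algebraMap ℂ L0 (s * (m i : ℂ)) := fun i => by
    rw [sg, algebraMap_L0]
    congr 1
    simp only [aO, bO]
    push_cast
    ring
  have e3 : algebraMap L0 F (cO c lam none) = algebraMap ℂ F lam := e0 lam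
  have e4 : ∀ i, cO c lam (some i) = c i := fun _ => rfl
  rw [e1, e3]
  simp only [e2, e4]
  ring

theorem omega_t {W : WF L0 F} (T : TF W) (h : Fac f t c m A0) (d : ℕ) (lam s : ℂ) :
    algebraMap ℂ F s * (T.dt (aeval (pt W.w (algebraMap L0 F t)) f) /
          aeval (pt W.w (algebraMap L0 F t)) f) =
      wt T (cO c lam) (sg d m s) (HahnSeries.C s * (T.δ A0 / A0)) := by
  rw [omega_t0 T h s, wt, wt, algebraMap_L0, lg, lg, Fintype.sum_option]
  have e1 : T.δ (cO c lam none) = 0 := by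
    have : cO c lam none = algebraMap ℂ L0 lam := (algebraMap_L0 lam).symm
    rw [this, Derivation.map_algebraMap]
  have e2 : ∀ i, sg d m s (some i) = algebraMap ℂ L0 (s * (m i : ℂ)) := fun i => by
    rw [sg, algebraMap_L0]
    congr 1
    simp only [aO, bO]
    push_cast
    ring
  have e4 : ∀ i, cO c lam (some i) = c i := fun _ => rfl
  rw [e1, mul_zero, map_zero, zero_mul, zero_add]
  simp only [e2, e4]

theorem SS_le (W : WF L0 F) (c : ι → L0) (lam : ℂ) : SS W c ≤ SS W (cO c lam) := by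
  refine Algebra.adjoin_mono (Set.insert_subset_insert ?_)
  rintro _ ⟨i, rfl⟩
  exact ⟨some i, rfl⟩

namespace LTab

theorem w_mem (W : WF L0 F) (c : ι → L0) : W.w ∈ SS W c :=
  Algebra.subset_adjoin (Set.mem_insert _ _)

theorem C_mem (W : WF L0 F) (c : ι → L0) (z : ℂ) : algebraMap ℂ F z ∈ SS W c := by
  rw [IsScalarTower.algebraMap_apply ℂ L0 F]
  exact Subalgebra.algebraMap_mem _ _

theorem inv_mem (W : WF L0 F) (c : ι → L0) (lam : ℂ) :
    (W.w - algebraMap ℂ F lam)⁻¹ ∈ SS W (cO c lam) := by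
  refine Algebra.subset_adjoin (Set.mem_insert_of_mem _ ⟨none, ?_⟩)
  show (W.w - algebraMap L0 F (HahnSeries.C lam))⁻¹ = _
  rw [← algebraMap_L0, ← IsScalarTower.algebraMap_apply]

theorem pq_apply_mem (W : WF L0 F) (c : ι → L0) (t : L0) (lam : ℂ) (i : Fin 2) :
    pq lam W.w (algebraMap L0 F t) i ∈ SS W (cO c lam) := by
  rcases (show i = 0 ∨ i = 1 by omega) with rfl | rfl
  · exact inv_mem W c lam
  · exact Subalgebra.mul_mem _ (Subalgebra.algebraMap_mem _ t) (inv_mem W c lam)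

theorem EV_coeff_mem (W : WF L0 F) (c : ι → L0) (t : L0) (lam : ℂ)
    (p : MvPolynomial (Fin 2) (Polynomial ℂ)) (k : ℕ) :
    (EV (pq lam W.w (algebraMap L0 F t)) p).coeff k ∈ SS W (cO c lam) := by
  induction p using MvPolynomial.induction_on with
  | C a =>
    rw [EV, eval₂Hom_C, Polynomial.coe_mapRingHom, Polynomial.coeff_map]
    exact C_mem W _ _
  | add p q hp hq =>
    rw [map_add, Polynomial.coeff_add]
    exact Subalgebra.add_mem _ hp hq
  | mul_X p i hp =>
    rw [map_mul]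
    have : EV (pq lam W.w (algebraMap L0 F t)) (X i) =
        Polynomial.C (pq lam W.w (algebraMap L0 F t) i) := by
      rw [EV, eval₂Hom_X']
    rw [this, Polynomial.coeff_mul_C]
    exact Subalgebra.mul_mem _ hp (pq_apply_mem W c t lam i)

theorem aeval_mul_hom {n : ℕ} {R : Type} [CommRing R] [Algebra ℂ R] {f : MvPolynomial (Fin n) ℂ}
    {d : ℕ} (hf : f.IsHomogeneous d) (c : R) (α : Fin n → R) :
    aeval (fun i => c * α i) f = c ^ d * aeval α f := by
  rw [aeval_def, aeval_def, eval₂_eq', eval₂_eq', Finset.mul_sum]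
  refine Finset.sum_congr rfl fun v hv => ?_
  have h1 : ∑ i, v i = d := by
    have := hf (mem_support_iff.1 hv)
    rw [← this]
    simp [Finsupp.weight_apply, Finsupp.sum_fintype]
  simp only [mul_pow, Finset.prod_mul_distrib]
  rw [Finset.prod_pow_eq_pow_sum, h1]
  ring

end LTab

/-- Values of polynomials at the point `(X, Y)`. -/
theorem pq_mem (W : WF L0 F) (c : ι → L0) (t : L0) (lam : ℂ) (p : MvPolynomial (Fin 2) ℂ) :
    aeval (pq lam W.w (algebraMap L0 F t)) p ∈ SS W (cO c lam) := by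
  induction p using MvPolynomial.induction_on with
  | C a =>
    rw [aeval_C]
    exact LTab.C_mem W _ _
  | add p q hp hq =>
    rw [map_add]
    exact Subalgebra.add_mem _ hp hq
  | mul_X p i hp =>
    rw [map_mul, aeval_X]
    exact Subalgebra.mul_mem _ hp (LTab.pq_apply_mem W c t lam i)

theorem fl_inv_mem (W : WF L0 F) {d : ℕ} (hf : f.IsHomogeneous d) (h : Fac f t c m A0)
    (lam : ℂ) :
    (aeval (pq lam W.w (algebraMap L0 F t)) (res lam 0 f))⁻¹ ∈ SS W (cO c lam) := by
  have hw : W.w - algebraMap ℂ F lam ≠ 0 := by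
    rw [IsScalarTower.algebraMap_apply ℂ L0 F]
    exact sub_ne_zero.2 (w_ne W _)
  have h1 : aeval (pq lam W.w (algebraMap L0 F t)) (res lam 0 f) =
      (W.w - algebraMap ℂ F lam)⁻¹ ^ d * aeval (pt W.w (algebraMap L0 F t)) f := by
    rw [← LTab.aeval_mul_hom hf, res, ← AlgHom.comp_apply, comp_aeval]
    congr 2
    funext i
    fin_cases i
    · show aeval (pq lam W.w (algebraMap L0 F t)) (1 + C lam * X 0 + C 0 * X 1) =
        (W.w - algebraMap ℂ F lam)⁻¹ * W.w
      rw [map_add, map_add, map_one, map_mul, map_mul, aeval_C, aeval_C, map_zero, zero_mul,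
        add_zero, aeval_X]
      show 1 + algebraMap ℂ F lam * (W.w - algebraMap ℂ F lam)⁻¹ = _
      field_simp
      ring
    · show aeval (pq lam W.w (algebraMap L0 F t)) (X 0) = (W.w - algebraMap ℂ F lam)⁻¹ * 1
      rw [aeval_X, mul_one]
      rfl
    · show aeval (pq lam W.w (algebraMap L0 F t)) (X 1) =
        (W.w - algebraMap ℂ F lam)⁻¹ * algebraMap L0 F t
      rw [aeval_X, mul_comm]
      rfl
  rw [h1, mul_inv, inv_pow, inv_inv]
  refine Subalgebra.mul_mem _ (Subalgebra.pow_mem _ (Subalgebra.sub_mem _ (LTab.w_mem W _)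
    (LTab.C_mem W _ _)) d) (SS_le W c lam (g_inv_mem W h))

/-- The coefficients of `U1`. -/
theorem U1_mem (W : WF L0 F) {d : ℕ} (hf : f.IsHomogeneous d) (h : Fac f t c m A0) (lam : ℂ)
    (N : ℕ) (u : Fin 2 → MvPolynomial (Fin 2) (Polynomial ℂ)) (k : ℕ) :
    (U1 f lam N u W.w (algebraMap L0 F t)).coeff k ∈ SS W (cO c lam) := by
  rw [U1, Polynomial.coeff_C_mul, Polynomial.coeff_sub, Polynomial.coeff_C_mul]
  refine Subalgebra.mul_mem _ (Subalgebra.mul_mem _ (Subalgebra.sub_mem _ (LTab.w_mem W _)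
    (LTab.C_mem W _ _)) (Subalgebra.pow_mem _ (fl_inv_mem W hf h lam) N)) ?_
  exact Subalgebra.sub_mem _ (LTab.EV_coeff_mem W c t lam _ k) (Subalgebra.mul_mem _
    (Subalgebra.algebraMap_mem _ t) (LTab.EV_coeff_mem W c t lam _ k))

end

end MPb07157.TL
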