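import Pool.Agent.Lib.MP_b07157_agL3.Glob
import Pool.Agent.Lib.MP_b07157_agL3.Z

/-!
# The root `-3/d` and two special lines
-/

noncomputable section

namespace MPb07157.TL

open MvPolynomial

variable {f : MvPolynomial (Fin 3) ℂ} {d : ℕ}

/-- The third line. -/
theorem Glob.third {b : Polynomial ℂ} {K : ℕ} {θ : Fin 3 → MvPolynomial (Fin 3) (Polynomial ℂ)}
    {n : ℕ} {c : Fin n → KK f} {m : Fin n → ℕ} {A0 : KK f} {α : Fin n → KK f}
    {W : WF (KK f) (RatFunc (KK f))} (G : Glob f d b K θ c m A0 α W) (he : 0 < f.degreeOf 0)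
    (hs1 : Spec f 0 1) (hs2 : Spec f 1 0) {t3 t' : ℂ} (ht3 : t3 ≠ 0)
    (hN : (Uf f 1 t').natDegree = f.degreeOf 0)
    (hlt : (Uf f 1 t3).roots.toFinset.card < (Uf f 1 t').roots.toFinset.card)
    (h3 : ((Uf f 1 t3).natDegree = 0 ∧ 2 ≤ (Uf f 1 t').roots.toFinset.card) ∨
      (Uf f 1 t3).natDegree = f.degreeOf 0 ∨ 2 ≤ (Uf f 1 t3).roots.toFinset.card) :
    b.eval (s0 d) = 0 := by
  have hm : 0 < ∑ i, m i := by rw [G.sum]; exact he
  obtain ⟨φ', hφ'⟩ := exists_pl f t'
  have hn' : (Uf f 1 t').roots.toFinset.card ≤ n := by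
    have h5 := card_roots_le (G.fac hφ') hm (by rw [hN, G.sum])
    rwa [Fintype.card_fin] at h5
  have hn : 1 < n := by
    rcases h3 with h4 | h4 | h4
    · omega
    · have h5 : 0 < (Uf f 1 t3).roots.toFinset.card := by
        rw [Finset.card_pos, Multiset.toFinset_nonempty, Ne, ← Multiset.card_eq_zero,
          (IsAlgClosed.splits (Uf f 1 t3)).natDegree_eq_card_roots.symm]
        omega
      omega
    · omega
  obtain ⟨φ, hφ⟩ := exists_pl f t3
  have hF := G.fac hφ
  obtain ⟨κ, hκ⟩ := G.eq0 hφ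
  choose! x hx using fun (i j : Fin n) (hij : i ≠ j) => G.const hs1 hs2 hij
  have hx' : ∀ i j, i ≠ j → φ (α i) - φ (α j) =
      HahnSeries.C (x i j) * (HahnSeries.C t3 + tau) * (φ (c i) - φ (c j)) := by
    intro i j hij
    rw [← map_sub, hx i j hij, map_mul, map_mul, map_sub, hφ.alg, algebraMap_L0]
    have h4 : φ (tK f) = HahnSeries.C t3 + tau := hφ.2
    rw [h4]
  by_contra hb
  have hNR := nonRes_s0 (L := L0) G.hF.pos G.hd G.h1 G.h2
  obtain ⟨B, hB0, hBx, -, hord⟩ := fin hF.inj hF.ne ht3 (by rw [Fintype.card_fin]; exact hn) hx'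
    hκ (div_ne_zero hb hNR.2.2)
  have hs0 : s0 d ≠ 0 := by
    intro h4
    have h5 := hNR.2.1 ⟨0, by omega⟩
    unfold s0m at h5
    rw [h4, zero_mul, map_zero] at h5
    exact h5 rfl
  have hfin : (φ A0).order = 0 → False := by
    intro h4
    have h5 : ∀ i j, i ≠ j → (φ (c i) - φ (c j)).order = 0 := by
      intro i j hij
      have h6 := hord i j hij
      rw [h4, Rat.cast_zero, mul_zero, add_zero] at h6
      have h7 := (mul_eq_zero.1 h6).resolve_left hNR.2.2
      exact_mod_cast h7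
    have h6 := le_card_roots hF h4 h5
    rw [Fintype.card_fin] at h6
    omega
  rcases h3 with h4 | h4 | h4
  · have h5 : (⟨0, by omega⟩ : Fin n) ≠ ⟨1, hn⟩ := by
      intro h6
      have := congrArg Fin.val h6
      simp at this
    have h6 := (G.regular hφ h5).2 (spec_of_natDegree h4.1)
    have h7 : φ ((α ⟨0, by omega⟩ - α ⟨1, hn⟩) / (c ⟨0, by omega⟩ - c ⟨1, hn⟩)) =
        HahnSeries.C B * (HahnSeries.C t3 + tau) := by
      rw [map_div₀, map_sub, map_sub, hx' _ _ h5, hBx _ _ h5, mul_div_assoc, div_self, mul_one]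
      exact sub_ne_zero.2 fun h8 => h5 (hF.inj h8)
    have h8 : (HahnSeries.C B : L0).orderTop = 0 := by
      change (HahnSeries.single 0 B : L0).orderTop = 0
      rw [HahnSeries.orderTop_single hB0]
      rfl
    rw [h7, HahnSeries.orderTop_mul, h8, orderTop_C_add_tau ht3, add_zero] at h6
    have h9 : (1 : ℚ) ≤ 0 := by exact_mod_cast h6
    linarith
  · exact hfin (order_A0_zero hF hm (by rw [h4, G.sum]))
  · obtain ⟨i, j, hij, h5⟩ := exists_pair hF h4
    have h6 := hord i j hij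
    rw [h5, Rat.cast_zero, mul_zero, zero_add] at h6
    have h7 := (mul_eq_zero.1 h6).resolve_left hs0
    exact hfin (by exact_mod_cast h7)

/-- **The root `-3/d`**: `f` is homogeneous of degree `d`, the lines `x_1 = 0` and `x_2 = 0` are
contained in the curve or meet it only in the point `p = (1, 0, 0)`, the multiplicity
`d - deg_{x_0} f` of this point is not `2d/3` or `d/3`, and a third line through `p` meets the curve
outside `p` in fewer points than another line through `p`. -/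
theorem root_two_lines (hf : f.IsHomogeneous d) (h1 : 3 * f.degreeOf 0 ≠ d)
    (h2 : 3 * f.degreeOf 0 ≠ 2 * d) (hs1 : Spec f 0 1) (hs2 : Spec f 1 0) {a b a' b' : ℂ}
    (ha : a ≠ 0) (hb : b ≠ 0) (hN : (Uf f a' b').natDegree = f.degreeOf 0)
    (hlt : (Uf f a b).roots.toFinset.card < (Uf f a' b').roots.toFinset.card)
    (h3 : ((Uf f a b).natDegree = 0 ∧ 2 ≤ (Uf f a' b').roots.toFinset.card) ∨
      (Uf f a b).natDegree = f.degreeOf 0 ∨ 2 ≤ (Uf f a b).roots.toFinset.card)
    {B : Polynomial ℂ} (hB : IsBernsteinSato f B) : B.eval (s0 d) = 0 := by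
  have he : 0 < f.degreeOf 0 := by
    rw [← hN]
    by_contra h4
    have h5 : (Uf f a' b').natDegree = 0 := by omega
    rw [Polynomial.eq_C_of_natDegree_eq_zero h5] at hlt
    simp at hlt
  have h0 : f ≠ 0 := by
    rintro rfl
    simp at he
  have hd := degreeOf_lt hf he hs1
  have ha' : a' ≠ 0 := by
    rintro rfl
    exact Uf_zero hf he hs1 b' hN
  obtain ⟨K, θ, n, c, m, A0, α, W, G⟩ := exists_glob hf h0 hd h1 h2 hB
  rw [Uf_scale_card hf ha, Uf_scale_card hf ha'] at hlt
  rw [Uf_scale_card hf ha, Uf_scale_card hf ha', Uf_scale_natDegree hf ha] at h3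
  rw [Uf_scale_natDegree hf ha'] at hN
  exact G.third he hs1 hs2 (div_ne_zero hb ha) hN hlt h3

end MPb07157.TL
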