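import Pool.Agent.Lib.MP_b07157_agL3.Defs

/-!
# The exponents
-/

noncomputable section

namespace MPb07157.TL

namespace NNaux

theorem order_sub_ge {x y : L0} (h : x - y ≠ 0) : min x.order y.order ≤ (x - y).order := by
  have h1 : x + -y ≠ 0 := by rwa [← sub_eq_add_neg]
  have h2 := HahnSeries.min_order_le_order_add h1
  rwa [HahnSeries.order_neg, ← sub_eq_add_neg] at h2

theorem order_sub_comm (x y : L0) : (x - y).order = (y - x).order := by
  rw [← neg_sub, HahnSeries.order_neg]

/-- `p_i = - ord (c_i - lam)` and `p = 0` at `lam`. -/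
def pO {ι : Type} (c : ι → L0) (lam : ℂ) : Option ι → ℚ
  | none => 0
  | some i => -(c i - HahnSeries.C lam).order

section

variable {ι : Type} {c : ι → L0} {lam : ℂ}

theorem pO_nonneg (hlam : ∀ i, c i ≠ HahnSeries.C lam ∧ (c i - HahnSeries.C lam).order ≤ 0)
    (i : Option ι) : 0 ≤ pO c lam i := by
  cases i with
  | none => exact le_rfl
  | some i => exact neg_nonneg.2 (hlam i).2

theorem cO_ne (hc : Function.Injective c)
    (hlam : ∀ i, c i ≠ HahnSeries.C lam ∧ (c i - HahnSeries.C lam).order ≤ 0)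
    {i j : Option ι} (hij : i ≠ j) : cO c lam i - cO c lam j ≠ 0 := by
  rw [sub_ne_zero]
  cases i with
  | none =>
    cases j with
    | none => exact (hij rfl).elim
    | some j => exact fun h => (hlam j).1 h.symm
  | some i =>
    cases j with
    | none => exact (hlam i).1
    | some j => exact fun h => hij (congrArg some (hc h))

/-- The distance to `lam`. -/
theorem ord_none (i : Option ι) (hi : i ≠ none) :
    (cO c lam i - cO c lam none).order = -pO c lam i := by
  cases i with
  | none => exact (hi rfl).elim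
  | some i =>
    change (c i - HahnSeries.C lam).order = - -(c i - HahnSeries.C lam).order
    rw [neg_neg]

theorem ord_ge (hc : Function.Injective c)
    (hlam : ∀ i, c i ≠ HahnSeries.C lam ∧ (c i - HahnSeries.C lam).order ≤ 0)
    {i j : Option ι} (hij : i ≠ j) :
    -max (pO c lam i) (pO c lam j) ≤ (cO c lam i - cO c lam j).order := by
  rcases eq_or_ne j none with rfl | hj
  · rw [ord_none i hij]
    exact neg_le_neg (le_max_left _ _)
  rcases eq_or_ne i none with rfl | hi
  · rw [order_sub_comm, ord_none j hij.symm]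
    exact neg_le_neg (le_max_right _ _)
  have h1 : cO c lam i - cO c lam j =
      (cO c lam i - cO c lam none) - (cO c lam j - cO c lam none) := by ring
  have h2 := order_sub_ge (h1 ▸ cO_ne hc hlam hij :
    (cO c lam i - cO c lam none) - (cO c lam j - cO c lam none) ≠ 0)
  rw [← h1, ord_none i hi, ord_none j hj] at h2
  rcases le_total (pO c lam i) (pO c lam j) with h | h
  · rw [max_eq_right h]
    rwa [min_eq_right (neg_le_neg h)] at h2
  · rw [max_eq_left h]
    rwa [min_eq_left (neg_le_neg h)] at h2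

/-- `min (ord (c_i - lam), ord (c_i - c_j)) ≤ - max (p_i, p_j)`. -/
theorem min_none_le (hlam : ∀ i, c i ≠ HahnSeries.C lam ∧
    (c i - HahnSeries.C lam).order ≤ 0) {i j : Option ι} (hi : i ≠ none)
    (hj : j ≠ none) :
    min (cO c lam i - cO c lam none).order (cO c lam i - cO c lam j).order ≤
      -max (pO c lam i) (pO c lam j) := by
  have hz : cO c lam j - cO c lam none ≠ 0 := by
    rw [sub_ne_zero]
    cases j with
    | none => exact (hj rfl).elim
    | some j => exact (hlam j).1
  have h1 : cO c lam j - cO c lam none =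
      (cO c lam i - cO c lam none) - (cO c lam i - cO c lam j) := by ring
  have h2 := order_sub_ge (h1 ▸ hz :
    (cO c lam i - cO c lam none) - (cO c lam i - cO c lam j) ≠ 0)
  rw [← h1, ord_none j hj] at h2
  rcases le_total (pO c lam i) (pO c lam j) with h | h
  · rw [max_eq_right h]
    exact h2
  · rw [max_eq_left h, ← ord_none i hi]
    exact min_le_left _ _

end

end NNaux

open NNaux

variable {ι : Type} [Fintype ι] [DecidableEq ι]

/-- The coefficient of `s` in the exponents is nonnegative, and what happens if it is zero. -/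
theorem Nn_zero {c : ι → L0} (hc : Function.Injective c) {lam : ℂ}
    (hlam : ∀ i, c i ≠ HahnSeries.C lam ∧ (c i - HahnSeries.C lam).order ≤ 0) {A0 : L0}
    {m : ι → ℕ} (hm : ∀ i, 0 < m i) {d : ℕ} (hd : ∑ i, m i < d)
    (hA : 0 ≤ A0.order + ∑ i, (m i : ℚ) * (c i - HahnSeries.C lam).order) {i j : Option ι}
    (hij : i ≠ j) (hN : Nn A0 (cO c lam) (aO d m) i j = 0) :
    Mm (cO c lam) bO i j = 0 ∧
      A0.order + ∑ i, (m i : ℚ) * (c i - HahnSeries.C lam).order = 0 ∧
      ∃ k, (c k - HahnSeries.C lam).order = 0 := by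
  set P : Option ι → ℚ := pO c lam with hP
  set n : Option ι → Option ι → ℚ := fun a b => (cO c lam a - cO c lam b).order with hn
  set p : ℚ := max (P i) (P j) with hp
  set S : ℚ := A0.order + ∑ i, (m i : ℚ) * (c i - HahnSeries.C lam).order with hS
  have hP0 : ∀ a, 0 ≤ P a := fun a => pO_nonneg hlam a
  have hp0 : 0 ≤ p := (hP0 i).trans (le_max_left _ _)
  have hnij : -p ≤ n i j := ord_ge hc hlam hij
  -- the lower bounds of the terms
  let G : Option ι → ℚ := fun l =>
    match l with
    | none => (d : ℚ) * p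
    | some l => -((m l : ℚ) * (p + P (some l)))
  have hG : ∀ l ∈ (Finset.univ.erase i).erase j,
      G l ≤ ((aO d m l : ℤ) : ℚ) * min (n i l) (n i j) := by
    intro l hl
    have hlj : l ≠ j := (Finset.mem_erase.1 hl).1
    have hli : l ≠ i := (Finset.mem_erase.1 (Finset.mem_erase.1 hl).2).1
    cases l with
    | none =>
      have h1 : min (n i none) (n i j) ≤ -p := min_none_le hlam (Ne.symm hli) (Ne.symm hlj)
      have h2 : (0 : ℚ) ≤ d := Nat.cast_nonneg d
      change (d : ℚ) * p ≤ ((-(d : ℤ) : ℤ) : ℚ) * min (n i none) (n i j)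
      push_cast
      nlinarith
    | some l =>
      have h1 : -max (P i) (P (some l)) ≤ n i (some l) := ord_ge hc hlam (Ne.symm hli)
      have h2 : (0 : ℚ) ≤ m l := Nat.cast_nonneg _
      have h3 : -(p + P (some l)) ≤ min (n i (some l)) (n i j) := by
        have h4 := hP0 (some l)
        have h5 : P i ≤ p := le_max_left _ _
        have h6 : max (P i) (P (some l)) ≤ p + P (some l) :=
          max_le (by linarith) (by linarith)
        exact le_min (by linarith) (by linarith)
      change -((m l : ℚ) * (p + P (some l))) ≤ (((m l : ℕ) : ℤ) : ℚ) * min (n i (some l)) (n i j)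
      push_cast
      nlinarith
  -- the terms `i` and `j`
  have hT : ∀ a, (a = i ∨ a = j) → 0 ≤ ((aO d m a : ℤ) : ℚ) * n i j - G a := by
    intro a ha
    cases a with
    | none =>
      have h1 : n i j = -p := by
        rcases ha with rfl | rfl
        · have h2 : n none j = -P j := by
            simp only [hn]
            rw [order_sub_comm]
            exact ord_none j (Ne.symm hij)
          have h3 : p = P j := by
            rw [hp]
            exact max_eq_right (hP0 j)
          rw [h2, h3]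
        · have h2 : n i none = -P i := ord_none i hij
          have h3 : p = P i := by
            rw [hp]
            exact max_eq_left (hP0 i)
          rw [h2, h3]
      change 0 ≤ ((-(d : ℤ) : ℤ) : ℚ) * n i j - (d : ℚ) * p
      rw [h1]
      push_cast
      linarith
    | some a =>
      have h2 : (0 : ℚ) ≤ m a := Nat.cast_nonneg _
      have h4 := hP0 (some a)
      change 0 ≤ (((m a : ℕ) : ℤ) : ℚ) * n i j - -((m a : ℚ) * (p + P (some a)))
      push_cast
      nlinarith
  have hsum : ∑ l, G l = (d : ℚ) * p - ((∑ i, m i : ℕ) : ℚ) * p +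
      ∑ i, (m i : ℚ) * (c i - HahnSeries.C lam).order := by
    rw [Fintype.sum_option]
    change (d : ℚ) * p + ∑ l, -((m l : ℚ) * (p + -(c l - HahnSeries.C lam).order)) = _
    push_cast
    have h1 : ∀ l, -((m l : ℚ) * (p + -(c l - HahnSeries.C lam).order)) =
        -((m l : ℚ) * p) + (m l : ℚ) * (c l - HahnSeries.C lam).order := fun l => by ring
    rw [Finset.sum_congr rfl fun l _ => h1 l, Finset.sum_add_distrib, Finset.sum_neg_distrib,
      Finset.sum_mul]
    ring
  have hsum2 : G i + (G j + ∑ l ∈ (Finset.univ.erase i).erase j, G l) = ∑ l, G l := by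
    rw [Finset.add_sum_erase _ _ (Finset.mem_erase.2 ⟨hij.symm, Finset.mem_univ j⟩),
      Finset.add_sum_erase _ _ (Finset.mem_univ i)]
  have hge := Finset.sum_le_sum hG
  have hN' : A0.order + (((aO d m i : ℤ) : ℚ) + ((aO d m j : ℤ) : ℚ)) * n i j +
      ∑ l ∈ (Finset.univ.erase i).erase j, ((aO d m l : ℤ) : ℚ) * min (n i l) (n i j) = 0 := hN
  have hTi := hT i (Or.inl rfl)
  have hTj := hT j (Or.inr rfl)
  have hde : (0 : ℚ) < (d : ℚ) - ((∑ i, m i : ℕ) : ℚ) := sub_pos.2 (Nat.cast_lt.2 hd)
  have hdp : 0 ≤ ((d : ℚ) - ((∑ i, m i : ℕ) : ℚ)) * p := mul_nonneg hde.le hp0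
  have hall : S + ((d : ℚ) - ((∑ i, m i : ℕ) : ℚ)) * p +
      (((aO d m i : ℤ) : ℚ) * n i j - G i) + (((aO d m j : ℤ) : ℚ) * n i j - G j) ≤ 0 := by
    rw [← hN', hS]
    have h3 : ∑ l ∈ (Finset.univ.erase i).erase j, G l = ∑ l, G l - G i - G j := by
      linarith
    rw [h3, hsum] at hge
    linarith
  have hS0 : S = 0 := by linarith
  have hdp0 : ((d : ℚ) - ((∑ i, m i : ℕ) : ℚ)) * p = 0 := by linarith
  have hTi0 : ((aO d m i : ℤ) : ℚ) * n i j - G i = 0 := by linarith
  have hTj0 : ((aO d m j : ℤ) : ℚ) * n i j - G j = 0 := by linarith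
  have hpz : p = 0 := (mul_eq_zero.1 hdp0).resolve_left hde.ne'
  have hPi : P i = 0 := le_antisymm (hpz ▸ le_max_left _ _) (hP0 i)
  have hPj : P j = 0 := le_antisymm (hpz ▸ le_max_right _ _) (hP0 j)
  have hsome : ∀ a, (some a = i ∨ some a = j) → n i j = 0 := by
    intro a ha
    have h1 : ((aO d m (some a) : ℤ) : ℚ) * n i j - G (some a) = 0 := by
      rcases ha with h | h
      · rw [h]
        exact hTi0
      · rw [h]
        exact hTj0
    have h2 : P (some a) = 0 := by
      rcases ha with h | h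
      · rw [h]
        exact hPi
      · rw [h]
        exact hPj
    change (((m a : ℕ) : ℤ) : ℚ) * n i j - -((m a : ℚ) * (p + P (some a))) = 0 at h1
    rw [hpz, h2] at h1
    have h3 : ((m a : ℕ) : ℚ) ≠ 0 := Nat.cast_ne_zero.2 (hm a).ne'
    have h4 : (m a : ℚ) * n i j = 0 := by
      push_cast at h1
      linarith
    exact (mul_eq_zero.1 h4).resolve_left h3
  have hex : ∃ a, some a = i ∨ some a = j := by
    cases i with
    | none =>
      cases j with
      | none => exact (hij rfl).elim
      | some j => exact ⟨j, Or.inr rfl⟩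
    | some i => exact ⟨i, Or.inl rfl⟩
  obtain ⟨a, ha⟩ := hex
  have hn0 : n i j = 0 := hsome a ha
  refine ⟨?_, hS0, a, ?_⟩
  · change (1 + ((bO i : ℤ) : ℚ) + ((bO j : ℤ) : ℚ)) * n i j +
      ∑ l ∈ (Finset.univ.erase i).erase j, ((bO l : ℤ) : ℚ) * min (n i l) (n i j) = 0
    rw [hn0, mul_zero, zero_add]
    refine Finset.sum_eq_zero fun l hl => ?_
    cases l with
    | none =>
      have hli : none ≠ i := (Finset.mem_erase.1 (Finset.mem_erase.1 hl).2).1
      have h1 : n i none = -P i := ord_none i (Ne.symm hli)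
      rw [h1, hPi, neg_zero, min_self, mul_zero]
    | some l =>
      change (((0 : ℤ) : ℤ) : ℚ) * _ = 0
      rw [Int.cast_zero, zero_mul]
  · have h2 : P (some a) = 0 := by
      rcases ha with h | h
      · rw [h]
        exact hPi
      · rw [h]
        exact hPj
    exact neg_eq_zero.1 h2

/-- For irrational `s` the exponents are not resonant. -/
theorem nonRes_sg {m : ι → ℕ} (hm : ∀ i, 0 < m i) {d : ℕ} (hd : ∑ i, m i < d) {s : ℂ}
    (hs : ∀ q : ℚ, s ≠ (q : ℂ)) : NonRes (sg d m s) ∧ ∀ i, sg d m s i ≠ 0 := by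
  have key : ∀ a b : ℤ, a ≠ 0 → (a : ℂ) * s + (b : ℂ) ≠ 0 := by
    intro a b ha h
    apply hs (-(b : ℚ) / (a : ℚ))
    have ha' : (a : ℂ) ≠ 0 := Int.cast_ne_zero.2 ha
    push_cast
    rw [eq_div_iff ha']
    linear_combination h
  have haO : ∀ i, aO d m i ≠ 0 := by
    intro i
    cases i with
    | none =>
      change -(d : ℤ) ≠ 0
      have : 0 < d := lt_of_le_of_lt (Nat.zero_le _) hd
      omega
    | some i =>
      change ((m i : ℕ) : ℤ) ≠ 0
      have := hm i
      omega
  have hC : ∀ x : ℂ, x ≠ 0 → (HahnSeries.C x : L0) ≠ 0 := fun x hx => HahnSeries.C_ne_zero hx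
  refine ⟨⟨fun i k _ h => ?_, fun k _ h => ?_⟩, fun i => ?_⟩
  · have h1 : (HahnSeries.C ((aO d m i : ℂ) * s + ((bO i - (k : ℤ) : ℤ) : ℂ)) : L0) = 0 := by
      have h2 : ((aO d m i : ℂ) * s + ((bO i - (k : ℤ) : ℤ) : ℂ)) =
          ((aO d m i : ℂ) * s + (bO i : ℂ)) - (k : ℂ) := by
        push_cast
        ring
      rw [h2, map_sub, map_natCast, sub_eq_zero]
      exact h
    exact hC _ (key _ _ (haO i)) h1
  · have h1 : (∑ i, sg d m s i) + (k : L0) = HahnSeries.C
        ((((∑ i, (m i : ℤ)) - (d : ℤ) : ℤ) : ℂ) * s + (((k : ℤ) - 3 : ℤ) : ℂ)) := by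
      rw [Fintype.sum_option]
      have h2 : ∀ i, sg d m s (some i) = HahnSeries.C ((m i : ℂ) * s) := by
        intro i
        change HahnSeries.C ((((m i : ℕ) : ℤ) : ℂ) * s + ((0 : ℤ) : ℂ)) = _
        push_cast
        rw [add_zero]
      have h3 : sg d m s (none : Option ι) = HahnSeries.C (-(d : ℂ) * s + (-3 : ℂ)) := by
        change HahnSeries.C (((-(d : ℤ) : ℤ) : ℂ) * s + ((-3 : ℤ) : ℂ)) = _
        push_cast
        rfl
      rw [Finset.sum_congr rfl fun i _ => h2 i, h3, ← map_sum, ← map_natCast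
        (HahnSeries.C : ℂ →+* L0) k, ← map_add, ← map_add]
      congr 1
      push_cast
      rw [← Finset.sum_mul]
      ring
    rw [h1] at h
    refine hC _ (key _ _ ?_) h
    have h4 : ((∑ i, m i : ℕ) : ℤ) < (d : ℤ) := by exact_mod_cast hd
    push_cast at h4
    omega
  · exact hC _ (key _ _ (haO i))

end MPb07157.TL
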