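import Pool.Agent.Lib.MP_b07157_agL3.Main2
import Pool.Agent.Lib.MP_b07157_agL3.Cmp
import Pool.Agent.Lib.MP_b07157_agL3.Pol

/-!
# Two special lines: the exceptional forms
-/

noncomputable section

namespace MPb07157.TL

open MvPolynomial

variable {f : MvPolynomial (Fin 3) ℂ} {d n : ℕ}

/-- The form `f` is shear-symmetric: `f(X, 1, τ) = κ τ^a ∏ (X - c_i)^(m_i)`, and the differences
`c_i - c_j` are multiples of the same power of `τ`. -/
def Shr (f : MvPolynomial (Fin 3) ℂ) : Prop :=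
  ∃ (n : ℕ) (c : Fin n → L0) (m : Fin n → ℕ) (κ : ℂ) (a : ℕ) (l : ℚ) (γ : Fin n → Fin n → ℂ),
    Fac f tau c m (HahnSeries.single (a : ℚ) κ) ∧ ∑ i, m i = f.degreeOf 0 ∧
      ∀ i j, c i - c j = HahnSeries.single l (γ i j)

/-- The polynomial `f(X, 1, τ)` has at most one root. -/
def Mon (f : MvPolynomial (Fin 3) ℂ) : Prop :=
  ∃ (n : ℕ) (c : Fin n → L0) (m : Fin n → ℕ) (A0 : L0),
    n ≤ 1 ∧ Fac f tau c m A0 ∧ ∑ i, m i = f.degreeOf 0

/-- No irreducible factor of `f` has the multiplicity `d/3`. -/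
def NoThird (f : MvPolynomial (Fin 3) ℂ) (d : ℕ) : Prop :=
  ∀ (g : MvPolynomial (Fin 3) ℂ) (k : ℕ), Irreducible g → g ^ k ∣ f → ¬ g ^ (k + 1) ∣ f →
    3 * k ≠ d

section

variable {ι : Type} [Fintype ι] [DecidableEq ι] {t0 : ℂ} {c : ι → L0} {m : ι → ℕ} {A0 : L0}

theorem d_ne_of (hd : f.degreeOf 0 < d) : (d : ℂ) ≠ 0 := by
  have h12 : d ≠ 0 := by omega
  exact_mod_cast h12

/-- The relation between the orders implies that the line is not singular. -/
theorem claim0 (h : Fac f (HahnSeries.C t0 + tau) c m A0) {i0 j0 : ι} (h0 : i0 ≠ j0)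
    (hd : (d : ℂ) ≠ 0) (hnd : (Uf f 1 t0).natDegree ≠ 0)
    (hS : 1 + s0 d * ((∑ i, m i : ℕ) : ℂ) ≠ 0)
    (hord : ∀ i j, i ≠ j → (1 + s0 d * ((∑ l, m l : ℕ) : ℂ)) * ((c i - c j).order : ℂ) +
      s0 d * (A0.order : ℂ) = 0) (hcomp : ∀ i, 3 * m i ≠ d) :
    A0.order = 0 ∧ ∀ i j, i ≠ j → (c i - c j).order = 0 := by
  have hr : ∀ i j, i ≠ j → (c i - c j).order = (c i0 - c j0).order := by
    intro i j hij
    have h8 := hord i j hij
    have h9 := hord i0 j0 h0
    have h10 : (1 + s0 d * ((∑ l, m l : ℕ) : ℂ)) *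
        (((c i - c j).order : ℂ) - ((c i0 - c j0).order : ℂ)) = 0 := by
      linear_combination h8 - h9
    have h11 := sub_eq_zero.1 ((mul_eq_zero.1 h10).resolve_left hS)
    exact_mod_cast h11
  have hA : A0.order = 0 := by
    have hm : 0 < ∑ i, m i := by
      by_contra h4
      have h5 : m i0 ≤ ∑ i, m i := Finset.single_le_sum (fun i _ => Nat.zero_le (m i))
        (Finset.mem_univ i0)
      have := h.pos i0
      omega
    by_cases h7 : (Uf f 1 t0).natDegree = ∑ i, m i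
    · exact order_A0_zero h hm h7
    · exfalso
      obtain ⟨hr0, hA, i, hi⟩ := tangent_one h hnd h7 hr
      have h9 := hord i0 j0 h0
      generalize (c i0 - c j0).order = r at hr0 hA h9
      rw [hA] at h9
      push_cast at h9
      have h10 : (r : ℂ) * (1 + s0 d * ((Uf f 1 t0).natDegree : ℂ)) = 0 := by
        linear_combination h9
      have h11 := (mul_eq_zero.1 h10).resolve_left (by exact_mod_cast hr0)
      have h12 : (3 : ℂ) * ((Uf f 1 t0).natDegree : ℂ) = d := by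
        unfold s0 at h11
        field_simp at h11
        linear_combination -h11
      rw [hi] at h12
      exact hcomp i (by exact_mod_cast h12)
  refine ⟨hA, fun i j hij => ?_⟩
  have h6 := hord i j hij
  rw [hA, Rat.cast_zero, mul_zero, add_zero] at h6
  have h7 := (mul_eq_zero.1 h6).resolve_left hS
  exact_mod_cast h7

open TLL Finaux in
/-- The differential equation for the differences. -/
theorem fin0 (hc : Function.Injective c) {t3 : ℂ} {s b : ℂ} {κ : L0} {x : ι → ι → ℂ} {α : ι → L0}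
    (h2 : 1 < Fintype.card ι)
    (hx : ∀ i j, i ≠ j → α i - α j = HahnSeries.C (x i j) * (HahnSeries.C t3 + tau) * (c i - c j))
    (hE : ∀ i, eps dtau c (fun i => algebraMap ℂ L0 (s * (m i : ℂ))) α
      (HahnSeries.C s * (dtau A0 / A0)) i + HahnSeries.C b * c i = κ) (hb : b ≠ 0) :
    ∃ B : ℂ, B ≠ 0 ∧ ∀ i j, HahnSeries.C B *
        ((1 + HahnSeries.C s * (dtau A0 / A0 * (HahnSeries.C t3 + tau))) * (c i - c j) +
          (1 + HahnSeries.C s * ∑ l, (m l : L0)) *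
            ((HahnSeries.C t3 + tau) * (dtau (c i) - dtau (c j)))) =
        -(HahnSeries.C b * (c i - c j)) := by
  have hsub : ∀ {i j : ι}, i ≠ j → c i - c j ≠ 0 := fun hab =>
    sub_ne_zero.mpr (fun he => hab (hc he))
  have hEqs : LM.Eqs dtau (HahnSeries.C t3 + tau) (dtau A0 / A0) c α m x s (-b)
      (κ * (HahnSeries.C t3 + tau)) := by
    refine ⟨dtau_t t3, C_add_tau_ne t3, hc, hx, fun i => ?_⟩
    have h1 := hE i
    have h3 : ∑ l ∈ Finset.univ.erase i, algebraMap ℂ L0 (s * (m l : ℂ)) * (α i - α l) *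
        (dtau (c i - c l) / (c i - c l)) = algebraMap ℂ L0 s * ∑ j, (m j : L0) *
          ((dtau (c i) - dtau (c j)) * (algebraMap ℂ L0 (x i j) * (HahnSeries.C t3 + tau))) := by
      rw [← Finset.add_sum_erase Finset.univ _ (Finset.mem_univ i), sub_self, zero_mul, mul_zero,
        zero_add, Finset.mul_sum]
      refine Finset.sum_congr rfl fun l hl => ?_
      have hil : i ≠ l := (Finset.ne_of_mem_erase hl).symm
      have h4 := hsub hil
      rw [hx i l hil, map_mul, map_natCast, map_sub, algebraMap_L0 (x i l)]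
      field_simp
    rw [eps, h3] at h1
    rw [← h1, map_neg, algebraMap_L0 b, algebraMap_L0 s]
    ring
  obtain ⟨B, hB, hall, hode⟩ := hEqs.ode (neg_ne_zero.2 hb) h2
  refine ⟨B, hB, fun i j => ?_⟩
  have h1 := hode i j
  rw [map_neg, algebraMap_L0, algebraMap_L0, algebraMap_L0] at h1
  rw [h1]
  ring

end

namespace Shraux

theorem coeff_tau_mul_dtau (y : L0) (q : ℚ) :
    (tau * dtau y : L0).coeff q = (q : ℂ) * y.coeff q := by
  have h1 : (tau * dtau y : L0).coeff ((q - 1) + 1) = 1 * (dtau y).coeff (q - 1) :=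
    HahnSeries.coeff_single_mul_add
  rw [sub_add_cancel] at h1
  rw [h1, coeff_dtau, one_mul, sub_add_cancel]

/-- The solutions of `τ y' = λ y`. -/
theorem single_of_ode {lam : ℂ} {y : L0} (h : tau * dtau y = HahnSeries.C lam * y) (q : ℚ)
    (hq : y.coeff q ≠ 0) : (q : ℂ) = lam := by
  have h1 := congrArg (fun x : L0 => x.coeff q) h
  simp only [coeff_tau_mul_dtau] at h1
  rw [Finaux.coeff_C_mul] at h1
  exact mul_right_cancel₀ hq h1

theorem dtau_single (a κ : ℂ) (q : ℚ) (h : (q : ℂ) = a) :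
    tau * dtau (HahnSeries.single q κ : L0) = HahnSeries.C a * HahnSeries.single q κ := by
  ext r
  rw [coeff_tau_mul_dtau, Finaux.coeff_C_mul]
  by_cases hr : r = q
  · rw [hr, h]
  · rw [HahnSeries.coeff_single_of_ne hr, mul_zero, mul_zero]

/-- The differential equation, if the leading coefficient is a monomial. -/
theorem exists_lam {B s b κ : ℂ} {a : ℕ} {m : Fin n → ℕ} {c : Fin n → L0} (hB : B ≠ 0)
    (hS : 1 + s * ((∑ i, m i : ℕ) : ℂ) ≠ 0) (hκ : κ ≠ 0)
    (h : ∀ i j, HahnSeries.C B *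
        ((1 + HahnSeries.C s * (dtau (HahnSeries.single (a : ℚ) κ : L0) /
            HahnSeries.single (a : ℚ) κ * tau)) * (c i - c j) +
          (1 + HahnSeries.C s * ∑ l, (m l : L0)) * (tau * (dtau (c i) - dtau (c j)))) =
        -(HahnSeries.C b * (c i - c j))) :
    ∃ lam : ℂ, ∀ i j, tau * dtau (c i - c j) = HahnSeries.C lam * (c i - c j) := by
  refine ⟨-(b + B * (1 + s * a)) / (B * (1 + s * ((∑ i, m i : ℕ) : ℂ))), fun i j => ?_⟩
  have h1 : dtau (HahnSeries.single (a : ℚ) κ : L0) / HahnSeries.single (a : ℚ) κ * tau =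
      HahnSeries.C (a : ℂ) := by
    have h2 := dtau_single (a : ℂ) κ (a : ℚ) (by push_cast; rfl)
    have h3 : (HahnSeries.single (a : ℚ) κ : L0) ≠ 0 := HahnSeries.single_ne_zero hκ
    rw [div_mul_eq_mul_div, div_eq_iff h3, mul_comm, h2]
  have h2 : (1 + HahnSeries.C s * ∑ l, (m l : L0) : L0) =
      HahnSeries.C (1 + s * ((∑ l, m l : ℕ) : ℂ)) := by
    rw [map_add, map_one, map_mul, map_natCast]
    push_cast
    rfl
  have h3 := h i j
  rw [h1, h2, ← map_sub] at h3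
  have h4 : (HahnSeries.C (B * (1 + s * ((∑ i, m i : ℕ) : ℂ))) : L0) ≠ 0 := by
    rw [Ne, map_eq_zero_iff _ HahnSeries.C_injective]
    exact mul_ne_zero hB hS
  apply mul_left_cancel₀ h4
  have h5 : (HahnSeries.C (B * (1 + s * ((∑ i, m i : ℕ) : ℂ))) : L0) *
      (HahnSeries.C (-(b + B * (1 + s * a)) / (B * (1 + s * ((∑ i, m i : ℕ) : ℂ)))) *
        (c i - c j)) = HahnSeries.C (-(b + B * (1 + s * a))) * (c i - c j) := by
    rw [← mul_assoc, ← map_mul, mul_div_cancel₀ _ (mul_ne_zero hB hS)]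
  rw [h5]
  simp only [map_mul, map_add, map_neg, map_one] at h3 ⊢
  linear_combination h3

end Shraux

/-- The leading coefficient is a rational function. -/
theorem Fac.lead {c : Fin n → KK f} {m : Fin n → ℕ} {A0 : KK f} (hF : Fac f (tK f) c m A0) :
    ∃ q : RatFunc ℂ, A0 = algebraMap (RatFunc ℂ) (KK f) q := by
  refine ⟨(PL f (RatFunc.X : RatFunc ℂ)).coeff (∑ i, m i), ?_⟩
  have h1 : (PL f (RatFunc.X : RatFunc ℂ)).map (algebraMap (RatFunc ℂ) (KK f)) = PL f (tK f) :=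
    Embaux.map_PL (algebraMap (RatFunc ℂ) (KK f))
      (fun z => (IsScalarTower.algebraMap_apply ℂ (RatFunc ℂ) (KK f) z).symm) f RatFunc.X
  rw [← Polynomial.coeff_map, h1]
  have hmon : (∏ i, (Polynomial.X - Polynomial.C (c i)) ^ m i).Monic :=
    Polynomial.monic_prod_of_monic _ _ fun i _ => (Polynomial.monic_X_sub_C (c i)).pow (m i)
  have hdeg : (∏ i, (Polynomial.X - Polynomial.C (c i)) ^ m i).natDegree = ∑ i, m i := by
    rw [Polynomial.natDegree_prod_of_monic _ _ fun i _ =>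
      (Polynomial.monic_X_sub_C (c i)).pow (m i)]
    refine Finset.sum_congr rfl fun i _ => ?_
    rw [(Polynomial.monic_X_sub_C (c i)).natDegree_pow, Polynomial.natDegree_X_sub_C, mul_one]
  rw [hF.eq, Polynomial.coeff_C_mul, ← hdeg, hmon.coeff_natDegree, mul_one]

/-- The leading coefficient at the place `0`, if its order is zero at the other places. -/
theorem Fac.lead0 {c : Fin n → KK f} {m : Fin n → ℕ} {A0 : KK f} (hF : Fac f (tK f) c m A0)
    (h0 : ∀ (t0 : ℂ) (φ : KK f →+* L0), t0 ≠ 0 → IsPl t0 φ → (φ A0).order = 0) :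
    ∃ (κ : ℂ) (a : ℕ), κ ≠ 0 ∧ ∀ φ : KK f →+* L0, IsPl 0 φ →
      φ A0 = HahnSeries.single (a : ℚ) κ := by
  obtain ⟨q, hq⟩ := hF.lead
  have hq0 : q ≠ 0 := by
    rintro rfl
    rw [map_zero] at hq
    exact hF.ne hq
  obtain ⟨z, k, hz, hk⟩ := mono_of_order (K' := KK f) q hq0 (fun t0 φ ht hφ => by
    rw [← hq]
    exact h0 t0 φ ht hφ) (exists_pl f)
  rw [← hq] at hk
  have hk0 : 0 ≤ k := by
    obtain ⟨φ, hφ⟩ := exists_pl f 0
    have h1 : Fac f (HahnSeries.C 0 + tau) (fun i => φ (c i)) m (φ A0) := by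
      have h2 := hF.map φ hφ.alg
      unfold tK at h2
      rwa [hφ.2] at h2
    have h2 := (Zb.rd_PL f 0 (∑ i, m i)).nonneg
    rw [(Zb.coeff_top h1).1, hk φ hφ, HahnSeries.orderTop_single hz] at h2
    have h3 : (0 : ℚ) ≤ (k : ℚ) := by exact_mod_cast h2
    exact_mod_cast h3
  refine ⟨z, k.toNat, hz, fun φ hφ => ?_⟩
  rw [hk φ hφ]
  have h1 : ((k.toNat : ℕ) : ℚ) = (k : ℚ) := by
    have h2 : ((k.toNat : ℕ) : ℤ) = k := Int.toNat_of_nonneg hk0
    exact_mod_cast h2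
  rw [h1]

theorem Glob.facL {c : Fin n → KK f} {m : Fin n → ℕ} {A0 : KK f} (hF : Fac f (tK f) c m A0)
    {t0 : ℂ} {φ : KK f →+* L0} (hφ : IsPl t0 φ) :
    Fac f (HahnSeries.C t0 + tau) (fun i => φ (c i)) m (φ A0) := by
  have h1 := hF.map φ hφ.alg
  unfold tK at h1
  rwa [hφ.2] at h1

theorem mon_of_le {c : Fin n → KK f} {m : Fin n → ℕ} {A0 : KK f} (hF : Fac f (tK f) c m A0)
    (hs : ∑ i, m i = f.degreeOf 0) (hn : n ≤ 1) : Mon f := by
  obtain ⟨φ, hφ⟩ := exists_pl f 0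
  have h1 := Glob.facL hF hφ
  rw [map_zero, zero_add] at h1
  exact ⟨n, _, m, _, hn, h1, hs⟩

/-- **Two special lines**: if `-3/d` is not a root and no component has the multiplicity `d/3`,
the form is exceptional. -/
theorem shr_of_special (hf : f.IsHomogeneous d) (h0 : f ≠ 0) (hd : f.degreeOf 0 < d)
    (h1 : 3 * f.degreeOf 0 ≠ d) (h2 : 3 * f.degreeOf 0 ≠ 2 * d) (hs1 : SpecL f 0 1)
    (hs2 : SpecL f 1 0) (hcomp : NoThird f d) {B : Polynomial ℂ} (hB : IsBernsteinSato f B)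
    (hb : B.eval (s0 d) ≠ 0) : Shr f ∨ Mon f := by
  obtain ⟨K, θ, n, c, m, A0, α, W, G, hC1, hC2⟩ := exists_glob2 hf h0 hd h1 h2 hB
  rcases Nat.lt_or_ge 1 n with hn | hn
  swap
  · exact Or.inr (mon_of_le G.hF G.sum hn)
  left
  have h01 : (⟨0, by omega⟩ : Fin n) ≠ ⟨1, hn⟩ := by
    intro h6
    have := congrArg Fin.val h6
    simp at this
  have hm : 0 < ∑ i, m i := by
    have h5 : m ⟨0, by omega⟩ ≤ ∑ i, m i := Finset.single_le_sum (fun i _ => Nat.zero_le (m i))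
      (Finset.mem_univ _)
    have := G.hF.pos ⟨0, by omega⟩
    omega
  have he : 0 < f.degreeOf 0 := by rw [← G.sum]; exact hm
  have hdC := d_ne_of hd
  have hNR := nonRes_s0 (L := L0) G.hF.pos G.hd G.h1 G.h2
  have hbS := div_ne_zero hb hNR.2.2
  choose! x hx using fun (i j : Fin n) (hij : i ≠ j) => G.constL hC1 hC2 he hs1 hs2 hij
  have hx' : ∀ {t3 : ℂ} {φ : KK f →+* L0}, IsPl t3 φ → ∀ i j, i ≠ j → φ (α i) - φ (α j) =
      HahnSeries.C (x i j) * (HahnSeries.C t3 + tau) * (φ (c i) - φ (c j)) := by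
    intro t3 φ hφ i j hij
    rw [← map_sub, hx i j hij, map_mul, map_mul, map_sub, hφ.alg, algebraMap_L0]
    have h4 : φ (tK f) = HahnSeries.C t3 + tau := hφ.2
    rw [h4]
  obtain ⟨φ0, hφ0⟩ := exists_pl f 0
  have hF0 := G.fac hφ0
  have hcm : ∀ i, 3 * m i ≠ d := by
    intro i
    obtain ⟨g, hg, hg1, hg2⟩ := exists_comp (Embaux.transcendental_add 0) hf hF0 i
    exact hcomp g (m i) hg hg1 hg2
  -- the other places
  have hA : ∀ (t3 : ℂ) (φ : KK f →+* L0), t3 ≠ 0 → IsPl t3 φ → (φ A0).order = 0 := by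
    intro t3 φ ht3 hφ
    have hF := G.fac hφ
    obtain ⟨κ, hκ⟩ := G.eq0 hφ
    obtain ⟨B', hB0, hBx, -, hord⟩ := fin hF.inj hF.ne ht3
      (by rw [Fintype.card_fin]; exact hn) (hx' hφ) hκ hbS
    refine (claim0 hF h01 hdC ?_ hNR.2.2 hord hcm).1
    intro h4
    have h6 := (G.regular hφ h01).2 (spec_of_natDegree h4)
    have h7 : φ ((α ⟨0, by omega⟩ - α ⟨1, hn⟩) / (c ⟨0, by omega⟩ - c ⟨1, hn⟩)) =
        HahnSeries.C B' * (HahnSeries.C t3 + tau) := by
      rw [map_div₀, map_sub, map_sub, hx' hφ _ _ h01, hBx _ _ h01, mul_div_assoc, div_self,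
        mul_one]
      exact sub_ne_zero.2 fun h8 => h01 (hF.inj h8)
    have h8 : (HahnSeries.C B' : L0).orderTop = 0 := by
      change (HahnSeries.single 0 B' : L0).orderTop = 0
      rw [HahnSeries.orderTop_single hB0]
      rfl
    rw [h7, HahnSeries.orderTop_mul, h8, orderTop_C_add_tau ht3, add_zero] at h6
    have h9 : (1 : ℚ) ≤ 0 := by exact_mod_cast h6
    linarith
  obtain ⟨κ, a, hκ, ha⟩ := G.hF.lead0 hA
  have ha0 := ha φ0 hφ0
  -- the differences
  obtain ⟨κ', hκ'⟩ := G.eq0 hφ0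
  obtain ⟨B', hB0, hode⟩ := fin0 hF0.inj (by rw [Fintype.card_fin]; exact hn) (hx' hφ0) hκ' hbS
  obtain ⟨lam, hlam⟩ : ∃ lam : ℂ, ∀ i j, tau * dtau (φ0 (c i) - φ0 (c j)) =
      HahnSeries.C lam * (φ0 (c i) - φ0 (c j)) :=
    Shraux.exists_lam hB0 hNR.2.2 hκ (fun i j => by
      have h5 := hode i j
      rw [ha0, map_zero, zero_add] at h5
      exact h5)
  obtain ⟨l, hl⟩ : ∃ l : ℚ, (l : ℂ) = lam := by
    have h5 : φ0 (c ⟨0, by omega⟩) - φ0 (c ⟨1, hn⟩) ≠ 0 :=
      sub_ne_zero.2 fun h8 => h01 (hF0.inj h8)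
    obtain ⟨q, hq⟩ : ∃ q, (φ0 (c ⟨0, by omega⟩) - φ0 (c ⟨1, hn⟩)).coeff q ≠ 0 := by
      by_contra h6
      push Not at h6
      exact h5 (HahnSeries.ext (funext h6))
    exact ⟨q, Shraux.single_of_ode (hlam _ _) q hq⟩
  rw [map_zero, zero_add] at hF0
  refine ⟨n, fun i => φ0 (c i), m, κ, a, l, fun i j => (φ0 (c i) - φ0 (c j)).coeff l,
    by rw [← ha0]; exact hF0, G.sum, fun i j => ?_⟩
  ext q
  by_cases hq : q = l
  · rw [hq, HahnSeries.coeff_single_same]
  · rw [HahnSeries.coeff_single_of_ne hq]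
    by_contra h6
    apply hq
    have h7 := Shraux.single_of_ode (hlam i j) q h6
    rw [← hl] at h7
    exact_mod_cast h7

end MPb07157.TL
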