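import Pool.Agent.Lib.MP_b07157_agL3.Defs

/-!
# Uniqueness of the Hermite reduction
-/

noncomputable section

namespace MPb07157.TL

open MvPolynomial

variable {L F : Type} [Field L] [Field F] [Algebra L F] {ι : Type} [Fintype ι] [DecidableEq ι]

/-! ### Basic facts -/

namespace UU

theorem ne_c (W : WF L F) (z : L) : W.w - algebraMap L F z ≠ 0 := by
  have h1 : W.w - algebraMap L F z = Polynomial.aeval W.w (Polynomial.X - Polynomial.C z) := by
    rw [map_sub, Polynomial.aeval_X, Polynomial.aeval_C]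
  rw [h1]
  intro h2
  exact Polynomial.X_sub_C_ne_zero z (W.inj (h2.trans (map_zero _).symm))

theorem dw_alg (W : WF L F) (z : L) : W.dw (algebraMap L F z) = 0 :=
  Derivation.map_algebraMap _ z

theorem dw_aeval (W : WF L F) (P : Polynomial L) :
    W.dw (Polynomial.aeval W.w P) = Polynomial.aeval W.w (Polynomial.derivative P) := by
  rw [Derivation.map_aeval, W.dw_w, smul_eq_mul, mul_one]

theorem w_mem_SS (W : WF L F) (c : ι → L) : W.w ∈ SS W c :=
  Algebra.subset_adjoin (Set.mem_insert _ _)

theorem inv_mem_SS (W : WF L F) (c : ι → L) (i : ι) :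
    (W.w - algebraMap L F (c i))⁻¹ ∈ SS W c :=
  Algebra.subset_adjoin (Set.mem_insert_of_mem _ ⟨i, rfl⟩)

theorem alg_mem_SS (W : WF L F) (c : ι → L) (z : L) : algebraMap L F z ∈ SS W c :=
  (SS W c).algebraMap_mem z

theorem lg_mem_SS (W : WF L F) (c a : ι → L) : lg W c a ∈ SS W c :=
  Subalgebra.sum_mem _ fun i _ => Subalgebra.mul_mem _ (alg_mem_SS W c _) (inv_mem_SS W c i)

theorem lg_add (W : WF L F) (c a b : ι → L) :
    lg W c (fun i => a i + b i) = lg W c a + lg W c b := by
  unfold lg
  rw [← Finset.sum_add_distrib]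
  refine Finset.sum_congr rfl fun i _ => ?_
  rw [map_add, add_mul]

theorem lg_mul (W : WF L F) (c a : ι → L) (z : L) :
    lg W c (fun i => z * a i) = algebraMap L F z * lg W c a := by
  unfold lg
  rw [Finset.mul_sum]
  refine Finset.sum_congr rfl fun i _ => ?_
  rw [map_mul, mul_assoc]

theorem nb_add (W : WF L F) (ω x y : F) :
    nb W.dw ω (x + y) = nb W.dw ω x + nb W.dw ω y := by
  unfold nb
  rw [map_add]
  ring

theorem nb_mul (W : WF L F) (ω x : F) (z : L) :
    nb W.dw ω (algebraMap L F z * x) = algebraMap L F z * nb W.dw ω x := by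
  unfold nb
  rw [Derivation.leibniz, dw_alg W, smul_zero, add_zero, smul_eq_mul]
  ring

/-- `∏ (w - c_i)`. -/
def GG (c : ι → L) : Polynomial L := ∏ i, (Polynomial.X - Polynomial.C (c i))

/-- `∏_(j ≠ i) (w - c_j)`. -/
def Gi (c : ι → L) (i : ι) : Polynomial L :=
  ∏ j ∈ Finset.univ.erase i, (Polynomial.X - Polynomial.C (c j))

/-- `∑ a_i ∏_(j ≠ i) (w - c_j)`. -/
def AA (c a : ι → L) : Polynomial L := ∑ i, Polynomial.C (a i) * Gi c i

theorem GG_eq (c : ι → L) (i : ι) :
    GG c = (Polynomial.X - Polynomial.C (c i)) * Gi c i :=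
  (Finset.mul_prod_erase Finset.univ _ (Finset.mem_univ i)).symm

theorem lg_GG (W : WF L F) (c a : ι → L) :
    lg W c a * Polynomial.aeval W.w (GG c) = Polynomial.aeval W.w (AA c a) := by
  unfold lg AA
  rw [Finset.sum_mul, map_sum]
  refine Finset.sum_congr rfl fun i _ => ?_
  have h1 := ne_c W (c i)
  rw [GG_eq c i, map_mul, map_mul, map_sub, Polynomial.aeval_X, Polynomial.aeval_C,
    Polynomial.aeval_C]
  field_simp

theorem Gi_eval_self {c : ι → L} (hc : Function.Injective c) (i : ι) :
    (Gi c i).eval (c i) ≠ 0 := by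
  unfold Gi
  rw [Polynomial.eval_prod, Finset.prod_ne_zero_iff]
  intro j hj
  rw [Polynomial.eval_sub, Polynomial.eval_X, Polynomial.eval_C, sub_ne_zero]
  exact fun h => (Finset.ne_of_mem_erase hj) (hc h).symm

theorem Gi_eval_ne {c : ι → L} {i j : ι} (hij : i ≠ j) : (Gi c j).eval (c i) = 0 := by
  unfold Gi
  rw [Polynomial.eval_prod]
  refine Finset.prod_eq_zero (Finset.mem_erase.2 ⟨hij, Finset.mem_univ i⟩) ?_
  rw [Polynomial.eval_sub, Polynomial.eval_X, Polynomial.eval_C, sub_self]

theorem AA_eval (c a : ι → L) (i : ι) : (AA c a).eval (c i) = a i * (Gi c i).eval (c i) := by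
  unfold AA
  rw [Polynomial.eval_finsetSum, Finset.sum_eq_single i]
  · rw [Polynomial.eval_mul, Polynomial.eval_C]
  · intro j _ hj
    rw [Polynomial.eval_mul, Gi_eval_ne hj.symm, mul_zero]
  · intro h
    exact absurd (Finset.mem_univ i) h

/-- The elements of `SS` are fractions. -/
theorem exists_frac (W : WF L F) (c : ι → L) {R : F} (hR : R ∈ SS W c) :
    ∃ (N : ℕ) (P : Polynomial L),
      R * Polynomial.aeval W.w (GG c) ^ N = Polynomial.aeval W.w P := by
  unfold SS at hR
  induction hR using Algebra.adjoin_induction with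
  | mem x hx =>
    rcases hx with rfl | ⟨i, rfl⟩
    · exact ⟨0, Polynomial.X, by rw [pow_zero, mul_one, Polynomial.aeval_X]⟩
    · refine ⟨1, Gi c i, ?_⟩
      have h1 := ne_c W (c i)
      rw [pow_one, GG_eq c i, map_mul, map_sub, Polynomial.aeval_X, Polynomial.aeval_C]
      field_simp
  | algebraMap r => exact ⟨0, Polynomial.C r, by rw [pow_zero, mul_one, Polynomial.aeval_C]⟩
  | add x y _ _ hx hy =>
    obtain ⟨N, P, h1⟩ := hx
    obtain ⟨M, Q, h2⟩ := hy
    refine ⟨N + M, P * GG c ^ M + Q * GG c ^ N, ?_⟩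
    rw [map_add, map_mul, map_mul, map_pow, map_pow, ← h1, ← h2, pow_add]
    ring
  | mul x y _ _ hx hy =>
    obtain ⟨N, P, h1⟩ := hx
    obtain ⟨M, Q, h2⟩ := hy
    refine ⟨N + M, P * Q, ?_⟩
    rw [map_mul, ← h1, ← h2, pow_add]
    ring

/-- A solution is a polynomial. -/
theorem uniq_poly (W : WF L F) {c : ι → L} (hc : Function.Injective c) {σ : ι → L}
    (hσ : ∀ i, ∀ k : ℕ, 0 < k → σ i ≠ k) {a : ι → L} {R : F} (hR : R ∈ SS W c)
    (h : lg W c a = nb W.dw (lg W c σ) R) :
    ∃ P : Polynomial L, R = Polynomial.aeval W.w P := by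
  classical
  have hex : ∃ n : ℕ, ∃ k : ι → ℕ, ∑ i, k i = n ∧ ∃ P : Polynomial L,
      R * Polynomial.aeval W.w (∏ i, (Polynomial.X - Polynomial.C (c i)) ^ k i) =
        Polynomial.aeval W.w P := by
    obtain ⟨N, P, h1⟩ := exists_frac W c hR
    refine ⟨_, fun _ => N, rfl, P, ?_⟩
    rw [Finset.prod_pow, map_pow]
    exact h1
  obtain ⟨k, hk, P, hP⟩ := Nat.find_spec hex
  by_cases h0 : ∀ i, k i = 0
  · refine ⟨P, ?_⟩
    rw [← hP]
    have h1 : ∏ i, (Polynomial.X - Polynomial.C (c i)) ^ k i = 1 :=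
      Finset.prod_eq_one fun i _ => by rw [h0 i, pow_zero]
    rw [h1, map_one, mul_one]
  exfalso
  push Not at h0
  obtain ⟨i, hi⟩ := h0
  obtain ⟨m, hm⟩ : ∃ m, k i = m + 1 := ⟨k i - 1, by omega⟩
  -- the other factors
  set Q : Polynomial L := ∏ j ∈ Finset.univ.erase i, (Polynomial.X - Polynomial.C (c j)) ^ k j
    with hQ
  have hprod : ∏ j, (Polynomial.X - Polynomial.C (c j)) ^ k j =
      (Polynomial.X - Polynomial.C (c i)) ^ (m + 1) * Q := by
    rw [← hm]
    exact (Finset.mul_prod_erase Finset.univ _ (Finset.mem_univ i)).symm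
  have hQi : Q.eval (c i) ≠ 0 := by
    rw [hQ, Polynomial.eval_prod, Finset.prod_ne_zero_iff]
    intro j hj
    rw [Polynomial.eval_pow, Polynomial.eval_sub, Polynomial.eval_X, Polynomial.eval_C]
    exact pow_ne_zero _ (sub_ne_zero.2 fun h => (Finset.ne_of_mem_erase hj) (hc h).symm)
  have hu := ne_c W (c i)
  obtain ⟨u, hu'⟩ : ∃ u, u = W.w - algebraMap L F (c i) := ⟨_, rfl⟩
  have hXu : Polynomial.aeval W.w (Polynomial.X - Polynomial.C (c i)) = u := by
    rw [map_sub, Polynomial.aeval_X, Polynomial.aeval_C, hu']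
  rw [← hu'] at hu
  rw [hprod, map_mul, map_pow, hXu] at hP
  obtain ⟨q, hq⟩ : ∃ q, q = Polynomial.aeval W.w Q := ⟨_, rfl⟩
  rw [← hq] at hP
  -- `P` does not vanish at `c_i`
  have hPi : P.eval (c i) ≠ 0 := by
    intro h1
    obtain ⟨P1, hP1⟩ := Polynomial.dvd_iff_isRoot.2 h1
    have h2 : R * (u ^ m * q) = Polynomial.aeval W.w P1 := by
      rw [hP1, map_mul, hXu] at hP
      apply mul_left_cancel₀ hu
      rw [← hP]
      ring
    refine Nat.find_min hex (m := ∑ j, Function.update k i m j) ?_
      ⟨Function.update k i m, rfl, P1, ?_⟩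
    · rw [← hk, ← Finset.add_sum_erase _ _ (Finset.mem_univ i),
        ← Finset.add_sum_erase _ _ (Finset.mem_univ i), Function.update_self, hm]
      have h3 : ∑ j ∈ Finset.univ.erase i, Function.update k i m j =
          ∑ j ∈ Finset.univ.erase i, k j :=
        Finset.sum_congr rfl fun j hj => by
          rw [Function.update_of_ne (Finset.ne_of_mem_erase hj)]
      rw [h3]
      omega
    · have h3 : ∏ j, (Polynomial.X - Polynomial.C (c j)) ^ Function.update k i m j =
          (Polynomial.X - Polynomial.C (c i)) ^ m * Q := by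
        rw [← Finset.mul_prod_erase _ _ (Finset.mem_univ i), Function.update_self]
        congr 1
        refine Finset.prod_congr rfl fun j hj => ?_
        rw [Function.update_of_ne (Finset.ne_of_mem_erase hj)]
      rw [h3, map_mul, map_pow, hXu, ← hq]
      exact h2
  -- the differential equation
  have hdu : W.dw u = 1 := by rw [hu', map_sub, W.dw_w, dw_alg W, sub_zero]
  have hdP : W.dw R * (u ^ (m + 1) * q) + R * ((m + 1 : ℕ) * u ^ m * q +
      u ^ (m + 1) * Polynomial.aeval W.w (Polynomial.derivative Q)) =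
      Polynomial.aeval W.w (Polynomial.derivative P) := by
    rw [← dw_aeval W P, ← hP, Derivation.leibniz, Derivation.leibniz, Derivation.leibniz_pow, hdu,
      Nat.add_sub_cancel, hq, dw_aeval W Q, smul_eq_mul, smul_eq_mul, smul_eq_mul, smul_eq_mul,
      nsmul_eq_mul, smul_eq_mul, mul_one]
    ring
  have hGG : Polynomial.aeval W.w (GG c) = u * Polynomial.aeval W.w (Gi c i) := by
    rw [GG_eq c i, map_mul, hXu]
  have ha := lg_GG W c a
  have hs := lg_GG W c σ
  rw [hGG] at ha hs
  have key : AA c a * (Polynomial.X - Polynomial.C (c i)) ^ (m + 1) * Q ^ 2 =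
      (Polynomial.X - Polynomial.C (c i)) * Gi c i * (Q * Polynomial.derivative P -
        P * Polynomial.derivative Q) - ((m + 1 : ℕ) : Polynomial L) * Gi c i * P * Q +
      AA c σ * P * Q := by
    apply W.inj
    simp only [map_mul, map_add, map_sub, map_pow, map_natCast]
    rw [← ha, ← hs, ← hdP, ← hP, ← hq, ← map_sub, hXu, h]
    unfold nb
    ring
  have key2 := congrArg (Polynomial.eval (c i)) key
  simp only [Polynomial.eval_mul, Polynomial.eval_add, Polynomial.eval_sub, Polynomial.eval_pow,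
    Polynomial.eval_X, Polynomial.eval_C, Polynomial.eval_natCast, sub_self, AA_eval] at key2
  rw [zero_pow (Nat.succ_ne_zero m)] at key2
  have key3 : (σ i - ((m + 1 : ℕ) : L)) *
      ((Gi c i).eval (c i) * P.eval (c i) * Q.eval (c i)) = 0 := by
    linear_combination -key2
  rcases mul_eq_zero.1 key3 with h1 | h1
  · exact hσ i (m + 1) (Nat.succ_pos m) (sub_eq_zero.1 h1)
  · exact mul_ne_zero (mul_ne_zero (Gi_eval_self hc i) hPi) hQi h1

end UU

open UU in
/-- If `∑ a_i / (w - c_i) = R' + (∑ σ_i / (w - c_i)) R`, then `R` is constant. -/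
theorem uniq [CharZero L] (W : WF L F) {c : ι → L} (hc : Function.Injective c) {σ : ι → L}
    (hσ : NonRes σ) {a : ι → L} {R : F} (hR : R ∈ SS W c)
    (h : lg W c a = nb W.dw (lg W c σ) R) :
    ∃ κ : L, R = algebraMap L F κ ∧ ∀ i, a i = σ i * κ := by
  obtain ⟨P, hP⟩ := uniq_poly W hc hσ.1 hR h
  have hG0 : Polynomial.aeval W.w (GG c) ≠ 0 := by
    intro h1
    have h2 := W.inj (h1.trans (map_zero _).symm)
    refine (Finset.prod_ne_zero_iff.2 fun i _ => Polynomial.X_sub_C_ne_zero (c i)) h2
  have key : AA c a = Polynomial.derivative P * GG c + AA c σ * P := by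
    apply W.inj
    rw [map_add, map_mul, map_mul, ← lg_GG W c a, ← lg_GG W c σ, ← hP, ← dw_aeval W, ← hP, h]
    unfold nb
    ring
  -- the degree of `P`
  have hdeg : P.natDegree = 0 := by
    by_contra hne
    obtain ⟨k, hk⟩ : ∃ k, P.natDegree = k + 1 := ⟨P.natDegree - 1, by omega⟩
    have hP0 : P.leadingCoeff ≠ 0 := by
      rw [Ne, Polynomial.leadingCoeff_eq_zero]
      intro h1
      rw [h1, Polynomial.natDegree_zero] at hk
      omega
    have hGm : (GG c).Monic := Polynomial.monic_prod_of_monic _ _ fun i _ =>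
      Polynomial.monic_X_sub_C (c i)
    have hGd : (GG c).natDegree = Fintype.card ι := by
      unfold GG
      rw [Polynomial.natDegree_prod_of_monic _ _ fun i _ => Polynomial.monic_X_sub_C (c i)]
      simp
    have hGim : ∀ i, (Gi c i).Monic := fun i => Polynomial.monic_prod_of_monic _ _ fun j _ =>
      Polynomial.monic_X_sub_C (c j)
    have hGid : ∀ i, (Gi c i).natDegree = Fintype.card ι - 1 := by
      intro i
      unfold Gi
      rw [Polynomial.natDegree_prod_of_monic _ _ fun j _ => Polynomial.monic_X_sub_C (c j)]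
      simp
    have hAc : ∀ b : ι → L, (AA c b).coeff (Fintype.card ι - 1) = ∑ i, b i := by
      intro b
      unfold AA
      rw [Polynomial.finsetSum_coeff]
      refine Finset.sum_congr rfl fun i _ => ?_
      rw [Polynomial.coeff_C_mul, ← hGid i, (hGim i).coeff_natDegree, mul_one]
    have hAd : ∀ b : ι → L, (AA c b).natDegree ≤ Fintype.card ι - 1 := by
      intro b
      unfold AA
      refine Polynomial.natDegree_sum_le_of_forall_le _ _ fun i _ => ?_
      rw [← hGid i]
      exact Polynomial.natDegree_C_mul_le _ _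
    rcases Nat.eq_zero_or_pos (Fintype.card ι) with hn | hn
    · -- no points
      have hι : IsEmpty ι := Fintype.card_eq_zero_iff.1 hn
      have h1 : GG c = 1 := by
        unfold GG
        rw [Finset.univ_eq_empty, Finset.prod_empty]
      have h2 : ∀ b : ι → L, AA c b = 0 := by
        intro b
        unfold AA
        rw [Finset.univ_eq_empty, Finset.sum_empty]
      rw [h1, h2, h2, zero_mul, add_zero, mul_one] at key
      have h3 := Polynomial.derivative_eq_zero.1 key.symm
      omega
    have h1 := congrArg (fun Q => Polynomial.coeff Q (Fintype.card ι - 1 + (k + 1))) key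
    beta_reduce at h1
    rw [Polynomial.coeff_eq_zero_of_natDegree_lt (by have := hAd a; omega),
      Polynomial.coeff_add, ← hk, Polynomial.coeff_mul_add_eq_of_natDegree_le (hAd σ) le_rfl, hAc,
      Polynomial.coeff_natDegree] at h1
    have h2 : (Polynomial.derivative P * GG c).coeff (Fintype.card ι - 1 + P.natDegree) =
        P.leadingCoeff * ((k + 1 : ℕ) : L) := by
      have e1 : Fintype.card ι - 1 + P.natDegree = k + Fintype.card ι := by omega
      rw [e1, Polynomial.coeff_mul_add_eq_of_natDegree_le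
        (by have := Polynomial.natDegree_derivative_le P; omega) hGd.le, ← hGd,
        hGm.coeff_natDegree, mul_one, Polynomial.coeff_derivative, ← hk,
        Polynomial.coeff_natDegree, hk]
      push_cast
      ring
    rw [h2] at h1
    have h3 : P.leadingCoeff * ((∑ i, σ i) + ((k + 1 : ℕ) : L)) = 0 := by
      linear_combination -h1
    exact hσ.2 (k + 1) (Nat.succ_pos k) ((mul_eq_zero.1 h3).resolve_left hP0)
  obtain ⟨κ, hκ⟩ : ∃ κ, P = Polynomial.C κ := ⟨P.coeff 0, Polynomial.eq_C_of_natDegree_eq_zero hdeg⟩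
  refine ⟨κ, by rw [hP, hκ, Polynomial.aeval_C], fun i => ?_⟩
  rw [hκ, Polynomial.derivative_C, zero_mul, zero_add] at key
  have h1 := congrArg (Polynomial.eval (c i)) key
  rw [Polynomial.eval_mul, Polynomial.eval_C, AA_eval, AA_eval] at h1
  apply mul_right_cancel₀ (Gi_eval_self hc i)
  linear_combination h1

end MPb07157.TL
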